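import Pool.Agent.ECD.PcDefs

/-!
# Package ECD-PcGrpB: power data of a subgroup with a short series

*`pd_congr`.* `PD g m i` and `PM g m i` depend only on the `g j`, `m j` with `j < i` (induction).

*`pcl_data`.* If `PCL i H` in a finite group then there are `g, m` with `PD g m i`,
`x ∈ H ↔ PM g m i x`, and `g j ∈ H`, `0 < m j ≤ Nat.card G` for all `j < i`.

*Proof.* Induction on `i`. `i = 0`: any `g`, `m`. Step: `H = K ⊔ zpowers a`, `a` normalises `K`,
`g, m` for `K`. Let `m'` be the least `k > 0` with `a ^ k ∈ K` (exists: `orderOf a`,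
`a ^ orderOf a = 1`; `m' ≤ orderOf a ≤ Nat.card G`, `orderOf_le_card`). Take
`Function.update g i a`, `Function.update m i m'` (`pd_congr`). As in `pd_subgroup` (`PcGrpA.lean`):
the elements of `K ⊔ zpowers a` are the products `y a ^ k`, `y ∈ K`, `0 ≤ k < m'`. ∎

Difficulty: 0.8 h.
-/

set_option autoImplicit false

namespace Pool.Agent.ECD

open Finset

theorem pd_congr {G : Type*} [Group G] {g g' : ℕ → G} {m m' : ℕ → ℕ} {i : ℕ}
    (hg : ∀ j < i, g j = g' j) (hm : ∀ j < i, m j = m' j) :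
    (PD g m i ↔ PD g' m' i) ∧ ∀ x, PM g m i x ↔ PM g' m' i x := by
  induction i with
  | zero => exact ⟨Iff.rfl, fun x => Iff.rfl⟩
  | succ i ih =>
    obtain ⟨h1, h2⟩ := ih (fun j hj => hg j (Nat.lt_succ_of_lt hj))
      (fun j hj => hm j (Nat.lt_succ_of_lt hj))
    have e1 := hg i (Nat.lt_succ_self i)
    have e2 := hm i (Nat.lt_succ_self i)
    constructor
    · show (PD g m i ∧ 0 < m i ∧ PM g m i (g i ^ m i) ∧
        (∀ k, 0 < k → k < m i → ¬ PM g m i (g i ^ k)) ∧
        ∀ x, PM g m i x ↔ PM g m i (g i * x * (g i)⁻¹)) ↔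
        (PD g' m' i ∧ 0 < m' i ∧ PM g' m' i (g' i ^ m' i) ∧
        (∀ k, 0 < k → k < m' i → ¬ PM g' m' i (g' i ^ k)) ∧
        ∀ x, PM g' m' i x ↔ PM g' m' i (g' i * x * (g' i)⁻¹))
      simp only [h1, h2, e1, e2]
    · intro x
      show (∃ k, k < m i ∧ PM g m i (x * (g i ^ k)⁻¹)) ↔
        ∃ k, k < m' i ∧ PM g' m' i (x * (g' i ^ k)⁻¹)
      simp only [h2, e1, e2]

private theorem pcgrpb_sup {G : Type*} [Group G] {K : Subgroup G} {a : G}
    (hn : ∀ x, x ∈ K ↔ a * x * a⁻¹ ∈ K) {x : G} (hx : x ∈ K ⊔ Subgroup.zpowers a) :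
    ∃ k : ℤ, x * (a ^ k)⁻¹ ∈ K := by
  have ha : a ∈ Subgroup.normalizer (K : Set G) := Subgroup.mem_normalizer_iff.2 hn
  have hz : ∀ (k : ℤ) (y : G), y ∈ K → a ^ k * y * (a ^ k)⁻¹ ∈ K := fun k y hy =>
    (Subgroup.mem_normalizer_iff.1 (zpow_mem ha k) y).1 hy
  let L : Subgroup G :=
    { carrier := {x | ∃ k : ℤ, x * (a ^ k)⁻¹ ∈ K}
      one_mem' := ⟨0, by simp⟩
      mul_mem' := by
        rintro x y ⟨k, hk⟩ ⟨l, hl⟩
        refine ⟨k + l, ?_⟩
        have h1 := mul_mem hk (hz k _ hl)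
        have e : x * (a ^ k)⁻¹ * (a ^ k * (y * (a ^ l)⁻¹) * (a ^ k)⁻¹) =
            x * y * (a ^ (k + l))⁻¹ := by
          rw [zpow_add]
          group
        rwa [e] at h1
      inv_mem' := by
        rintro x ⟨k, hk⟩
        refine ⟨-k, ?_⟩
        have h1 := hz (-k) _ (inv_mem hk)
        have e : a ^ (-k) * (x * (a ^ k)⁻¹)⁻¹ * (a ^ (-k))⁻¹ = x⁻¹ * (a ^ (-k))⁻¹ := by
          group
        rwa [e] at h1 }
  have h1 : K ⊔ Subgroup.zpowers a ≤ L := by
    refine sup_le (fun y hy => ⟨0, by simpa using hy⟩) ?_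
    rw [Subgroup.zpowers_le]
    exact ⟨1, by simp⟩
  exact h1 hx

private theorem pcgrpb_mem {G : Type*} [Group G] {K : Subgroup G} {a : G}
    (hn : ∀ x, x ∈ K ↔ a * x * a⁻¹ ∈ K) {m : ℕ} (hm : 0 < m) (ham : a ^ m ∈ K) (x : G) :
    x ∈ K ⊔ Subgroup.zpowers a ↔ ∃ k, k < m ∧ x * (a ^ k)⁻¹ ∈ K := by
  constructor
  · intro hx
    obtain ⟨k, hk⟩ := pcgrpb_sup hn hx
    have hm' : (0 : ℤ) < m := by exact_mod_cast hm
    have h1 := Int.emod_nonneg k hm'.ne'
    have h2 := Int.emod_lt_of_pos k hm'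
    obtain ⟨r, hr⟩ := Int.eq_ofNat_of_zero_le h1
    refine ⟨r, ?_, ?_⟩
    · rw [hr] at h2
      exact_mod_cast h2
    · have h3 : (a ^ m) ^ (k / (m : ℤ)) ∈ K := zpow_mem ham _
      have h4 := mul_mem hk h3
      have e : x * (a ^ k)⁻¹ * (a ^ m) ^ (k / (m : ℤ)) = x * (a ^ r)⁻¹ := by
        have h5 : k = (m : ℤ) * (k / m) + r := by
          rw [← hr]
          exact (Int.mul_ediv_add_emod k m).symm
        have h6 : a ^ k = (a ^ m) ^ (k / (m : ℤ)) * a ^ r := by
          conv_lhs => rw [h5]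
          rw [zpow_add, zpow_mul, zpow_natCast, zpow_natCast]
        have h7 : Commute ((a ^ m) ^ (k / (m : ℤ))) (a ^ r) :=
          ((Commute.refl a).pow_pow m r).zpow_left _
        rw [h6, h7.eq, mul_inv_rev]
        group
      rwa [e] at h4
  · rintro ⟨k, _, hk⟩
    have h1 : x * (a ^ k)⁻¹ ∈ K ⊔ Subgroup.zpowers a := (le_sup_left : K ≤ _) hk
    have h2 : a ^ k ∈ K ⊔ Subgroup.zpowers a :=
      (le_sup_right : Subgroup.zpowers a ≤ _) (pow_mem (Subgroup.mem_zpowers a) k)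
    have h3 := mul_mem h1 h2
    rwa [inv_mul_cancel_right] at h3

theorem pcl_data {G : Type*} [Group G] [Finite G] (i : ℕ) (H : Subgroup G) (h : PCL i H) :
    ∃ (g : ℕ → G) (m : ℕ → ℕ), PD g m i ∧ (∀ x, x ∈ H ↔ PM g m i x) ∧
      ∀ j < i, g j ∈ H ∧ 0 < m j ∧ m j ≤ Nat.card G := by
  classical
  induction i generalizing H with
  | zero =>
    have h0 : H = ⊥ := h
    refine ⟨fun _ => 1, fun _ => 1, trivial, fun x => ?_, fun j hj => absurd hj (Nat.not_lt_zero j)⟩
    rw [h0, Subgroup.mem_bot]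
    exact Iff.rfl
  | succ i ih =>
    obtain ⟨K, a, hK, hn, rfl⟩ := h
    obtain ⟨g, m, hPD, hmem, hbd⟩ := ih K hK
    have hex : ∃ k, 0 < k ∧ a ^ k ∈ K := ⟨orderOf a, orderOf_pos a, by
      rw [pow_orderOf_eq_one]
      exact one_mem K⟩
    have hs := Nat.find_spec hex
    have hmin : ∀ k, 0 < k → k < Nat.find hex → a ^ k ∉ K := fun k hk hk' h =>
      Nat.find_min hex hk' ⟨hk, h⟩
    have hle : Nat.find hex ≤ Nat.card G := by
      refine (Nat.find_min' hex ⟨orderOf_pos a, ?_⟩).trans orderOf_le_card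
      rw [pow_orderOf_eq_one]
      exact one_mem K
    obtain ⟨M, hM⟩ : ∃ M, M = Nat.find hex := ⟨_, rfl⟩
    rw [← hM] at hs hmin hle
    have hg' : ∀ j < i, g j = Function.update g i a j := fun j hj => by
      rw [Function.update_of_ne (by omega)]
    have hm' : ∀ j < i, m j = Function.update m i M j := fun j hj => by
      rw [Function.update_of_ne (by omega)]
    obtain ⟨c1, c2⟩ := pd_congr hg' hm'
    have e1 : Function.update g i a i = a := Function.update_self i a g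
    have e2 : Function.update m i M i = M := Function.update_self i M m
    have c3 : ∀ x, x ∈ K ↔ PM (Function.update g i a) (Function.update m i M) i x := fun x =>
      (hmem x).trans (c2 x)
    refine ⟨Function.update g i a, Function.update m i M, ?_, fun x => ?_, fun j hj => ?_⟩
    · refine ⟨c1.1 hPD, ?_, ?_, ?_, ?_⟩
      · rw [e2]
        exact hs.1
      · rw [e1, e2, ← c3]
        exact hs.2
      · rw [e1, e2]
        intro k hk hk'
        rw [← c3]
        exact hmin k hk hk'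
      · intro x
        rw [← c3, ← c3, e1]
        exact hn x
    · rw [pcgrpb_mem hn hs.1 hs.2]
      show _ ↔ ∃ k, k < Function.update m i M i ∧
        PM (Function.update g i a) (Function.update m i M) i
          (x * (Function.update g i a i ^ k)⁻¹)
      rw [e1, e2]
      simp only [c3]
    · rcases Nat.lt_succ_iff_lt_or_eq.1 hj with hj | rfl
      · rw [← hg' j hj, ← hm' j hj]
        exact ⟨(le_sup_left : K ≤ _) (hbd j hj).1, (hbd j hj).2⟩
      · rw [e1, e2]
        exact ⟨(le_sup_right : Subgroup.zpowers a ≤ _) (Subgroup.mem_zpowers a), hs.1, hle⟩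

end Pool.Agent.ECD
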