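import Pool.Agent.ECD.PcGrpA
import Pool.Agent.ECD.PcGrpB

/-!
# The order of a group from its subgroups with short series
-/

set_option autoImplicit false

namespace Pool.Agent.ECD

open Finset

/-- `y` is a common multiple of the orders of the subgroups of `H` given by power data of
length `R`. -/
def CM {G : Type*} [Group G] (H : Subgroup G) (R y : ℕ) : Prop :=
  ∀ (g : ℕ → G) (m : ℕ → ℕ), (∀ j < R, g j ∈ H) → PD g m R → ∏ j ∈ range R, m j ∣ y

/-- For every prime `l` there is a Sylow `l`-subgroup of `H` with a subnormal series of length `R` with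
cyclic factors. -/
def SylPC {G : Type*} [Group G] (H : Subgroup G) (R : ℕ) : Prop :=
  ∀ l : ℕ, l.Prime → ∃ P : Subgroup G, P ≤ H ∧ PCL R P ∧
    l ^ (Nat.card H).factorization l ∣ Nat.card P

theorem cm_card {G : Type*} [Group G] (H : Subgroup G) (R : ℕ) : CM H R (Nat.card H) := by
  intro g m hg h
  obtain ⟨P, -, h2, -, h3⟩ := pd_subgroup g m R h
  rw [← h2]
  exact Subgroup.card_dvd_of_le (h3 H hg)

theorem card_dvd_of_cm {G : Type*} [Group G] [Finite G] {H : Subgroup G} {R : ℕ}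
    (hR : SylPC H R) {y : ℕ} (hy : CM H R y) : Nat.card H ∣ y := by
  have hG : Nat.card H ≠ 0 := Nat.card_pos.ne'
  rcases Nat.eq_zero_or_pos y with rfl | hy0
  · exact dvd_zero _
  refine (Nat.factorization_prime_le_iff_dvd hG hy0.ne').1 fun l hl => ?_
  obtain ⟨P, hPH, hP, hl2⟩ := hR l hl
  obtain ⟨g, m, h1, h2, h7⟩ := pcl_data R P hP
  obtain ⟨P', h3, h4, -⟩ := pd_subgroup g m R h1
  have h5 : P' = P := by
    ext x
    rw [h3, h2]
  have h6 : Nat.card P ∣ y := by
    rw [← h5, h4]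
    exact hy g m (fun j hj => hPH (h7 j hj).1) h1
  exact (hl.pow_dvd_iff_le_factorization hy0.ne').1 (hl2.trans h6)

/-- the order is the least positive common multiple -/
theorem card_iff {G : Type*} [Group G] [Finite G] {H : Subgroup G} {R : ℕ}
    (hR : SylPC H R) (y : ℕ) :
    y = Nat.card H ↔ (0 < y ∧ CM H R y) ∧ ∀ y', y' ≤ y → (y' < y → 0 < y' → ¬ CM H R y') := by
  constructor
  · rintro rfl
    refine ⟨⟨Nat.card_pos, cm_card H R⟩, fun y' _ h1 h2 h3 => ?_⟩
    exact absurd (Nat.le_of_dvd h2 (card_dvd_of_cm hR h3)) (not_le.2 h1)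
  · rintro ⟨⟨h1, h2⟩, h3⟩
    have h4 := Nat.le_of_dvd h1 (card_dvd_of_cm hR h2)
    by_contra h5
    exact h3 _ h4 (lt_of_le_of_ne h4 (Ne.symm h5)) Nat.card_pos (cm_card H R)

/-- for the whole group, in terms of Sylow subgroups -/
theorem sylPC_top {G : Type*} [Group G] [Finite G] {R : ℕ}
    (h : ∀ l : ℕ, l.Prime → ∃ P : Sylow l G, PCL R (P : Subgroup G)) :
    SylPC (⊤ : Subgroup G) R := by
  intro l hl
  have : Fact l.Prime := ⟨hl⟩
  obtain ⟨P, hP⟩ := h l hl
  refine ⟨P, le_top, hP, ?_⟩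
  rw [Sylow.card_eq_multiplicity, Subgroup.card_top]

end Pool.Agent.ECD
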