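import Mathlib

/-!
# Package ECD-CardEq: the order of a finite abelian group from generators

`relOrd g i` is the least `k > 0` such that `k • g i` is a combination of the `g j`, `j < i`.
*Statement (`card_eq_prod`).* If the `g i`, `i < R`, generate the finite abelian group `A` (every
element
is a combination with natural coefficients) then `#A = ∏_i relOrd g i`.

*Proof.* The set is nonempty (`Nat.card A • x = 0`). Let `H_i` be the subgroup
(`AddSubgroup.closure`)
generated by the `g j` with `j < i`; as `A` is finite it is the set of the combinations with natural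
coefficients (this set contains `0`, is closed under addition, and `- x = (Nat.card A - 1) • x`).
`H_0 = ⊥`, `H_R = ⊤`. `#H_(i+1) = relOrd g i * #H_i`: the map `(k, h) ↦ k • g_i + h` from
`Fin (relOrd g i) × H_i` to `H_(i+1)` is bijective: surjective by division with remainder of the
coefficient of `g i` by `relOrd g i`; injective, because `k • g_i + h = k' • g_i + h'`, `k ≤ k'`
gives
`(k' - k) • g_i ∈ H_i`, so `k' - k = 0` by minimality, and then `h = h'`. Induction on `i`.
∎ (It may be easier to do the induction on `R` for arbitrary `g : Fin R → A` without the assumption: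
the number of the combinations of `g` is `∏ relOrd g i`, with `Fin.snoc`, `Fin.prod_univ_castSucc`.)

Difficulty: 1.0 h.
-/

set_option autoImplicit false

namespace Pool.Agent.ECD

open Finset

/-- the least `k > 0` such that `k • g i` is a combination of the `g j`, `j < i` -/
noncomputable def relOrd {A : Type*} [AddCommGroup A] {R : ℕ} (g : Fin R → A) (i : Fin R) : ℕ :=
  sInf {k | 0 < k ∧ ∃ c : Fin R → ℕ, k • g i = ∑ j with j < i, c j • g j}

private def CardEq_S {A : Type*} [AddCommGroup A] [Finite A] {R : ℕ} (g : Fin R → A) (m : ℕ) :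
    AddSubgroup A where
  carrier := {x | ∃ c : Fin R → ℕ, x = ∑ j with j.val < m, c j • g j}
  zero_mem' := ⟨0, by simp⟩
  add_mem' := by
    rintro _ _ ⟨c, rfl⟩ ⟨c', rfl⟩
    refine ⟨c + c', ?_⟩
    rw [← Finset.sum_add_distrib]
    exact Finset.sum_congr rfl fun j _ => (add_nsmul _ _ _).symm
  neg_mem' := by
    rintro _ ⟨c, rfl⟩
    refine ⟨fun j => (Nat.card A - 1) * c j, ?_⟩
    have h1 : ∑ j with j.val < m, ((Nat.card A - 1) * c j) • g j =
        (Nat.card A - 1) • ∑ j with j.val < m, c j • g j := by
      rw [Finset.smul_sum]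
      exact Finset.sum_congr rfl fun j _ => mul_nsmul' _ _ _
    rw [h1, neg_eq_iff_add_eq_zero]
    have h2 : 1 ≤ Nat.card A := Nat.card_pos
    have h3 := card_nsmul_eq_zero' (G := A) (x := ∑ j with j.val < m, c j • g j)
    calc ∑ j with j.val < m, c j • g j + (Nat.card A - 1) • ∑ j with j.val < m, c j • g j
        = (Nat.card A - 1 + 1) • ∑ j with j.val < m, c j • g j := by
          rw [add_nsmul, one_nsmul, add_comm]
      _ = 0 := by rw [Nat.sub_add_cancel h2, h3]

private theorem CardEq_mem {A : Type*} [AddCommGroup A] [Finite A] {R : ℕ} (g : Fin R → A)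
    (m : ℕ) (x : A) :
    x ∈ CardEq_S g m ↔ ∃ c : Fin R → ℕ, x = ∑ j with j.val < m, c j • g j := Iff.rfl

private theorem CardEq_sum {A : Type*} [AddCommGroup A] {R : ℕ} (g : Fin R → A) (i : Fin R)
    (c : Fin R → ℕ) : ∑ j with j.val < i.val + 1, c j • g j =
      c i • g i + ∑ j with j.val < i.val, c j • g j := by
  have h : (Finset.univ.filter fun j : Fin R => j.val < i.val + 1) =
      insert i (Finset.univ.filter fun j : Fin R => j.val < i.val) := by
    ext j
    simp only [Finset.mem_filter, Finset.mem_univ, true_and, Finset.mem_insert, Fin.ext_iff]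
    omega
  rw [h, Finset.sum_insert (by simp)]

private theorem CardEq_le {A : Type*} [AddCommGroup A] [Finite A] {R : ℕ} (g : Fin R → A)
    (i : Fin R) {x : A} (hx : x ∈ CardEq_S g i.val) : x ∈ CardEq_S g (i.val + 1) := by
  obtain ⟨c, rfl⟩ := hx
  refine ⟨fun j => if j.val < i.val then c j else 0, ?_⟩
  rw [CardEq_sum]
  simp only [lt_irrefl, if_false, zero_nsmul, zero_add]
  refine Finset.sum_congr rfl fun j hj => ?_
  rw [if_pos (Finset.mem_filter.1 hj).2]

private theorem CardEq_gmem {A : Type*} [AddCommGroup A] [Finite A] {R : ℕ} (g : Fin R → A)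
    (i : Fin R) : g i ∈ CardEq_S g (i.val + 1) := by
  refine ⟨fun j => if j = i then 1 else 0, ?_⟩
  rw [CardEq_sum, if_pos rfl, one_nsmul, Finset.sum_eq_zero, add_zero]
  intro j hj
  have h1 := (Finset.mem_filter.1 hj).2
  rw [if_neg (by rintro rfl; exact lt_irrefl _ h1), zero_nsmul]

private theorem CardEq_rel {A : Type*} [AddCommGroup A] [Finite A] {R : ℕ} (g : Fin R → A)
    (i : Fin R) : 0 < relOrd g i ∧ relOrd g i • g i ∈ CardEq_S g i.val ∧
      ∀ k, 0 < k → k • g i ∈ CardEq_S g i.val → relOrd g i ≤ k := by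
  have hS : ∀ k : ℕ, (∃ c : Fin R → ℕ, k • g i = ∑ j with j < i, c j • g j) ↔
      k • g i ∈ CardEq_S g i.val := fun k => Iff.rfl
  have hne : {k | 0 < k ∧ ∃ c : Fin R → ℕ, k • g i = ∑ j with j < i, c j • g j}.Nonempty := by
    refine ⟨Nat.card A, Nat.card_pos, ?_⟩
    rw [hS, card_nsmul_eq_zero']
    exact (CardEq_S g i.val).zero_mem
  obtain ⟨h1, h2⟩ := Nat.sInf_mem hne
  exact ⟨h1, (hS _).1 h2, fun k hk hk' => Nat.sInf_le ⟨hk, (hS k).2 hk'⟩⟩

private theorem CardEq_step {A : Type*} [AddCommGroup A] [Finite A] {R : ℕ} (g : Fin R → A)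
    (i : Fin R) : Nat.card (CardEq_S g (i.val + 1)) =
      relOrd g i * Nat.card (CardEq_S g i.val) := by
  obtain ⟨hk0, hk, hmin⟩ := CardEq_rel g i
  let f : Fin (relOrd g i) × CardEq_S g i.val → CardEq_S g (i.val + 1) := fun p =>
    ⟨p.1.val • g i + p.2.val, (CardEq_S g (i.val + 1)).add_mem
      ((CardEq_S g (i.val + 1)).nsmul_mem (CardEq_gmem g i) _) (CardEq_le g i p.2.2)⟩
  have hcase : ∀ (a b : Fin (relOrd g i)) (h h' : CardEq_S g i.val), a.val ≤ b.val →
      a.val • g i + h.val = b.val • g i + h'.val → a = b := by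
    intro a b h h' hab he
    by_contra hne
    have hlt : 0 < b.val - a.val := by
      have : a.val ≠ b.val := fun e => hne (Fin.ext e)
      omega
    have h1 : (b.val - a.val) • g i = h.val - h'.val := by
      have h2 : b.val • g i = (b.val - a.val) • g i + a.val • g i := by
        rw [← add_nsmul, Nat.sub_add_cancel hab]
      rw [h2] at he
      have h3 : a.val • g i + h.val - (a.val • g i + h'.val) =
          (b.val - a.val) • g i + a.val • g i + h'.val - (a.val • g i + h'.val) := by rw [he]
      have h4 : a.val • g i + h.val - (a.val • g i + h'.val) = h.val - h'.val := by abel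
      have h5 : (b.val - a.val) • g i + a.val • g i + h'.val - (a.val • g i + h'.val) =
          (b.val - a.val) • g i := by abel
      rw [h4, h5] at h3
      exact h3.symm
    have h6 := hmin _ hlt (by rw [h1]; exact (CardEq_S g i.val).sub_mem h.2 h'.2)
    have := b.2
    omega
  have hf : Function.Bijective f := by
    constructor
    · rintro ⟨a, h⟩ ⟨b, h'⟩ he
      have he' : a.val • g i + h.val = b.val • g i + h'.val := congrArg Subtype.val he
      have hab : a = b := by
        rcases le_total a.val b.val with hle | hle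
        · exact hcase a b h h' hle he'
        · exact (hcase b a h' h hle he'.symm).symm
      subst hab
      have h7 : h.val = h'.val := add_left_cancel he'
      rw [Prod.mk.injEq]
      exact ⟨rfl, Subtype.ext h7⟩
    · rintro ⟨x, hx⟩
      obtain ⟨c, rfl⟩ := hx
      have h8 : (c i / relOrd g i) • (relOrd g i • g i) + ∑ j with j.val < i.val, c j • g j ∈
          CardEq_S g i.val := (CardEq_S g i.val).add_mem
        ((CardEq_S g i.val).nsmul_mem hk _) ⟨c, rfl⟩
      refine ⟨(⟨c i % relOrd g i, Nat.mod_lt _ hk0⟩, ⟨_, h8⟩), Subtype.ext ?_⟩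
      show (c i % relOrd g i) • g i + ((c i / relOrd g i) • (relOrd g i • g i) +
        ∑ j with j.val < i.val, c j • g j) = ∑ j with j.val < i.val + 1, c j • g j
      rw [CardEq_sum, ← add_assoc, ← mul_nsmul', ← add_nsmul]
      congr 2
      rw [mul_comm]
      exact Nat.mod_add_div _ _
  rw [← Nat.card_congr (Equiv.ofBijective f hf), Nat.card_prod, Nat.card_fin]

private theorem CardEq_main {A : Type*} [AddCommGroup A] [Finite A] {R : ℕ} (g : Fin R → A)
    (m : ℕ) (hm : m ≤ R) : Nat.card (CardEq_S g m) = ∏ i with i.val < m, relOrd g i := by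
  induction m with
  | zero =>
    have h1 : (CardEq_S g 0) = ⊥ := by
      rw [AddSubgroup.eq_bot_iff_forall]
      rintro x ⟨c, rfl⟩
      simp
    rw [h1]
    simp
  | succ m ih =>
    have h2 := CardEq_step g ⟨m, hm⟩
    have h : (Finset.univ.filter fun j : Fin R => j.val < m + 1) =
        insert ⟨m, hm⟩ (Finset.univ.filter fun j : Fin R => j.val < m) := by
      ext j
      simp only [Finset.mem_filter, Finset.mem_univ, true_and, Finset.mem_insert, Fin.ext_iff]
      omega
    rw [h, Finset.prod_insert (by simp), ← ih (by omega)]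
    exact h2

theorem card_eq_prod {A : Type*} [AddCommGroup A] [Finite A] {R : ℕ} (g : Fin R → A)
    (hg : ∀ x, ∃ k : Fin R → ℕ, x = ∑ i, k i • g i) : Nat.card A = ∏ i, relOrd g i := by
  have h1 := CardEq_main g R le_rfl
  have h2 : (Finset.univ.filter fun j : Fin R => j.val < R) = Finset.univ :=
    Finset.filter_true_of_mem fun j _ => j.2
  have h3 : CardEq_S g R = ⊤ := by
    rw [eq_top_iff]
    intro x _
    obtain ⟨k, hk⟩ := hg x
    exact ⟨k, by rw [h2]; exact hk⟩
  rw [h2, h3, AddSubgroup.card_top] at h1
  exact h1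

end Pool.Agent.ECD
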