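import Pool.Agent.ECD.FamG
import Pool.Agent.ECD.CardEq

/-!
# Package ECD-CardComb: combinations of elements of a group of a family

`Φ.comb v k z = ∑_i k i • Φ.dec v (z i)`, the combination with the coefficients `k` of the elements
with the codes `z`.

*`Fam.card_le`.* The group has at most `N v + 1` elements: `Φ.enc v` is an injection into the
numbers
`≤ N v` (`Φ.inj`, `Φ.bd`; compare `Fam.finite`; `Nat.card_le_card_of_injective`).
*`Fam.comb_small`.* The coefficients can be taken `≤ N v`: `k' i = k i % Nat.card (Φ.G v)`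
(`Nat.card` is positive; `nsmul` depends on the coefficient modulo the order only:
`mod_natCard_nsmul` or `card_nsmul_eq_zero'` with `Nat.mod_add_div`).
*`Fam.dcomb`.* The combination is definable, for definable `k, z`. Proof: for every finite set
`s` of
indices `u ↦ Φ.enc _ (∑ i ∈ s, k i u • Φ.dec _ (z i u))` is `DFun n`, by induction on `s`
(`Finset.induction_on`, `Fam.dzero`, `Fam.dadd`, `Fam.dnsmul`, `Fam.ddec`, `Finset.sum_insert`).
*`dfun_finProd`.* Finite products of definable functions are definable; model: `DFun.finSum` in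
`PTr/Chain.lean`.

Difficulty: 0.6 h.
-/

set_option autoImplicit false

namespace Pool.Agent.ECD

open Finset Pool.Agent.Grz Pool.Agent.GAvg Pool.Agent.PTr Pool.Agent.MTr Pool.Agent.LPC

theorem dfun_finProd {n : ℕ} {α : Type} (s : Finset α) {f : α → (Fin n → ℕ) → ℕ}
    (hf : ∀ a, DFun n (f a)) : DFun n (fun v => ∏ a ∈ s, f a v) := by
  classical
  induction s using Finset.induction_on with
  | empty => simpa using DFun.const (n := n) 1
  | insert a s ha ih =>
    have := (hf a).mul ih
    simpa only [Finset.prod_insert ha] using this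

/-- the combination with the coefficients `k` of the elements with the codes `z` -/
noncomputable def Fam.comb {r R : ℕ} (Φ : Fam r) (v : Fin r → ℕ) (k z : Fin R → ℕ) : Φ.G v :=
  ∑ i, k i • Φ.dec v (z i)

variable {r R : ℕ} (Φ : Fam r) {n : ℕ} {σ : Fin r → (Fin n → ℕ) → ℕ}

theorem Fam.card_le (v : Fin r → ℕ) : Nat.card (Φ.G v) ≤ Φ.N v + 1 := by
  have h := Nat.card_le_card_of_injective
    (fun x : Φ.G v => (⟨Φ.enc v x, Nat.lt_succ_of_le (Φ.bd v x)⟩ : Fin (Φ.N v + 1)))
    fun x y h => Φ.inj v (by simpa using h)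
  rwa [Nat.card_eq_fintype_card (α := Fin (Φ.N v + 1)), Fintype.card_fin] at h

theorem Fam.comb_small (v : Fin r → ℕ) (k z : Fin R → ℕ) :
    ∃ k' : Fin R → ℕ, (∀ i, k' i ≤ Φ.N v) ∧ Φ.comb v k' z = Φ.comb v k z := by
  refine ⟨fun i => k i % Nat.card (Φ.G v), fun i => ?_, ?_⟩
  · have h0 : 0 < Nat.card (Φ.G v) := Nat.card_pos
    have h1 := Nat.mod_lt (k i) h0
    have h2 := Φ.card_le v
    show k i % Nat.card (Φ.G v) ≤ Φ.N v
    omega
  · unfold Fam.comb
    exact Finset.sum_congr rfl fun i _ => mod_natCard_nsmul _ _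

theorem Fam.dcomb (hσ : ∀ i, DFun n (σ i)) {k z : Fin R → (Fin n → ℕ) → ℕ}
    (hk : ∀ i, DFun n (k i)) (hz : ∀ i, DFun n (z i)) :
    DFun n (fun u => Φ.enc _ (Φ.comb (fun i => σ i u) (fun i => k i u) (fun i => z i u))) := by
  classical
  have key : ∀ s : Finset (Fin R), DFun n (fun u => Φ.enc (fun i => σ i u)
      (∑ i ∈ s, k i u • Φ.dec (fun i => σ i u) (z i u))) := by
    intro s
    induction s using Finset.induction_on with
    | empty => simpa only [Finset.sum_empty] using Φ.dzero hσ
    | insert a s ha ih =>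
      have h := Φ.dadd hσ (Φ.dnsmul hσ (Φ.ddec hσ (hz a)) (hk a)) ih
      simpa only [Finset.sum_insert ha] using h
  exact key Finset.univ

end Pool.Agent.ECD
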