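import Pool.Agent.ECD.PcDefs

/-!
# Power data are definable
-/

set_option autoImplicit false

namespace Pool.Agent.ECD

open Finset Pool.Agent.Grz Pool.Agent.GAvg Pool.Agent.PTr Pool.Agent.MTr Pool.Agent.LPC

variable {r : ℕ} (Φ : GFam r)

theorem GFam.pm_def (i : ℕ) : ∀ {n : ℕ} {σ : Fin r → (Fin n → ℕ) → ℕ},
    (∀ i, DFun n (σ i)) → ∀ {g : ℕ → ∀ u : Fin n → ℕ, Φ.G (fun i => σ i u)}
    {m : ℕ → (Fin n → ℕ) → ℕ} {x : ∀ u : Fin n → ℕ, Φ.G (fun i => σ i u)},
    (∀ j, DFun n (fun u => Φ.enc _ (g j u))) → (∀ j, DFun n (m j)) →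
    DFun n (fun u => Φ.enc _ (x u)) →
    Delta0 n (fun u => PM (fun j => g j u) (fun j => m j u) i (x u)) := by
  induction i with
  | zero =>
    intro n σ hσ g m x hg hm hx
    exact Φ.geq hx (Φ.gone hσ)
  | succ i ih =>
    intro n σ hσ g m x hg hm hx
    have hσ1 : ∀ i, DFun (n + 1) (fun w : Fin (n + 1) → ℕ => σ i (fun j => w j.succ)) :=
      fun i => (hσ i).weak
    have h1 : Delta0 (n + 1) (fun w => w 0 < m i (fun j => w j.succ) ∧
        PM (fun j => g j (fun j => w j.succ)) (fun j => m j (fun j => w j.succ)) i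
          (x (fun j => w j.succ) * (g i (fun j => w j.succ) ^ w 0)⁻¹)) := by
      refine (Delta0.ltFun (DFun.proj 0) (hm i).weak).and ?_
      refine ih (σ := fun i w => σ i (fun j => w j.succ)) hσ1
        (g := fun j w => g j (fun j => w j.succ)) (m := fun j w => m j (fun j => w j.succ))
        (x := fun w => x (fun j => w j.succ) * (g i (fun j => w j.succ) ^ w 0)⁻¹)
        (fun j => (hg j).weak) (fun j => (hm j).weak) ?_
      exact Φ.gmul hσ1 (P := fun w => x (fun j => w j.succ)) hx.weak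
        (Φ.ginv hσ1 (Φ.gpow hσ1 (g := fun w => g i (fun j => w j.succ)) (hg i).weak
          (DFun.proj 0)))
    refine (Delta0.bexFun (P := fun k u => k < m i u ∧ PM (fun j => g j u) (fun j => m j u) i
      (x u * (g i u ^ k)⁻¹)) (hm i) h1).of_iff fun u => ?_
    constructor
    · rintro ⟨k, hk, h⟩
      exact ⟨k, hk.le, hk, h⟩
    · rintro ⟨k, -, hk, h⟩
      exact ⟨k, hk, h⟩

theorem GFam.pd_def {n : ℕ} {σ : Fin r → (Fin n → ℕ) → ℕ}
    (hσ : ∀ i, DFun n (σ i)) {g : ℕ → ∀ u : Fin n → ℕ, Φ.G (fun i => σ i u)}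
    {m : ℕ → (Fin n → ℕ) → ℕ} (hg : ∀ j, DFun n (fun u => Φ.enc _ (g j u)))
    (hm : ∀ j, DFun n (m j)) (i : ℕ) :
    Delta0 n (fun u => PD (fun j => g j u) (fun j => m j u) i) := by
  have hσ1 : ∀ i, DFun (n + 1) (fun w : Fin (n + 1) → ℕ => σ i (fun j => w j.succ)) :=
    fun i => (hσ i).weak
  induction i with
  | zero => exact (Delta0.eqFun (DFun.const 0) (DFun.const 0)).of_iff fun u => by simp [PD]
  | succ i ih =>
    have h1 : Delta0 n (fun u => 0 < m i u) := Delta0.ltFun (DFun.const 0) (hm i)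
    have h2 : Delta0 n (fun u => PM (fun j => g j u) (fun j => m j u) i (g i u ^ m i u)) :=
      Φ.pm_def i hσ hg hm (Φ.gpow hσ (hg i) (hm i))
    have h3 : Delta0 n (fun u => ∀ k, k ≤ m i u → (0 < k → k < m i u →
        ¬ PM (fun j => g j u) (fun j => m j u) i (g i u ^ k))) := by
      refine Delta0.ballFun (P := fun k u => 0 < k → k < m i u →
        ¬ PM (fun j => g j u) (fun j => m j u) i (g i u ^ k)) (hm i) ?_
      refine (Delta0.ltFun (DFun.const 0) (DFun.proj 0)).imp
        ((Delta0.ltFun (DFun.proj 0) (hm i).weak).imp (Delta0.not ?_))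
      exact Φ.pm_def i (σ := fun i w => σ i (fun j => w j.succ)) hσ1
        (g := fun j w => g j (fun j => w j.succ)) (m := fun j w => m j (fun j => w j.succ))
        (fun j => (hg j).weak) (fun j => (hm j).weak)
        (Φ.gpow hσ1 (g := fun w => g i (fun j => w j.succ)) (hg i).weak (DFun.proj 0))
    have h4 : Delta0 n (fun u => ∀ x, (PM (fun j => g j u) (fun j => m j u) i x ↔
        PM (fun j => g j u) (fun j => m j u) i (g i u * x * (g i u)⁻¹))) := by
      have h5 : Delta0 (n + 1) (fun w => PM (fun j => g j (fun j => w j.succ))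
          (fun j => m j (fun j => w j.succ)) i
            (Φ.dec (fun i => σ i (fun j => w j.succ)) (w 0))) :=
        Φ.pm_def i (σ := fun i w => σ i (fun j => w j.succ)) hσ1
        (g := fun j w => g j (fun j => w j.succ)) (m := fun j w => m j (fun j => w j.succ))
        (fun j => (hg j).weak) (fun j => (hm j).weak) (Φ.gdec hσ1 (DFun.proj 0))
      have h6 : Delta0 (n + 1) (fun w => PM (fun j => g j (fun j => w j.succ))
          (fun j => m j (fun j => w j.succ)) i (g i (fun j => w j.succ) *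
            Φ.dec (fun i => σ i (fun j => w j.succ)) (w 0) * (g i (fun j => w j.succ))⁻¹)) :=
        Φ.pm_def i (σ := fun i w => σ i (fun j => w j.succ)) hσ1
        (g := fun j w => g j (fun j => w j.succ)) (m := fun j w => m j (fun j => w j.succ))
        (fun j => (hg j).weak) (fun j => (hm j).weak)
        (Φ.gmul hσ1 (Φ.gmul hσ1 (P := fun w => g i (fun j => w j.succ)) (hg i).weak
          (Φ.gdec hσ1 (DFun.proj 0))) (Φ.ginv hσ1 (g := fun w => g i (fun j => w j.succ))
            (hg i).weak))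
      refine Φ.gall hσ (A := fun u x => (PM (fun j => g j u) (fun j => m j u) i x ↔
        PM (fun j => g j u) (fun j => m j u) i (g i u * x * (g i u)⁻¹)))
        (((h5.imp h6).and (h6.imp h5)).of_iff fun w => ?_)
      exact iff_def
    refine (ih.and (h1.and (h2.and (h3.and h4)))).of_iff fun u => ?_
    show _ ∧ _ ∧ _ ∧ _ ∧ _ ↔ _
    constructor
    · rintro ⟨a1, a2, a3, a4, a5⟩
      exact ⟨a1, a2, a3, fun k _ hk hk' => a4 k hk hk', a5⟩
    · rintro ⟨a1, a2, a3, a4, a5⟩
      exact ⟨a1, a2, a3, fun k hk hk' => a4 k hk'.le hk hk', a5⟩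

end Pool.Agent.ECD
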