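import Pool.Agent.ECD.PcCard
import Pool.Agent.ECD.PcDef
import Pool.Agent.ECD.CardComb

/-!
# The orders of definable subgroups with short series of their Sylow subgroups
-/

set_option autoImplicit false

namespace Pool.Agent.ECD

open Finset Pool.Agent.Grz Pool.Agent.GAvg Pool.Agent.PTr Pool.Agent.MTr Pool.Agent.LPC

theorem pd_mono {G : Type*} [Group G] {g : ℕ → G} {m : ℕ → ℕ} {i j : ℕ} (hj : j ≤ i)
    (h : PD g m i) : PD g m j := by
  induction i, hj using Nat.le_induction with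
  | base => exact h
  | succ i _ ih => exact ih h.1

theorem pd_bound {G : Type*} [Group G] [Finite G] {g : ℕ → G} {m : ℕ → ℕ} {i : ℕ}
    (h : PD g m i) : ∀ j < i, m j ≤ Nat.card G := by
  intro j hj
  have h1 := pd_mono hj h
  obtain ⟨H, h2, -⟩ := pd_subgroup g m j h1.1
  by_contra h3
  have h4 : orderOf (g j) < m j := (orderOf_le_card (x := g j)).trans_lt (not_le.1 h3)
  refine h1.2.2.2.1 _ (orderOf_pos _) h4 ?_
  rw [pow_orderOf_eq_one, ← h2]
  exact H.one_mem

/-- extension of a finite sequence -/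
def ext {α : Type*} {R : ℕ} (a : α) (z : Fin R → α) (j : ℕ) : α :=
  if h : j < R then z ⟨j, h⟩ else a

theorem cm_iff {G : Type*} [Group G] [Finite G] (H : Subgroup G) (R y N : ℕ)
    (hN : Nat.card G ≤ N) : CM H R y ↔ ¬ ∃ (g : Fin R → G) (m : Fin R → ℕ),
      (∀ k, m k ≤ N) ∧ (∀ k, g k ∈ H) ∧ PD (ext 1 g) (ext 0 m) R ∧ ¬ ∏ k, m k ∣ y := by
  have key : ∀ (g : ℕ → G) (m : ℕ → ℕ), PD g m R ↔
      PD (ext 1 fun k : Fin R => g k) (ext 0 fun k : Fin R => m k) R := fun g m =>
    (pd_congr (fun j hj => by rw [ext, dif_pos hj]) (fun j hj => by rw [ext, dif_pos hj])).1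
  constructor
  · rintro h ⟨g, m, -, h1, h2, h3⟩
    refine h3 ?_
    have h4 := h (ext 1 g) (ext 0 m) (fun j hj => by rw [ext, dif_pos hj]; exact h1 _) h2
    rw [Finset.prod_range] at h4
    convert h4 using 2 with k
    rw [ext, dif_pos k.2]
  · intro h g m hg hm
    by_contra h1
    refine h ⟨fun k => g k, fun k => m k, fun k => (pd_bound hm k k.2).trans hN,
      fun k => hg k k.2, (key g m).1 hm, ?_⟩
    rwa [← Finset.prod_range]

variable {r : ℕ} (Φ : GFam r)

theorem GFam.cm_def {n : ℕ} {σ : Fin r → (Fin n → ℕ) → ℕ} (hσ : ∀ i, DFun n (σ i))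
    {H : ∀ u : Fin n → ℕ, Subgroup (Φ.G (fun i => σ i u))}
    (hH : Delta0 (n + 1) (fun w => Φ.dec (fun i => σ i (fun j => w j.succ)) (w 0) ∈
      H (fun j => w j.succ))) (R : ℕ) {y : (Fin n → ℕ) → ℕ} (hy : DFun n y) :
    Delta0 n (fun u => CM (H u) R (y u)) := by
  have hN : DFun n (fun u => Φ.N (fun i => σ i u) + 1) := (Φ.hN.comp hσ).add (DFun.const 1)
  -- the matrix
  have hB : ∀ (k : ℕ) (z μ : Fin R → (Fin k → ℕ) → ℕ) (v : Fin n → (Fin k → ℕ) → ℕ),
      (∀ i, DFun k (z i)) → (∀ i, DFun k (μ i)) → (∀ i, DFun k (v i)) →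
      Delta0 k (fun w => (∀ i, Φ.dec (fun i => σ i (fun j => v j w)) (z i w) ∈
          H (fun j => v j w)) ∧
        (PD (ext 1 fun i : Fin R => Φ.dec (fun i => σ i (fun j => v j w)) (z i w))
          (ext 0 fun i => μ i w) R ∧ ¬ ∏ i, μ i w ∣ y (fun j => v j w))) := by
    intro k z μ v hz hμ hv
    have hσ' : ∀ i, DFun k (fun w => σ i (fun j => v j w)) := fun i => (hσ i).comp hv
    refine (Delta0.allOf fun i => ?_).and (Delta0.and ?_ ?_)
    · have := hH.subst (n := k) (h := Fin.cons (z i) v) (fun j => by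
        refine Fin.cases ?_ (fun j => ?_) j
        · exact hz i
        · exact hv j)
      exact this
    · have h1 := Φ.pd_def (n := k) (σ := fun i w => σ i (fun j => v j w)) hσ'
        (g := ext (fun w => 1) fun (i : Fin R) w =>
          Φ.dec (fun i => σ i (fun j => v j w)) (z i w)) (m := ext (fun _ => 0) μ)
        (fun j => by
          by_cases hj : j < R
          · simp only [ext, dif_pos hj]
            exact Φ.gdec hσ' (hz _)
          · simp only [ext, dif_neg hj]
            exact Φ.gone hσ') (fun j => by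
          by_cases hj : j < R
          · simp only [ext, dif_pos hj]
            exact hμ _
          · simp only [ext, dif_neg hj]
            exact DFun.const 0) R
      refine h1.of_iff fun w => ?_
      have e1 : (fun j => (ext (fun w => 1) (fun (i : Fin R) w =>
          Φ.dec (fun i => σ i (fun j => v j w)) (z i w)) : ℕ → ∀ w : Fin k → ℕ,
            Φ.G (fun i => σ i (fun j => v j w))) j w) =
          ext 1 fun i : Fin R => Φ.dec (fun i => σ i (fun j => v j w)) (z i w) := by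
        funext j
        by_cases hj : j < R
        · simp only [ext, dif_pos hj]
        · simp only [ext, dif_neg hj]
      have e2 : (fun j => (ext (fun _ => 0) μ : ℕ → (Fin k → ℕ) → ℕ) j w) =
          ext 0 fun i => μ i w := by
        funext j
        by_cases hj : j < R
        · simp only [ext, dif_pos hj]
        · simp only [ext, dif_neg hj]
      rw [e1, e2]
    · exact (delta_dvd (dfun_finProd _ hμ) (hy.comp hv)).not
  have hC : Delta0 n (fun u => ∃ z : Fin R → ℕ, (∀ k, z k ≤ Φ.N (fun i => σ i u) + 1) ∧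
      ∃ μ : Fin R → ℕ, (∀ k, μ k ≤ Φ.N (fun i => σ i u) + 1) ∧
        ((∀ i, Φ.dec (fun i => σ i u) (z i) ∈ H u) ∧
        (PD (ext 1 fun i : Fin R => Φ.dec (fun i => σ i u) (z i)) (ext 0 μ) R ∧
          ¬ ∏ i, μ i ∣ y u))) := by
    refine Delta0.bexVec (D := R) (b := fun u => Φ.N (fun i => σ i u) + 1) hN
      (P := fun z u => ∃ μ : Fin R → ℕ, (∀ k, μ k ≤ Φ.N (fun i => σ i u) + 1) ∧
        ((∀ i, Φ.dec (fun i => σ i u) (z i) ∈ H u) ∧
        (PD (ext 1 fun i : Fin R => Φ.dec (fun i => σ i u) (z i)) (ext 0 μ) R ∧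
          ¬ ∏ i, μ i ∣ y u))) ?_
    intro m z v hz hv
    refine Delta0.bexVec (D := R) (b := fun w => Φ.N (fun i => σ i (fun j => v j w)) + 1)
      (hN.comp hv) (P := fun μ w =>
        ((∀ i, Φ.dec (fun i => σ i (fun j => v j w)) (z i w) ∈ H (fun j => v j w)) ∧
        (PD (ext 1 fun i : Fin R => Φ.dec (fun i => σ i (fun j => v j w)) (z i w))
          (ext 0 μ) R ∧ ¬ ∏ i, μ i ∣ y (fun j => v j w)))) ?_
    intro k μ v' hμ hv'
    exact hB k (fun i w => z i (fun j => v' j w)) μ (fun i w => v i (fun j => v' j w))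
      (fun i => (hz i).comp hv') hμ (fun i => (hv i).comp hv')
  refine hC.not.of_iff fun u => ?_
  rw [cm_iff (H u) R (y u) (Φ.N (fun i => σ i u) + 1) (Φ.card_le _)]
  refine not_congr ⟨?_, ?_⟩
  · rintro ⟨g, m, h1, h2, h3, h4⟩
    have e : ∀ i, Φ.dec (fun i => σ i u) (Φ.enc _ (g i)) = g i := fun i => Φ.dec_enc _ _
    refine ⟨fun i => Φ.enc _ (g i), fun i => (Φ.bd _ _).trans (Nat.le_succ _), m, h1, ?_, ?_, h4⟩
    · intro i
      rw [e]
      exact h2 i
    · have e' : (fun i : Fin R => Φ.dec (fun i => σ i u) (Φ.enc _ (g i))) = g := funext e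
      rw [e']
      exact h3
  · rintro ⟨z, -, m, h1, h2, h3, h4⟩
    exact ⟨_, m, h1, h2, h3, h4⟩

/-- the orders of definable subgroups -/
theorem GFam.card_sub {n : ℕ} {σ : Fin r → (Fin n → ℕ) → ℕ} (hσ : ∀ i, DFun n (σ i))
    {H : ∀ u : Fin n → ℕ, Subgroup (Φ.G (fun i => σ i u))}
    (hH : Delta0 (n + 1) (fun w => Φ.dec (fun i => σ i (fun j => w j.succ)) (w 0) ∈
      H (fun j => w j.succ))) (R : ℕ) (hR : ∀ u, SylPC (H u) R) :
    DFun n (fun u => Nat.card (H u)) := by
  have hσ1 : ∀ i, DFun (n + 1) (fun w : Fin (n + 1) → ℕ => σ i (fun j => w j.succ)) :=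
    fun i => (hσ i).weak
  have hσ2 : ∀ i, DFun (n + 1 + 1) (fun w : Fin (n + 1 + 1) → ℕ =>
    σ i (fun j => w j.succ.succ)) := fun i => (hσ i).weak.weak
  have hH1 : Delta0 (n + 1 + 1) (fun w => Φ.dec (fun i => σ i (fun j => w j.succ.succ)) (w 0) ∈
      H (fun j => w j.succ.succ)) :=
    hH.rename (n := n + 1 + 1) (Fin.cons 0 (fun j => j.succ.succ))
  have hH2 : Delta0 (n + 1 + 1 + 1) (fun w =>
      Φ.dec (fun i => σ i (fun j => w j.succ.succ.succ)) (w 0) ∈
      H (fun j => w j.succ.succ.succ)) :=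
    hH.rename (n := n + 1 + 1 + 1) (Fin.cons 0 (fun j => j.succ.succ.succ))
  have h1 : Delta0 (n + 1) (fun w => CM (H (fun j => w j.succ)) R (w 0)) :=
    Φ.cm_def (σ := fun i w => σ i (fun j => w j.succ)) hσ1 (H := fun w => H fun j => w j.succ)
      hH1 R (DFun.proj 0)
  have h2 : Delta0 (n + 1 + 1) (fun w => CM (H (fun j => w j.succ.succ)) R (w 0)) :=
    Φ.cm_def (σ := fun i w => σ i (fun j => w j.succ.succ)) hσ2
      (H := fun w => H fun j => w j.succ.succ) hH2 R (DFun.proj 0)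
  refine DFun.ofGraph (b := fun u => Φ.N (fun i => σ i u) + 1)
    ((Φ.hN.comp hσ).add (DFun.const 1)) (fun u => ?_)
    ((((Delta0.ltFun (DFun.const 0) (DFun.proj 0)).and h1).and
      (Delta0.ballFun (P := fun y' w => y' < w 0 → 0 < y' → ¬ CM (H (fun j => w j.succ)) R y')
        (DFun.proj 0) ((Delta0.ltFun (DFun.proj 0) (DFun.proj 1)).imp
          ((Delta0.ltFun (DFun.const 0) (DFun.proj 0)).imp h2.not)))).of_iff fun w =>
            card_iff (hR fun j => w j.succ) (w 0))
  exact (Nat.card_le_card_of_injective _ Subtype.val_injective).trans (Φ.card_le _)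

end Pool.Agent.ECD
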