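import Pool.Agent.ECD.GTools

/-!
# Products of polylogarithmic length in families of groups with definable products
-/

set_option autoImplicit false

namespace Pool.Agent.ECD

open Finset Pool.Agent.Grz Pool.Agent.GAvg Pool.Agent.PTr Pool.Agent.MTr Pool.Agent.LPC

/-- regrouping of a product -/
theorem prod_blocks {G : Type*} [Monoid G] (f : ℕ → G) (A B : ℕ) :
    ((List.range (A * B)).map f).prod =
      ((List.range A).map fun t => ((List.range B).map fun i => f (t * B + i)).prod).prod := by
  induction A with
  | zero => simp
  | succ A ih =>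
    rw [List.range_succ, List.map_append, List.prod_append, ← ih, Nat.succ_mul]
    have h : List.range (A * B + B) = List.range (A * B) ++ (List.range B).map (A * B + ·) := by
      rw [List.range_add]
    rw [h, List.map_append, List.prod_append, List.map_map]
    simp [Function.comp_def]

/-- truncation of a product -/
theorem prod_trunc {G : Type*} [Monoid G] (f : ℕ → G) {L L' : ℕ} (h : L ≤ L') :
    ((List.range L').map fun i => if i < L then f i else 1).prod = ((List.range L).map f).prod := by
  induction L', h using Nat.le_induction with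
  | base =>
    congr 1
    refine List.map_congr_left fun i hi => ?_
    rw [if_pos (List.mem_range.1 hi)]
  | succ L' h ih =>
    rw [List.range_succ, List.map_append, List.prod_append, ih]
    simp [Nat.not_lt.2 h]

theorem GFam.gprod {r : ℕ} (Φ : GFam r) (K : ℕ) : ∀ {n : ℕ} {σ : Fin r → (Fin n → ℕ) → ℕ}
    {P : ∀ u : Fin n → ℕ, ℕ → Φ.G (fun i => σ i u)} {L M : (Fin n → ℕ) → ℕ},
    (∀ i, DFun n (σ i)) → DFun (n + 1) (fun w => Φ.enc _ (P (fun i => w i.succ) (w 0))) →
    DFun n L → DFun n M → (∀ u, L u ≤ lp (M u) K) →
    DFun n (fun u => Φ.enc _ ((List.range (L u)).map fun i => P u i).prod) := by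
  classical
  induction K with
  | zero =>
    intro n σ P L M hσ hP hL hM hLM
    refine Φ.prod1 hσ hP hL hM fun u => (hLM u).trans ?_
    rw [lp, pow_zero]
    exact Nat.le_add_left _ _
  | succ K ih =>
    intro n σ P L M hσ hP hL hM hLM
    -- the truncated sequence
    have hP' : DFun (n + 1) (fun w => Φ.enc _ (if w 0 < L (fun i => w i.succ) then
        P (fun i => w i.succ) (w 0) else 1)) := by
      have h1 := DFun.ite (Delta0.ltFun (DFun.proj (n := n + 1) 0) hL.weak) hP
        (Φ.gone (n := n + 1) (σ := fun i w => σ i (fun j => w j.succ)) fun i => (hσ i).weak)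
      have e : (fun w : Fin (n + 1) → ℕ => Φ.enc (fun i => σ i (fun j => w j.succ))
          (if w 0 < L (fun i => w i.succ) then P (fun i => w i.succ) (w 0) else 1)) =
          fun w => if w 0 < L (fun i => w i.succ) then
            Φ.enc (fun i => σ i (fun j => w j.succ)) (P (fun i => w i.succ) (w 0))
            else Φ.enc (fun i => σ i (fun j => w j.succ)) 1 := by
        funext w
        split_ifs <;> rfl
      rw [e]
      exact h1
    have hB : DFun n (fun u => lp (M u) K) := DFun.powConst ((DFun.lg hM).add (DFun.const 2)) K
    have hlg : ∀ m : ℕ, lg m + 2 ≤ lg (2 * m + 2) + 1 := by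
      intro m
      have h2 : lg (2 * m + 2) = lg (m + 1) + 1 := by
        unfold lg
        rw [show 2 * m + 2 = (m + 1) * 2 by ring, Nat.log_mul_base (by norm_num) (by omega)]
      have h3 : lg m ≤ lg (m + 1) := Nat.log_mono_right (Nat.le_succ m)
      omega
    -- the inner products
    have hin : DFun (n + 1) (fun w => Φ.enc (fun i => σ i (fun j => w j.succ))
        ((List.range (lp (M (fun j => w j.succ)) K)).map fun i =>
          if w 0 * lp (M (fun j => w j.succ)) K + i < L (fun j => w j.succ) then
            P (fun j => w j.succ) (w 0 * lp (M (fun j => w j.succ)) K + i) else 1).prod) := by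
      refine ih (n := n + 1) (σ := fun i w => σ i (fun j => w j.succ))
        (P := fun w i => if w 0 * lp (M (fun j => w j.succ)) K + i < L (fun j => w j.succ) then
            P (fun j => w j.succ) (w 0 * lp (M (fun j => w j.succ)) K + i) else 1)
        (L := fun w => lp (M (fun j => w j.succ)) K) (M := fun w => M (fun j => w j.succ))
        (fun i => (hσ i).weak) ?_ hB.weak hM.weak (fun w => le_rfl)
      have h4 := hP'.comp (n := n + 1 + 1)
        (h := Fin.cons (fun w => w 1 * lp (M (fun j => w j.succ.succ)) K + w 0)
          (fun j w => w j.succ.succ)) (fun i => by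
            refine Fin.cases ?_ (fun j => ?_) i
            · exact ((DFun.proj 1).mul hB.weak.weak).add (DFun.proj 0)
            · exact DFun.proj _)
      exact h4
    have hout := Φ.prod1 (n := n) (σ := σ)
      (P := fun u t => ((List.range (lp (M u) K)).map fun i =>
          if t * lp (M u) K + i < L u then P u (t * lp (M u) K + i) else 1).prod)
      (L := fun u => lg (M u) + 2) (M := fun u => 2 * M u + 2) hσ hin
      ((DFun.lg hM).add (DFun.const 2)) (((DFun.const 2).mul hM).add (DFun.const 2))
      (fun u => hlg _)
    have e : (fun u => Φ.enc (fun i => σ i u) ((List.range (L u)).map fun i => P u i).prod) =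
        fun u => Φ.enc (fun i => σ i u) ((List.range (lg (M u) + 2)).map fun t =>
          ((List.range (lp (M u) K)).map fun i =>
            if t * lp (M u) K + i < L u then P u (t * lp (M u) K + i) else 1).prod).prod := by
      funext u
      congr 1
      rw [← prod_blocks (fun i => if i < L u then P u i else 1) (lg (M u) + 2) (lp (M u) K)]
      refine (prod_trunc _ ?_).symm
      refine (hLM u).trans (le_of_eq ?_)
      rw [lp, pow_succ, mul_comm]
      rfl
    rw [e]
    exact hout

/-- small powers -/
theorem GFam.gsmall {r : ℕ} (Φ : GFam r) (K : ℕ) {n : ℕ} {σ : Fin r → (Fin n → ℕ) → ℕ}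
    (hσ : ∀ i, DFun n (σ i)) {g : ∀ u : Fin n → ℕ, Φ.G (fun i => σ i u)}
    {k M : (Fin n → ℕ) → ℕ} (hg : DFun n (fun u => Φ.enc _ (g u))) (hk : DFun n k)
    (hM : DFun n M) (hkM : ∀ u, k u ≤ lp (M u) K) :
    DFun n (fun u => Φ.enc _ (g u ^ k u)) := by
  have h := Φ.gprod K (P := fun u _ => g u) hσ hg.weak hk hM hkM
  simpa using h

end Pool.Agent.ECD
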