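import Pool.Agent.ECD.IntProd
import Pool.Agent.ECD.GProd

/-!
# Products of logarithmic length in families of algebraic groups
-/

set_option autoImplicit false

namespace Pool.Agent.ECD

open Finset Pool.Agent.Grz Pool.Agent.GAvg Pool.Agent.PTr Pool.Agent.MTr Pool.Agent.LPC

variable {r d e τ : ℕ} (Φ : AlgFam r d e τ) {n : ℕ} {σ : Fin r → (Fin n → ℕ) → ℕ}

private theorem IntFin_mem (hσ : ∀ i, DFun n (σ i)) {z : (Fin n → ℕ) → ℕ} (hz : DFun n z) :
    Delta0 n (fun u => ∃ x, Φ.enc (fun i => σ i u) x = z u) := by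
  have h := Φ.mem.subst (n := n) (h := Fin.cons z σ) (fun i => by
    refine Fin.cases ?_ (fun j => ?_) i
    · exact hz
    · exact hσ j)
  exact h.of_iff fun u => Iff.rfl

private theorem IntFin_ex (v : Fin r → ℕ) : ∃ z, ∃ x, Φ.enc v x = z := ⟨_, 1, rfl⟩

open scoped Classical in
/-- the element with the code `z`, the element with the least code if there is none -/
private noncomputable def dc (v : Fin r → ℕ) (z : ℕ) : Φ.G v :=
  if h : ∃ x, Φ.enc v x = z then h.choose else (Nat.find_spec (IntFin_ex Φ v)).choose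

private theorem enc_dc {v : Fin r → ℕ} {z : ℕ} (h : ∃ x, Φ.enc v x = z) :
    Φ.enc v (dc Φ v z) = z := by
  rw [dc, dif_pos h]
  exact h.choose_spec

private theorem dc_enc (v : Fin r → ℕ) (x : Φ.G v) : dc Φ v (Φ.enc v x) = x :=
  Φ.enc_inj v (enc_dc Φ ⟨x, rfl⟩)

private theorem dfun_dc (hσ : ∀ i, DFun n (σ i)) {z : (Fin n → ℕ) → ℕ} (hz : DFun n z) :
    DFun n (fun u => Φ.enc _ (dc Φ (fun i => σ i u) (z u))) := by
  classical
  have hσ1 : ∀ i, DFun (n + 1) (fun w : Fin (n + 1) → ℕ => σ i (fun j => w j.succ)) :=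
    fun i => (hσ i).weak
  have hσ2 : ∀ i, DFun (n + 1 + 1) (fun w : Fin (n + 1 + 1) → ℕ =>
    σ i (fun j => w j.succ.succ)) := fun i => (hσ i).weak.weak
  have h1 := IntFin_mem Φ (σ := fun i w => σ i (fun j => w j.succ)) hσ1 (DFun.proj 0)
  have h2 := IntFin_mem Φ (σ := fun i w => σ i (fun j => w j.succ.succ)) hσ2 (DFun.proj 0)
  have h3 := (IntFin_mem Φ hσ hz).rename (n := n + 1) (fun i => i.succ)
  have h4 : Delta0 (n + 1) (fun w => w 0 = z (fun j => w j.succ)) :=
    Delta0.eqFun (DFun.proj 0) hz.weak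
  have h5 : Delta0 (n + 1) (fun w => ∀ y, y ≤ w 0 →
      ((∃ x, Φ.enc (fun i => σ i (fun j => w j.succ)) x = y) → y = w 0)) :=
    Delta0.ballFun (P := fun y w => (∃ x, Φ.enc (fun i => σ i (fun j => w j.succ)) x = y) →
      y = w 0) (DFun.proj 0) (h2.imp (Delta0.eqFun (DFun.proj 0) (DFun.proj 1)))
  refine DFun.ofGraph (b := fun u => Φ.m (fun i => σ i u) ^ d)
    (DFun.powConst (Φ.hm.comp hσ) d) (fun u => (Φ.enc_lt _ _).le)
    (((h3.and h4).or (h3.not.and (h1.and h5))).of_iff fun w => ?_)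
  set u : Fin n → ℕ := fun j => w j.succ with hu
  by_cases h : ∃ x, Φ.enc (fun i => σ i u) x = z u
  · rw [enc_dc Φ h]
    constructor
    · intro h6
      exact Or.inl ⟨h, h6⟩
    · rintro (⟨-, h6⟩ | ⟨h6, -⟩)
      · exact h6
      · exact absurd h h6
  · rw [dc, dif_neg h]
    have h6 := (Nat.find_spec (IntFin_ex Φ (fun i => σ i u))).choose_spec
    rw [h6]
    constructor
    · intro h7
      refine Or.inr ⟨h, ?_, fun y hy hx => ?_⟩
      · rw [h7]
        exact Nat.find_spec (IntFin_ex Φ (fun i => σ i u))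
      · have h8 := Nat.find_min' (IntFin_ex Φ (fun i => σ i u)) hx
        omega
    · rintro (⟨h7, -⟩ | ⟨-, h7, h8⟩)
      · exact absurd h7 h
      · have h9 := Nat.find_min' (IntFin_ex Φ (fun i => σ i u)) h7
        exact (h8 _ h9 (Nat.find_spec (IntFin_ex Φ (fun i => σ i u)))).symm

/-- products of two elements -/
theorem AlgFam.mul_def (hσ : ∀ i, DFun n (σ i)) {P Q : ∀ u : Fin n → ℕ, Φ.G (fun i => σ i u)}
    (hP : DFun n (fun u => Φ.enc _ (P u))) (hQ : DFun n (fun u => Φ.enc _ (Q u))) :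
    DFun n (fun u => Φ.enc _ (P u * Q u)) := by
  classical
  have h1 : DFun (n + 1) (fun w => if w 0 = 0 then Φ.enc _ (P fun i => w i.succ)
      else Φ.enc _ (Q fun i => w i.succ)) :=
    DFun.ite (Delta0.eqFun (DFun.proj (n := n + 1) 0) (DFun.const 0)) hP.weak hQ.weak
  have h2 : DFun (n + 1) (fun w => Φ.enc _ (if w 0 = 0 then P fun i => w i.succ
      else Q fun i => w i.succ)) := by
    have h3 : (fun w : Fin (n + 1) → ℕ => Φ.enc _ (if w 0 = 0 then P fun i => w i.succ
        else Q fun i => w i.succ)) = fun w => if w 0 = 0 then Φ.enc _ (P fun i => w i.succ)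
        else Φ.enc _ (Q fun i => w i.succ) := by
      funext w
      split_ifs <;> rfl
    rw [h3]
    exact h1
  have h := Φ.prod2 (n := n) (σ := σ) (P := fun u i => if i = 0 then P u else Q u)
    (h := fun _ => 1) (M := fun _ => 1) hσ h2 (DFun.const 1) (DFun.const 1)
    (fun u => by
      have h4 : lg 1 = 0 := by decide
      rw [h4]
      norm_num)
  simpa [List.range_succ] using h

/-- the identity -/
theorem AlgFam.one_def (hσ : ∀ i, DFun n (σ i)) :
    DFun n (fun u => Φ.enc (fun i => σ i u) (1 : Φ.G (fun i => σ i u))) := by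
  have hσ1 : ∀ i, DFun (n + 1) (fun w : Fin (n + 1) → ℕ => σ i (fun j => w j.succ)) :=
    fun i => (hσ i).weak
  have h1 := IntFin_mem Φ (σ := fun i w => σ i (fun j => w j.succ)) hσ1 (DFun.proj 0)
  have h2 := dfun_dc Φ (σ := fun i w => σ i (fun j => w j.succ)) hσ1 (DFun.proj 0)
  have h3 := Φ.mul_def hσ1 h2 h2
  refine DFun.ofGraph (b := fun u => Φ.m (fun i => σ i u) ^ d)
    (DFun.powConst (Φ.hm.comp hσ) d) (fun u => (Φ.enc_lt _ _).le)
    ((h1.and (Delta0.eqFun h3 (DFun.proj 0))).of_iff fun w => ?_)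
  constructor
  · intro h
    refine ⟨⟨1, h.symm⟩, ?_⟩
    rw [h]
    show Φ.enc _ (dc Φ _ (Φ.enc _ 1) * dc Φ _ (Φ.enc _ 1)) = _
    rw [dc_enc, mul_one]
  · rintro ⟨⟨x, hx⟩, h4⟩
    rw [← hx] at h4 ⊢
    rw [dc_enc] at h4
    have h5 := Φ.enc_inj _ h4
    rw [mul_eq_left.1 h5]

/-- products of length at most `lg M + 1` -/
theorem AlgFam.prod1' {P : ∀ u : Fin n → ℕ, ℕ → Φ.G (fun i => σ i u)} {L M : (Fin n → ℕ) → ℕ}
    (hσ : ∀ i, DFun n (σ i))
    (hP : DFun (n + 1) (fun w => Φ.enc _ (P (fun i => w i.succ) (w 0)))) (hL : DFun n L)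
    (hM : DFun n M) (hLM : ∀ u, L u ≤ lg (M u) + 1) :
    DFun n (fun u => Φ.enc _ ((List.range (L u)).map fun i => P u i).prod) := by
  classical
  have hσ1 : ∀ i, DFun (n + 1) (fun w : Fin (n + 1) → ℕ => σ i (fun j => w j.succ)) :=
    fun i => (hσ i).weak
  have hP' : DFun (n + 1) (fun w => Φ.enc _ (if w 0 < L (fun i => w i.succ) then
      P (fun i => w i.succ) (w 0) else 1)) := by
    have h1 := DFun.ite (Delta0.ltFun (DFun.proj (n := n + 1) 0) hL.weak) hP
      (Φ.one_def (n := n + 1) (σ := fun i w => σ i (fun j => w j.succ)) hσ1)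
    have e : (fun w : Fin (n + 1) → ℕ => Φ.enc (fun i => σ i (fun j => w j.succ))
        (if w 0 < L (fun i => w i.succ) then P (fun i => w i.succ) (w 0) else 1)) =
        fun w => if w 0 < L (fun i => w i.succ) then
          Φ.enc (fun i => σ i (fun j => w j.succ)) (P (fun i => w i.succ) (w 0))
          else Φ.enc (fun i => σ i (fun j => w j.succ)) 1 := by
      funext w
      split_ifs <;> rfl
    rw [e]
    exact h1
  have h2 := Φ.prod2 (P := fun u i => if i < L u then P u i else 1)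
    (h := fun u => lg (L u) + 1) hσ hP' ((DFun.lg hL).add (DFun.const 1)) hM (fun u => by
      have h3 := hLM u
      rcases Nat.eq_zero_or_pos (L u) with h0 | h0
      · rw [h0]
        have h4 : lg 0 = 0 := by decide
        rw [h4]
        omega
      · have h4 : 2 ^ lg (L u) ≤ L u := Nat.pow_log_le_self 2 h0.ne'
        rw [pow_succ]
        omega)
  refine (show (fun u => Φ.enc (fun i => σ i u) ((List.range (L u)).map fun i =>
    P u i).prod) = _ from ?_) ▸ h2
  funext u
  congr 1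
  exact (prod_trunc (P u) (lt_two_pow_lg (L u)).le).symm

end Pool.Agent.ECD
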