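import Pool.Agent.ECD.GPowA
import Pool.Agent.ECD.IntFin

/-!
# Powers in families of groups, products in families of algebraic groups
-/

set_option autoImplicit false

namespace Pool.Agent.ECD

open Finset Pool.Agent.Grz Pool.Agent.GAvg Pool.Agent.PTr Pool.Agent.MTr Pool.Agent.LPC

theorem GFam.dpow {r : ℕ} (Φ : GFam r) {n : ℕ} {σ : Fin r → (Fin n → ℕ) → ℕ}
    (hσ : ∀ i, DFun n (σ i)) {g : ∀ u : Fin n → ℕ, Φ.G (fun i => σ i u)}
    {k : (Fin n → ℕ) → ℕ} (hg : DFun n (fun u => Φ.enc _ (g u))) (hk : DFun n k) :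
    DFun n (fun u => Φ.enc _ (g u ^ k u)) :=
  Φ.gpow hσ hg hk

theorem AlgFam.prod1 {r d e τ : ℕ} (Φ : AlgFam r d e τ) {n : ℕ} {σ : Fin r → (Fin n → ℕ) → ℕ}
    {P : ∀ u : Fin n → ℕ, ℕ → Φ.G (fun i => σ i u)} {L M : (Fin n → ℕ) → ℕ}
    (hσ : ∀ i, DFun n (σ i))
    (hP : DFun (n + 1) (fun w => Φ.enc _ (P (fun i => w i.succ) (w 0)))) (hL : DFun n L)
    (hM : DFun n M) (hLM : ∀ u, L u ≤ lg (M u) + 1) :
    DFun n (fun u => Φ.enc _ ((List.range (L u)).map fun i => P u i).prod) :=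
  Φ.prod1' hσ hP hL hM hLM

end Pool.Agent.ECD
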