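import Pool.Agent.ECD.FamToolsA
import Pool.Agent.ECD.GPow

/-!
# Multiples of elements of a family of finite abelian groups
-/

set_option autoImplicit false

namespace Pool.Agent.ECD

open Finset Pool.Agent.Grz Pool.Agent.GAvg Pool.Agent.PTr Pool.Agent.MTr Pool.Agent.LPC

private theorem FamG_prod {A : Type*} [AddCommGroup A] (f : ℕ → Multiplicative A) (L : ℕ) :
    Multiplicative.toAdd ((List.range L).map fun i => f i).prod =
      ∑ i ∈ range L, Multiplicative.toAdd (f i) := by
  induction L with
  | zero => rfl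
  | succ L ih =>
    rw [List.range_succ, List.map_append, List.prod_append, toAdd_mul, ih, sum_range_succ]
    simp

/-- the family in multiplicative notation -/
def Fam.toG {r : ℕ} (Φ : Fam r) : GFam r where
  G v := Multiplicative (Φ.G v)
  grp v := inferInstance
  enc v x := Φ.enc v (Multiplicative.toAdd x)
  inj v x y h := Multiplicative.toAdd.injective (Φ.inj v h)
  N := Φ.N
  hN := Φ.hN
  bd v x := Φ.bd v _
  mem := Φ.mem
  prod1 {n σ P L M} hσ hP hL hM hLM := by
    have h := Φ.sum1 (P := fun u i => Multiplicative.toAdd (P u i)) hσ hP hL hM hLM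
    have e : (fun u => Φ.enc (fun i => σ i u)
        (Multiplicative.toAdd ((List.range (L u)).map fun i => P u i).prod)) =
        fun u => Φ.enc (fun i => σ i u) (∑ i ∈ range (L u), Multiplicative.toAdd (P u i)) := by
      funext u
      rw [FamG_prod]
    rw [e]
    exact h

theorem Fam.dnsmul {r : ℕ} (Φ : Fam r) {n : ℕ} {σ : Fin r → (Fin n → ℕ) → ℕ}
    (hσ : ∀ i, DFun n (σ i)) {g : ∀ u : Fin n → ℕ, Φ.G (fun i => σ i u)}
    {k : (Fin n → ℕ) → ℕ} (hg : DFun n (fun u => Φ.enc _ (g u))) (hk : DFun n k) :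
    DFun n (fun u => Φ.enc _ (k u • g u)) :=
  Φ.toG.dpow hσ (g := fun u => Multiplicative.ofAdd (g u)) hg hk

end Pool.Agent.ECD
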