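import Pool.Agent.ECD.ECAlg
import Pool.Agent.ECD.FamG

/-!
# Elliptic curves over prime fields as a family of finite abelian groups
-/

set_option autoImplicit false

namespace Pool.Agent.ECD

open Finset WeierstrassCurve Pool.Agent.Grz Pool.Agent.GAvg Pool.Agent.PTr Pool.Agent.MTr
  Pool.Agent.LPC

theorem toAdd_prod_range {A : Type*} [AddCommGroup A] (f : ℕ → Multiplicative A) (L : ℕ) :
    Multiplicative.toAdd ((List.range L).map fun i => f i).prod =
      ∑ i ∈ range L, Multiplicative.toAdd (f i) := by
  induction L with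
  | zero => rfl
  | succ L ih =>
    rw [List.range_succ, List.map_append, List.prod_append, toAdd_mul, ih, sum_range_succ]
    simp

/-- the elliptic curves over prime fields -/
noncomputable def ecFam : Fam 3 where
  G v := Pt (par (v 0) (v 1) (v 2))
  grp v := inferInstance
  enc v P := enc P
  inj v := enc_inj _
  N v := 2 * (par (v 0) (v 1) (v 2)).p ^ 2
  hN := (DFun.const 2).mul (DFun.powConst
    (dfun_par (DFun.proj 0) (DFun.proj 1) (DFun.proj 2)).1 2)
  bd v P := enc_le P
  mem := delta_mem (n := 4) (p := fun w => w 1) (a := fun w => w 2) (b := fun w => w 3)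
      (z := fun w => w 0) (DFun.proj 1) (DFun.proj 2) (DFun.proj 3) (DFun.proj 0)
  sum1 {n σ P L M} hσ hP hL hM hLM := by
    have h := ecAlg.prod1 (P := fun u i => (Multiplicative.ofAdd (P u i) :
      Multiplicative (Pt (par (σ 0 u) (σ 1 u) (σ 2 u))))) hσ hP hL hM hLM
    have e : (fun u => enc (∑ i ∈ range (L u), P u i)) = fun u => ecAlg.enc (fun i => σ i u)
        ((List.range (L u)).map fun i => (Multiplicative.ofAdd (P u i) :
          Multiplicative (Pt (par (σ 0 u) (σ 1 u) (σ 2 u))))).prod := by
      funext u
      have h1 := toAdd_prod_range (fun i => (Multiplicative.ofAdd (P u i) :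
          Multiplicative (Pt (par (σ 0 u) (σ 1 u) (σ 2 u))))) (L u)
      show _ = enc (Multiplicative.toAdd _)
      rw [h1]
      rfl
    rw [e]
    exact h

end Pool.Agent.ECD
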