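import Pool.Agent.ECD.FamOrd
import Pool.Agent.ECD.ECFam

/-!
# Multiples, orders: the functions on the points of elliptic curves over prime fields
-/

set_option autoImplicit false

namespace Pool.Agent.ECD

open Finset WeierstrassCurve Pool.Agent.Grz Pool.Agent.GAvg Pool.Agent.PTr Pool.Agent.MTr
  Pool.Agent.LPC

open scoped Classical in
/-- the point with the code `z`, the point at infinity if there is none -/
noncomputable def ptOf (x : Par) (z : ℕ) : Pt x := if h : ∃ P : Pt x, enc P = z then h.choose else 0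

theorem ptOf_eq (v : Fin 3 → ℕ) (z : ℕ) : ecFam.dec v z = ptOf (par (v 0) (v 1) (v 2)) z := rfl

theorem ptOf_enc (x : Par) (P : Pt x) : ptOf x (enc P) = P := by
  have h : ∃ Q : Pt x, enc Q = enc P := ⟨P, rfl⟩
  rw [ptOf, dif_pos h]
  exact enc_inj x h.choose_spec

/-- sums of points -/
theorem ec_add : DFun 5 (fun v => enc (ptOf (par (v 0) (v 1) (v 2)) (v 3) +
    ptOf (par (v 0) (v 1) (v 2)) (v 4))) := by
  have hσ : ∀ i : Fin 3, DFun 5 (fun v : Fin 5 → ℕ => v (i.castLE (by norm_num))) :=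
    fun i => DFun.proj _
  exact ecFam.dadd hσ (ecFam.ddec hσ (DFun.proj 3)) (ecFam.ddec hσ (DFun.proj 4))

/-- multiples of points -/
theorem ec_mul : DFun 6 (fun v => enc ((v 4 ^ v 5) • ptOf (par (v 0) (v 1) (v 2)) (v 3))) := by
  have hσ : ∀ i : Fin 3, DFun 6 (fun v : Fin 6 → ℕ => v (i.castLE (by norm_num))) :=
    fun i => DFun.proj _
  exact ecFam.dpow hσ (ecFam.ddec hσ (DFun.proj 3)) (DFun.proj 4) (DFun.proj 5)

/-- orders of points -/
theorem ec_order : DFun 4 (fun v => addOrderOf (ptOf (par (v 0) (v 1) (v 2)) (v 3))) := by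
  have hσ : ∀ i : Fin 3, DFun 4 (fun v : Fin 4 → ℕ => v (i.castLE (by norm_num))) :=
    fun i => DFun.proj _
  exact ecFam.dorder hσ (ecFam.ddec hσ (DFun.proj 3))

end Pool.Agent.ECD
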