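import Pool.Agent.ECD.RankC

/-!
# Rank bound, part D: the number of torsion points

`tors_card`: there is `d` such that for every field `F`, every elliptic curve `y² = x³ + a x + b`
over `F`, `2 ≠ 0` in `F`, and every prime `ℓ` there are at most `18 ℓ ^ (2 d)` points with
`ℓ • P = 0`.
-/

set_option autoImplicit false

namespace Pool.Agent.ECD

open WeierstrassCurve Polynomial

section Tors

variable {F : Type*} [Field F] [DecidableEq F]

theorem card_le_roots {a b : F} (N : F[X]) (hN : N ≠ 0)
    (s : Finset (EC a b).toAffine.Point)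
    (hs : ∀ (x y : F) (h : (EC a b).toAffine.Nonsingular x y),
      (Affine.Point.some x y h : (EC a b).toAffine.Point) ∈ s → N.eval x = 0) :
    s.card ≤ 2 * (1 + N.natDegree) := by
  classical
  have h1 : s.card ≤ 2 * (s.image Affine.Point.xRep).card := by
    refine Finset.card_le_mul_card_image s 2 fun v hv => ?_
    obtain ⟨P, hP, rfl⟩ := Finset.mem_image.1 hv
    calc (s.filter fun Q => Affine.Point.xRep Q = Affine.Point.xRep P).card
        ≤ ({P, -P} : Finset (EC a b).toAffine.Point).card := by
          refine Finset.card_le_card fun Q hQ => ?_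
          rw [Finset.mem_filter] at hQ
          rcases Affine.Point.eq_or_eq_neg_of_xRep_eq_xRep hQ.2 with rfl | rfl
          · simp
          · simp
      _ ≤ 2 := Finset.card_le_two
  have h2 : (s.image Affine.Point.xRep).card ≤ 1 + N.natDegree := by
    have h3 : s.image Affine.Point.xRep ⊆
        insert ![1, 0] (N.roots.toFinset.image fun x => ![x, 1]) := by
      intro v hv
      obtain ⟨P, hP, rfl⟩ := Finset.mem_image.1 hv
      rw [Finset.mem_insert, Finset.mem_image]
      cases P with
      | zero => left; rfl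
      | some x y h =>
        right
        refine ⟨x, ?_, rfl⟩
        rw [Multiset.mem_toFinset, mem_roots hN]
        exact hs x y h hP
    calc (s.image Affine.Point.xRep).card
        ≤ (insert ![1, 0] (N.roots.toFinset.image fun x => ![x, 1])).card :=
          Finset.card_le_card h3
      _ ≤ (N.roots.toFinset.image fun x => ![x, 1]).card + 1 := Finset.card_insert_le _ _
      _ ≤ N.roots.toFinset.card + 1 := by
          have := Finset.card_image_le (s := N.roots.toFinset) (f := fun x : F => ![x, 1])
          omega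
      _ ≤ Multiset.card N.roots + 1 := by
          have := Multiset.toFinset_card_le N.roots
          omega
      _ ≤ 1 + N.natDegree := by
          have := N.card_roots'
          omega
  omega

/-- the norm of an element of the coordinate ring -/
noncomputable def nm {a b : F} (z : CR a b) : F[X] := z.re * z.re - cub a b * z.im * z.im

omit [DecidableEq F] in
theorem natDegree_nm {a b : F} {E : ℕ} {z : CR a b} (h : Fil E z) :
    (nm z).natDegree ≤ 2 * E := by
  unfold nm
  obtain ⟨h1, h2⟩ := h
  have hc := natDegree_cub a b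
  have e1 := natDegree_sub_le (z.re * z.re) (cub a b * z.im * z.im)
  have e2 := natDegree_mul_le (p := z.re) (q := z.re)
  have e3 := natDegree_mul_le (p := cub a b * z.im) (q := z.im)
  have e4 := natDegree_mul_le (p := cub a b) (q := z.im)
  omega

omit [DecidableEq F] in
theorem exists_T {K : Type*} [Field K] [IsAlgClosed K] (a b : K) (h : 4 * a ^ 3 + 27 * b ^ 2 ≠ 0) :
    ∃ e : K, (EC a b).toAffine.Nonsingular e 0 := by
  obtain ⟨e, he⟩ := IsAlgClosed.exists_root (cub a b) (by
    have : (cub a b).degree = 3 := by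
      unfold cub
      compute_degree!
    rw [this]
    norm_num)
  have he' : e ^ 3 + a * e + b = 0 := by
    simpa [cub, IsRoot.def] using he
  refine ⟨e, ?_⟩
  rw [Affine.nonsingular_iff']
  refine ⟨?_, ?_⟩
  · rw [Affine.equation_iff]
    simp only [EC]
    linear_combination -he'
  · left
    simp only [EC]
    intro h0
    apply h
    have ha : a = -3 * e ^ 2 := by linear_combination -h0
    have hb : b = 2 * e ^ 3 := by
      rw [ha] at he'
      linear_combination he'
    rw [ha, hb]
    ring

theorem tors_card_odd {a b : F} (h : 4 * a ^ 3 + 27 * b ^ 2 ≠ 0) {d : ℕ}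
    (hd1 : ∀ i, 2 * (dblLaw i).totalDegree + 2 ≤ 2 ^ d)
    (hd2 : ∀ i, 2 * (addLaw i).totalDegree + 2 ≤ 2 ^ d) (m : ℕ) (hm : Odd m)
    (s : Finset (EC a b).toAffine.Point) (hs : ∀ P ∈ s, m • P = 0) :
    s.card ≤ 18 * m ^ (2 * d) := by
  classical
  set φ : F →+* AlgebraicClosure F := algebraMap F (AlgebraicClosure F) with hφ
  obtain ⟨e, he⟩ := exists_T (φ a) (φ b) (by
    have h1 : φ (4 * a ^ 3 + 27 * b ^ 2) ≠ 0 := by
      rw [Ne, map_eq_zero_iff φ φ.injective]
      exact h
    simpa only [map_add, map_mul, map_pow, map_ofNat] using h1)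
  obtain ⟨V, hV1, hV2⟩ := exists_V φ a b e he hd1 hd2 m hm.pos
  have hN : nm (V 2) ≠ 0 := by
    intro h0
    have h1 : m • (Affine.Point.some e 0 he : (EC (φ a) (φ b)).toAffine.Point) ≠ 0 := by
      obtain ⟨k, rfl⟩ := hm
      rw [odd_T]
      exact Affine.Point.some_ne_zero _
    have h2 := hV2.2.z_ne_zero h1
    apply h2
    have h3 : (nm (V 2)).eval₂ φ e = 0 := by rw [h0]; simp
    have h4 := nonsing_eq he
    have h5 : (cub a b).eval₂ φ e = 0 := by
      simp only [cub, eval₂_add, eval₂_mul, eval₂_pow, eval₂_X, eval₂_C]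
      rw [← h4]
      ring
    rw [nm, eval₂_sub, eval₂_mul, eval₂_mul, eval₂_mul, h5] at h3
    have h6 : (V 2).re.eval₂ φ e = 0 := by
      have : (V 2).re.eval₂ φ e * (V 2).re.eval₂ φ e = 0 := by linear_combination h3
      exact mul_self_eq_zero.1 this
    show (V 2).re.eval₂ φ e + 0 * (V 2).im.eval₂ φ e = 0
    rw [h6]
    ring
  have hc := card_le_roots (nm (V 2)) hN s (fun x y hxy hP => by
    have h1 := hV2.1 x y hxy
    rw [hs _ hP] at h1
    have h2 : (V 2).re.eval₂ (RingHom.id F) x + y * (V 2).im.eval₂ (RingHom.id F) x = 0 :=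
      h1.z_eq_zero
    rw [← eval, ← eval] at h2
    have h3 := nonsing_eq hxy
    have h4 : (cub a b).eval x = y ^ 2 := by
      rw [h3]
      simp [cub]
    rw [nm, eval_sub, eval_mul, eval_mul, eval_mul, h4]
    linear_combination ((V 2).re.eval x - y * (V 2).im.eval x) * h2)
  have h1 := natDegree_nm (hV1 2)
  have h2 : 1 ≤ m ^ (2 * d) := Nat.one_le_pow _ _ hm.pos
  omega

theorem tors_card_two {a b : F} (h2 : (2 : F) ≠ 0)
    (s : Finset (EC a b).toAffine.Point) (hs : ∀ P ∈ s, 2 • P = 0) : s.card ≤ 8 := by
  have hN : cub a b ≠ 0 := by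
    have : (cub a b).degree = 3 := by
      unfold cub
      compute_degree!
    intro h0
    rw [h0] at this
    simp at this
  have hc := card_le_roots (cub a b) hN s (fun x y hxy hP => by
    have h1 := hs _ hP
    rw [two_smul] at h1
    have h3 := nonsing_eq hxy
    have h4 : (Affine.Point.some x y hxy : (EC a b).toAffine.Point) =
        -(Affine.Point.some x y hxy) := eq_neg_of_add_eq_zero_left h1
    rw [Affine.Point.neg_some] at h4
    have h5 : y = (EC a b).toAffine.negY x y := by
      injection h4
    have h6 : y = -y := by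
      simpa [Affine.negY, EC] using h5
    have h7 : y = 0 := by
      have : 2 * y = 0 := by linear_combination h6
      exact (mul_eq_zero.1 this).resolve_left h2
    have h8 : (cub a b).eval x = y ^ 2 := by
      rw [h3]
      simp [cub]
    rw [h8, h7]
    ring)
  have h1 := natDegree_cub a b
  omega

/-- A bound for the number of points of prime order. -/
theorem tors_card : ∃ d : ℕ, ∀ {F : Type} [Field F] [DecidableEq F] (a b : F),
    4 * a ^ 3 + 27 * b ^ 2 ≠ 0 → (2 : F) ≠ 0 → ∀ ℓ : ℕ, ℓ.Prime →
    ∀ s : Finset (EC a b).toAffine.Point, (∀ P ∈ s, ℓ • P = 0) → s.card ≤ 18 * ℓ ^ d := by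
  set D := (∑ i, (2 * (dblLaw i).totalDegree + 2)) + ∑ i, (2 * (addLaw i).totalDegree + 2) with hD
  refine ⟨2 * D, ?_⟩
  intro F _ _ a b h h2 ℓ hℓ s hs
  have hDD : D ≤ 2 ^ D := Nat.lt_two_pow_self.le
  rcases hℓ.eq_two_or_odd' with rfl | ho
  · have h3 := tors_card_two h2 s hs
    have h4 : 1 ≤ 2 ^ (2 * D) := Nat.one_le_two_pow
    omega
  · refine tors_card_odd h (d := D) (fun i => ?_) (fun i => ?_) ℓ ho s hs
    · have := Finset.single_le_sum (f := fun i => 2 * (dblLaw i).totalDegree + 2)
        (fun i _ => Nat.zero_le _) (Finset.mem_univ i)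
      omega
    · have := Finset.single_le_sum (f := fun i => 2 * (addLaw i).totalDegree + 2)
        (fun i _ => Nat.zero_le _) (Finset.mem_univ i)
      omega

end Tors

end Pool.Agent.ECD
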