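import Mathlib

/-!
# Rank bound, part G: finite abelian groups with few elements of prime order

`gen_of_tors`: a finite abelian group with fewer than `ℓ ^ (R + 1)` elements killed by `ℓ`, for
every prime `ℓ`, is generated by `R` elements.
-/

set_option autoImplicit false

namespace Pool.Agent.ECD

open Finset

section Gen

variable {ι : Type} [Fintype ι] (p e : ι → ℕ)

/-- few cyclic factors for each prime -/
theorem card_factors [DecidableEq ι] {G : Type*} [AddCommGroup G]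
    (f : G ≃+ ∀ i, ZMod (p i ^ e i)) {R ℓ : ℕ} (hℓ : ℓ.Prime)
    (h : ∀ s : Finset G, (∀ x ∈ s, ℓ • x = 0) → s.card < ℓ ^ (R + 1)) :
    (univ.filter fun i => p i = ℓ ∧ e i ≠ 0).card ≤ R := by
  classical
  set I := univ.filter fun i => p i = ℓ ∧ e i ≠ 0 with hI
  by_contra hc
  push Not at hc
  let u : (I → Fin ℓ) → ∀ i, ZMod (p i ^ e i) := fun c i =>
    if hi : i ∈ I then (((c ⟨i, hi⟩ : ℕ) * ℓ ^ (e i - 1) : ℕ) : ZMod (p i ^ e i)) else 0
  have hu : Function.Injective u := by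
    intro c c' hcc
    funext i
    have h1 := congrFun hcc i.1
    have h2 := (mem_filter.1 i.2).2
    simp only [u, i.2, dif_pos] at h1
    have hlt : ∀ c : I → Fin ℓ, (c i : ℕ) * ℓ ^ (e i - 1) < p i ^ e i := by
      intro c
      rw [h2.1]
      have h3 : ℓ ^ e i.1 = ℓ * ℓ ^ (e i.1 - 1) := by
        rw [← pow_succ', Nat.sub_add_cancel (Nat.one_le_iff_ne_zero.2 h2.2)]
      rw [h3]
      exact Nat.mul_lt_mul_of_pos_right (c i).2 (pow_pos hℓ.pos _)
    have h4 := congrArg ZMod.val h1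
    rw [ZMod.val_natCast_of_lt (hlt c), ZMod.val_natCast_of_lt (hlt c')] at h4
    exact Fin.ext (Nat.eq_of_mul_eq_mul_right (pow_pos hℓ.pos _) h4)
  let s : Finset G := univ.image fun c => f.symm (u c)
  have hs : s.card = ℓ ^ I.card := by
    show (univ.image (f.symm ∘ u)).card = _
    rw [card_image_of_injective _ (f.symm.injective.comp hu), card_univ, Fintype.card_fun,
      Fintype.card_fin, Fintype.card_coe]
  have h5 := h s (by
    intro x hx
    obtain ⟨c, -, rfl⟩ := mem_image.1 hx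
    rw [← map_nsmul]
    have : ℓ • u c = 0 := by
      funext i
      by_cases hi : i ∈ I
      · have h2 := (mem_filter.1 hi).2
        simp only [u, Pi.smul_apply, hi, dif_pos, Pi.zero_apply]
        rw [nsmul_eq_mul, ← Nat.cast_mul, ZMod.natCast_eq_zero_iff]
        have h3 : ℓ * ((c ⟨i, hi⟩ : ℕ) * ℓ ^ (e i - 1)) = (c ⟨i, hi⟩ : ℕ) * p i ^ e i := by
          rw [h2.1]
          have h3 : ℓ ^ e i = ℓ * ℓ ^ (e i - 1) := by
            rw [← pow_succ', Nat.sub_add_cancel (Nat.one_le_iff_ne_zero.2 h2.2)]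
          rw [h3]
          ring
        rw [h3]
        exact Dvd.intro_left _ rfl
      · simp [u, hi]
    rw [this, map_zero])
  rw [hs] at h5
  exact absurd h5 (not_lt.2 (Nat.pow_le_pow_right hℓ.pos hc))

/-- generators of a product of cyclic groups of prime power order -/
theorem gen_pi [DecidableEq ι] (hp : ∀ i, (p i).Prime) (R : ℕ)
    (h : ∀ ℓ : ℕ, ℓ.Prime → (univ.filter fun i => p i = ℓ ∧ e i ≠ 0).card ≤ R) :
    ∃ g : Fin R → ∀ i, ZMod (p i ^ e i), ∀ x : ∀ i, ZMod (p i ^ e i), ∃ k : Fin R → ℕ,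
      x = ∑ j, k j • g j := by
  classical
  have hemb : ∀ ℓ : ℕ, ℓ.Prime →
      Nonempty ({i // i ∈ univ.filter fun i => p i = ℓ ∧ e i ≠ 0} ↪ Fin R) := by
    intro ℓ hℓ
    apply Function.Embedding.nonempty_of_card_le
    rw [Fintype.card_coe, Fintype.card_fin]
    exact h ℓ hℓ
  choose emb hemb' using fun (ℓ : ℕ) => fun (hℓ : ℓ.Prime) => (show ∃ g : {i // i ∈ univ.filter
    fun i => p i = ℓ ∧ e i ≠ 0} → Fin R, Function.Injective g from
      ⟨(hemb ℓ hℓ).some, (hemb ℓ hℓ).some.injective⟩)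
  have hm : ∀ i, e i ≠ 0 → i ∈ univ.filter fun i' => p i' = p i ∧ e i' ≠ 0 := fun i hi => by
    simp [hi]
  let J : Fin R → Finset ι := fun j => univ.filter fun i => ∃ hi : e i ≠ 0,
    emb (p i) (hp i) ⟨i, hm i hi⟩ = j
  have hJ : ∀ i (hi : e i ≠ 0) (j : Fin R), i ∈ J j ↔ emb (p i) (hp i) ⟨i, hm i hi⟩ = j := by
    intro i hi j
    simp only [J, mem_filter, mem_univ, true_and]
    exact ⟨fun ⟨_, h2⟩ => h2, fun h2 => ⟨hi, h2⟩⟩
  refine ⟨fun j i => if i ∈ J j then 1 else 0, fun x => ?_⟩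
  have hco : ∀ j, Set.Pairwise (J j : Set ι) (Function.onFun Nat.Coprime fun i => p i ^ e i) := by
    intro j i hi i' hi' hne
    have h1 := mem_coe.1 hi
    have h2 := mem_coe.1 hi'
    obtain ⟨e1, f1⟩ := (mem_filter.1 h1).2
    obtain ⟨e2, f2⟩ := (mem_filter.1 h2).2
    apply Nat.Coprime.pow
    rw [Nat.coprime_primes (hp i) (hp i')]
    intro hpp
    apply hne
    have key : ∀ (ℓ : ℕ) (hℓ : ℓ.Prime) (hl : p i = ℓ) (hl' : p i' = ℓ),
        emb ℓ hℓ ⟨i, by simp [hl, e1]⟩ = j → emb ℓ hℓ ⟨i', by simp [hl', e2]⟩ = j → i = i' := by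
      intro ℓ hℓ hl hl' g1 g2
      have := hemb' ℓ hℓ (g1.trans g2.symm)
      exact congrArg Subtype.val this
    have f2' : ∀ (ℓ : ℕ) (hl : p i' = ℓ) (hℓ : ℓ.Prime),
        emb ℓ hℓ ⟨i', by simp [hl, e2]⟩ = j := by
      rintro ℓ rfl hℓ
      exact f2
    exact key (p i) (hp i) rfl hpp.symm f1 (f2' (p i) hpp.symm (hp i))
  let k : Fin R → ℕ := fun j =>
    (Nat.chineseRemainderOfFinset (fun i => (x i).val) (fun i => p i ^ e i) (J j)
      (fun i _ => pow_ne_zero _ (hp i).ne_zero) (hco j)).1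
  have hk : ∀ j, ∀ i ∈ J j, k j ≡ (x i).val [MOD p i ^ e i] := fun j =>
    (Nat.chineseRemainderOfFinset (fun i => (x i).val) (fun i => p i ^ e i) (J j)
      (fun i _ => pow_ne_zero _ (hp i).ne_zero) (hco j)).2
  refine ⟨k, ?_⟩
  funext i
  have : NeZero (p i ^ e i) := ⟨pow_ne_zero _ (hp i).ne_zero⟩
  rw [Finset.sum_apply]
  by_cases hi : e i = 0
  · have : Subsingleton (ZMod (p i ^ e i)) := by
      rw [hi, pow_zero]
      infer_instance
    exact Subsingleton.elim _ _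
  · rw [Finset.sum_eq_single (emb (p i) (hp i) ⟨i, hm i hi⟩)]
    · have h1 : i ∈ J (emb (p i) (hp i) ⟨i, hm i hi⟩) := (hJ i hi _).2 rfl
      rw [Pi.smul_apply]
      beta_reduce
      rw [if_pos h1, nsmul_eq_mul, mul_one]
      have h2 := hk _ i h1
      rw [← ZMod.natCast_eq_natCast_iff, ZMod.natCast_zmod_val] at h2
      exact h2.symm
    · intro j _ hj
      have h1 : i ∉ J j := fun h1 => hj ((hJ i hi j).1 h1).symm
      rw [Pi.smul_apply]
      beta_reduce
      rw [if_neg h1, smul_zero]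
    · intro h1
      exact absurd (mem_univ _) h1

end Gen

/-- A finite abelian group with few elements of prime order has few generators. -/
theorem gen_of_tors {G : Type*} [AddCommGroup G] [Finite G] (R : ℕ)
    (h : ∀ ℓ : ℕ, ℓ.Prime → ∀ s : Finset G, (∀ x ∈ s, ℓ • x = 0) → s.card < ℓ ^ (R + 1)) :
    ∃ g : Fin R → G, ∀ x : G, ∃ k : Fin R → ℕ, x = ∑ j, k j • g j := by
  classical
  obtain ⟨ι, _, p, hp, e, ⟨f₀⟩⟩ := AddCommGroup.equiv_directSum_zmod_of_finite G
  let f : G ≃+ ∀ i, ZMod (p i ^ e i) :=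
    f₀.trans (DirectSum.addEquivProd fun i => ZMod (p i ^ e i))
  obtain ⟨g, hg⟩ := gen_pi p e hp R fun ℓ hℓ => card_factors p e f hℓ (h ℓ hℓ)
  refine ⟨fun j => f.symm (g j), fun x => ?_⟩
  obtain ⟨k, hk⟩ := hg (f x)
  refine ⟨k, ?_⟩
  apply f.injective
  rw [hk, map_sum]
  refine Finset.sum_congr rfl fun j _ => ?_
  rw [map_nsmul, AddEquiv.apply_symm_apply]

end Pool.Agent.ECD
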