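import Pool.Agent.ECD.Params
import Pool.Agent.ECD.RankD
import Pool.Agent.ECD.RankG

/-!
# Rank bound: the groups of points are generated by a bounded number of elements
-/

set_option autoImplicit false

namespace Pool.Agent.ECD

open Finset WeierstrassCurve

theorem par_disc (x : Par) : 4 * (x.a : ZMod x.p) ^ 3 + 27 * (x.b : ZMod x.p) ^ 2 ≠ 0 := by
  intro h
  apply x.valid.disc
  rw [← ZMod.natCast_eq_zero_iff]
  push_cast
  exact h

theorem par_two (x : Par) : (2 : ZMod x.p) ≠ 0 := by
  intro h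
  have h1 : ((2 : ℕ) : ZMod x.p) = 0 := by
    push_cast
    exact h
  rw [ZMod.natCast_eq_zero_iff] at h1
  have h2 := Nat.le_of_dvd (by norm_num) h1
  have h3 := x.valid.five
  omega

theorem rank_finite (x : Par) : Finite (Pt x) := by
  refine Finite.of_injective (β := Option (ZMod x.p × ZMod x.p)) (fun P => match P with
    | .zero => none
    | .some X Y _ => some (X, Y)) ?_
  intro P Q h
  cases P with
  | zero =>
    cases Q with
    | zero => rfl
    | some X Y hXY => simp at h
  | some X Y hXY =>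
    cases Q with
    | zero => simp at h
    | some X' Y' hXY' =>
      simp only [Option.some.injEq, Prod.mk.injEq] at h
      obtain ⟨rfl, rfl⟩ := h
      rfl

/-- There is a number `R` such that the group of points of every elliptic curve over a prime field
`ZMod p`, `p ≥ 5`, is generated by `R` elements. -/
theorem ec_gen : ∃ R : ℕ, ∀ x : Par, ∃ g : Fin R → Pt x, ∀ P : Pt x, ∃ k : Fin R → ℕ,
    P = ∑ i, k i • g i := by
  obtain ⟨d, hd⟩ := tors_card
  refine ⟨d + 4, fun x => ?_⟩
  have hfin := rank_finite x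
  refine gen_of_tors (G := Pt x) (d + 4) fun ℓ hℓ s hs => ?_
  have h1 := hd (x.a : ZMod x.p) (x.b : ZMod x.p) (par_disc x) (par_two x) ℓ hℓ s hs
  have h2 : 32 ≤ ℓ ^ 5 := by
    calc 32 = 2 ^ 5 := by norm_num
      _ ≤ ℓ ^ 5 := Nat.pow_le_pow_left hℓ.two_le 5
  have h3 : 0 < ℓ ^ d := pow_pos hℓ.pos d
  calc s.card ≤ 18 * ℓ ^ d := h1
    _ < 32 * ℓ ^ d := by omega
    _ ≤ ℓ ^ 5 * ℓ ^ d := Nat.mul_le_mul_right _ h2
    _ = ℓ ^ (d + 4 + 1) := by rw [← pow_add, add_comm]

end Pool.Agent.ECD
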