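import Pool.Agent.ECD.Defs

/-!
# Package ECD-DvdTest: a divisibility test for integers given by residues

*Statement (`dvd_test`).* `S` is a finite set of primes not dividing `m > 0`, `C = ∏_(q ∈ S) q`,
`4 m (|W| + 1) ≤ C`. For `q ∈ S` let `u q < q`, `u q * m * (C / q) ≡ W` modulo `q`. Then `m ∣ W` if
and only if `∑ u q / q` is near to an integer (with precision `1 / T`, `T ≥ 8 m (#S + 1)`).

*Proof.* Let `V = ∑_(q ∈ S) u q * ∏ (S.erase q)`. For `q ∈ S` all terms but the one of `q` are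
divisible by `q`, so `V m ≡ u q * m * ∏ (S.erase q) ≡ W` modulo `q`; the primes are coprime, so
`V m ≡ W` modulo `C` (`Finset.prod_primes_dvd` or `Finset.prod_dvd_of_coprime`, with
`C = q * ∏ (S.erase q)`). Choose `V = j C + V₀` with integers `j, V₀`, `2 |V₀| ≤ C`
(`V₀ = Int.bmod V C` or: `V % C`, minus `C` if it is `> C / 2`). Then `m V₀ = W + i C` for an
integer `i`.
Let `s' = ∑_(q ∈ S) ⌊u q T / q⌋`. As `∑ u q / q = V / C` (rational numbers),
`T V / C - #S ≤ s' ≤ T V / C`, so `s' = j T + δ` with `T V₀ / C - #S ≤ δ ≤ T V₀ / C`;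
`#S ≤ T / (8 m)`.
(1) If `m ∣ W`: then `m ∣ i C`, `m` is coprime to `C`, so `m ∣ i` and (`m V₀ = W + i C` gives
`|i| C ≤ m C / 2 + |W|`, `|i| ≤ m / 2 + 1 / 4 < m`) `i = 0`, `|V₀| / C = |W| / (m C) ≤ 1 / (4
m)`. So
`|δ| ≤ T / (4 m) + T / (8 m) < T / (2 m)`. If `δ ≥ 0` then `s' % T = δ` (as `δ < T`) and the first
alternative holds; if `δ < 0` then `s' % T = T + δ` and the second one holds.
(2) If `m ∤ W`: then `m ≥ 2` and `i ≠ 0`, `m |V₀| ≥ C - |W| ≥ 3 C / 4`, `3 / (4 m) ≤ |V₀| / C ≤ 1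
/ 2`.
If `V₀ > 0`: `5 T / (8 m) ≤ δ ≤ T / 2`, so `s' % T = δ`, `δ * 2 m ≥ T` and
`(T - δ) * 2 m ≥ (T / 2) * 2 m ≥ T`. If `V₀ < 0`: `- T / 2 - T / (8 m) ≤ δ ≤ - 3 T / (4 m)`,
`s' % T = T + δ ≥ T (1 / 2 - 1 / 16)`, `(T + δ) * 2 m ≥ (7 T / 16) * 4 ≥ T`, and
`(T - (T + δ)) * 2 m = - δ * 2 m ≥ T`. So both alternatives fail. ∎

Work with rational numbers and push the casts at the end (`Nat.floor`-free: `u q * T / q` is the
natural quotient, `Nat.div_le_div…`, `(a / b : ℕ) ≤ a / b < (a / b : ℕ) + 1` in `ℚ`: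
`Nat.cast_div_le`, `Nat.lt_div_mul_add…`).

Difficulty: 1.2 h.
-/

set_option autoImplicit false

namespace Pool.Agent.ECD

open Finset

theorem dvd_test {S : Finset ℕ} (hS : ∀ q ∈ S, q.Prime) {m T : ℕ} (hm : 0 < m)
    (hmS : ∀ q ∈ S, ¬ q ∣ m) {W : ℤ} (hW : 4 * m * (W.natAbs + 1) ≤ ∏ q ∈ S, q) {u : ℕ → ℕ}
    (hu : ∀ q ∈ S, u q < q)
    (hu' : ∀ q ∈ S, ((u q * (m * ∏ q' ∈ S.erase q, q') : ℕ) : ℤ) ≡ W [ZMOD q])
    (hT : 8 * m * (S.card + 1) ≤ T) :
    (m : ℤ) ∣ W ↔ (∑ q ∈ S, u q * T / q) % T * (2 * m) < T ∨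
      (T - (∑ q ∈ S, u q * T / q) % T) * (2 * m) < T := by
  classical
  set C : ℕ := ∏ q ∈ S, q with hC
  set V : ℕ := ∑ q ∈ S, u q * ∏ q' ∈ S.erase q, q' with hV
  set s' : ℕ := ∑ q ∈ S, u q * T / q with hs
  have hCpos : 0 < C := Finset.prod_pos fun q hq => (hS q hq).pos
  have hCe : ∀ q ∈ S, q * ∏ q' ∈ S.erase q, q' = C := fun q hq =>
    Finset.mul_prod_erase S (fun x => x) hq
  -- the number `V` solves the congruence
  have h1 : (C : ℤ) ∣ (m : ℤ) * V - W := by
    rw [Int.natCast_dvd]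
    apply Finset.prod_primes_dvd _ (fun q hq => (hS q hq).prime)
    intro q hq
    rw [← Int.natCast_dvd]
    have h2 : (q : ℤ) ∣ (m : ℤ) * V - ((u q * (m * ∏ q' ∈ S.erase q, q') : ℕ) : ℤ) := by
      have h3 : V = u q * (∏ q' ∈ S.erase q, q') +
          ∑ x ∈ S.erase q, u x * ∏ q' ∈ S.erase x, q' :=
        (Finset.add_sum_erase S (fun x => u x * ∏ q' ∈ S.erase x, q') hq).symm
      have h4 : q ∣ ∑ x ∈ S.erase q, u x * ∏ q' ∈ S.erase x, q' := by
        apply Finset.dvd_sum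
        intro x hx
        apply Dvd.dvd.mul_left
        apply Finset.dvd_prod_of_mem (fun x => x)
        rw [Finset.mem_erase] at hx ⊢
        exact ⟨fun h => hx.1 h.symm, hq⟩
      have h5 : (m : ℤ) * V - ((u q * (m * ∏ q' ∈ S.erase q, q') : ℕ) : ℤ) =
          (m : ℤ) * ((∑ x ∈ S.erase q, u x * ∏ q' ∈ S.erase x, q' : ℕ) : ℤ) := by
        rw [h3]
        push_cast
        ring
      rw [h5]
      exact Dvd.dvd.mul_left (Int.natCast_dvd_natCast.2 h4) _
    have h6 : (q : ℤ) ∣ W - ((u q * (m * ∏ q' ∈ S.erase q, q') : ℕ) : ℤ) := (hu' q hq).dvd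
    have h7 := dvd_sub h2 h6
    have h8 : (m : ℤ) * V - ((u q * (m * ∏ q' ∈ S.erase q, q') : ℕ) : ℤ) -
        (W - ((u q * (m * ∏ q' ∈ S.erase q, q') : ℕ) : ℤ)) = (m : ℤ) * V - W := by ring
    rwa [h8] at h7
  -- the floors
  have hle : C * s' ≤ T * V := by
    rw [hs, hV, Finset.mul_sum, Finset.mul_sum]
    apply Finset.sum_le_sum
    intro q hq
    rw [← hCe q hq]
    calc q * (∏ q' ∈ S.erase q, q') * (u q * T / q)
        = (∏ q' ∈ S.erase q, q') * (q * (u q * T / q)) := by ring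
      _ ≤ (∏ q' ∈ S.erase q, q') * (u q * T) := Nat.mul_le_mul_left _ (Nat.mul_div_le _ _)
      _ = T * (u q * ∏ q' ∈ S.erase q, q') := by ring
  have hge : T * V ≤ C * s' + C * S.card := by
    have h2 : C * s' + C * S.card = ∑ q ∈ S, C * (u q * T / q + 1) := by
      rw [← Finset.mul_sum, Finset.sum_add_distrib, Finset.sum_const, smul_eq_mul, mul_one,
        mul_add]
    rw [h2, hV, Finset.mul_sum]
    apply Finset.sum_le_sum
    intro q hq
    rw [← hCe q hq]
    calc T * (u q * ∏ q' ∈ S.erase q, q') = (∏ q' ∈ S.erase q, q') * (u q * T) := by ring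
      _ ≤ (∏ q' ∈ S.erase q, q') * (q * (u q * T / q + 1)) :=
          Nat.mul_le_mul_left _ (Nat.lt_mul_div_succ _ (hS q hq).pos).le
      _ = q * (∏ q' ∈ S.erase q, q') * (u q * T / q + 1) := by ring
  have hcop : Nat.Coprime m C := Nat.Coprime.prod_right fun q hq =>
    ((hS q hq).coprime_iff_not_dvd.2 (hmS q hq)).symm
  -- nearest multiple
  obtain ⟨j, V0, hj, hV0a, hV0b⟩ : ∃ j V0 : ℤ, (V : ℤ) = j * C + V0 ∧ -(C : ℤ) ≤ 2 * V0 ∧
      2 * V0 ≤ C := by
    have hC0 : (0 : ℤ) < C := by exact_mod_cast hCpos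
    have e1 := Int.emod_add_mul_ediv (V : ℤ) C
    have e2 := Int.emod_nonneg (V : ℤ) hC0.ne'
    have e3 := Int.emod_lt_of_pos (V : ℤ) hC0
    by_cases h : 2 * ((V : ℤ) % C) ≤ C
    · refine ⟨(V : ℤ) / C, (V : ℤ) % C, ?_, ?_, h⟩
      · linarith [mul_comm (C : ℤ) ((V : ℤ) / C)]
      · linarith
    · refine ⟨(V : ℤ) / C + 1, (V : ℤ) % C - C, ?_, ?_, ?_⟩
      · linarith [mul_comm (C : ℤ) ((V : ℤ) / C)]
      · linarith
      · linarith
  obtain ⟨i0, hi0⟩ := h1
  obtain ⟨i, hi⟩ : ∃ i : ℤ, (m : ℤ) * V0 = W + i * C := by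
    refine ⟨i0 - m * j, ?_⟩
    have : (m : ℤ) * V = m * (j * C + V0) := by rw [← hj]
    linear_combination hi0 - this
  -- casts
  have hm1 : (1 : ℤ) ≤ m := by exact_mod_cast hm
  have hC1 : (1 : ℤ) ≤ C := by exact_mod_cast hCpos
  have hTz : 8 * (m : ℤ) * (S.card + 1) ≤ T := by exact_mod_cast hT
  have hWz : 4 * (m : ℤ) * (|W| + 1) ≤ C := by
    have h2 : ((4 * m * (W.natAbs + 1) : ℕ) : ℤ) ≤ (C : ℤ) := by exact_mod_cast hW
    rw [Int.abs_eq_natAbs]
    push_cast at h2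
    push_cast
    linarith
  have hcard : (0 : ℤ) ≤ S.card := Int.natCast_nonneg _
  have hTpos : (0 : ℤ) < T := by nlinarith only [hm1, hcard, hTz]
  have hTN : 0 < T := by exact_mod_cast hTpos
  have hlez : (C : ℤ) * s' ≤ T * V := by exact_mod_cast hle
  have hgez : (T : ℤ) * V ≤ C * s' + C * S.card := by exact_mod_cast hge
  have hWle : W ≤ |W| := le_abs_self W
  have hWge : -|W| ≤ W := neg_abs_le W
  have hWabs : (0 : ℤ) ≤ |W| := abs_nonneg W
  have h4W : 4 * |W| ≤ C := by nlinarith only [hm1, hWz, hWabs]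
  -- the deviation
  obtain ⟨δ, hδ⟩ : ∃ δ : ℤ, (s' : ℤ) = j * T + δ := ⟨s' - j * T, by ring⟩
  have hδ1 : (C : ℤ) * δ ≤ T * V0 := by
    have e1 : (C : ℤ) * s' = C * (j * T + δ) := by rw [hδ]
    have e2 : (T : ℤ) * V = T * (j * C + V0) := by rw [hj]
    linarith only [e1, e2, hlez]
  have hδ2 : (T : ℤ) * V0 - C * S.card ≤ C * δ := by
    have e1 : (C : ℤ) * s' = C * (j * T + δ) := by rw [hδ]
    have e2 : (T : ℤ) * V = T * (j * C + V0) := by rw [hj]
    linarith only [e1, e2, hgez]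
  -- the two cases of the residue
  have hmodpos : 0 ≤ δ → δ < T → ((s' % T : ℕ) : ℤ) = δ := by
    intro h0 h2
    rw [Int.natCast_mod, hδ, add_comm, Int.add_mul_emod_self_right]
    exact Int.emod_eq_of_lt h0 h2
  have hmodneg : δ < 0 → -(T : ℤ) < δ → ((s' % T : ℕ) : ℤ) = T + δ := by
    intro h0 h2
    have e1 : j * (T : ℤ) + δ = (T + δ) + (j - 1) * T := by ring
    rw [Int.natCast_mod, hδ, e1, Int.add_mul_emod_self_right]
    exact Int.emod_eq_of_lt (by linarith) (by linarith)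
  have hmodlt : s' % T < T := Nat.mod_lt _ hTN
  have hiff : (s' % T * (2 * m) < T ∨ (T - s' % T) * (2 * m) < T) ↔
      (((s' % T : ℕ) : ℤ) * (2 * m) < T ∨ ((T : ℤ) - ((s' % T : ℕ) : ℤ)) * (2 * m) < T) := by
    have e1 : ((T - s' % T : ℕ) : ℤ) = (T : ℤ) - ((s' % T : ℕ) : ℤ) := by
      rw [Nat.cast_sub hmodlt.le]
    rw [← e1]
    constructor
    · rintro (h | h)
      · left
        exact_mod_cast h
      · right
        exact_mod_cast h
    · rintro (h | h)
      · left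
        exact_mod_cast h
      · right
        exact_mod_cast h
  rw [hiff]
  have hcardT : 8 * (m : ℤ) * S.card ≤ T := by nlinarith only [hm1, hcard, hTz]
  have hmcardC : 8 * ((m : ℤ) * (C * S.card)) ≤ T * C := by
    have := mul_le_mul_of_nonneg_right hcardT (by linarith : (0 : ℤ) ≤ C)
    linarith only [this]
  constructor
  · intro hdvd
    -- `i = 0`
    have hmi : (m : ℤ) ∣ i := by
      have e1 : (m : ℤ) ∣ i * C := by
        have e2 : i * (C : ℤ) = m * V0 - W := by linarith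
        rw [e2]
        exact dvd_sub (dvd_mul_right _ _) hdvd
      have e3 : IsCoprime (m : ℤ) (C : ℤ) := Nat.isCoprime_iff_coprime.2 hcop
      exact e3.dvd_of_dvd_mul_right e1
    have hi00 : i = 0 := by
      by_contra hne
      have e1 : (m : ℤ) ≤ |i| := by
        have := Int.le_of_dvd (abs_pos.2 hne) ((dvd_abs _ _).2 hmi)
        exact this
      have e2 : |i| * C ≤ m * |V0| + |W| := by
        have e3 : i * (C : ℤ) = m * V0 - W := by linarith
        have e4 : |i| * (C : ℤ) = |m * V0 - W| := by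
          rw [← e3, abs_mul, abs_of_nonneg (by linarith : (0 : ℤ) ≤ C)]
        rw [e4]
        refine (abs_sub _ _).trans ?_
        rw [abs_mul, abs_of_nonneg (by linarith : (0 : ℤ) ≤ m)]
      have e5 : 2 * |V0| ≤ C := by
        rcases abs_cases V0 with ⟨h, _⟩ | ⟨h, _⟩ <;> rw [h] <;> linarith
      have e6 : (m : ℤ) * C ≤ |i| * C := mul_le_mul_of_nonneg_right e1 (by linarith)
      have e7 : (m : ℤ) * (2 * |V0|) ≤ m * C := mul_le_mul_of_nonneg_left e5 (by linarith)
      have e8 : (1 : ℤ) * C ≤ m * C := mul_le_mul_of_nonneg_right hm1 (by linarith)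
      linarith
    rw [hi00, zero_mul, add_zero] at hi
    -- bounds of the deviation
    have e1 : (C : ℤ) * (δ * (2 * m)) < C * T := by
      have e2 : (C : ℤ) * (δ * (2 * m)) ≤ 2 * T * W := by
        have := mul_le_mul_of_nonneg_right hδ1 (by linarith : (0 : ℤ) ≤ 2 * m)
        calc (C : ℤ) * (δ * (2 * m)) = C * δ * (2 * m) := by ring
          _ ≤ T * V0 * (2 * m) := this
          _ = 2 * T * (m * V0) := by ring
          _ = 2 * T * W := by rw [hi]
      have e3 : 2 * (T : ℤ) * W ≤ 2 * T * |W| := mul_le_mul_of_nonneg_left hWle (by linarith)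
      have e4 : (T : ℤ) * (4 * |W|) ≤ T * C := mul_le_mul_of_nonneg_left h4W hTpos.le
      have e5 : (0 : ℤ) < T * C := mul_pos hTpos (by linarith)
      linarith only [e2, e3, e4, e5]
    have e6 : δ * (2 * m) < T := lt_of_mul_lt_mul_left e1 (by linarith)
    have e7 : (C : ℤ) * (-(δ * (2 * m))) < C * T := by
      have e2 : 2 * (T : ℤ) * W - 2 * (m * (C * S.card)) ≤ (C : ℤ) * (δ * (2 * m)) := by
        have := mul_le_mul_of_nonneg_right hδ2 (by linarith : (0 : ℤ) ≤ 2 * m)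
        calc 2 * (T : ℤ) * W - 2 * (m * (C * S.card)) = (T * V0 - C * S.card) * (2 * m) := by
              rw [← hi]; ring
          _ ≤ C * δ * (2 * m) := this
          _ = (C : ℤ) * (δ * (2 * m)) := by ring
      have e3 : -(2 * (T : ℤ) * |W|) ≤ 2 * T * W := by
        have := mul_le_mul_of_nonneg_left hWge (by linarith : (0 : ℤ) ≤ 2 * T)
        linarith
      have e4 : (T : ℤ) * (4 * |W|) ≤ T * C := mul_le_mul_of_nonneg_left h4W hTpos.le
      have e5 : (0 : ℤ) < T * C := mul_pos hTpos (by linarith)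
      nlinarith only [e2, e3, e4, e5, hmcardC]
    have e8 : -(δ * (2 * m)) < T := lt_of_mul_lt_mul_left e7 (by linarith)
    rcases le_or_gt 0 δ with hpos | hneg
    · left
      rw [hmodpos hpos (by nlinarith only [e6, hpos, hm1])]
      exact e6
    · right
      rw [hmodneg hneg (by nlinarith only [e8, hneg, hm1])]
      nlinarith only [e8, hneg, hm1]
  · intro hor
    by_contra hndvd
    have hm2 : (2 : ℤ) ≤ m := by
      by_contra hlt
      have : (m : ℤ) = 1 := by linarith [Int.lt_iff_add_one_le.1 (not_le.1 hlt)]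
      exact hndvd (this ▸ one_dvd W)
    have hine : i ≠ 0 := by
      rintro rfl
      rw [zero_mul, add_zero] at hi
      exact hndvd ⟨V0, hi.symm⟩
    have hTC : (0 : ℤ) < T * C := mul_pos hTpos (by linarith)
    rcases lt_or_gt_of_ne hine with hneg | hpos
    · -- `i ≤ -1`
      have e1 : i * (C : ℤ) ≤ -1 * C := mul_le_mul_of_nonneg_right (by linarith [Int.lt_iff_add_one_le.1 hneg]) (by linarith)
      have e2 : 4 * ((m : ℤ) * V0) ≤ -(3 * C) := by linarith
      have e3 : (C : ℤ) * (δ * (2 * m)) ≤ C * (-T) := by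
        have h2 := mul_le_mul_of_nonneg_right hδ1 (by linarith : (0 : ℤ) ≤ 2 * m)
        have h3 := mul_le_mul_of_nonneg_left e2 hTpos.le
        linarith only [h2, h3, hTC]
      have e4 : δ * (2 * m) ≤ -T := le_of_mul_le_mul_left e3 (by linarith)
      have hδneg : δ < 0 := by
        by_contra h
        have := mul_nonneg (not_lt.1 h) (by linarith : (0 : ℤ) ≤ 2 * m)
        linarith
      have e5 : 16 * (S.card : ℤ) ≤ T := by nlinarith only [hm2, hcard, hcardT]
      have e6 : (C : ℤ) * (-T - 2 * S.card) ≤ C * (2 * δ) := by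
        have h3 := mul_le_mul_of_nonneg_left hV0a hTpos.le
        nlinarith only [h3, hδ2, hC1]
      have e7 : -(T : ℤ) - 2 * S.card ≤ 2 * δ := le_of_mul_le_mul_left e6 (by linarith)
      have e8 : -(T : ℤ) < δ := by linarith
      rw [hmodneg hδneg e8] at hor
      rcases hor with h | h
      · nlinarith only [h, e4, e5, e7, e8, hm2, hcard]
      · nlinarith only [h, e4, e5, e7, e8, hm2, hcard]
    · -- `i ≥ 1`
      have e1 : 1 * (C : ℤ) ≤ i * C := mul_le_mul_of_nonneg_right (by linarith [Int.lt_iff_add_one_le.1 hpos]) (by linarith)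
      have e2 : 3 * (C : ℤ) ≤ 4 * ((m : ℤ) * V0) := by linarith
      have e3 : (C : ℤ) * T ≤ (C : ℤ) * (δ * (2 * m)) := by
        have h2 := mul_le_mul_of_nonneg_right hδ2 (by linarith : (0 : ℤ) ≤ 2 * m)
        have h3 := mul_le_mul_of_nonneg_left e2 hTpos.le
        nlinarith only [h2, h3, hmcardC]
      have e4 : (T : ℤ) ≤ δ * (2 * m) := le_of_mul_le_mul_left e3 (by linarith)
      have hδpos : 0 < δ := by
        by_contra h
        have := mul_nonneg (by linarith : (0 : ℤ) ≤ -δ) (by linarith : (0 : ℤ) ≤ 2 * m)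
        linarith
      have e6 : (C : ℤ) * (2 * δ) ≤ C * T := by
        have h3 := mul_le_mul_of_nonneg_left hV0b hTpos.le
        linarith only [h3, hδ1]
      have e7 : 2 * δ ≤ T := le_of_mul_le_mul_left e6 (by linarith)
      rw [hmodpos hδpos.le (by linarith)] at hor
      rcases hor with h | h
      · linarith
      · nlinarith only [h, e4, e7, hm2]

end Pool.Agent.ECD
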