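import Pool.Agent.ECD.PowMod

/-!
# Inverses, orders and iterated powers in families of groups with definable products
-/

set_option autoImplicit false

namespace Pool.Agent.ECD

open Finset Pool.Agent.Grz Pool.Agent.GAvg Pool.Agent.PTr Pool.Agent.MTr Pool.Agent.LPC

variable {r : ℕ} (Φ : GFam r) {n : ℕ} {σ : Fin r → (Fin n → ℕ) → ℕ}

theorem GFam.ginv (hσ : ∀ i, DFun n (σ i)) {g : ∀ u : Fin n → ℕ, Φ.G (fun i => σ i u)}
    (hg : DFun n (fun u => Φ.enc _ (g u))) : DFun n (fun u => Φ.enc _ (g u)⁻¹) := by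
  have hσ1 : ∀ i, DFun (n + 1) (fun w : Fin (n + 1) → ℕ => σ i (fun j => w j.succ)) :=
    fun i => (hσ i).weak
  refine DFun.ofGraph (b := fun u => Φ.N (fun i => σ i u)) (Φ.hN.comp hσ) (fun u => Φ.bd _ _)
    (((Φ.gmem hσ1 (DFun.proj 0)).and (Φ.geq (σ := fun i w => σ i (fun j => w j.succ))
      (Φ.gmul hσ1 (P := fun w => g fun j => w j.succ) hg.weak (Φ.gdec hσ1 (DFun.proj 0)))
      (Φ.gone hσ1))).of_iff fun w => ?_)
  constructor
  · intro h
    refine ⟨⟨_, h.symm⟩, ?_⟩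
    rw [h]
    show _ * Φ.dec _ (Φ.enc _ _) = _
    rw [Φ.dec_enc, mul_inv_cancel]
  · rintro ⟨h1, h2⟩
    rw [← Φ.enc_dec h1]
    exact congrArg (Φ.enc _) (eq_inv_of_mul_eq_one_right h2)

theorem GFam.gord (hσ : ∀ i, DFun n (σ i)) {g : ∀ u : Fin n → ℕ, Φ.G (fun i => σ i u)}
    (hg : DFun n (fun u => Φ.enc _ (g u))) : DFun n (fun u => orderOf (g u)) := by
  have hσ1 : ∀ i, DFun (n + 1) (fun w : Fin (n + 1) → ℕ => σ i (fun j => w j.succ)) :=
    fun i => (hσ i).weak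
  have hσ2 : ∀ i, DFun (n + 1 + 1) (fun w : Fin (n + 1 + 1) → ℕ => σ i (fun j => w j.succ.succ)) :=
    fun i => (hσ1 i).weak
  have hg1 : DFun (n + 1) (fun w : Fin (n + 1) → ℕ => Φ.enc _ (g (fun j => w j.succ))) := hg.weak
  have hg2 : DFun (n + 1 + 1)
      (fun w : Fin (n + 1 + 1) → ℕ => Φ.enc _ (g (fun j => w j.succ.succ))) := hg1.weak
  have hb : DFun n (fun u => Φ.N (fun i => σ i u) + 1) := (Φ.hN.comp hσ).add (DFun.const 1)
  refine DFun.ofGraph hb (fun u => ?_) ?_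
  · exact (orderOf_le_card (x := g u)).trans (Φ.card_le _)
  · have e1 : Delta0 (n + 1) (fun w : Fin (n + 1) → ℕ => 0 < w 0) :=
      Delta0.ltFun (DFun.const 0) (DFun.proj 0)
    have e2 : Delta0 (n + 1) (fun w : Fin (n + 1) → ℕ => g (fun j => w j.succ) ^ w 0 = 1) :=
      Φ.geq (Φ.gpow hσ1 hg1 (DFun.proj 0)) (Φ.gone hσ1)
    have e3 : Delta0 (n + 1 + 1)
        (fun w : Fin (n + 1 + 1) → ℕ => g (fun j => w j.succ.succ) ^ w 0 = 1) :=
      Φ.geq (Φ.gpow hσ2 hg2 (DFun.proj 0)) (Φ.gone hσ2)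
    have e4 : Delta0 (n + 1) (fun w : Fin (n + 1) → ℕ => ∀ m, m ≤ w 0 →
        (m < w 0 → 0 < m → ¬ g (fun j => w j.succ) ^ m = 1)) := by
      refine Delta0.ballFun (b := fun w : Fin (n + 1) → ℕ => w 0)
        (P := fun m w => m < w 0 → 0 < m → ¬ g (fun j => w j.succ) ^ m = 1) (DFun.proj 0) ?_
      exact (Delta0.ltFun (DFun.proj 0) (DFun.proj 1)).imp
        ((Delta0.ltFun (DFun.const 0) (DFun.proj 0)).imp e3.not)
    refine (e1.and (e2.and e4)).of_iff fun w => ?_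
    have hpos : 0 < orderOf (g (fun j => w j.succ)) := orderOf_pos _
    constructor
    · intro h
      have h1 : 0 < w 0 := by rw [h]; exact hpos
      obtain ⟨h2, h3⟩ := (orderOf_eq_iff h1).1 h.symm
      exact ⟨h1, h2, fun m _ hm hm0 => h3 m hm hm0⟩
    · rintro ⟨h1, h2, h3⟩
      exact ((orderOf_eq_iff h1).2 ⟨h2, fun m hm hm0 => h3 m hm.le hm hm0⟩).symm

/-- `g ^ (a ^ t)` -/
theorem GFam.gpp (hσ : ∀ i, DFun n (σ i)) {g : ∀ u : Fin n → ℕ, Φ.G (fun i => σ i u)}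
    {a t : (Fin n → ℕ) → ℕ} (hg : DFun n (fun u => Φ.enc _ (g u))) (ha : DFun n a)
    (ht : DFun n t) : DFun n (fun u => Φ.enc _ (g u ^ (a u ^ t u))) := by
  have ho := Φ.gord hσ hg
  have hp : DFun n (fun u => a u ^ t u % orderOf (g u)) :=
    pow_mod_def ha ht ho fun u => orderOf_pos _
  have h := Φ.gpow hσ hg hp
  have e : (fun u => Φ.enc (fun i => σ i u) (g u ^ (a u ^ t u))) =
      fun u => Φ.enc (fun i => σ i u) (g u ^ (a u ^ t u % orderOf (g u))) := by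
    funext u
    rw [pow_mod_orderOf]
  rw [e]
  exact h

end Pool.Agent.ECD
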