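import Pool.Agent.ECD.GLCode
import Pool.Agent.ECD.DvdDef
import Pool.Agent.LPC.RecPolyA

/-!
# The function `(a, t, M) ↦ a ^ t % M`

* Small exponents (`smallPow`): `y = a ^ t % M` iff `y < M` and `M` divides
  `(a % M) ^ t - y`; the residues of this integer modulo small primes are definable (`rec_poly`),
  so `dvd_def` applies.
* Coprime case (`coprimePow`): powers in `GL_1(ℤ/M)`.
* General case: `L = lg M + 1`, `D = gcd(a ^ L, M)`, `M' = M / D`. Then `a` is prime to `M'` and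
  `D`, `M'` are coprime. For `t ≥ L` the number `a ^ t % M` is the `y < M` with `D ∣ y` and
  `y % M' = a ^ t % M'`.
-/

set_option autoImplicit false

namespace Pool.Agent.ECD

open Finset Pool.Agent.Grz Pool.Agent.GAvg Pool.Agent.PTr Pool.Agent.MTr Pool.Agent.LPC

/-! ### Arithmetic -/

private theorem pm_coprime {a M L : ℕ} (hM : 0 < M) (hL : M < 2 ^ L) :
    Nat.Coprime a (M / Nat.gcd (a ^ L) M) := by
  refine Nat.Coprime.symm (Nat.coprime_of_dvd ?_)
  intro p hp hpM hpa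
  have hD : Nat.gcd (a ^ L) M ∣ M := Nat.gcd_dvd_right _ _
  obtain ⟨v, m, hm, hv⟩ := Nat.exists_eq_pow_mul_and_not_dvd hM.ne' p hp.ne_one
  have h1 : p ^ v ∣ M := ⟨m, hv⟩
  have h2 : v ≤ L := by
    by_contra h
    have h3 : 2 ^ L ≤ p ^ v := (Nat.pow_le_pow_right (by norm_num) (by omega : L ≤ v)).trans
      (Nat.pow_le_pow_left hp.two_le v)
    have h4 := Nat.le_of_dvd hM h1
    omega
  have h3 : p ^ v ∣ a ^ L := (pow_dvd_pow_of_dvd hpa v).trans (pow_dvd_pow a h2)
  have h4 : p ^ v ∣ Nat.gcd (a ^ L) M := Nat.dvd_gcd h3 h1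
  have h5 : p ^ v * p ∣ M := by
    have h6 := mul_dvd_mul h4 hpM
    rwa [Nat.mul_div_cancel' hD] at h6
  rw [hv] at h5
  have h6 := Nat.dvd_of_mul_dvd_mul_left (pow_pos hp.pos v) h5
  exact hm h6

private theorem pm_coprime' {a M L : ℕ} (hM : 0 < M) (hL : M < 2 ^ L) :
    Nat.Coprime (Nat.gcd (a ^ L) M) (M / Nat.gcd (a ^ L) M) :=
  Nat.Coprime.coprime_dvd_left (Nat.gcd_dvd_left _ _) ((pm_coprime hM hL).pow_left L)

private theorem pm_iff {a M L t y : ℕ} (hM : 0 < M) (hL : M < 2 ^ L) (ht : L ≤ t) :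
    y = a ^ t % M ↔ y < M ∧ Nat.gcd (a ^ L) M ∣ y ∧
      y % (M / Nat.gcd (a ^ L) M) = a ^ t % (M / Nat.gcd (a ^ L) M) := by
  have hD : Nat.gcd (a ^ L) M ∣ M := Nat.gcd_dvd_right _ _
  have hDt : Nat.gcd (a ^ L) M ∣ a ^ t := (Nat.gcd_dvd_left _ _).trans (pow_dvd_pow a ht)
  have hM' : M / Nat.gcd (a ^ L) M ∣ M := Nat.div_dvd_of_dvd hD
  constructor
  · rintro rfl
    refine ⟨Nat.mod_lt _ hM, ?_, Nat.mod_mod_of_dvd _ hM'⟩
    exact (Nat.dvd_mod_iff hD).2 hDt
  · rintro ⟨h1, h2, h3⟩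
    have h4 : y ≡ a ^ t [MOD Nat.gcd (a ^ L) M] := by
      have h5 := (Nat.modEq_zero_iff_dvd).2 h2
      exact h5.trans ((Nat.modEq_zero_iff_dvd).2 hDt).symm
    have h6 : y ≡ a ^ t [MOD Nat.gcd (a ^ L) M * (M / Nat.gcd (a ^ L) M)] :=
      (Nat.modEq_and_modEq_iff_modEq_mul (pm_coprime' hM hL)).1 ⟨h4, h3⟩
    rw [Nat.mul_div_cancel' hD] at h6
    rw [← Nat.mod_eq_of_lt h1]
    exact h6

/-! ### The coprime case -/

/-- the unit `a` of `ℤ/(m + 1)` as a matrix -/
private noncomputable def unitGL {a m : ℕ} (h : Nat.Coprime a (m + 1)) :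
    GL (Fin 1) (ZMod (m + 1)) :=
  Units.map (Matrix.scalar (Fin 1)).toMonoidHom (ZMod.unitOfCoprime a h)

private theorem unitGL_pow {a m : ℕ} (h : Nat.Coprime a (m + 1)) (t : ℕ) :
    (((unitGL h ^ t : GL (Fin 1) (ZMod (m + 1))) :
      Matrix (Fin 1) (Fin 1) (ZMod (m + 1))) 0 0).val = a ^ t % (m + 1) := by
  have h1 : ((unitGL h ^ t : GL (Fin 1) (ZMod (m + 1))) :
      Matrix (Fin 1) (Fin 1) (ZMod (m + 1))) 0 0 = ((a ^ t : ℕ) : ZMod (m + 1)) := by
    rw [unitGL, ← map_pow]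
    change (Matrix.scalar (Fin 1) ((ZMod.unitOfCoprime a h ^ t : (ZMod (m + 1))ˣ) :
      ZMod (m + 1))) 0 0 = _
    rw [Matrix.scalar_apply, Matrix.diagonal_apply_eq, Units.val_pow_eq_pow_val,
      ZMod.coe_unitOfCoprime, Nat.cast_pow]
  rw [h1, ZMod.val_natCast]

private theorem coprimePow {n : ℕ} {a t M : (Fin n → ℕ) → ℕ} (ha : DFun n a) (ht : DFun n t)
    (hM : DFun n M) (h : ∀ u, Nat.Coprime (a u) (M u + 1)) :
    DFun n (fun u => a u ^ t u % (M u + 1)) := by
  have h1 := gl_npow (n := 1) (A := fun u => unitGL (h u)) hM ht (fun i j => by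
    have hi : i = 0 := Subsingleton.elim _ _
    have hj : j = 0 := Subsingleton.elim _ _
    subst hi
    subst hj
    have h2 : (fun u => ((unitGL (h u) : Matrix (Fin 1) (Fin 1) (ZMod (M u + 1))) 0 0).val) =
        fun u => a u % (M u + 1) := by
      funext u
      have h3 := unitGL_pow (h u) 1
      rwa [pow_one, pow_one] at h3
    rw [h2]
    exact DFun.mod ha hM) 0 0
  have h2 : (fun u => a u ^ t u % (M u + 1)) = fun u =>
      (((unitGL (h u) ^ t u : GL (Fin 1) (ZMod (M u + 1))) :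
      Matrix (Fin 1) (Fin 1) (ZMod (M u + 1))) 0 0).val := by
    funext u
    rw [unitGL_pow]
  rw [h2]
  exact h1

/-! ### Small exponents -/

/-- `a ^ t % q` for small `q` and `t` -/
private theorem pm_small {n : ℕ} (K : ℕ) {a t q N : (Fin n → ℕ) → ℕ} (ha : DFun n a)
    (ht : DFun n t) (hq : DFun n q) (hN : DFun n N) (hq0 : ∀ u, 0 < q u)
    (htb : ∀ u, t u ≤ (lg (N u) + 1) ^ K) (hqb : ∀ u, q u ≤ (lg (N u) + 1) ^ K) :
    DFun n (fun u => a u ^ t u % q u) := by
  refine rec_poly (r := n) K (A := fun u => 1 % q u) (L := t) (N := N)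
    (H := fun _ x u => x * a u % q u) (f := fun j u => a u ^ j % q u)
    (DFun.modPos (DFun.const 1) hq hq0) ht hN ?_ ?_ ?_ htb ?_
  · exact DFun.modPos ((DFun.proj 1).mul ha.weak.weak) hq.weak.weak fun w => hq0 _
  · intro u
    rw [pow_zero]
  · intro u j _
    rw [pow_succ, Nat.mod_mul_mod]
  · intro u j _
    exact (Nat.mod_lt _ (hq0 u)).le.trans (hqb u)

private theorem smallPow {n : ℕ} {a t M : (Fin n → ℕ) → ℕ} (ha : DFun n a) (ht : DFun n t)
    (hM : DFun n M) (hM0 : ∀ u, 0 < M u) (hb : ∀ u, t u ≤ lg (M u) + 1) :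
    DFun n (fun u => a u ^ t u % M u) := by
  obtain ⟨K₂, hK⟩ := dvd_def 2
  have hlM : ∀ u, M u < 2 ^ (lg (M u) + 1) := fun u => lt_two_pow_lg _
  have key := hK (r := n + 1) (m := fun w => M (fun i => w i.succ))
    (N := fun w => M (fun i => w i.succ))
    (W := fun w => ((a (fun i => w i.succ) % M (fun i => w i.succ)) ^ t (fun i => w i.succ) : ℕ) -
      ((min (w 0) (M fun i => w i.succ) : ℕ) : ℤ))
    (R := fun q w => (a (fun i => w i.succ) % M (fun i => w i.succ)) ^ t (fun i => w i.succ) %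
      (min q (lp (M fun i => w i.succ) K₂) - 1 + 1) +
      ((min q (lp (M fun i => w i.succ) K₂) - 1 + 1) * (min (w 0) (M fun i => w i.succ)) -
        (min (w 0) (M fun i => w i.succ))))
    hM.weak hM.weak (fun w => hM0 _) (fun w => le_rfl) ?_ ?_ ?_
  · refine DFun.ofGraph (b := M) hM (fun u => (Nat.mod_lt _ (hM0 u)).le) ?_
    refine ((Delta0.ltFun (DFun.proj 0) hM.weak).and key).of_iff fun w => ?_
    constructor
    · intro h
      have h1 : w 0 < M fun i => w i.succ := by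
        rw [h]
        exact Nat.mod_lt _ (hM0 _)
      refine ⟨h1, ?_⟩
      rw [min_eq_left h1.le, h]
      refine (Int.natCast_dvd_natCast.2 (Nat.dvd_refl _)).trans ?_
      refine Int.ModEq.dvd ?_
      refine (Int.natCast_modEq_iff).2 ?_
      have h2 : a (fun i => w i.succ) ^ t (fun i => w i.succ) % M (fun i => w i.succ) ≡
          a (fun i => w i.succ) ^ t (fun i => w i.succ) [MOD M fun i => w i.succ] :=
        Nat.mod_modEq _ _
      exact h2.trans ((Nat.mod_modEq _ _).symm.pow _)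
    · rintro ⟨h1, h2⟩
      rw [min_eq_left h1.le] at h2
      have h3 := (Int.natCast_modEq_iff).1 ((Int.modEq_iff_dvd).2 h2)
      have h4 := h3.trans ((Nat.mod_modEq (a fun i => w i.succ) (M fun i => w i.succ)).pow _)
      have h5 : w 0 % M (fun i => w i.succ) =
        a (fun i => w i.succ) ^ t (fun i => w i.succ) % M (fun i => w i.succ) := h4
      rwa [Nat.mod_eq_of_lt h1] at h5
  · have hq : DFun (n + 1 + 1) (fun w => min (w 0)
        (lp (M fun i => w i.succ.succ) K₂) - 1 + 1) :=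
      ((DFun.min (DFun.proj 0) (DFun.powConst
        ((DFun.lg hM.weak.weak).add (DFun.const 2)) K₂)).sub (DFun.const 1)).add (DFun.const 1)
    have hy : DFun (n + 1 + 1) (fun w => min (w 1) (M fun i => w i.succ.succ)) :=
      DFun.min (DFun.proj 1) hM.weak.weak
    have hlg : ∀ x : ℕ, lg x + 2 ≤ lg (2 * x + 2) + 1 := by
      intro x
      have h1 : lg (2 * x + 2) = lg (x + 1) + 1 := by
        have h2 : 2 * x + 2 = (x + 1) * 2 := by ring
        rw [h2]
        exact Nat.log_mul_base (by norm_num) (by omega)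
      have h3 : lg x ≤ lg (x + 1) := Nat.log_mono_right (by omega)
      omega
    have h1 := pm_small (n := n + 1 + 1) (K₂ + 1)
      (a := fun w => a (fun i => w i.succ.succ) % M (fun i => w i.succ.succ))
      (t := fun w => t (fun i => w i.succ.succ))
      (q := fun w => min (w 0) (lp (M fun i => w i.succ.succ) K₂) - 1 + 1)
      (N := fun w => 2 * M (fun i => w i.succ.succ) + 2)
      (DFun.modPos ha hM hM0).weak.weak ht.weak.weak hq
      (((DFun.const 2).mul hM.weak.weak).add (DFun.const 2))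
      (fun w => Nat.succ_pos _) (fun w => ?_) (fun w => ?_)
    · exact h1.add ((hq.mul hy).sub hy)
    · refine (hb _).trans ?_
      have h2 := hlg (M fun i => w i.succ.succ)
      refine le_trans (by omega) (Nat.le_self_pow (Nat.succ_ne_zero K₂) _)
    · have h2 := hlg (M fun i => w i.succ.succ)
      have h3 : (1 : ℕ) ≤ lp (M fun i => w i.succ.succ) K₂ := Nat.one_le_pow _ _ (by omega)
      have h4 : min (w 0) (lp (M fun i => w i.succ.succ) K₂) ≤
        lp (M fun i => w i.succ.succ) K₂ := min_le_right _ _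
      have h5 : lp (M fun i => w i.succ.succ) K₂ ≤
          (lg (2 * M (fun i => w i.succ.succ) + 2) + 1) ^ (K₂ + 1) := by
        rw [lp]
        exact (Nat.pow_le_pow_left h2 K₂).trans (Nat.pow_le_pow_right (by omega) (by omega))
      omega
  · intro w
    have h1 := hlM (fun i => w i.succ)
    have h2 := hb (fun i => w i.succ)
    have h3 : a (fun i => w i.succ) % M (fun i => w i.succ) < M (fun i => w i.succ) :=
      Nat.mod_lt _ (hM0 _)
    have h4 : (a (fun i => w i.succ) % M (fun i => w i.succ)) ^ t (fun i => w i.succ) ≤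
        2 ^ ((lg (M fun i => w i.succ) + 1) * (lg (M fun i => w i.succ) + 1)) := by
      refine (Nat.pow_le_pow_left (h3.trans h1).le _).trans ?_
      rw [← pow_mul]
      exact Nat.pow_le_pow_right (by norm_num) (Nat.mul_le_mul_left _ h2)
    have h5 : min (w 0) (M fun i => w i.succ) ≤
        2 ^ ((lg (M fun i => w i.succ) + 1) * (lg (M fun i => w i.succ) + 1)) := by
      refine (min_le_right _ _).trans (h1.le.trans ?_)
      exact Nat.pow_le_pow_right (by norm_num) (Nat.le_mul_of_pos_left _ (Nat.succ_pos _))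
    have h6 : 2 ^ ((lg (M fun i => w i.succ) + 1) * (lg (M fun i => w i.succ) + 1)) <
        2 ^ lp (M fun i => w i.succ) 2 := by
      refine Nat.pow_lt_pow_right (by norm_num) ?_
      rw [lp]
      nlinarith
    omega
  · intro w q hq hqK
    have h1 : min q (lp (M fun i => w i.succ) K₂) - 1 + 1 = q := by
      rw [min_eq_left hqK, Nat.sub_add_cancel hq.one_lt.le]
    rw [h1]
    have h2 : min (w 0) (M fun i => w i.succ) ≤ q * min (w 0) (M fun i => w i.succ) :=
      Nat.le_mul_of_pos_left _ hq.pos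
    push_cast [Nat.cast_sub h2]
    have h3 : ((a (fun i => w i.succ) % M (fun i => w i.succ)) ^ t (fun i => w i.succ) % q : ℤ) ≡
        ((a (fun i => w i.succ) % M (fun i => w i.succ)) ^ t (fun i => w i.succ) : ℤ)
          [ZMOD q] := Int.mod_modEq _ _
    have h4 : (q * (min (w 0) (M fun i => w i.succ) : ℤ) - min (w 0) (M fun i => w i.succ) : ℤ) ≡
        0 - min (w 0) (M fun i => w i.succ) [ZMOD q] :=
      Int.ModEq.sub_right _ ((Int.modEq_zero_iff_dvd).2 (Dvd.intro _ rfl))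
    have h5 := h3.add h4
    rw [zero_sub, ← sub_eq_add_neg] at h5
    push_cast at h5
    exact h5

/-! ### The general case -/

private theorem pm_gcd {n : ℕ} {x y : (Fin n → ℕ) → ℕ} (hx : DFun n x) (hy : DFun n y)
    (hy0 : ∀ u, 0 < y u) : DFun n (fun u => Nat.gcd (x u) (y u)) := by
  have hdvd : ∀ {m : ℕ} {f g : (Fin m → ℕ) → ℕ}, DFun m f → DFun m g →
      Delta0 m (fun v => f v ∣ g v) := fun hf hg =>
    (Delta0.eqFun (DFun.modAny hg hf) (DFun.const 0)).of_iff fun _ => Nat.dvd_iff_mod_eq_zero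
  refine DFun.ofGraph (b := y) hy (fun u => Nat.le_of_dvd (hy0 u) (Nat.gcd_dvd_right _ _)) ?_
  have h1 : Delta0 (n + 1) (fun w => ∀ d, d ≤ y (fun i => w i.succ) →
      (d ∣ x (fun i => w i.succ) → d ∣ y (fun i => w i.succ) → d ∣ w 0)) :=
    Delta0.ballFun (P := fun d w => d ∣ x (fun i => w i.succ) → d ∣ y (fun i => w i.succ) →
      d ∣ w 0) hy.weak ((hdvd (DFun.proj 0) hx.weak.weak).imp
        ((hdvd (DFun.proj 0) hy.weak.weak).imp (hdvd (DFun.proj 0) (DFun.proj 1))))
  refine ((hdvd (DFun.proj 0) hx.weak).and ((hdvd (DFun.proj 0) hy.weak).and h1)).of_iff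
    fun w => ?_
  constructor
  · intro h
    rw [h]
    exact ⟨Nat.gcd_dvd_left _ _, Nat.gcd_dvd_right _ _, fun d _ h1 h2 => Nat.dvd_gcd h1 h2⟩
  · rintro ⟨h1, h2, h3⟩
    exact Nat.dvd_antisymm (Nat.dvd_gcd h1 h2) (h3 _
      (Nat.le_of_dvd (hy0 _) (Nat.gcd_dvd_right _ _)) (Nat.gcd_dvd_left _ _)
      (Nat.gcd_dvd_right _ _))

theorem pow_mod_def {n : ℕ} {a t M : (Fin n → ℕ) → ℕ} (ha : DFun n a) (ht : DFun n t)
    (hM : DFun n M) (hM0 : ∀ u, 0 < M u) : DFun n (fun u => a u ^ t u % M u) := by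
  obtain ⟨L, hL⟩ : ∃ L : (Fin n → ℕ) → ℕ, L = fun u => lg (M u) + 1 := ⟨_, rfl⟩
  have hLd : DFun n L := by
    rw [hL]
    exact (DFun.lg hM).add (DFun.const 1)
  have hLM : ∀ u, M u < 2 ^ L u := fun u => by
    rw [hL]
    exact lt_two_pow_lg _
  obtain ⟨D, hD⟩ : ∃ D : (Fin n → ℕ) → ℕ, D = fun u => Nat.gcd (a u ^ L u) (M u) := ⟨_, rfl⟩
  have hDd : DFun n D := by
    have h1 : D = fun u => Nat.gcd (a u ^ L u % M u) (M u) := by
      rw [hD]
      funext u
      rw [Nat.gcd_comm, Nat.gcd_rec]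
    rw [h1]
    exact pm_gcd (smallPow ha hLd hM hM0 fun u => by rw [hL]) hM hM0
  have hD0 : ∀ u, 0 < D u := fun u => by
    rw [hD]
    exact Nat.gcd_pos_of_pos_right _ (hM0 u)
  have hQ : DFun n (fun u => M u / D u) := DFun.divPos hM hDd hD0
  have hQ0 : ∀ u, 0 < M u / D u := fun u =>
    Nat.div_pos (Nat.le_of_dvd (hM0 u) (by rw [hD]; exact Nat.gcd_dvd_right _ _)) (hD0 u)
  have hc : ∀ u, Nat.Coprime (a u) (M u / D u) := fun u => by
    rw [hD]
    exact pm_coprime (hM0 u) (hLM u)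
  have h1 : DFun n (fun u => a u ^ t u % (M u / D u)) := by
    have h2 := coprimePow (M := fun u => M u / D u - 1) ha ht (hQ.sub (DFun.const 1))
      (fun u => by
        rw [Nat.sub_add_cancel (hQ0 u)]
        exact hc u)
    have e : (fun u => a u ^ t u % (M u / D u)) = fun u => a u ^ t u % (M u / D u - 1 + 1) := by
      funext u
      rw [Nat.sub_add_cancel (hQ0 u)]
    rw [e]
    exact h2
  have h2 : DFun n (fun u => a u ^ min (t u) (L u) % M u) :=
    smallPow ha (DFun.min ht hLd) hM hM0 fun u => (min_le_right _ _).trans (by rw [hL])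
  have hdvd : Delta0 (n + 1) (fun w => D (fun i => w i.succ) ∣ w 0) :=
    (Delta0.eqFun (DFun.modAny (DFun.proj 0) hDd.weak) (DFun.const 0)).of_iff fun _ =>
      Nat.dvd_iff_mod_eq_zero
  have h3 : Delta0 (n + 1) (fun w =>
      (t (fun i => w i.succ) ≤ L (fun i => w i.succ) →
        w 0 = a (fun i => w i.succ) ^ min (t fun i => w i.succ) (L fun i => w i.succ) %
          M (fun i => w i.succ)) ∧
      (¬ t (fun i => w i.succ) ≤ L (fun i => w i.succ) →
        w 0 < M (fun i => w i.succ) ∧ D (fun i => w i.succ) ∣ w 0 ∧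
        w 0 % (M (fun i => w i.succ) / D (fun i => w i.succ)) =
          a (fun i => w i.succ) ^ t (fun i => w i.succ) %
            (M (fun i => w i.succ) / D (fun i => w i.succ)))) :=
    ((Delta0.leFun ht.weak hLd.weak).imp (Delta0.eqFun (DFun.proj 0) h2.weak)).and
      ((Delta0.leFun ht.weak hLd.weak).not.imp ((Delta0.ltFun (DFun.proj 0) hM.weak).and
        (hdvd.and (Delta0.eqFun (DFun.modPos (DFun.proj 0) hQ.weak fun w => hQ0 _) h1.weak))))
  refine DFun.ofGraph (b := M) hM (fun u => (Nat.mod_lt _ (hM0 u)).le) (h3.of_iff fun w => ?_)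
  by_cases h : t (fun i => w i.succ) ≤ L (fun i => w i.succ)
  · rw [min_eq_left h]
    exact ⟨fun h4 => ⟨fun _ => h4, fun h5 => absurd h h5⟩, fun h4 => h4.1 h⟩
  · have h4 := pm_iff (a := a (fun i => w i.succ)) (t := t (fun i => w i.succ)) (y := w 0)
      (hM0 (fun i => w i.succ)) (hLM _) (le_of_not_ge h)
    rw [hD]
    exact ⟨fun h5 => ⟨fun h6 => absurd h6 h, fun _ => h4.1 h5⟩, fun h5 => h4.2 (h5.2 h)⟩

end Pool.Agent.ECD
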