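import Pool.Agent.ECD.AlgDefs

/-!
# The codes of the elements of families of algebraic groups
-/

set_option autoImplicit false

namespace Pool.Agent.ECD

open Finset Pool.Agent.Grz Pool.Agent.GAvg Pool.Agent.PTr Pool.Agent.MTr Pool.Agent.LPC

theorem AlgFam.enc_range {r d e τ : ℕ} (Φ : AlgFam r d e τ) (v : Fin r → ℕ) (g : Φ.G v) :
    Φ.enc v g = ∑ i ∈ range d, (if h : i < d then Φ.pt v g ⟨i, h⟩ else 0) * Φ.m v ^ i := by
  rw [AlgFam.enc, ← Fin.sum_univ_eq_sum_range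
    (fun i => (if h : i < d then Φ.pt v g ⟨i, h⟩ else 0) * Φ.m v ^ i)]
  refine Finset.sum_congr rfl fun i _ => ?_
  rw [dif_pos i.isLt]

/-- the coordinates are the digits of the code -/
theorem AlgFam.enc_dig {r d e τ : ℕ} (Φ : AlgFam r d e τ) (v : Fin r → ℕ) (g : Φ.G v)
    (i : Fin d) : dig (Φ.m v) (Φ.enc v g) i = Φ.pt v g i := by
  rw [Φ.enc_range, dig_sum (Φ.mpos v) (fun i => if h : i < d then Φ.pt v g ⟨i, h⟩ else 0) ?_ i.isLt]
  · rw [dif_pos i.isLt]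
  · intro j hj
    rw [dif_pos hj]
    exact Φ.pt_lt v g _

theorem AlgFam.enc_lt {r d e τ : ℕ} (Φ : AlgFam r d e τ) (v : Fin r → ℕ) (g : Φ.G v) :
    Φ.enc v g < Φ.m v ^ d := by
  rw [Φ.enc_range]
  refine GAvg.sum_lt (Φ.mpos v) (fun i => if h : i < d then Φ.pt v g ⟨i, h⟩ else 0) ?_
  intro j hj
  rw [dif_pos hj]
  exact Φ.pt_lt v g _

theorem AlgFam.enc_inj {r d e τ : ℕ} (Φ : AlgFam r d e τ) (v : Fin r → ℕ) :
    Function.Injective (Φ.enc v) := by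
  intro g h hgh
  refine Φ.sep v g h 1 fun i => ?_
  rw [← Φ.enc_dig v g i, ← Φ.enc_dig v h i, hgh, Units.val_one, one_mul]

theorem AlgFam.one_lt_pow {r d e τ : ℕ} (Φ : AlgFam r d e τ) (v : Fin r → ℕ) (i : ℕ) :
    0 < Φ.m v ^ i := pow_pos (Φ.mpos v) i

/-- the coordinates of a definable element are definable -/
theorem AlgFam.pt_def {r d e τ : ℕ} (Φ : AlgFam r d e τ) {n : ℕ} {σ : Fin r → (Fin n → ℕ) → ℕ}
    (hσ : ∀ i, DFun n (σ i)) {g : ∀ u : Fin n → ℕ, Φ.G (fun i => σ i u)}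
    (hg : DFun n (fun u => Φ.enc _ (g u))) (i : Fin d) :
    DFun n (fun u => Φ.pt (fun i => σ i u) (g u) i) := by
  have hm : DFun n (fun u => Φ.m (fun i => σ i u)) := Φ.hm.comp hσ
  have h1 := DFun.modAny (DFun.divPos hg (DFun.powConst hm (i : ℕ)) fun u =>
    Φ.one_lt_pow _ _) hm
  refine (show (fun u => Φ.pt (fun i => σ i u) (g u) i) = _ from ?_) ▸ h1
  funext u
  exact (Φ.enc_dig (fun i => σ i u) (g u) i).symm

end Pool.Agent.ECD
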