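import Pool.Agent.ECD.Defs

/-!
# Package ECD-PrimeCt: there are many small primes

*Statement (`primes_many`).* There are at least `A` primes below `16 A ^ 2 + 3`.

*Proof.* `A = 0` is trivial. Let `n = 8 A ^ 2`, `1 ≤ n`. `2 ^ n ≤ centralBinom n`
(`Pool.Agent.PTr.two_pow_le_centralBinom`). `centralBinom n = ∏_(p < 2 n + 1) p ^ (factorization)`
(`Nat.prod_pow_factorization_centralBinom`), every factor is `1` for `p` not prime and at most `2 n`
for `p` prime (`Nat.pow_factorization_choose_le`). So with `π` the number of primes `≤ 2 n`: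
`2 ^ n ≤ (2 n) ^ π = (16 A ^ 2) ^ π ≤ 2 ^ ((2 lg A + 6) π)`, since `A < 2 ^ (lg A + 1)`; hence
`8 A ^ 2 ≤ (2 lg A + 6) π` and `2 lg A + 6 ≤ 8 A` (`lg A ≤ A`, `A ≥ 1`), so `π ≥ A`. ∎

*Statement (`prod_primes_ge`).* The product of the primes below `16 (A + lg m + 1) ^ 2 + 3` that do
not divide `m > 0` is at least `2 ^ A`; `card_primes_ge`: there are at least `A` of them.

*Proof.* The primes that divide `m` are at most `lg m`: their product divides `m`
(`Nat.primeFactors`, `Nat.prod_primeFactors_dvd`), `2 ^ #primeFactors m ≤ m`. So there are at least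
`A + 1` primes in the set (`primes_many`), every one is `≥ 2` (`Finset.prod_le_prod`,
`Finset.pow_card_le_prod` or `Finset.card_nsmul_le_sum`). ∎

Difficulty: 0.8 h.
-/

set_option autoImplicit false

namespace Pool.Agent.ECD

open Finset Pool.Agent.Grz Pool.Agent.GAvg Pool.Agent.PTr Pool.Agent.MTr Pool.Agent.LPC

private theorem primeCt_log (A : ℕ) : 16 * A ^ 2 ≤ 2 ^ (2 * lg A + 6) := by
  have h1 : A ≤ 2 ^ (lg A + 1) := (lt_two_pow_lg A).le
  calc 16 * A ^ 2 ≤ 16 * (2 ^ (lg A + 1)) ^ 2 := Nat.mul_le_mul_left _ (Nat.pow_le_pow_left h1 2)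
    _ = 2 ^ (2 * lg A + 6) := by
      rw [← pow_mul, show (16 : ℕ) = 2 ^ 4 by norm_num, ← pow_add]
      congr 1
      ring

theorem primes_many (A : ℕ) : A ≤ #{q ∈ range (16 * A ^ 2 + 3) | q.Prime} := by
  rcases Nat.eq_zero_or_pos A with rfl | hA
  · exact Nat.zero_le _
  set n := 8 * A ^ 2 with hn
  have hn1 : 1 ≤ n := by
    have : 0 < A ^ 2 := pow_pos hA 2
    omega
  set S := {q ∈ range (2 * n + 1) | q.Prime} with hS
  have h1 : 2 ^ n ≤ (2 * n) ^ #S := by
    calc 2 ^ n ≤ Nat.centralBinom n := two_pow_le_centralBinom hn1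
      _ = ∏ p ∈ range (2 * n + 1), p ^ (Nat.centralBinom n).factorization p :=
        (Nat.prod_pow_factorization_centralBinom n).symm
      _ = ∏ p ∈ S, p ^ (Nat.centralBinom n).factorization p := by
        rw [hS]
        refine (Finset.prod_subset (Finset.filter_subset _ _) fun p hp hp' => ?_).symm
        have hp2 : ¬ p.Prime := fun h => hp' (Finset.mem_filter.2 ⟨hp, h⟩)
        rw [Nat.factorization_eq_zero_of_not_prime _ hp2, pow_zero]
      _ ≤ ∏ p ∈ S, (2 * n) := by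
        refine Finset.prod_le_prod' fun p _ => ?_
        exact Nat.pow_factorization_choose_le (by omega)
      _ = (2 * n) ^ #S := by rw [Finset.prod_const]
  have h2 : (2 * n) ^ #S ≤ 2 ^ ((2 * lg A + 6) * #S) := by
    rw [pow_mul]
    refine Nat.pow_le_pow_left ?_ _
    have := primeCt_log A
    omega
  have h3 : n ≤ (2 * lg A + 6) * #S := (Nat.pow_le_pow_iff_right (by norm_num)).1 (h1.trans h2)
  have h4 : lg A ≤ A := Nat.log_le_self _ _
  have h5 : (2 * lg A + 6) * #S ≤ (8 * A) * #S := Nat.mul_le_mul_right _ (by omega)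
  have h6 : (8 * A) * A ≤ (8 * A) * #S := by
    refine le_trans (le_of_eq ?_) (h3.trans h5)
    rw [hn]
    ring
  have h7 : A ≤ #S := Nat.le_of_mul_le_mul_left h6 (by omega)
  refine h7.trans (Finset.card_le_card ?_)
  intro q hq
  rw [hS, Finset.mem_filter, Finset.mem_range] at hq
  rw [Finset.mem_filter, Finset.mem_range]
  exact ⟨by omega, hq.2⟩

private theorem primeCt_dvd {m : ℕ} (hm : 0 < m) : #m.primeFactors ≤ lg m := by
  have h1 : 2 ^ #m.primeFactors ≤ m := by
    calc 2 ^ #m.primeFactors = ∏ _p ∈ m.primeFactors, 2 := by rw [Finset.prod_const]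
      _ ≤ ∏ p ∈ m.primeFactors, p :=
        Finset.prod_le_prod' fun p hp => (Nat.prime_of_mem_primeFactors hp).two_le
      _ ≤ m := Nat.le_of_dvd hm (Nat.prod_primeFactors_dvd m)
  exact (Nat.le_log_iff_pow_le (by norm_num) hm.ne').2 h1

theorem card_primes_ge {m : ℕ} (hm : 0 < m) (A : ℕ) :
    A ≤ #{q ∈ range (16 * (A + lg m + 1) ^ 2 + 3) | q.Prime ∧ ¬ q ∣ m} := by
  have h1 := primes_many (A + lg m + 1)
  have h2 := primeCt_dvd hm
  have h3 : #{q ∈ range (16 * (A + lg m + 1) ^ 2 + 3) | q.Prime} ≤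
      #{q ∈ range (16 * (A + lg m + 1) ^ 2 + 3) | q.Prime ∧ ¬ q ∣ m} + #m.primeFactors := by
    refine le_trans (Finset.card_le_card ?_) (Finset.card_union_le _ _)
    intro q hq
    rw [Finset.mem_filter] at hq
    rw [Finset.mem_union, Finset.mem_filter, Nat.mem_primeFactors]
    by_cases h : q ∣ m
    · exact Or.inr ⟨hq.2, h, hm.ne'⟩
    · exact Or.inl ⟨hq.1, hq.2, h⟩
  omega

theorem prod_primes_ge {m : ℕ} (hm : 0 < m) (A : ℕ) :
    2 ^ A ≤ ∏ q ∈ range (16 * (A + lg m + 1) ^ 2 + 3) with q.Prime ∧ ¬ q ∣ m, q := by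
  calc 2 ^ A ≤ 2 ^ #{q ∈ range (16 * (A + lg m + 1) ^ 2 + 3) | q.Prime ∧ ¬ q ∣ m} :=
        Nat.pow_le_pow_right (by norm_num) (card_primes_ge hm A)
    _ = ∏ _q ∈ range (16 * (A + lg m + 1) ^ 2 + 3) with _q.Prime ∧ ¬ _q ∣ m, 2 := by
      rw [Finset.prod_const]
    _ ≤ ∏ q ∈ range (16 * (A + lg m + 1) ^ 2 + 3) with q.Prime ∧ ¬ q ∣ m, q := by
      refine Finset.prod_le_prod' fun q hq => ?_
      exact (Finset.mem_filter.1 hq).2.1.two_le

end Pool.Agent.ECD
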