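import Pool.Agent.ECD.ProdIs
import Pool.Agent.ECD.PrimeCt

/-!
# Package ECD-ExpNum: the numbers of the exponent trick are definable

*`exp_num`.* `Gd` is a definable relation, `Gd q u` implies that `q` is a prime `< Q u`,
`Q u ≤ lp (M u) K`, and `k u < ∏_(q < Q u, Gd q u) q`. Let `Π(j, u)` be the product of the `q < j`
with `Gd q u`; `j₀ u` = the least `j ≤ Q u` with `k u < Π(j, u)`; `S u` = the `q < j₀ u` with `Gd q u`,
`D u = Π(j₀ u, u)`.

*Definability.* The relation `D = Π(j, u)` is `Delta0` in `(D, j, u)` by `prod_is`: `0 < D`, for all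
`q ≤ D` with `2 ≤ q` not `q * q ∣ D`, and for all `q ≤ D + Q u`: `q` prime and `q ∣ D` iff `q < j` and
`Gd q u` (prime: no `d` with `2 ≤ d < q` divides `q`, `Delta0.ballFun`, `DFun.modAny`; see the
private theorems of `DvdDef.lean`). `k u < Π(j, u)` iff there is no `D ≤ k u` with `D = Π(j, u)`. So
`j₀` is `DFun` (`DFun.ofGraph`, bound `Q u`). `D u ≤ (k u + 1) * (Q u + 1)`: if `j₀ u = 0` then `D = 1`;
otherwise `Π(j₀ - 1) ≤ k u` and `D ≤ k u * (j₀ - 1)` (or `D = Π(j₀ - 1)`); so `D` is `DFun`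
(`DFun.ofGraph`). For `q ∈ S u` the product of `S.erase q` is `D / q`. `c q u` = the least `c < q` such
that `q ∣ c * (D / q) + 1` for `q ∈ S u` (exists by `coef_exists`) and `0` otherwise: `DFun (n + 1)`.
`t u = (∑_(q < Q u) c q u * (D / q) + 1) / D` and `c₀ u = (∑_(q < Q u) c q u * (k u % q) * (D / q) +
k u) / D`: `dfun_sumPoly` (`LPC/SumPoly.lean`) in the variables `u`, with the length `Q u ≤ lp (M u) K
≤ (lg (2 M u + 2) + 1) ^ K` (`lg (2 m + 2) + 1 ≥ lg m + 2`), `DFun.divPos`. The divisions are exact by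
`coef_dvd`, `coef_dvd'`. Bounds: `c q (D / q) ≤ D` for all `q`, so the sum is `≤ Q D` and `t ≤ Q + 1`;
`c q (k % q) (D / q) ≤ Q D`, `k < D`, so `c₀ ≤ Q ^ 2 + 1`. (Sums over `S u` are sums over
`q < Q u` with `q ∈ S u`, the other terms are `0`.)

Difficulty: 1.0 h.
-/

set_option autoImplicit false

namespace Pool.Agent.ECD

open Finset Pool.Agent.Grz Pool.Agent.GAvg Pool.Agent.PTr Pool.Agent.MTr Pool.Agent.LPC

/-! ### Auxiliary theorems -/

private theorem ExpNum_dvd {n : ℕ} {f g : (Fin n → ℕ) → ℕ} (hf : DFun n f) (hg : DFun n g) :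
    Delta0 n (fun v => f v ∣ g v) :=
  (Delta0.eqFun (DFun.modAny hg hf) (DFun.const 0)).of_iff fun _ => Nat.dvd_iff_mod_eq_zero

private theorem ExpNum_prime {n : ℕ} {f : (Fin n → ℕ) → ℕ} (hf : DFun n f) :
    Delta0 n (fun v => (f v).Prime) := by
  have h1 : Delta0 (n + 1) (fun w => w 0 < f (fun i => w i.succ) →
      w 0 ∣ f (fun i => w i.succ) → w 0 = 1) :=
    (Delta0.ltFun (DFun.proj 0) hf.weak).imp ((ExpNum_dvd (DFun.proj 0) hf.weak).imp
      (Delta0.eqFun (DFun.proj 0) (DFun.const 1)))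
  refine ((Delta0.leFun (DFun.const 2) hf).and (Delta0.ballFun
    (P := fun x v => x < f v → x ∣ f v → x = 1) hf h1)).of_iff fun v => ?_
  rw [Nat.prime_def_lt]
  refine and_congr_right fun _ => ⟨fun h x _ => h x, fun h x hx => h x hx.le hx⟩

/-- the least solution -/
private theorem ExpNum_find {n : ℕ} {b : (Fin n → ℕ) → ℕ} (hb : DFun n b)
    {C : ℕ → (Fin n → ℕ) → Prop} (hC : Delta0 (n + 1) (fun w => C (w 0) (fun i => w i.succ))) :
    ∃ u : (Fin n → ℕ) → ℕ, DFun n u ∧ (∀ v, u v ≤ b v) ∧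
      ∀ v, (∃ x, x ≤ b v ∧ C x v) → C (u v) v ∧ ∀ x, x < u v → ¬ C x v := by
  classical
  let u : (Fin n → ℕ) → ℕ := fun v => if h : ∃ x, x ≤ b v ∧ C x v then Nat.find h else 0
  have hu : ∀ v, u v ≤ b v := by
    intro v
    by_cases h : ∃ x, x ≤ b v ∧ C x v
    · simp only [u, dif_pos h]
      exact (Nat.find_spec h).1
    · simp only [u, dif_neg h]
      exact Nat.zero_le _
  refine ⟨u, DFun.ofGraph hb hu ?_, hu, fun v h => ?_⟩
  · have h0 : DFun (n + 1) (fun w => w 0) := DFun.proj 0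
    have hC2 : Delta0 (n + 1 + 1) (fun w => w 0 = w 1 ∨ ¬ C (w 0) (fun i => w i.succ.succ)) := by
      refine (Delta0.eqFun (DFun.proj 0) (DFun.proj 1)).or (Delta0.not ?_)
      have h1 := hC.rename (n := n + 1 + 1) (Fin.cons 0 fun i => i.succ.succ)
      exact h1
    have hC3 : Delta0 (n + 1 + 1) (fun w => C (w 0) (fun i => w i.succ.succ)) := by
      have h1 := hC.rename (n := n + 1 + 1) (Fin.cons 0 fun i => i.succ.succ)
      exact h1
    have hA := ((Delta0.leFun h0 hb.weak).and hC).and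
      (Delta0.ballFun (n := n + 1) (b := fun w => w 0)
        (P := fun x w => x = w 0 ∨ ¬ C x (fun i => w i.succ)) h0 hC2)
    have hB := (Delta0.eqFun h0 (DFun.const 0)).and
      (Delta0.bexFun (n := n + 1) (b := fun w => b (fun i => w i.succ))
        (P := fun x w => C x (fun i => w i.succ)) hb.weak hC3).not
    refine (hA.or hB).of_iff fun w => ?_
    by_cases h : ∃ x, x ≤ b (fun i => w i.succ) ∧ C x (fun i => w i.succ)
    · have hu1 : u (fun i => w i.succ) = Nat.find h := dif_pos h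
      rw [hu1]
      constructor
      · intro e
        rw [e]
        refine Or.inl ⟨Nat.find_spec h, fun x hx => ?_⟩
        rcases hx.lt_or_eq with h2 | h2
        · right
          intro h3
          exact Nat.find_min h h2 ⟨h2.le.trans (Nat.find_spec h).1, h3⟩
        · exact Or.inl h2
      · rintro (⟨⟨h1, h2⟩, h3⟩ | ⟨-, h2⟩)
        · refine le_antisymm ?_ (Nat.find_min' h ⟨h1, h2⟩)
          by_contra h4
          push Not at h4
          rcases h3 _ h4.le with h5 | h5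
          · exact h4.ne h5
          · exact h5 (Nat.find_spec h).2
        · exact absurd h h2
    · have hu1 : u (fun i => w i.succ) = 0 := dif_neg h
      rw [hu1]
      constructor
      · intro e
        exact Or.inr ⟨e, h⟩
      · rintro (⟨⟨h1, h2⟩, -⟩ | ⟨e, -⟩)
        · exact absurd ⟨_, h1, h2⟩ h
        · exact e
  · have e : u v = Nat.find h := dif_pos h
    rw [e]
    refine ⟨(Nat.find_spec h).2, fun x hx hx2 => ?_⟩
    exact Nat.find_min h hx ⟨hx.le.trans (Nat.find_spec h).1, hx2⟩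

open scoped Classical in
/-- the product of the primes of the relation is definable -/
private theorem ExpNum_rel {n : ℕ} {Gd : ℕ → (Fin n → ℕ) → Prop} {Q : (Fin n → ℕ) → ℕ}
    (hG : Delta0 (n + 1) (fun w => Gd (w 0) (fun i => w i.succ)))
    (hp : ∀ q u, Gd q u → q.Prime ∧ q < Q u) (hQ : DFun n Q) :
    Delta0 (n + 1 + 1) (fun w => w 0 =
      ∏ q ∈ range (w 1) with Gd q (fun i => w i.succ.succ), q) := by
  have h1 : Delta0 (n + 1 + 1 + 1) (fun w => 2 ≤ w 0 → ¬ w 0 * w 0 ∣ w 1) :=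
    (Delta0.leFun (DFun.const 2) (DFun.proj 0)).imp
      (ExpNum_dvd ((DFun.proj 0).mul (DFun.proj 0)) (DFun.proj 1)).not
  have h2 : Delta0 (n + 1 + 1 + 1) (fun w => (w 0).Prime → (w 0 ∣ w 1 ↔
      w 0 < w (Fin.succ (Fin.succ 0)) ∧ Gd (w 0) (fun i => w i.succ.succ.succ))) := by
    refine (ExpNum_prime (DFun.proj 0)).imp ((ExpNum_dvd (DFun.proj 0) (DFun.proj 1)).iff
      ((Delta0.ltFun (DFun.proj 0) (DFun.proj (Fin.succ (Fin.succ 0)))).and ?_))
    have h3 := hG.rename (n := n + 1 + 1 + 1) (Fin.cons 0 fun i => i.succ.succ.succ)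
    exact h3
  refine ((Delta0.ltFun (DFun.const 0) (DFun.proj 0)).and ((Delta0.ballFun
    (b := fun w : Fin (n + 1 + 1) → ℕ => w 0) (P := fun q w => 2 ≤ q → ¬ q * q ∣ w 0)
    (DFun.proj 0) h1).and (Delta0.ballFun
    (b := fun w : Fin (n + 1 + 1) → ℕ => w 0 + Q (fun i => w i.succ.succ))
    (P := fun q w => q.Prime → (q ∣ w 0 ↔ q < w 1 ∧ Gd q (fun i => w i.succ.succ)))
    ((DFun.proj 0).add hQ.weak.weak) h2))).of_iff fun w => ?_
  have hS : ∀ q ∈ {q ∈ range (w 1) | Gd q (fun i => w i.succ.succ)}, q.Prime := fun q hq =>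
    (hp q _ (mem_filter.1 hq).2).1
  rcases Nat.eq_zero_or_pos (w 0) with h0 | h0
  · constructor
    · intro e
      have := Finset.prod_pos (s := {q ∈ range (w 1) | Gd q (fun i => w i.succ.succ)})
        (f := fun q => q) fun q hq => (hS q hq).pos
      rw [← e, h0] at this
      exact absurd this (lt_irrefl _)
    · rintro ⟨h, -⟩
      exact absurd h (by omega)
  · rw [prod_is hS h0]
    constructor
    · rintro ⟨h3, h4⟩
      refine ⟨h0, fun q _ hq => h3 q hq, fun q _ hq => ?_⟩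
      rw [h4 q hq, mem_filter, mem_range]
    · rintro ⟨-, h3, h4⟩
      refine ⟨fun q hq h5 => ?_, fun q hq => ?_⟩
      · refine h3 q ?_ hq h5
        have h6 := Nat.le_of_dvd h0 h5
        nlinarith
      · rw [mem_filter, mem_range]
        rcases le_or_gt q (w 0 + Q (fun i => w i.succ.succ)) with h5 | h5
        · exact h4 q h5 hq
        · constructor
          · intro h6
            have := Nat.le_of_dvd h0 h6
            omega
          · rintro ⟨-, h6⟩
            have := (hp q _ h6).2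
            omega

open scoped Classical in
/-- the partial products: positivity and the step -/
private theorem ExpNum_step {n : ℕ} {Gd : ℕ → (Fin n → ℕ) → Prop} (u : Fin n → ℕ) (j : ℕ) :
    ∏ q ∈ range (j + 1) with Gd q u, q =
      (∏ q ∈ range j with Gd q u, q) * if Gd j u then j else 1 := by
  rw [range_add_one, filter_insert]
  split_ifs with h
  · rw [prod_insert (by simp), mul_comm]
  · rw [mul_one]

private theorem ExpNum_lg {Q M K : ℕ} (h : Q ≤ lp M K) : Q ≤ (lg (2 * M + 2) + 1) ^ K := by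
  refine h.trans ?_
  unfold lp
  refine Nat.pow_le_pow_left ?_ _
  have h1 : lg (2 * M + 2) = lg (M + 1) + 1 := by
    unfold lg
    rw [show 2 * M + 2 = (M + 1) * 2 by ring]
    exact Nat.log_mul_base (by norm_num) (by omega)
  have h2 : lg M ≤ lg (M + 1) := Nat.log_mono_right (by omega)
  omega

/-- `t` and `c₀` are small -/
private theorem ExpNum_bd {a D Q : ℕ} (hD : 0 < D) (h : a ≤ Q * D + D) : a / D ≤ Q + 1 := by
  calc a / D ≤ ((Q + 1) * D) / D := Nat.div_le_div_right (by rw [add_mul, one_mul]; exact h)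
    _ = Q + 1 := Nat.mul_div_cancel _ hD

open scoped Classical in
theorem exp_num {n K : ℕ} {Gd : ℕ → (Fin n → ℕ) → Prop} {Q k M : (Fin n → ℕ) → ℕ}
    (hG : Delta0 (n + 1) (fun w => Gd (w 0) (fun i => w i.succ)))
    (hp : ∀ q u, Gd q u → q.Prime ∧ q < Q u) (hQ : DFun n Q) (hk : DFun n k) (hM : DFun n M)
    (hQM : ∀ u, Q u ≤ lp (M u) K) (hkQ : ∀ u, k u < ∏ q ∈ range (Q u) with Gd q u, q) :
    ∃ (S : (Fin n → ℕ) → Finset ℕ) (c : ℕ → (Fin n → ℕ) → ℕ) (t c₀ : (Fin n → ℕ) → ℕ),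
      Delta0 (n + 1) (fun w => w 0 ∈ S (fun i => w i.succ)) ∧
      DFun (n + 1) (fun w => c (w 0) (fun i => w i.succ)) ∧ DFun n t ∧ DFun n c₀ ∧
      ∀ u, (∀ q ∈ S u, Gd q u) ∧ (∀ q, c q u ≤ Q u) ∧ t u ≤ Q u + 1 ∧ c₀ u ≤ Q u ^ 2 + 1 ∧
        ∑ q ∈ S u, c q u * ∏ q' ∈ (S u).erase q, q' + 1 = t u * ∏ q ∈ S u, q ∧
        ∑ q ∈ S u, c q u * (k u % q) * ∏ q' ∈ (S u).erase q, q' + k u =
          c₀ u * ∏ q ∈ S u, q := by
  -- the first `j` with a large product
  have hrel := ExpNum_rel hG hp hQ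
  have hC : Delta0 (n + 1) (fun w => k (fun i => w i.succ) <
      ∏ q ∈ range (w 0) with Gd q (fun i => w i.succ), q) := by
    refine (Delta0.bexFun (b := fun w : Fin (n + 1) → ℕ => k (fun i => w i.succ))
      (P := fun D w => D = ∏ q ∈ range (w 0) with Gd q (fun i => w i.succ), q)
      hk.weak hrel).not.of_iff fun w => ?_
    constructor
    · rintro h ⟨D, h1, h2⟩
      omega
    · intro h
      by_contra h1
      exact h ⟨_, not_lt.1 h1, rfl⟩
  obtain ⟨j, hj, hjQ, hjC⟩ := ExpNum_find hQ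
    (C := fun j u => k u < ∏ q ∈ range j with Gd q u, q) hC
  have hj1 : ∀ u, k u < ∏ q ∈ range (j u) with Gd q u, q := fun u =>
    (hjC u ⟨Q u, le_rfl, hkQ u⟩).1
  have hj2 : ∀ u x, x < j u → ∏ q ∈ range x with Gd q u, q ≤ k u := fun u x hx =>
    not_lt.1 ((hjC u ⟨Q u, le_rfl, hkQ u⟩).2 x hx)
  -- the product
  obtain ⟨D, hD⟩ : ∃ D : (Fin n → ℕ) → ℕ, D = fun u => ∏ q ∈ range (j u) with Gd q u, q :=
    ⟨_, rfl⟩
  have hDb : ∀ u, D u ≤ (k u + 1) * (Q u + 1) := by
    intro u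
    rw [hD]
    dsimp only
    rcases Nat.eq_zero_or_pos (j u) with h | h
    · rw [h]
      simp only [range_zero, filter_empty, prod_empty]
      exact Nat.succ_le_of_lt (Nat.mul_pos (Nat.succ_pos _) (Nat.succ_pos _))
    · obtain ⟨x, hx⟩ : ∃ x, j u = x + 1 := ⟨j u - 1, by omega⟩
      rw [hx, ExpNum_step]
      have h1 := hj2 u x (by omega)
      have h2 := hjQ u
      refine Nat.mul_le_mul (h1.trans (Nat.le_succ _)) ?_
      split_ifs <;> omega
  have hDd : DFun n D := by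
    refine DFun.ofGraph ((hk.add (DFun.const 1)).mul (hQ.add (DFun.const 1))) hDb ?_
    have h1 := hrel.subst (n := n + 1) (h := Fin.cons (fun w => w 0)
      (Fin.cons (fun w => j (fun i => w i.succ)) (fun i w => w i.succ))) (by
        intro i
        refine Fin.cases ?_ (fun i => Fin.cases ?_ (fun i => ?_) i) i
        · exact DFun.proj 0
        · exact hj.weak
        · exact DFun.proj i.succ)
    rw [hD]
    exact h1
  obtain ⟨S, hS⟩ : ∃ S : (Fin n → ℕ) → Finset ℕ, S = fun u => {q ∈ range (j u) | Gd q u} :=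
    ⟨_, rfl⟩
  have hmem : ∀ q u, q ∈ S u ↔ q < j u ∧ Gd q u := fun q u => by
    rw [hS, mem_filter, mem_range]
  have hSp : ∀ u, ∀ q ∈ S u, q.Prime := fun u q hq => (hp q u ((hmem q u).1 hq).2).1
  have hSQ : ∀ u, ∀ q ∈ S u, q < Q u := fun u q hq => (hp q u ((hmem q u).1 hq).2).2
  have hDS : ∀ u, D u = ∏ q ∈ S u, q := fun u => by rw [hD, hS]
  have hD0 : ∀ u, 0 < D u := fun u => by
    rw [hDS]
    exact prod_pos fun q hq => (hSp u q hq).pos
  have hSd : Delta0 (n + 1) (fun w => w 0 ∈ S (fun i => w i.succ)) :=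
    ((Delta0.ltFun (DFun.proj 0) hj.weak).and hG).of_iff fun w => hmem _ _
  have hDq : ∀ u, ∀ q ∈ S u, D u / (q - 1 + 1) = ∏ q' ∈ (S u).erase q, q' := fun u q hq => by
    rw [Nat.sub_add_cancel (hSp u q hq).one_lt.le, hDS, ← mul_prod_erase (S u) (fun q => q) hq]
    exact Nat.mul_div_cancel_left _ (hSp u q hq).pos
  -- the coefficients
  have hdiv : DFun (n + 1) (fun w => D (fun i => w i.succ) / (w 0 - 1 + 1)) :=
    hDd.weak.div ((DFun.proj 0).sub (DFun.const 1))
  have hCc : Delta0 (n + 1 + 1) (fun w => w 1 ∈ S (fun i => w i.succ.succ) ∧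
      w 1 ∣ w 0 * (D (fun i => w i.succ.succ) / (w 1 - 1 + 1)) + 1) := by
    refine Delta0.and ?_ (ExpNum_dvd (DFun.proj 1)
      (((DFun.proj 0).mul hdiv.weak).add (DFun.const 1)))
    have h1 := hSd.rename (n := n + 1 + 1) Fin.succ
    exact h1
  obtain ⟨f, hf, hfq, hfC⟩ := ExpNum_find (n := n + 1) (b := fun w => w 0) (DFun.proj 0)
    (C := fun x w => w 0 ∈ S (fun i => w i.succ) ∧
      w 0 ∣ x * (D (fun i => w i.succ) / (w 0 - 1 + 1)) + 1) hCc
  obtain ⟨c, hc⟩ : ∃ c : ℕ → (Fin n → ℕ) → ℕ, c = fun q u => min (f (Fin.cons q u)) (Q u) :=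
    ⟨_, rfl⟩
  have hcd : DFun (n + 1) (fun w => c (w 0) (fun i => w i.succ)) := by
    have h3 : (fun w : Fin (n + 1) → ℕ => c (w 0) (fun i => w i.succ)) =
        fun w => min (f w) (Q (fun i => w i.succ)) := by
      rw [hc]
      funext w
      have h4 : f (Fin.cons (w 0) (fun i => w i.succ)) = f w :=
        congrArg f (Fin.cons_self_tail w)
      dsimp only
      rw [h4]
    rw [h3]
    exact hf.min hQ.weak
  have hcq : ∀ u, ∀ q ∈ S u, c q u ≤ q := fun u q _ => by
    rw [hc]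
    exact (min_le_left _ _).trans (hfq (Fin.cons q u))
  have hcS : ∀ u, ∀ q ∈ S u, q ∣ c q u * ∏ q' ∈ (S u).erase q, q' + 1 := fun u q hq => by
    obtain ⟨x, hx1, hx2⟩ := coef_exists (hSp u) hq
    have h1 := (hfC (Fin.cons q u) ⟨x, hx1.le, hq, ?_⟩).1.2
    · have h2 : f (Fin.cons q u) ≤ q := hfq (Fin.cons q u)
      have h3 : c q u = f (Fin.cons q u) := by
        rw [hc]
        exact min_eq_left (h2.trans (hSQ u q hq).le)
      rw [h3, ← hDq u q hq]
      exact h1
    · have h2 := hx2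
      rw [← hDq u q hq] at h2
      exact h2
  have hQK : ∀ u, Q u ≤ (lg (2 * M u + 2) + 1) ^ K := fun u => ExpNum_lg (hQM u)
  have hM2 : DFun n (fun u => 2 * M u + 2) := ((DFun.const 2).mul hM).add (DFun.const 2)
  -- the sums
  have hs1 : DFun n (fun u => ∑ q ∈ range (Q u), if q ∈ S u then
      c q u * (D u / (q - 1 + 1)) else 0) := by
    refine dfun_sumPoly K (g := fun q u => if q ∈ S u then c q u * (D u / (q - 1 + 1)) else 0)
      ?_ hQ hM2 hQK
    exact DFun.ite hSd (hcd.mul hdiv) (DFun.const 0)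
  have hs2 : DFun n (fun u => ∑ q ∈ range (Q u), if q ∈ S u then
      c q u * (k u % q) * (D u / (q - 1 + 1)) else 0) := by
    refine dfun_sumPoly K (g := fun q u => if q ∈ S u then
      c q u * (k u % q) * (D u / (q - 1 + 1)) else 0) ?_ hQ hM2 hQK
    exact DFun.ite hSd ((hcd.mul (DFun.modAny hk.weak (DFun.proj 0))).mul hdiv) (DFun.const 0)
  have hSr : ∀ u, {q ∈ range (Q u) | q ∈ S u} = S u := fun u => by
    ext q
    rw [mem_filter, mem_range]
    exact ⟨fun h => h.2, fun h => ⟨hSQ u q h, h⟩⟩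
  have he1 : ∀ u, (∑ q ∈ range (Q u), if q ∈ S u then c q u * (D u / (q - 1 + 1)) else 0) =
      ∑ q ∈ S u, c q u * ∏ q' ∈ (S u).erase q, q' := fun u => by
    rw [← sum_filter, hSr]
    exact sum_congr rfl fun q hq => by rw [hDq u q hq]
  have he2 : ∀ u, (∑ q ∈ range (Q u), if q ∈ S u then
      c q u * (k u % q) * (D u / (q - 1 + 1)) else 0) =
      ∑ q ∈ S u, c q u * (k u % q) * ∏ q' ∈ (S u).erase q, q' := fun u => by
    rw [← sum_filter, hSr]
    exact sum_congr rfl fun q hq => by rw [hDq u q hq]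
  have hcard : ∀ u, #(S u) ≤ Q u := fun u => by
    rw [hS]
    exact ((card_filter_le _ _).trans (card_range _).le).trans (hjQ u)
  have hterm : ∀ u, ∀ q ∈ S u, c q u * ∏ q' ∈ (S u).erase q, q' ≤ D u := fun u q hq => by
    rw [hDS, ← mul_prod_erase (S u) (fun q => q) hq]
    exact Nat.mul_le_mul_right _ (hcq u q hq)
  refine ⟨S, c, fun u => ((∑ q ∈ range (Q u), if q ∈ S u then
      c q u * (D u / (q - 1 + 1)) else 0) + 1) / D u,
    fun u => ((∑ q ∈ range (Q u), if q ∈ S u then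
      c q u * (k u % q) * (D u / (q - 1 + 1)) else 0) + k u) / D u, hSd, hcd,
    DFun.divPos (hs1.add (DFun.const 1)) hDd hD0, DFun.divPos (hs2.add hk) hDd hD0,
    fun u => ⟨fun q hq => ((hmem q u).1 hq).2, fun q => ?_, ?_, ?_, ?_, ?_⟩⟩
  · rw [hc]
    exact min_le_right _ _
  · dsimp only
    rw [he1]
    refine ExpNum_bd (hD0 u) ?_
    have h1 : ∑ q ∈ S u, c q u * ∏ q' ∈ (S u).erase q, q' ≤ #(S u) * D u := by
      rw [← smul_eq_mul]
      exact sum_le_card_nsmul _ _ _ (hterm u)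
    have h2 := Nat.mul_le_mul_right (D u) (hcard u)
    have h3 := hD0 u
    omega
  · dsimp only
    rw [he2]
    refine ExpNum_bd (hD0 u) ?_
    have h1 : ∑ q ∈ S u, c q u * (k u % q) * ∏ q' ∈ (S u).erase q, q' ≤
        #(S u) * (Q u * D u) := by
      rw [← smul_eq_mul]
      refine sum_le_card_nsmul _ _ _ fun q hq => ?_
      calc c q u * (k u % q) * ∏ q' ∈ (S u).erase q, q' =
            (k u % q) * (c q u * ∏ q' ∈ (S u).erase q, q') := by ring
        _ ≤ Q u * D u := Nat.mul_le_mul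
            ((Nat.mod_lt _ (hSp u q hq).pos).le.trans (hSQ u q hq).le) (hterm u q hq)
    have h2 := Nat.mul_le_mul_right (Q u * D u) (hcard u)
    have h3 : k u < D u := by
      rw [hD]
      exact hj1 u
    have h4 : Q u * (Q u * D u) = Q u ^ 2 * D u := by ring
    rw [h4] at h2
    omega
  · dsimp only
    rw [he1, ← hDS]
    refine (Nat.div_mul_cancel ?_).symm
    rw [hDS]
    exact coef_dvd (hSp u) (c := fun q => c q u) (hcS u)
  · dsimp only
    rw [he2, ← hDS]
    refine (Nat.div_mul_cancel ?_).symm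
    rw [hDS]
    exact coef_dvd' (hSp u) (c := fun q => c q u) (hcS u) (k u)

end Pool.Agent.ECD
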