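import Mathlib

/-!
# The exponent trick in finite groups

Let `S` be a finite set of primes which do not divide the order of the finite group `G`, let
`D` be the product of `S`, and `k` a number. A power `y = g ^ k` is recognised with small exponents
only: `y` commutes with `g`, and with the elements `R q`, `R q ^ q * g ^ (k % q) = y`, for `q ∈ S`, and
small numbers `c q`, `c₀`, `t` which depend only on `S` and `k`: `∏ R q ^ c q * g ^ c₀ = y ^ t`.
-/

set_option autoImplicit false

namespace Pool.Agent.ECD

open Finset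

theorem pow_prime_inj {G : Type*} [Group G] [Finite G] {q : ℕ} (hq : q.Prime)
    (h : ¬ q ∣ Nat.card G) {x y : G} (hxy : x ^ q = y ^ q) : x = y :=
  (powCoprime ((Nat.Prime.coprime_iff_not_dvd hq).2 h).symm).injective hxy

/-- every element of `G` is the `q`-th power of an element that commutes with everything that
commutes with it -/
theorem root_commute {G : Type*} [Group G] [Finite G] {q : ℕ} (hq : q.Prime)
    (h : ¬ q ∣ Nat.card G) {x z w : G} (hxz : x ^ q = z) (hw : Commute w z) : Commute w x := by
  have h1 : (w * x * w⁻¹) ^ q = x ^ q := by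
    rw [conj_pow, hxz]
    exact (mul_inv_eq_iff_eq_mul.2 hw.eq)
  have h2 := pow_prime_inj hq h h1
  exact mul_inv_eq_iff_eq_mul.1 h2

theorem pow_prod_inj {G : Type*} [Group G] [Finite G] {S : Finset ℕ}
    (hS : ∀ q ∈ S, q.Prime ∧ ¬ q ∣ Nat.card G) {x y : G}
    (hxy : x ^ (∏ q ∈ S, q) = y ^ (∏ q ∈ S, q)) : x = y := by
  have h : (Nat.card G).Coprime (∏ q ∈ S, q) :=
    Nat.Coprime.prod_right fun q hq => (((Nat.Prime.coprime_iff_not_dvd (hS q hq).1).2
      (hS q hq).2)).symm
  exact (powCoprime h).injective hxy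

theorem exp_trick {G : Type*} [Group G] [Finite G] {S : Finset ℕ}
    (hS : ∀ q ∈ S, q.Prime ∧ ¬ q ∣ Nat.card G) {g y : G} (hgy : Commute g y) {k t c₀ : ℕ}
    {c : ℕ → ℕ} {R : ℕ → G} (hR : ∀ q ∈ S, R q ^ q * g ^ (k % q) = y)
    (ht : ∑ q ∈ S, c q * ∏ q' ∈ S.erase q, q' + 1 = t * ∏ q ∈ S, q)
    (hc : ∑ q ∈ S, c q * (k % q) * ∏ q' ∈ S.erase q, q' + k = c₀ * ∏ q ∈ S, q) {Q : ℕ}
    (hQ : ∀ q ∈ S, q < Q) :
    ((List.range Q).map fun q => if q ∈ S then R q ^ c q else 1).prod * g ^ c₀ = y ^ t ↔
      y = g ^ k := by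
  set D := ∏ q ∈ S, q with hD
  -- all elements commute
  have hR2 : ∀ q ∈ S, ∀ w, Commute w g → Commute w y → Commute w (R q) := by
    intro q hq w hwg hwy
    have h1 : R q ^ q = y * (g ^ (k % q))⁻¹ := by rw [← hR q hq, mul_inv_cancel_right]
    exact root_commute (hS q hq).1 (hS q hq).2 h1
      (hwy.mul_right (hwg.pow_right _).inv_right)
  have hstep : ∀ q ∈ S, (R q ^ c q) ^ D * g ^ (c q * (k % q) * ∏ q' ∈ S.erase q, q') =
      y ^ (c q * ∏ q' ∈ S.erase q, q') := by
    intro q hq
    have h1 : D = q * ∏ q' ∈ S.erase q, q' := (mul_prod_erase S (fun q => q) hq).symm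
    have h2 : Commute (R q ^ q) (g ^ (k % q)) :=
      ((hR2 q hq g (Commute.refl g) hgy).symm.pow_left _).pow_right _
    have h3 := h2.mul_pow (c q * ∏ q' ∈ S.erase q, q')
    rw [hR q hq] at h3
    rw [h3, ← pow_mul, ← pow_mul, ← pow_mul, h1]
    congr 2 <;> ring
  -- the power of the product
  have key : ∀ Q', (((List.range Q').map fun q => if q ∈ S then R q ^ c q else 1).prod) ^ D *
      g ^ (∑ q ∈ S with q < Q', c q * (k % q) * ∏ q' ∈ S.erase q, q') =
        y ^ (∑ q ∈ S with q < Q', c q * ∏ q' ∈ S.erase q, q') ∧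
      ∀ w, Commute w g → Commute w y →
        Commute w ((List.range Q').map fun q => if q ∈ S then R q ^ c q else 1).prod := by
    intro Q'
    induction Q' with
    | zero => simp
    | succ Q' ih =>
      have hl : ((List.range (Q' + 1)).map fun q => if q ∈ S then R q ^ c q else 1).prod =
          ((List.range Q').map fun q => if q ∈ S then R q ^ c q else 1).prod *
            (if Q' ∈ S then R Q' ^ c Q' else 1) := by
        rw [List.range_succ, List.map_append, List.prod_append]
        simp
      rw [hl]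
      set A := ((List.range Q').map fun q => if q ∈ S then R q ^ c q else 1).prod with hA
      by_cases hQ' : Q' ∈ S
      · rw [if_pos hQ']
        have hf : S.filter (· < Q' + 1) = insert Q' (S.filter (· < Q')) := by
          ext q
          simp only [mem_filter, mem_insert]
          constructor
          · rintro ⟨h1, h2⟩
            rcases Nat.lt_succ_iff_lt_or_eq.1 h2 with h3 | h3
            · exact Or.inr ⟨h1, h3⟩
            · exact Or.inl h3
          · rintro (rfl | ⟨h1, h2⟩)
            · exact ⟨hQ', Nat.lt_succ_self _⟩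
            · exact ⟨h1, by omega⟩
        have hn : Q' ∉ S.filter (· < Q') := by simp
        rw [hf, sum_insert hn, sum_insert hn]
        have cgR := hR2 Q' hQ' g (Commute.refl g) hgy
        have cyR := hR2 Q' hQ' y hgy.symm (Commute.refl y)
        have cRA : Commute (R Q') A := ih.2 _ cgR.symm cyR.symm
        have cgA : Commute g A := ih.2 _ (Commute.refl g) hgy
        refine ⟨?_, fun w hwg hwy => (ih.2 w hwg hwy).mul_right
          ((hR2 Q' hQ' w hwg hwy).pow_right _)⟩
        have c1 : Commute A (R Q' ^ c Q') := cRA.symm.pow_right _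
        rw [c1.mul_pow, pow_add, pow_add, ← ih.1, ← hstep Q' hQ']
        have c2 : Commute ((R Q' ^ c Q') ^ D)
            (g ^ (∑ q ∈ S with q < Q', c q * (k % q) * ∏ q' ∈ S.erase q, q')) :=
          ((cgR.symm.pow_left _).pow_left _).pow_right _
        have c3 : Commute (A ^ D) ((R Q' ^ c Q') ^ D) := (c1.pow_left _).pow_right _
        have c4 : Commute (A ^ D) (g ^ (c Q' * (k % Q') * ∏ q' ∈ S.erase Q', q')) :=
          (cgA.symm.pow_left _).pow_right _
        set B := (R Q' ^ c Q') ^ D
        set X := g ^ (c Q' * (k % Q') * ∏ q' ∈ S.erase Q', q')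
        set Y := g ^ (∑ q ∈ S with q < Q', c q * (k % q) * ∏ q' ∈ S.erase q, q')
        calc A ^ D * B * (X * Y) = B * (A ^ D * X) * Y := by
              rw [c3.eq]
              simp only [mul_assoc]
          _ = B * X * (A ^ D * Y) := by
              rw [c4.eq]
              simp only [mul_assoc]
      · rw [if_neg hQ', mul_one]
        have hf : S.filter (· < Q' + 1) = S.filter (· < Q') := by
          ext q
          simp only [mem_filter]
          constructor
          · rintro ⟨h1, h2⟩
            rcases Nat.lt_succ_iff_lt_or_eq.1 h2 with h3 | h3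
            · exact ⟨h1, h3⟩
            · exact absurd (h3 ▸ h1) hQ'
          · rintro ⟨h1, h2⟩
            exact ⟨h1, by omega⟩
        rw [hf]
        exact ih
  obtain ⟨h1, h2⟩ := key Q
  have hf : S.filter (· < Q) = S := filter_true_of_mem hQ
  rw [hf] at h1
  set A := ((List.range Q).map fun q => if q ∈ S then R q ^ c q else 1).prod with hA
  have cgA : Commute g A := h2 _ (Commute.refl g) hgy
  have cyA : Commute y A := h2 _ hgy.symm (Commute.refl y)
  set a := ∑ q ∈ S, c q * (k % q) * ∏ q' ∈ S.erase q, q' with ha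
  set b := ∑ q ∈ S, c q * ∏ q' ∈ S.erase q, q' with hb
  have h3 : (A * g ^ c₀) ^ D = y ^ b * g ^ k := by
    rw [(cgA.symm.pow_right c₀).mul_pow, ← pow_mul, ← hc, pow_add, ← mul_assoc, h1]
  have h4 : (y ^ t) ^ D = y ^ b * y := by
    rw [← pow_mul, ← ht, pow_succ]
  constructor
  · intro h
    rw [h, h4] at h3
    exact mul_left_cancel h3
  · intro h
    refine pow_prod_inj hS ?_
    rw [← hD, h3, h4, ← h]

end Pool.Agent.ECD
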