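import Pool.Agent.ECD.GProd
import Pool.Agent.ECD.ExpTrick
import Pool.Agent.ECD.ExpNum

/-!
# Powers in families of groups with definable products
-/

set_option autoImplicit false

namespace Pool.Agent.ECD

open Finset Pool.Agent.Grz Pool.Agent.GAvg Pool.Agent.PTr Pool.Agent.MTr Pool.Agent.LPC

theorem delta_dvd {n : ℕ} {f g : (Fin n → ℕ) → ℕ} (hf : DFun n f) (hg : DFun n g) :
    Delta0 n (fun v => f v ∣ g v) :=
  (Delta0.eqFun (DFun.modAny hg hf) (DFun.const 0)).of_iff fun _ => Nat.dvd_iff_mod_eq_zero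

theorem delta_prime {n : ℕ} {f : (Fin n → ℕ) → ℕ} (hf : DFun n f) :
    Delta0 n (fun v => (f v).Prime) := by
  have h1 : Delta0 (n + 1) (fun w => w 0 < f (fun i => w i.succ) →
      w 0 ∣ f (fun i => w i.succ) → w 0 = 1) :=
    (Delta0.ltFun (DFun.proj 0) hf.weak).imp ((delta_dvd (DFun.proj 0) hf.weak).imp
      (Delta0.eqFun (DFun.proj 0) (DFun.const 1)))
  refine ((Delta0.leFun (DFun.const 2) hf).and (Delta0.ballFun
    (P := fun x v => x < f v → x ∣ f v → x = 1) hf h1)).of_iff fun v => ?_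
  rw [Nat.prime_def_lt]
  refine and_congr_right fun _ => ⟨fun h x _ => h x, fun h x hx => h x hx.le hx⟩

/-- Cauchy and Lagrange -/
theorem not_dvd_card_iff {G : Type*} [Group G] [Finite G] {q : ℕ} (hq : q.Prime) :
    ¬ q ∣ Nat.card G ↔ ∀ x : G, x ^ q = 1 → x = 1 := by
  constructor
  · intro h x hx
    exact pow_prime_inj hq h (hx.trans (one_pow q).symm)
  · intro h hd
    have : Fact q.Prime := ⟨hq⟩
    obtain ⟨x, hx⟩ := exists_prime_orderOf_dvd_card' (G := G) q hd
    have h1 : x ^ q = 1 := by rw [← hx, pow_orderOf_eq_one]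
    rw [h x h1, orderOf_one] at hx
    exact hq.ne_one hx.symm

variable {r : ℕ} (Φ : GFam r) {n : ℕ} {σ : Fin r → (Fin n → ℕ) → ℕ}

/-- the primes below a polylogarithmic bound which do not divide the order of the group -/
theorem GFam.good (K : ℕ) (hσ : ∀ i, DFun n (σ i)) {Q M : (Fin n → ℕ) → ℕ} (hQ : DFun n Q)
    (hM : DFun n M) (hQM : ∀ u, Q u ≤ lp (M u) K) :
    Delta0 (n + 1) (fun w => w 0 < Q (fun i => w i.succ) ∧ (w 0).Prime ∧
      ¬ w 0 ∣ Nat.card (Φ.G (fun i => σ i (fun j => w j.succ)))) := by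
  have hσ1 : ∀ i, DFun (n + 1) (fun w => σ i (fun j => w j.succ)) := fun i => (hσ i).weak
  have hσ2 : ∀ i, DFun (n + 1 + 1) (fun w => σ i (fun j => w j.succ.succ)) :=
    fun i => (hσ i).weak.weak
  have h1 : Delta0 (n + 1 + 1) (fun w => Φ.dec (fun i => σ i (fun j => w j.succ.succ)) (w 0) ^
      (min (w 1) (Q fun j => w j.succ.succ)) = 1) :=
    Φ.geq (σ := fun i w => σ i (fun j => w j.succ.succ))
      (Φ.gsmall K hσ2 (Φ.gdec hσ2 (DFun.proj 0)) ((DFun.proj 1).min hQ.weak.weak)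
        (M := fun w => M fun j => w j.succ.succ) hM.weak.weak
        fun w => (min_le_right _ _).trans (hQM _)) (Φ.gone hσ2)
  have h2 : Delta0 (n + 1 + 1) (fun w => Φ.dec (fun i => σ i (fun j => w j.succ.succ)) (w 0) = 1) :=
    Φ.geq (σ := fun i w => σ i (fun j => w j.succ.succ)) (Φ.gdec hσ2 (DFun.proj 0)) (Φ.gone hσ2)
  have h3 := Φ.gall hσ1 (A := fun w x => x ^ (min (w 0) (Q fun j => w j.succ)) = 1 → x = 1)
    (h1.imp h2)
  refine ((Delta0.ltFun (DFun.proj 0) hQ.weak).and ((delta_prime (DFun.proj 0)).and h3)).of_iff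
    fun w => ?_
  refine and_congr_right fun h4 => and_congr_right fun h5 => ?_
  rw [not_dvd_card_iff h5]
  have h6 : min (w 0) (Q fun j => w j.succ) = w 0 := min_eq_left h4.le
  rw [h6]

theorem GFam.gpow (hσ : ∀ i, DFun n (σ i)) {g : ∀ u : Fin n → ℕ, Φ.G (fun i => σ i u)}
    {k : (Fin n → ℕ) → ℕ} (hg : DFun n (fun u => Φ.enc _ (g u))) (hk : DFun n k) :
    DFun n (fun u => Φ.enc _ (g u ^ k u)) := by
  classical
  -- the numbers
  obtain ⟨N₁, hN₁d⟩ : ∃ N₁ : (Fin n → ℕ) → ℕ, N₁ = fun u => Φ.N (fun i => σ i u) + 1 := ⟨_, rfl⟩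
  have hN₁ : DFun n N₁ := by
    rw [hN₁d]
    exact (Φ.hN.comp hσ).add (DFun.const 1)
  obtain ⟨M, hMd⟩ : ∃ M : (Fin n → ℕ) → ℕ, M = fun u => N₁ u + k u + 1 := ⟨_, rfl⟩
  have hM : DFun n M := by
    rw [hMd]
    exact (hN₁.add hk).add (DFun.const 1)
  obtain ⟨Q, hQd⟩ : ∃ Q : (Fin n → ℕ) → ℕ,
      Q = fun u => 16 * (lg (k u) + 1 + lg (N₁ u) + 1) ^ 2 + 3 := ⟨_, rfl⟩
  have hQ : DFun n Q := by
    rw [hQd]
    exact ((DFun.const 16).mul (DFun.powConst ((((DFun.lg hk).add (DFun.const 1)).add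
      (DFun.lg hN₁)).add (DFun.const 1)) 2)).add (DFun.const 3)
  have hQM : ∀ u, Q u ≤ lp (M u) 9 := by
    intro u
    have h1 : lg (k u) ≤ lg (M u) := Nat.log_mono_right (by rw [hMd]; simp only; omega)
    have h2 : lg (N₁ u) ≤ lg (M u) := Nat.log_mono_right (by rw [hMd]; simp only; omega)
    have h3 : lg (k u) + 1 + lg (N₁ u) + 1 ≤ 2 * (lg (M u) + 2) := by omega
    have h4 : (lg (k u) + 1 + lg (N₁ u) + 1) ^ 2 ≤ (2 * (lg (M u) + 2)) ^ 2 :=
      Nat.pow_le_pow_left h3 2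
    have h5 : 2 ^ 7 ≤ (lg (M u) + 2) ^ 7 := Nat.pow_le_pow_left (by omega) 7
    have h6 : 1 ≤ (lg (M u) + 2) ^ 2 := Nat.one_le_pow _ _ (by omega)
    have h7 : lp (M u) 9 = (lg (M u) + 2) ^ 7 * (lg (M u) + 2) ^ 2 := by
      rw [lp, ← pow_add]
    rw [h7, hQd]
    simp only
    nlinarith
  have hG := Φ.good 9 hσ hQ hM hQM
  have hkQ : ∀ u, k u < ∏ q ∈ range (Q u) with (q < Q u ∧ q.Prime ∧
      ¬ q ∣ Nat.card (Φ.G (fun i => σ i u))), q := by
    intro u
    have hc : 0 < Nat.card (Φ.G (fun i => σ i u)) := Nat.card_pos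
    have h1 := prod_primes_ge hc (lg (k u) + 1)
    have h2 := lt_two_pow_lg (k u)
    refine h2.trans_le (h1.trans ?_)
    refine Finset.prod_le_prod_of_subset_of_one_le' ?_ ?_
    · intro q hq
      rw [mem_filter, mem_range] at hq ⊢
      have h3 : lg (Nat.card (Φ.G (fun i => σ i u))) ≤ lg (N₁ u) :=
        Nat.log_mono_right (by rw [hN₁d]; exact Φ.card_le _)
      have h4 : q < Q u := by
        refine hq.1.trans_le ?_
        rw [hQd]
        simp only
        have h5 : (lg (k u) + 1 + lg (Nat.card (Φ.G (fun i => σ i u))) + 1) ^ 2 ≤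
            (lg (k u) + 1 + lg (N₁ u) + 1) ^ 2 := Nat.pow_le_pow_left (by omega) 2
        omega
      exact ⟨h4, h4, hq.2⟩
    · intro q hq _
      rw [mem_filter] at hq
      exact hq.2.2.1.one_le
  obtain ⟨S, c, t, c₀, hS, hc, ht, hc₀, hall⟩ := exp_num (K := 9)
    (Gd := fun q u => q < Q u ∧ q.Prime ∧ ¬ q ∣ Nat.card (Φ.G (fun i => σ i u))) hG
    (fun q u h => ⟨h.2.1, h.1⟩) hQ hk hM hQM (fun u => by convert hkQ u)
  -- the roots
  have hσ1 : ∀ i, DFun (n + 1) (fun w => σ i (fun j => w j.succ)) := fun i => (hσ i).weak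
  have hσ2 : ∀ i, DFun (n + 1 + 1) (fun w => σ i (fun j => w j.succ.succ)) :=
    fun i => (hσ i).weak.weak
  have hσ3 : ∀ i, DFun (n + 1 + 1 + 1) (fun w => σ i (fun j => w j.succ.succ.succ)) :=
    fun i => (hσ i).weak.weak.weak
  obtain ⟨R, hRd, hR⟩ := Φ.gsel hσ2
    (A := fun w x => x ^ (min (w 0) (Q fun j => w j.succ.succ)) *
      g (fun j => w j.succ.succ) ^ (min (k (fun j => w j.succ.succ) % w 0)
        (Q fun j => w j.succ.succ)) = Φ.dec (fun i => σ i (fun j => w j.succ.succ)) (w 1)) (by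
      refine Φ.geq (σ := fun i w => σ i (fun j => w j.succ.succ.succ)) (Φ.gmul hσ3
        (Φ.gsmall 9 hσ3 (Φ.gdec hσ3 (DFun.proj 0)) ((DFun.proj 1).min hQ.weak.weak.weak)
          (M := fun w => M fun j => w j.succ.succ.succ) hM.weak.weak.weak
          fun w => (min_le_right _ _).trans (hQM _))
        (Φ.gsmall 9 hσ3 (g := fun w => g fun j => w j.succ.succ.succ) hg.weak.weak.weak
          ((DFun.modAny hk.weak.weak.weak (DFun.proj 1)).min hQ.weak.weak.weak)
          (M := fun w => M fun j => w j.succ.succ.succ) hM.weak.weak.weak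
          fun w => (min_le_right _ _).trans (hQM _)))
        (Φ.gdec hσ3 (DFun.proj 2)))
  obtain ⟨F, hF⟩ : ∃ F : (Fin (n + 1 + 1) → ℕ) → ℕ, F = fun w => Φ.enc _ (R w) := ⟨_, rfl⟩
  rw [← hF] at hRd
  obtain ⟨rt, hrt⟩ : ∃ rt : ℕ → ℕ → (Fin n → ℕ) → ℕ,
      rt = fun q y u => F (Fin.cons q (Fin.cons y u)) := ⟨_, rfl⟩
  have hrtd : DFun (n + 1 + 1) (fun w => rt (w 0) (w 1) (fun j => w j.succ.succ)) := by
    have e : (fun w : Fin (n + 1 + 1) → ℕ => rt (w 0) (w 1) (fun j => w j.succ.succ)) = F := by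
      funext w
      rw [hrt]
      simp only
      congr 1
      funext i
      refine Fin.cases rfl (fun i => ?_) i
      refine Fin.cases rfl (fun i => rfl) i
    rw [e]
    exact hRd
  have hroot : ∀ q y u, (∃ x : Φ.G (fun i => σ i u), x ^ (min q (Q u)) *
      g u ^ (min (k u % q) (Q u)) = Φ.dec (fun i => σ i u) y) →
      (Φ.dec (fun i => σ i u) (rt q y u)) ^ (min q (Q u)) * g u ^ (min (k u % q) (Q u)) =
        Φ.dec (fun i => σ i u) y := by
    intro q y u h
    have h1 := hR (Fin.cons q (Fin.cons y u)) h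
    have h2 : rt q y u = Φ.enc (fun i => σ i u) (R (Fin.cons q (Fin.cons y u))) := by
      rw [hrt, hF]
      rfl
    rw [h2, Φ.dec_enc]
    exact h1
  -- the product
  have hpr : DFun (n + 1) (fun w => Φ.enc (fun i => σ i (fun j => w j.succ))
      ((List.range (Q fun j => w j.succ)).map fun q => if q ∈ S (fun j => w j.succ) then
        Φ.dec (fun i => σ i (fun j => w j.succ)) (rt q (w 0) (fun j => w j.succ)) ^
          c q (fun j => w j.succ) else 1).prod) := by
    refine Φ.gprod 9 (σ := fun i w => σ i (fun j => w j.succ))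
      (P := fun w q => if q ∈ S (fun j => w j.succ) then
        Φ.dec (fun i => σ i (fun j => w j.succ)) (rt q (w 0) (fun j => w j.succ)) ^
          c q (fun j => w j.succ) else 1) (L := fun w => Q fun j => w j.succ)
      (M := fun w => M fun j => w j.succ) hσ1 ?_ hQ.weak hM.weak (fun w => hQM _)
    have h1 : Delta0 (n + 1 + 1) (fun w => w 0 ∈ S (fun j => w j.succ.succ)) :=
      hS.rename (n := n + 1 + 1) (Fin.cons 0 (fun j => j.succ.succ))
    have h2 : DFun (n + 1 + 1) (fun w => c (w 0) (fun j => w j.succ.succ)) :=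
      hc.comp (n := n + 1 + 1) (h := Fin.cons (fun w => w 0) (fun j w => w j.succ.succ))
        (fun i => by
          refine Fin.cases ?_ (fun j => ?_) i
          · exact DFun.proj _
          · exact DFun.proj _)
    have h3 : DFun (n + 1 + 1) (fun w => Φ.enc (fun i => σ i (fun j => w j.succ.succ))
        (Φ.dec (fun i => σ i (fun j => w j.succ.succ)) (rt (w 0) (w 1)
          (fun j => w j.succ.succ)) ^ c (w 0) (fun j => w j.succ.succ))) :=
      Φ.gsmall 9 hσ2 (Φ.gdec hσ2 hrtd) h2 (M := fun w => M fun j => w j.succ.succ) hM.weak.weak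
        fun w => ((hall _).2.1 _).trans (hQM _)
    have h4 := DFun.ite h1 h3 (Φ.gone hσ2)
    have e : (fun w : Fin (n + 1 + 1) → ℕ => Φ.enc (fun i => σ i (fun j => w j.succ.succ))
        (if w 0 ∈ S (fun j => w j.succ.succ) then
          Φ.dec (fun i => σ i (fun j => w j.succ.succ)) (rt (w 0) (w 1)
            (fun j => w j.succ.succ)) ^ c (w 0) (fun j => w j.succ.succ) else 1)) =
        fun w => if w 0 ∈ S (fun j => w j.succ.succ) then
          Φ.enc (fun i => σ i (fun j => w j.succ.succ))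
            (Φ.dec (fun i => σ i (fun j => w j.succ.succ)) (rt (w 0) (w 1)
              (fun j => w j.succ.succ)) ^ c (w 0) (fun j => w j.succ.succ))
          else Φ.enc (fun i => σ i (fun j => w j.succ.succ)) 1 := by
      funext w
      split_ifs <;> rfl
    have e' : (fun w : Fin (n + 1 + 1) → ℕ => Φ.enc (fun i => σ i (fun j => w j.succ.succ))
        (if w 0 ∈ S (fun j => w j.succ.succ) then
          Φ.dec (fun i => σ i (fun j => w j.succ.succ)) (rt (w 0) (w 1)
            (fun j => w j.succ.succ)) ^ c (w 0) (fun j => w j.succ.succ) else 1)) =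
        fun w => if w 0 ∈ S (fun j => w j.succ.succ) then
          Φ.enc (fun i => σ i (fun j => w j.succ.succ))
            (Φ.dec (fun i => σ i (fun j => w j.succ.succ)) (rt (w 0) (w 1)
              (fun j => w j.succ.succ)) ^ c (w 0) (fun j => w j.succ.succ))
          else Φ.enc (fun i => σ i (fun j => w j.succ.succ)) 1 := e
    exact e' ▸ h4
  -- the relation
  have hQ1 : ∀ u, Q u + 1 ≤ lp (M u) 19 := by
    intro u
    have h1 := hQM u
    have h2 : lp (M u) 9 * 2 ^ 10 ≤ lp (M u) 19 := by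
      have : lp (M u) 19 = lp (M u) 9 * (lg (M u) + 2) ^ 10 := by
        rw [lp, lp, ← pow_add]
      rw [this]
      exact Nat.mul_le_mul_left _ (Nat.pow_le_pow_left (by omega) 10)
    have h3 : 1 ≤ lp (M u) 9 := Nat.one_le_pow _ _ (by omega)
    omega
  have hQ2 : ∀ u, Q u ^ 2 + 1 ≤ lp (M u) 19 := by
    intro u
    have h1 := Nat.pow_le_pow_left (hQM u) 2
    have h2 : lp (M u) 19 = lp (M u) 9 ^ 2 * (lg (M u) + 2) := by
      rw [lp, lp]
      ring
    have h3 : 1 ≤ lp (M u) 9 ^ 2 := Nat.one_le_pow _ _ (Nat.one_le_pow _ _ (by omega))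
    rw [h2]
    nlinarith
  have hrel : Delta0 (n + 1) (fun w => (∃ x, Φ.enc (fun i => σ i (fun j => w j.succ)) x = w 0) ∧
      (g (fun j => w j.succ) * Φ.dec (fun i => σ i (fun j => w j.succ)) (w 0) =
        Φ.dec (fun i => σ i (fun j => w j.succ)) (w 0) * g (fun j => w j.succ) ∧
      ((List.range (Q fun j => w j.succ)).map fun q => if q ∈ S (fun j => w j.succ) then
        Φ.dec (fun i => σ i (fun j => w j.succ)) (rt q (w 0) (fun j => w j.succ)) ^
          c q (fun j => w j.succ) else 1).prod * g (fun j => w j.succ) ^ c₀ (fun j => w j.succ) =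
        Φ.dec (fun i => σ i (fun j => w j.succ)) (w 0) ^ t (fun j => w j.succ))) := by
    refine (Φ.gmem hσ1 (DFun.proj 0)).and (Delta0.and ?_ ?_)
    · exact Φ.geq (σ := fun i w => σ i (fun j => w j.succ))
        (Φ.gmul hσ1 (P := fun w => g fun j => w j.succ) hg.weak (Φ.gdec hσ1 (DFun.proj 0)))
        (Φ.gmul hσ1 (Q := fun w => g fun j => w j.succ) (Φ.gdec hσ1 (DFun.proj 0)) hg.weak)
    · exact Φ.geq (σ := fun i w => σ i (fun j => w j.succ))
        (Φ.gmul hσ1 hpr (Φ.gsmall 19 hσ1 (g := fun w => g fun j => w j.succ) hg.weak hc₀.weak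
          (M := fun w => M fun j => w j.succ) hM.weak
          fun w => ((hall _).2.2.2.1).trans (hQ2 _)))
        (Φ.gsmall 19 hσ1 (Φ.gdec hσ1 (DFun.proj 0)) ht.weak
          (M := fun w => M fun j => w j.succ) hM.weak
          fun w => ((hall _).2.2.1).trans (hQ1 _))
  refine DFun.ofGraph (b := fun u => Φ.N (fun i => σ i u)) (Φ.hN.comp hσ) (fun u => Φ.bd _ _)
    (hrel.of_iff fun w => ?_)
  set u : Fin n → ℕ := fun j => w j.succ with hu
  obtain ⟨hSG, -, -, -, hteq, hceq⟩ := hall u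
  have hSS : ∀ q ∈ S u, q.Prime ∧ ¬ q ∣ Nat.card (Φ.G (fun i => σ i u)) :=
    fun q hq => (hSG q hq).2
  have hSQ : ∀ q ∈ S u, q < Q u := fun q hq => (hSG q hq).1
  have hRt : ∀ y, ∀ q ∈ S u, Φ.dec (fun i => σ i u) (rt q y u) ^ q * g u ^ (k u % q) =
      Φ.dec (fun i => σ i u) y := by
    intro y q hq
    have h1 : min q (Q u) = q := min_eq_left (hSQ q hq).le
    have h2 : min (k u % q) (Q u) = k u % q :=
      min_eq_left ((Nat.mod_lt _ (hSS q hq).1.pos).le.trans (hSQ q hq).le)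
    have h3 := hroot q y u
    rw [h1, h2] at h3
    refine h3 ?_
    obtain ⟨x, hx⟩ := (powCoprime ((Nat.Prime.coprime_iff_not_dvd (hSS q hq).1).2
      (hSS q hq).2).symm).surjective (Φ.dec (fun i => σ i u) y * (g u ^ (k u % q))⁻¹)
    refine ⟨x, ?_⟩
    have hx' : x ^ q = Φ.dec (fun i => σ i u) y * (g u ^ (k u % q))⁻¹ := hx
    rw [hx', inv_mul_cancel_right]
  constructor
  · intro h0
    have h1 : Φ.dec (fun i => σ i u) (w 0) = g u ^ k u := by
      rw [h0]
      exact Φ.dec_enc _ _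
    have hcm : Commute (g u) (Φ.dec (fun i => σ i u) (w 0)) := by
      rw [h1]
      exact (Commute.refl _).pow_right _
    exact ⟨⟨_, h0.symm⟩, hcm.eq, (exp_trick hSS hcm (hRt (w 0)) hteq hceq hSQ).2 h1⟩
  · rintro ⟨h1, h2, h3⟩
    have h4 := (exp_trick hSS (show Commute (g u) (Φ.dec (fun i => σ i u) (w 0)) from h2)
      (hRt (w 0)) hteq hceq hSQ).1 h3
    rw [← Φ.enc_dec h1]
    exact congrArg (Φ.enc _) h4

end Pool.Agent.ECD
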