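import Pool.Agent.ECD.IntDefs

/-!
# Package ECD-IntEx: the true pieces exist

*`exists_flags`.* There is `E < 2 ^ (τ * 2 ^ h)` with `PcOK` at all nodes `s < 2 ^ (h - 1 - j)` of
the levels `j + 1`, `j < h`.

*Proof.* Let `tt = tr leaf (fun j s x y => (F (fun k => m ∣ T_k(x, y, c))).ev c x y)` be the tree
with the true pieces. The numbers `p` with `1 ≤ p < 2 ^ h` are the numbers `2 ^ (h - 1 - j) + s`, `j
< h`, `s < 2 ^ (h - 1 - j)`, uniquely (`lg p = h - 1 - j`). Let `b_p < 2 ^ τ` be the number with the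
binary digit `k` equal to `1` iff `m ∣ T_k(tt j (2 s), tt j (2 s + 1), c)` (`k < τ`; e.g. by
induction on `τ`, or `∑_k if .. then 2 ^ k else 0`, or `Nat.ofBits`), and `E = ∑_(p < 2 ^ h) b_p *
(2 ^ τ) ^ p`, so `E < 2 ^ (τ * 2 ^ h)` and `E / 2 ^ (τ * p) % 2 ^ τ = b_p` (`GAvg.dig_sum`,
`PTr.dig_code` or similar: digits in base `2 ^ τ`; for `τ = 0` everything is trivial, `E = 0`). So
`pc τ h E j s = b_p` at all nodes. By induction on `j` the tree `ltr F c leaf h E` has the same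
values as `tt` at the nodes `s < 2 ^ (h - j)` of the level `j ≤ h`: `lawOf F b_p` is `F (fun k => m
∣ ..)` (`funext`, `propext`). ∎

Difficulty: 0.8 h.
-/

set_option autoImplicit false

namespace Pool.Agent.ECD

open Finset Pool.Agent.Grz Pool.Agent.GAvg Pool.Agent.PTr Pool.Agent.MTr Pool.Agent.LPC

/-- a number with the binary digits given by a pattern -/
private theorem intEx_digits {τ : ℕ} (P : Fin τ → Prop) :
    ∃ b, b < 2 ^ τ ∧ ∀ k : Fin τ, b / 2 ^ (k : ℕ) % 2 = 1 ↔ P k := by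
  classical
  refine ⟨∑ i ∈ range τ, (if hi : i < τ then (if P ⟨i, hi⟩ then 1 else 0) else 0) * 2 ^ i, ?_, ?_⟩
  · refine sum_lt (by norm_num) _ ?_
    intro i _
    by_cases hi : i < τ
    · rw [dif_pos hi]
      split_ifs <;> omega
    · rw [dif_neg hi]
      omega
  · intro k
    have h1 : dig 2 (∑ i ∈ range τ,
        (if hi : i < τ then (if P ⟨i, hi⟩ then 1 else 0) else 0) * 2 ^ i) (k : ℕ) =
        (if hi : (k : ℕ) < τ then (if P ⟨k, hi⟩ then 1 else 0) else 0) := by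
      refine dig_sum (by norm_num)
        (fun i => if hi : i < τ then (if P ⟨i, hi⟩ then 1 else 0) else 0) ?_ k.2
      intro i _
      by_cases hi : i < τ
      · simp only [dif_pos hi]
        split_ifs <;> omega
      · simp only [dif_neg hi]
        omega
    unfold dig at h1
    rw [h1, dif_pos k.2]
    by_cases hP : P k
    · rw [if_pos hP]
      simp [hP]
    · rw [if_neg hP]
      simp [hP]

/-- the place of a node -/
private theorem intEx_place {h j s : ℕ} (hj : j < h) (hs : s < 2 ^ (h - 1 - j)) :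
    2 ^ (h - 1 - j) + s < 2 ^ h ∧ h - 1 - Nat.log 2 (2 ^ (h - 1 - j) + s) = j ∧
      2 ^ (h - 1 - j) + s - 2 ^ Nat.log 2 (2 ^ (h - 1 - j) + s) = s := by
  have h1 : 2 ^ (h - 1 - j) + s < 2 ^ (h - 1 - j + 1) := by
    rw [pow_succ]
    omega
  have h2 : Nat.log 2 (2 ^ (h - 1 - j) + s) = h - 1 - j :=
    Nat.log_eq_of_pow_le_of_lt_pow (by omega) h1
  refine ⟨lt_of_lt_of_le h1 (Nat.pow_le_pow_right (by norm_num) (by omega)), ?_, ?_⟩
  · rw [h2]
    omega
  · rw [h2]
    omega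

theorem exists_flags {d e τ : ℕ} (F : (Fin τ → Prop) → Law d e)
    (T : Fin τ → MvPolynomial (Fin d ⊕ Fin d ⊕ Fin e) ℤ) (c : Fin e → ℤ) (leaf : ℕ → Fin d → ℤ)
    (h m : ℕ) : ∃ E, E < 2 ^ (τ * 2 ^ h) ∧ ∀ j s, j < h → s < 2 ^ (h - 1 - j) →
      PcOK F T c leaf h E m j s := by
  classical
  obtain ⟨tt, htt⟩ : ∃ tt : ℕ → ℕ → Fin d → ℤ, tt = tr leaf (fun _ _ x y => (F (fun k =>
      (m : ℤ) ∣ MvPolynomial.aeval (Sum.elim x (Sum.elim y c)) (T k))).ev c x y) := ⟨_, rfl⟩
  choose b hb1 hb2 using fun (j s : ℕ) => intEx_digits (fun k : Fin τ =>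
    (m : ℤ) ∣ MvPolynomial.aeval (Sum.elim (tt j (2 * s)) (Sum.elim (tt j (2 * s + 1)) c)) (T k))
  obtain ⟨E, hE⟩ : ∃ E, E = ∑ p ∈ range (2 ^ h),
      b (h - 1 - Nat.log 2 p) (p - 2 ^ Nat.log 2 p) * (2 ^ τ) ^ p := ⟨_, rfl⟩
  have hElt : E < 2 ^ (τ * 2 ^ h) := by
    rw [hE, pow_mul]
    exact sum_lt (by positivity) (fun p => b (h - 1 - Nat.log 2 p) (p - 2 ^ Nat.log 2 p))
      (fun i _ => hb1 _ _)
  have hpc : ∀ j s, j < h → s < 2 ^ (h - 1 - j) → pc τ h E j s = b j s := by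
    intro j s hj hs
    obtain ⟨h1, h2, h3⟩ := intEx_place hj hs
    have h4 : dig (2 ^ τ) E (2 ^ (h - 1 - j) + s) = b (h - 1 - Nat.log 2 (2 ^ (h - 1 - j) + s))
        (2 ^ (h - 1 - j) + s - 2 ^ Nat.log 2 (2 ^ (h - 1 - j) + s)) := by
      rw [hE]
      exact dig_sum (by positivity)
        (fun p => b (h - 1 - Nat.log 2 p) (p - 2 ^ Nat.log 2 p)) (fun i _ => hb1 _ _) h1
    rw [h2, h3] at h4
    unfold dig at h4
    unfold pc
    rw [pow_mul]
    exact h4
  have htree : ∀ j, j ≤ h → ∀ s, s < 2 ^ (h - j) → ltr F c leaf h E j s = tt j s := by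
    intro j
    induction j with
    | zero =>
      intro _ s _
      rw [htt]
      rfl
    | succ j ih =>
      intro hj s hs
      have hs' : s < 2 ^ (h - 1 - j) := by
        have h1 : h - (j + 1) = h - 1 - j := by omega
        rwa [h1] at hs
      have h2 : 2 ^ (h - j) = 2 * 2 ^ (h - 1 - j) := by
        rw [← pow_succ']
        congr 1
        omega
      have e1 := ih (by omega) (2 * s) (by omega)
      have e2 := ih (by omega) (2 * s + 1) (by omega)
      have e3 : ltr F c leaf h E (j + 1) s = (lawOf F (pc τ h E j s)).ev c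
          (ltr F c leaf h E j (2 * s)) (ltr F c leaf h E j (2 * s + 1)) := rfl
      have e4 : tt (j + 1) s = (F (fun k => (m : ℤ) ∣ MvPolynomial.aeval
          (Sum.elim (tt j (2 * s)) (Sum.elim (tt j (2 * s + 1)) c)) (T k))).ev c
          (tt j (2 * s)) (tt j (2 * s + 1)) := by
        rw [htt]
        rfl
      rw [e3, e4, e1, e2, hpc j s (by omega) hs']
      have e5 : lawOf F (b j s) = F (fun k => (m : ℤ) ∣ MvPolynomial.aeval
          (Sum.elim (tt j (2 * s)) (Sum.elim (tt j (2 * s + 1)) c)) (T k)) := by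
        unfold lawOf
        congr 1
        funext k
        exact propext (hb2 j s k)
      rw [e5]
  refine ⟨E, hElt, ?_⟩
  intro j s hj hs k
  have h2 : 2 ^ (h - j) = 2 * 2 ^ (h - 1 - j) := by
    rw [← pow_succ']
    congr 1
    omega
  rw [hpc j s hj hs, htree j (by omega) (2 * s) (by omega),
    htree j (by omega) (2 * s + 1) (by omega)]
  exact hb2 j s k

end Pool.Agent.ECD
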