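import Pool.Agent.ECD.IntDvd

/-!
# Package ECD-IntFlag: the relation that all pieces are right is definable

*`pc_def`.* `pc τ (h v) (E v) (j v) (s v) = E / 2 ^ (τ * (2 ^ (h - 1 - j) + s)) % 2 ^ τ` is a `DFun`:
`2 ^ (h v - 1 - j v) ≤ 2 ^ h v ≤ lp (N v) K` is a `DFun` (`DFun.ofGraph` with this bound, which is a
`DFun` by `DFun.lg`, `DFun.powConst`; `Delta0.eqPow` of `PTr/Pow.lean`), then `DFun.divPow` (base
`2`) and `DFun.modAny`.

*`flags_def`.* The relation that `PcOK` holds at all nodes is `Delta0`. Proof: `∀ j < h v`,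
`∀ s < 2 ^ (h v - 1 - j)` (bounded by `lp (N v) K`; `Delta0.ballFun` twice, variables `(s, j, v)`; to
have `jj ≤ h` use `min j (h v)`), for all `k : Fin τ` (`Delta0.allOf`): the digit `k` of `pc ..` is
`1` (`DFun.divPos` with the constant `2 ^ k`, `DFun.modPos`) iff `m v ∣ T_k(node (j, 2 s),
node (j, 2 s + 1), c)`, which is `Delta0` by `node_dvd` with `a = 2`, `ι = e`, `x k = c k`,
`G` = the polynomial `T k` with the variables renamed (`MvPolynomial.rename`,
`MvPolynomial.aeval_rename`: `Sum.inl i ↦ Sum.inl (0, i)`, `Sum.inr (Sum.inl i) ↦ Sum.inl (1, i)`,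
`Sum.inr (Sum.inr k) ↦ Sum.inr k`).

Difficulty: 1.0 h.
-/

set_option autoImplicit false

namespace Pool.Agent.ECD

open Finset Pool.Agent.Grz Pool.Agent.GAvg Pool.Agent.PTr Pool.Agent.MTr Pool.Agent.LPC

private theorem lpd_IntFlag {r K : ℕ} {N : (Fin r → ℕ) → ℕ} (hN : DFun r N) :
    DFun r (fun v => lp (N v) K) := DFun.powConst ((DFun.lg hN).add (DFun.const 2)) K

private theorem lev_IntFlag {r K : ℕ} {N h j : (Fin r → ℕ) → ℕ} (hN : DFun r N) (hh : DFun r h)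
    (hj : DFun r j) (hhb : ∀ v, 2 ^ h v ≤ lp (N v) K) :
    DFun r (fun v => 2 ^ (h v - 1 - j v)) :=
  dfun_pow (le_refl 2) ((hh.sub (DFun.const 1)).sub hj) (lpd_IntFlag hN) fun v =>
    (Nat.pow_le_pow_right (by norm_num) (by omega)).trans (hhb v)

theorem pc_def {r τ K : ℕ} {E N h j s : (Fin r → ℕ) → ℕ} (hE : DFun r E) (hN : DFun r N)
    (hh : DFun r h) (hj : DFun r j) (hs : DFun r s) (hhb : ∀ v, 2 ^ h v ≤ lp (N v) K) :
    DFun r (fun v => pc τ (h v) (E v) (j v) (s v)) := by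
  have h1 := (DFun.const (n := r) τ).mul ((lev_IntFlag hN hh hj hhb).add hs)
  exact DFun.modPos (DFun.divPow (le_refl 2) hE h1) (DFun.const (2 ^ τ)) (fun v => by positivity)

/-- the variables of the test polynomials as nodes and parameters -/
private def ren_IntFlag {d e : ℕ} : Fin d ⊕ Fin d ⊕ Fin e → (Fin 2 × Fin d) ⊕ Fin e
  | Sum.inl i => Sum.inl (0, i)
  | Sum.inr (Sum.inl i) => Sum.inl (1, i)
  | Sum.inr (Sum.inr k) => Sum.inr k

private theorem one_IntFlag {d e τ r K : ℕ} (F : (Fin τ → Prop) → Law d e)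
    (P : MvPolynomial (Fin d ⊕ Fin d ⊕ Fin e) ℤ) {c : Fin e → (Fin r → ℕ) → ℤ}
    {leaf : ℕ → (Fin r → ℕ) → Fin d → ℤ} {E N h m B j s : (Fin r → ℕ) → ℕ}
    (hc : ∀ k, ZF r (c k)) (hleaf : ∀ i, ZF (r + 1) (fun w => leaf (w 0) (fun k => w k.succ) i))
    (hE : DFun r E) (hN : DFun r N) (hh : DFun r h) (hm : DFun r m) (hB : DFun r B)
    (hj : DFun r j) (hs : DFun r s)
    (hm0 : ∀ v, 0 < m v) (hhb : ∀ v, 2 ^ h v ≤ lp (N v) K) (hjh : ∀ v, j v ≤ h v)
    (hcB : ∀ k v, (c k v).natAbs ≤ B v) (hlB : ∀ s v i, (leaf s v i).natAbs ≤ B v) :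
    Delta0 r (fun v => (m v : ℤ) ∣ MvPolynomial.aeval (Sum.elim
      (ltr F (fun k => c k v) (fun s i => leaf s v i) (h v) (E v) (j v) (2 * s v))
      (Sum.elim (ltr F (fun k => c k v) (fun s i => leaf s v i) (h v) (E v) (j v) (2 * s v + 1))
        (fun k => c k v))) P) := by
  refine (node_dvd (K := K) (a := 2) (jj := fun _ => j) (ss := fun p v => 2 * s v + (p : ℕ))
    (x := c) F (MvPolynomial.rename ren_IntFlag P) hc hleaf hE hN hh hm hB (fun _ => hj)
    (fun p => ((DFun.const 2).mul hs).add (DFun.const (p : ℕ))) hc hm0 hhb (fun _ => hjh)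
    hcB hlB hcB).of_iff fun v => ?_
  rw [MvPolynomial.aeval_rename]
  have e1 : (Sum.elim (fun p : Fin 2 × Fin d => ltr F (fun k => c k v) (fun s i => leaf s v i)
      (h v) (E v) (j v) (2 * s v + (p.1 : ℕ)) p.2) (fun k => c k v)) ∘ ren_IntFlag =
      Sum.elim (ltr F (fun k => c k v) (fun s i => leaf s v i) (h v) (E v) (j v) (2 * s v))
      (Sum.elim (ltr F (fun k => c k v) (fun s i => leaf s v i) (h v) (E v) (j v) (2 * s v + 1))
        (fun k => c k v)) := by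
    funext z
    rcases z with i | i | k <;> rfl
  rw [e1]

private theorem all_IntFlag {d e τ r K : ℕ} (F : (Fin τ → Prop) → Law d e)
    (T : Fin τ → MvPolynomial (Fin d ⊕ Fin d ⊕ Fin e) ℤ) {c : Fin e → (Fin r → ℕ) → ℤ}
    {leaf : ℕ → (Fin r → ℕ) → Fin d → ℤ} {E N h m B j s : (Fin r → ℕ) → ℕ}
    (hc : ∀ k, ZF r (c k)) (hleaf : ∀ i, ZF (r + 1) (fun w => leaf (w 0) (fun k => w k.succ) i))
    (hE : DFun r E) (hN : DFun r N) (hh : DFun r h) (hm : DFun r m) (hB : DFun r B)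
    (hj : DFun r j) (hs : DFun r s)
    (hm0 : ∀ v, 0 < m v) (hhb : ∀ v, 2 ^ h v ≤ lp (N v) K) (hjh : ∀ v, j v ≤ h v)
    (hcB : ∀ k v, (c k v).natAbs ≤ B v) (hlB : ∀ s v i, (leaf s v i).natAbs ≤ B v) :
    Delta0 r (fun v => PcOK F T (fun k => c k v) (fun s i => leaf s v i) (h v) (E v) (m v)
      (j v) (s v)) := by
  refine Delta0.allOf fun k => ?_
  have h1 : DFun r (fun v => pc τ (h v) (E v) (j v) (s v) / 2 ^ (k : ℕ) % 2) :=
    DFun.modPos (DFun.divPos (pc_def hE hN hh hj hs hhb) (DFun.const (2 ^ (k : ℕ)))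
      (fun v => by positivity)) (DFun.const 2) (fun v => by norm_num)
  exact (Delta0.eqFun h1 (DFun.const 1)).iff
    (one_IntFlag F (T k) hc hleaf hE hN hh hm hB hj hs hm0 hhb hjh hcB hlB)

theorem flags_def {d e τ r K : ℕ} (F : (Fin τ → Prop) → Law d e)
    (T : Fin τ → MvPolynomial (Fin d ⊕ Fin d ⊕ Fin e) ℤ) {c : Fin e → (Fin r → ℕ) → ℤ}
    {leaf : ℕ → (Fin r → ℕ) → Fin d → ℤ} {E N h m B : (Fin r → ℕ) → ℕ} (hc : ∀ k, ZF r (c k))
    (hleaf : ∀ i, ZF (r + 1) (fun w => leaf (w 0) (fun k => w k.succ) i))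
    (hE : DFun r E) (hN : DFun r N) (hh : DFun r h) (hm : DFun r m) (hB : DFun r B)
    (hm0 : ∀ v, 0 < m v) (hhb : ∀ v, 2 ^ h v ≤ lp (N v) K)
    (hcB : ∀ k v, (c k v).natAbs ≤ B v) (hlB : ∀ s v i, (leaf s v i).natAbs ≤ B v) :
    Delta0 r (fun v => ∀ j s, j < h v → s < 2 ^ (h v - 1 - j) →
      PcOK F T (fun k => c k v) (fun s i => leaf s v i) (h v) (E v) (m v) j s) := by
  have hj : DFun (r + 1 + 1) (fun w => w (Fin.succ 0)) := DFun.proj _
  have hs : DFun (r + 1 + 1) (fun w => w 0) := DFun.proj 0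
  have hh2 := hh.weak.weak
  have hl : ∀ i, ZF (r + 1 + 1 + 1) (fun w => leaf (w 0) (fun k => w k.succ.succ.succ) i) :=
    fun i => zf_app (F := fun s v => leaf s v i) (hleaf i) (u := fun w => w 0)
      (v := fun k w => w k.succ.succ.succ) (DFun.proj 0) (fun k => DFun.proj _)
  have h1 := all_IntFlag (r := r + 1 + 1) (K := K) F T (c := fun k w => c k fun i => w i.succ.succ)
    (leaf := fun s w i => leaf s (fun k => w k.succ.succ) i) (fun k => (hc k).weak.weak) hl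
    hE.weak.weak hN.weak.weak hh2 hm.weak.weak hB.weak.weak (hj.min hh2) hs
    (fun w => hm0 _) (fun w => hhb _) (fun w => min_le_right _ _) (fun k w => hcB k _)
    (fun s w i => hlB s _ i)
  have h2 := (Delta0.ltFun hj hh2).imp ((Delta0.ltFun hs
    (lev_IntFlag hN.weak.weak hh2 hj (fun w => hhb _))).imp h1)
  have h3 := Delta0.ballFun (P := fun s (w : Fin (r + 1) → ℕ) => w 0 < h (fun i => w i.succ) →
    s < 2 ^ (h (fun i => w i.succ) - 1 - w 0) →
      PcOK F T (fun k => c k (fun i => w i.succ)) (fun s i => leaf s (fun i => w i.succ) i)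
        (h (fun i => w i.succ)) (E (fun i => w i.succ)) (m (fun i => w i.succ))
        (min (w 0) (h (fun i => w i.succ))) s) (lpd_IntFlag (K := K) hN).weak h2
  have h4 := Delta0.ballFun (P := fun j (v : Fin r → ℕ) => ∀ s, s ≤ lp (N v) K → j < h v →
    s < 2 ^ (h v - 1 - j) →
      PcOK F T (fun k => c k v) (fun s i => leaf s v i) (h v) (E v) (m v) (min j (h v)) s) hh h3
  refine h4.of_iff fun v => ⟨fun H j _ s _ hj hs => ?_, fun H j s hj hs => ?_⟩
  · rw [min_eq_left hj.le]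
    exact H j s hj hs
  · have h5 : s ≤ lp (N v) K := hs.le.trans
      ((Nat.pow_le_pow_right (by norm_num) (by omega)).trans (hhb v))
    have h6 := H j hj.le s h5 hj hs
    rwa [min_eq_left hj.le] at h6

end Pool.Agent.ECD
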