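import Pool.Agent.ECD.IntTree
import Pool.Agent.ECD.IntEx
import Pool.Agent.ECD.IntFlag
import Pool.Agent.ECD.AlgDig
import Pool.Agent.ECD.GPowA

/-!
# Products in families of algebraic groups
-/

set_option autoImplicit false

namespace Pool.Agent.ECD

open Finset Pool.Agent.Grz Pool.Agent.GAvg Pool.Agent.PTr Pool.Agent.MTr Pool.Agent.LPC

theorem delta_coprime {n : ℕ} {f g : (Fin n → ℕ) → ℕ} (hf : DFun n f) (hg : DFun n g)
    (h0 : ∀ v, 0 < g v) : Delta0 n (fun v => Nat.Coprime (f v) (g v)) := by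
  have h1 : Delta0 (n + 1) (fun w => w 0 ∣ f (fun i => w i.succ) →
      w 0 ∣ g (fun i => w i.succ) → w 0 = 1) :=
    (delta_dvd (DFun.proj 0) hf.weak).imp ((delta_dvd (DFun.proj 0) hg.weak).imp
      (Delta0.eqFun (DFun.proj 0) (DFun.const 1)))
  refine (Delta0.ballFun (P := fun x v => x ∣ f v → x ∣ g v → x = 1) hg h1).of_iff fun v => ?_
  constructor
  · intro h x _ h2 h3
    exact Nat.eq_one_of_dvd_coprimes h h2 h3
  · intro h
    exact h _ (Nat.le_of_dvd (h0 v) (Nat.gcd_dvd_right _ _)) (Nat.gcd_dvd_left _ _)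
      (Nat.gcd_dvd_right _ _)

variable {r d e τ : ℕ} (Φ : AlgFam r d e τ)

/-- products of `2 ^ h` elements -/
theorem AlgFam.prod2 {n : ℕ} {σ : Fin r → (Fin n → ℕ) → ℕ}
    {P : ∀ u : Fin n → ℕ, ℕ → Φ.G (fun i => σ i u)} {h M : (Fin n → ℕ) → ℕ}
    (hσ : ∀ i, DFun n (σ i))
    (hP : DFun (n + 1) (fun w => Φ.enc _ (P (fun i => w i.succ) (w 0)))) (hh : DFun n h)
    (hM : DFun n M) (hhM : ∀ u, 2 ^ h u ≤ 4 * (lg (M u) + 1)) :
    DFun n (fun u => Φ.enc _ ((List.range (2 ^ h u)).map fun i => P u i).prod) := by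
  classical
  have hσ1 : ∀ i, DFun (n + 1) (fun w : Fin (n + 1) → ℕ => σ i (fun j => w j.succ)) :=
    fun i => (hσ i).weak
  -- the data in the variables `u`
  obtain ⟨m, hmd⟩ : ∃ m : (Fin n → ℕ) → ℕ, m = fun u => Φ.m (fun i => σ i u) := ⟨_, rfl⟩
  have hm : DFun n m := by rw [hmd]; exact Φ.hm.comp hσ
  have hm0 : ∀ u, 0 < m u := fun u => by rw [hmd]; exact Φ.mpos _
  obtain ⟨c, hcd⟩ : ∃ c : Fin e → (Fin n → ℕ) → ℕ, c = fun k u => Φ.c k (fun i => σ i u) :=
    ⟨_, rfl⟩
  have hc : ∀ k, DFun n (c k) := fun k => by rw [hcd]; exact (Φ.hc k).comp hσ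
  obtain ⟨lf, hlfd⟩ : ∃ lf : ℕ → (Fin n → ℕ) → Fin d → ℕ,
      lf = fun s u i => Φ.pt (fun i => σ i u) (P u s) i := ⟨_, rfl⟩
  have hlf : ∀ i, DFun (n + 1) (fun w => lf (w 0) (fun k => w k.succ) i) := by
    intro i
    rw [hlfd]
    exact Φ.pt_def (σ := fun i w => σ i (fun j => w j.succ)) hσ1
      (g := fun w => P (fun j => w j.succ) (w 0)) hP i
  obtain ⟨B, hBd⟩ : ∃ B : (Fin n → ℕ) → ℕ, B = fun u => m u + ∑ k, c k u := ⟨_, rfl⟩
  have hB : DFun n B := by rw [hBd]; exact hm.add (DFun.finSum _ hc)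
  have hcB : ∀ k u, c k u ≤ B u := by
    intro k u
    rw [hBd]
    exact (Finset.single_le_sum (f := fun k => c k u) (fun _ _ => Nat.zero_le _)
      (mem_univ k)).trans (Nat.le_add_left _ _)
  have hmB : ∀ u, m u ≤ B u := fun u => by rw [hBd]; exact Nat.le_add_right _ _
  have hlB : ∀ s u i, lf s u i ≤ B u := by
    intro s u i
    refine le_trans ?_ (hmB u)
    rw [hlfd, hmd]
    exact (Φ.pt_lt _ _ _).le
  have hhb : ∀ u, 2 ^ h u ≤ lp (M u) 2 := by
    intro u
    refine (hhM u).trans ?_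
    rw [lp]
    nlinarith
  -- the bound for the code of the pieces
  obtain ⟨EB, hEBd⟩ : ∃ EB : (Fin n → ℕ) → ℕ, EB = fun u => (2 * (M u + 1)) ^ (4 * τ) :=
    ⟨_, rfl⟩
  have hEB : DFun n EB := by
    rw [hEBd]
    exact DFun.powConst ((DFun.const 2).mul (hM.add (DFun.const 1))) _
  have hEle : ∀ u E, E < 2 ^ (τ * 2 ^ h u) → E ≤ EB u := by
    intro u E hE
    refine hE.le.trans ?_
    rw [hEBd]
    simp only
    have h1 : 2 ^ (lg (M u)) ≤ M u + 1 := by
      rcases Nat.eq_zero_or_pos (M u) with h0 | h0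
      · rw [h0]
        decide
      · exact (Nat.pow_log_le_self 2 h0.ne').trans (Nat.le_succ _)
    calc 2 ^ (τ * 2 ^ h u) ≤ 2 ^ (τ * (4 * (lg (M u) + 1))) :=
          Nat.pow_le_pow_right (by norm_num) (Nat.mul_le_mul_left _ (hhM u))
      _ = (2 ^ (lg (M u) + 1)) ^ (4 * τ) := by
          rw [← pow_mul]
          congr 1
          ring
      _ ≤ (2 * (M u + 1)) ^ (4 * τ) := by
          refine Nat.pow_le_pow_left ?_ _
          rw [pow_succ]
          omega
  -- the pieces are right: variables `(E, y, u)`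
  have hF : Delta0 (n + 1 + 1) (fun w => ∀ j s, j < h (fun j => w j.succ.succ) →
      s < 2 ^ (h (fun j => w j.succ.succ) - 1 - j) →
      PcOK Φ.F Φ.T (fun k => (c k (fun j => w j.succ.succ) : ℤ))
        (fun s i => (lf s (fun j => w j.succ.succ) i : ℤ)) (h (fun j => w j.succ.succ)) (w 0)
        (m (fun j => w j.succ.succ)) j s) :=
    flags_def (r := n + 1 + 1) (K := 2) Φ.F Φ.T
      (c := fun k w => (c k (fun j => w j.succ.succ) : ℤ))
      (leaf := fun s w i => (lf s (fun j => w j.succ.succ) i : ℤ)) (E := fun w => w 0)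
      (N := fun w => M (fun j => w j.succ.succ)) (h := fun w => h (fun j => w j.succ.succ))
      (m := fun w => m (fun j => w j.succ.succ)) (B := fun w => B (fun j => w j.succ.succ))
      (fun k => ZF.nat (hc k).weak.weak)
      (fun i => ZF.nat ((hlf i).comp (n := n + 1 + 1 + 1)
        (h := Fin.cons (fun w => w 0) (fun j w => w j.succ.succ.succ)) (fun j => by
          refine Fin.cases ?_ (fun j => ?_) j
          · exact DFun.proj _
          · exact DFun.proj _)))
      (DFun.proj 0) hM.weak.weak hh.weak.weak hm.weak.weak hB.weak.weak (fun w => hm0 _)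
      (fun w => hhb _) (fun k w => by simpa using hcB k _)
      (fun s w i => by simpa using hlB s _ i)
  -- the value of the tree is proportional to the coordinates: variables `(z, E, y, u)`
  have hX : ∀ i : Fin d, Delta0 (n + 1 + 1 + 1) (fun w => (m (fun j => w j.succ.succ.succ) : ℤ) ∣
      ltr Φ.F (fun k => (c k (fun j => w j.succ.succ.succ) : ℤ))
        (fun s i => (lf s (fun j => w j.succ.succ.succ) i : ℤ))
        (h (fun j => w j.succ.succ.succ)) (w 1) (h (fun j => w j.succ.succ.succ)) 0 i -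
      (min (w 0) (m (fun j => w j.succ.succ.succ)) : ℕ) *
        ((w 2 / m (fun j => w j.succ.succ.succ) ^ (i : ℕ) % m (fun j => w j.succ.succ.succ) :
          ℕ) : ℤ)) := by
    intro i
    have hx1 : DFun (n + 1 + 1 + 1) (fun w => min (w 0) (m (fun j => w j.succ.succ.succ))) :=
      (DFun.proj 0).min hm.weak.weak.weak
    have hx2 : DFun (n + 1 + 1 + 1) (fun w => w 2 / m (fun j => w j.succ.succ.succ) ^ (i : ℕ) %
        m (fun j => w j.succ.succ.succ)) :=
      DFun.modAny (DFun.divPos (DFun.proj 2) (DFun.powConst hm.weak.weak.weak _)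
        fun w => pow_pos (hm0 _) _) hm.weak.weak.weak
    have h1 := node_dvd (r := n + 1 + 1 + 1) (K := 2) (a := 1) (ι := 2) Φ.F
      (c := fun k w => (c k (fun j => w j.succ.succ.succ) : ℤ))
      (leaf := fun s w i => (lf s (fun j => w j.succ.succ.succ) i : ℤ)) (E := fun w => w 1)
      (N := fun w => M (fun j => w j.succ.succ.succ))
      (h := fun w => h (fun j => w j.succ.succ.succ))
      (m := fun w => m (fun j => w j.succ.succ.succ))
      (B := fun w => B (fun j => w j.succ.succ.succ))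
      (jj := fun _ w => h (fun j => w j.succ.succ.succ)) (ss := fun _ _ => 0)
      (x := ![fun w => ((min (w 0) (m (fun j => w j.succ.succ.succ)) : ℕ) : ℤ),
        fun w => ((w 2 / m (fun j => w j.succ.succ.succ) ^ (i : ℕ) %
          m (fun j => w j.succ.succ.succ) : ℕ) : ℤ)])
      (MvPolynomial.X (Sum.inl (0, i)) -
        MvPolynomial.X (Sum.inr 0) * MvPolynomial.X (Sum.inr 1))
      (fun k => ZF.nat (hc k).weak.weak.weak)
      (fun i => ZF.nat ((hlf i).comp (n := n + 1 + 1 + 1 + 1)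
        (h := Fin.cons (fun w => w 0) (fun j w => w j.succ.succ.succ.succ)) (fun j => by
          refine Fin.cases ?_ (fun j => ?_) j
          · exact DFun.proj _
          · exact DFun.proj _)))
      (DFun.proj 1) hM.weak.weak.weak hh.weak.weak.weak hm.weak.weak.weak hB.weak.weak.weak
      (fun _ => hh.weak.weak.weak) (fun _ => DFun.const 0)
      (fun k => by
        refine Fin.cases ?_ (fun k => ?_) k
        · exact ZF.nat hx1
        · refine Fin.cases ?_ (fun k => k.elim0) k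
          exact ZF.nat hx2)
      (fun w => hm0 _) (fun w => hhb _) (fun _ w => le_rfl) (fun k w => by simpa using hcB k _)
      (fun s w i => by simpa using hlB s _ i)
      (fun k w => by
        refine Fin.cases ?_ (fun k => ?_) k
        · simp only [Matrix.cons_val_zero, Int.natAbs_natCast]
          exact (min_le_right _ _).trans (hmB _)
        · refine Fin.cases ?_ (fun k => k.elim0) k
          simp only [Matrix.cons_val_succ, Matrix.cons_val_zero, Int.natAbs_natCast]
          exact (Nat.mod_lt _ (hm0 _)).le.trans (hmB _))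
    refine h1.of_iff fun w => ?_
    simp
  have hZ : Delta0 (n + 1 + 1) (fun w => ∃ z, z ≤ m (fun j => w j.succ.succ) ∧
      (Nat.Coprime z (m (fun j => w j.succ.succ)) ∧ ∀ i : Fin d,
        (m (fun j => w j.succ.succ) : ℤ) ∣
        ltr Φ.F (fun k => (c k (fun j => w j.succ.succ) : ℤ))
          (fun s i => (lf s (fun j => w j.succ.succ) i : ℤ))
          (h (fun j => w j.succ.succ)) (w 0) (h (fun j => w j.succ.succ)) 0 i -
        (min z (m (fun j => w j.succ.succ)) : ℕ) *
          ((w 1 / m (fun j => w j.succ.succ) ^ (i : ℕ) % m (fun j => w j.succ.succ) :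
            ℕ) : ℤ))) :=
    Delta0.bexFun (P := fun z w => Nat.Coprime z (m (fun j => w j.succ.succ)) ∧ ∀ i : Fin d,
        (m (fun j => w j.succ.succ) : ℤ) ∣
        ltr Φ.F (fun k => (c k (fun j => w j.succ.succ) : ℤ))
          (fun s i => (lf s (fun j => w j.succ.succ) i : ℤ))
          (h (fun j => w j.succ.succ)) (w 0) (h (fun j => w j.succ.succ)) 0 i -
        (min z (m (fun j => w j.succ.succ)) : ℕ) *
          ((w 1 / m (fun j => w j.succ.succ) ^ (i : ℕ) % m (fun j => w j.succ.succ) :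
            ℕ) : ℤ)) hm.weak.weak
      ((delta_coprime (DFun.proj 0) hm.weak.weak.weak fun w => hm0 _).and (Delta0.allOf hX))
  have hmem : Delta0 (n + 1) (fun w => ∃ g, Φ.enc (fun i => σ i (fun j => w j.succ)) g = w 0) :=
    Φ.mem.subst (n := n + 1) (h := Fin.cons (fun w => w 0) (fun i w => σ i (fun j => w j.succ)))
      (fun i => by
        refine Fin.cases ?_ (fun i => ?_) i
        · exact DFun.proj 0
        · exact hσ1 i)
  have hrel := (hmem.and (Delta0.bexFun (n := n + 1)
    (b := fun w => EB (fun j => w j.succ)) hEB.weak (P := fun E w =>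
      (∀ j s, j < h (fun j => w j.succ) → s < 2 ^ (h (fun j => w j.succ) - 1 - j) →
      PcOK Φ.F Φ.T (fun k => (c k (fun j => w j.succ) : ℤ))
        (fun s i => (lf s (fun j => w j.succ) i : ℤ)) (h (fun j => w j.succ)) E
        (m (fun j => w j.succ)) j s) ∧
      ∃ z, z ≤ m (fun j => w j.succ) ∧
      (Nat.Coprime z (m (fun j => w j.succ)) ∧ ∀ i : Fin d,
        (m (fun j => w j.succ) : ℤ) ∣
        ltr Φ.F (fun k => (c k (fun j => w j.succ) : ℤ))
          (fun s i => (lf s (fun j => w j.succ) i : ℤ))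
          (h (fun j => w j.succ)) E (h (fun j => w j.succ)) 0 i -
        (min z (m (fun j => w j.succ)) : ℕ) *
          ((w 0 / m (fun j => w j.succ) ^ (i : ℕ) % m (fun j => w j.succ) :
            ℕ) : ℤ))) (hF.and hZ)))
  refine DFun.ofGraph (b := fun u => m u ^ d) (DFun.powConst hm d) (fun u => ?_)
    (hrel.of_iff fun w => ?_)
  · rw [hmd]
    exact (Φ.enc_lt _ _).le
  set u : Fin n → ℕ := fun j => w j.succ with hu
  -- abbreviations
  have ec : (fun k => (c k u : ℤ)) = fun k => (Φ.c k (fun i => σ i u) : ℤ) := by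
    funext k
    rw [hcd]
  have el : (fun s i => (lf s u i : ℤ)) = fun s i => (Φ.pt (fun i => σ i u) (P u s) i : ℤ) := by
    funext s i
    rw [hlfd]
  have em : m u = Φ.m (fun i => σ i u) := by rw [hmd]
  have epr : ∀ E, (∀ j s, j < h u → s < 2 ^ (h u - 1 - j) →
      PcOK Φ.F Φ.T (fun k => (c k u : ℤ)) (fun s i => (lf s u i : ℤ)) (h u) E (m u) j s) →
      ∃ z : (ZMod (Φ.m (fun i => σ i u)))ˣ, ∀ i,
        ((ltr Φ.F (fun k => (c k u : ℤ)) (fun s i => (lf s u i : ℤ)) (h u) E (h u) 0 i : ℤ) :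
          ZMod (Φ.m (fun i => σ i u))) = z * (Φ.pt (fun i => σ i u)
            ((List.range (2 ^ h u)).map fun i => P u i).prod i :
              ZMod (Φ.m (fun i => σ i u))) := by
    intro E hE
    rw [ec, el, em] at hE
    obtain ⟨z, hz⟩ := ltr_correct Φ (fun i => σ i u) (P u) hE (h u) 0 le_rfl (by simp)
    refine ⟨z, fun i => ?_⟩
    rw [ec, el]
    have h1 := hz i
    simpa using h1
  have edig : ∀ (g : Φ.G (fun i => σ i u)) (i : Fin d),
      Φ.enc (fun i => σ i u) g / m u ^ (i : ℕ) % m u = Φ.pt (fun i => σ i u) g i := by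
    intro g i
    rw [em]
    exact Φ.enc_dig _ g i
  have hne : NeZero (Φ.m (fun i => σ i u)) := ⟨(Φ.mpos _).ne'⟩
  constructor
  · intro h0
    refine ⟨⟨_, h0.symm⟩, ?_⟩
    obtain ⟨E, hE1, hE2⟩ := exists_flags Φ.F Φ.T (fun k => (c k u : ℤ))
      (fun s i => (lf s u i : ℤ)) (h u) (m u)
    obtain ⟨z, hz⟩ := epr E hE2
    have hzc : Nat.Coprime (z : ZMod (Φ.m (fun i => σ i u))).val (m u) := by
      rw [em]
      exact ZMod.val_coe_unit_coprime z
    have hzm : (z : ZMod (Φ.m (fun i => σ i u))).val ≤ m u := by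
      rw [em]
      exact (ZMod.val_lt _).le
    refine ⟨E, hEle _ _ hE1, hE2, _, hzm, hzc, fun i => ?_⟩
    rw [min_eq_left hzm, h0, edig, em, ← ZMod.intCast_zmod_eq_zero_iff_dvd]
    push_cast
    rw [ZMod.natCast_zmod_val]
    have h1 := hz i
    rw [sub_eq_zero]
    exact h1
  · rintro ⟨⟨g, hg⟩, E, -, hE2, z', hz'm, hz'c, h1⟩
    obtain ⟨z, hz⟩ := epr E hE2
    rw [← hg]
    congr 1
    rw [em] at hz'c
    set z1 : (ZMod (Φ.m (fun i => σ i u)))ˣ := ZMod.unitOfCoprime z' hz'c with hz1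
    symm
    refine Φ.sep _ _ _ (z1⁻¹ * z) fun i => ?_
    have h2 := h1 i
    rw [min_eq_left hz'm, ← hg, edig, em, ← ZMod.intCast_zmod_eq_zero_iff_dvd] at h2
    push_cast at h2
    rw [sub_eq_zero] at h2
    have h3 : ((z' : ℕ) : ZMod (Φ.m (fun i => σ i u))) = z1 := (ZMod.coe_unitOfCoprime z' hz'c).symm
    rw [h3] at h2
    have h4 := hz i
    rw [h4] at h2
    rw [Units.val_mul, mul_assoc, h2, ← mul_assoc, Units.inv_mul, one_mul]

end Pool.Agent.ECD
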