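import Pool.Agent.ECD.IntCast

/-!
# With the right pieces the tree computes the product

*`ltr_correct`.* `Φ` is a family of algebraic groups, `leaf s = pt (g s)`; if all pieces are right then
the node `s` of level `j` is a unit multiple of `pt` of the product of the `g (s * 2 ^ j + i)`,
`i < 2 ^ j`, modulo `m`. Proof: induction on `j`. `j = 0`: `z = 1`. Step: let `x, y` be the
children modulo `m`, unit multiples of the coordinates of the partial products `a`, `b`. By `PcOK`,
`lawOf F (pc ..) = F (pat T c x y)` (`m ∣ w` iff `w = 0` in `ZMod m`,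
`ZMod.intCast_zmod_eq_zero_iff_dvd`; `aeval` commutes with the cast: `MvPolynomial.aeval` and
`Int.castRingHom`, e.g. `MvPolynomial.map_aeval` or `eval₂`-lemmas). `Φ.law` gives the unit. The
product over `2 ^ (j + 1)` elements is `a * b` (`List.range_add`, `pow_succ`). ∎
-/

set_option autoImplicit false

namespace Pool.Agent.ECD

open Finset Pool.Agent.Grz Pool.Agent.GAvg Pool.Agent.PTr Pool.Agent.MTr Pool.Agent.LPC

theorem lawOf_eq {d e τ : ℕ} (F : (Fin τ → Prop) → Law d e) {b : ℕ} {Q : Fin τ → Prop}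
    (h : ∀ k : Fin τ, b / 2 ^ (k : ℕ) % 2 = 1 ↔ Q k) : lawOf F b = F Q := by
  rw [lawOf]
  congr 1
  funext k
  exact propext (h k)

theorem ltr_correct {r d e τ : ℕ} (Φ : AlgFam r d e τ) (v : Fin r → ℕ) (g : ℕ → Φ.G v)
    {h E : ℕ} (hE : ∀ j s, j < h → s < 2 ^ (h - 1 - j) →
      PcOK Φ.F Φ.T (fun k => (Φ.c k v : ℤ)) (fun s i => (Φ.pt v (g s) i : ℤ)) h E (Φ.m v) j s) :
    ∀ j s, j ≤ h → s < 2 ^ (h - j) → ∃ z : (ZMod (Φ.m v))ˣ, ∀ i,
      ((ltr Φ.F (fun k => (Φ.c k v : ℤ)) (fun s i => (Φ.pt v (g s) i : ℤ)) h E j s i : ℤ) :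
        ZMod (Φ.m v)) =
      z * (Φ.pt v ((List.range (2 ^ j)).map fun i => g (s * 2 ^ j + i)).prod i :
        ZMod (Φ.m v)) := by
  intro j
  induction j with
  | zero =>
    intro s _ _
    refine ⟨1, fun i => ?_⟩
    simp [ltr, tr]
  | succ j ih =>
    intro s hj hs
    have hs1 : 2 * s < 2 ^ (h - j) ∧ 2 * s + 1 < 2 ^ (h - j) := by
      have e1 : h - j = (h - (j + 1)) + 1 := by omega
      rw [e1, pow_succ]
      omega
    obtain ⟨z1, hz1⟩ := ih (2 * s) (by omega) hs1.1
    obtain ⟨z2, hz2⟩ := ih (2 * s + 1) (by omega) hs1.2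
    have hok := hE j s (by omega) (by rwa [show h - 1 - j = h - (j + 1) by omega])
    set c : Fin e → ℤ := fun k => (Φ.c k v : ℤ) with hc
    set leaf : ℕ → Fin d → ℤ := fun s i => (Φ.pt v (g s) i : ℤ) with hleaf
    set f : ℤ →+* ZMod (Φ.m v) := Int.castRingHom (ZMod (Φ.m v)) with hf
    set x : Fin d → ZMod (Φ.m v) := fun i => f (ltr Φ.F c leaf h E j (2 * s) i) with hx
    set y : Fin d → ZMod (Φ.m v) := fun i => f (ltr Φ.F c leaf h E j (2 * s + 1) i) with hy
    obtain ⟨z, hz⟩ := Φ.law v _ _ x y z1 z2 hz1 hz2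
    refine ⟨z, fun i => ?_⟩
    have hlaw : lawOf Φ.F (pc τ h E j s) =
        Φ.F (pat Φ.T (fun k => (Φ.c k v : ZMod (Φ.m v))) x y) := by
      refine lawOf_eq Φ.F fun k => (hok k).trans ?_
      rw [← ZMod.intCast_zmod_eq_zero_iff_dvd]
      show f _ = 0 ↔ _
      rw [aeval_map, pat]
      refine iff_of_eq (congrArg (· = 0) ?_)
      congr 2
      funext k
      rcases k with k | k | k
      · rfl
      · rfl
      · simp [hf, hc]
    have hprod : ((List.range (2 ^ (j + 1))).map fun i => g (s * 2 ^ (j + 1) + i)).prod =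
        ((List.range (2 ^ j)).map fun i => g (2 * s * 2 ^ j + i)).prod *
          ((List.range (2 ^ j)).map fun i => g ((2 * s + 1) * 2 ^ j + i)).prod := by
      rw [show 2 ^ (j + 1) = 2 ^ j + 2 ^ j by ring, List.range_add, List.map_append,
        List.prod_append, List.map_map]
      congr 2
      · refine List.map_congr_left fun i _ => ?_
        congr 1
        ring
      · refine List.map_congr_left fun i _ => ?_
        simp only [Function.comp_apply]
        congr 1
        ring
    rw [hprod, ← hz i]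
    show f ((lawOf Φ.F (pc τ h E j s)).ev c (ltr Φ.F c leaf h E j (2 * s))
      (ltr Φ.F c leaf h E j (2 * s + 1)) i) = _
    rw [ev_map, hlaw]
    congr 2
    funext k
    simp [hf, hc]

end Pool.Agent.ECD
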