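import Mathlib
import Pool.Agent.LPC.SumPoly
import Pool.Agent.LPC.SeqCode
import Pool.Agent.LPC.ZFTools

/-!
# Elliptic curves modulo primes inside bounded formulas: definitions

Project ECD (`MP_a56640_lc`). Scalar multiplication on elliptic curves over prime fields, the
number of points and the iterates of Lattès maps have bounded formula graphs.

* `lp N K`: the bound for small numbers;
* `tr`: binary trees;
* `Law`: formulas for a group law; `ftr`: evaluation of a binary tree with such formulas;
* `EC a b`: the curve `y ^ 2 = x ^ 3 + a x + b`;
* `Fam`: families of finite abelian groups with definable sums of polylogarithmic length.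
-/

set_option autoImplicit false

namespace Pool.Agent.ECD

open Finset Pool.Agent.Grz Pool.Agent.GAvg Pool.Agent.PTr Pool.Agent.MTr Pool.Agent.LPC

/-- the bound for small numbers -/
def lp (N K : ℕ) : ℕ := (lg N + 2) ^ K

/-- Values of a binary tree: level `0` consists of the leaves, the node `s` of level `j + 1` has
the children `2 s` and `2 s + 1` of level `j`. -/
def tr {α : Type*} (leaf : ℕ → α) (op : ℕ → ℕ → α → α → α) : ℕ → ℕ → α
  | 0, s => leaf s
  | j + 1, s => op j s (tr leaf op j (2 * s)) (tr leaf op j (2 * s + 1))

/-- A formula: polynomials with integer coefficients in the coordinates of two vectors and in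
`e` parameters. -/
abbrev Law (d e : ℕ) := Fin d → MvPolynomial (Fin d ⊕ Fin d ⊕ Fin e) ℤ

/-- the value of a formula -/
noncomputable def Law.ev {d e : ℕ} {A : Type*} [CommRing A] (F : Law d e) (c : Fin e → A)
    (x y : Fin d → A) : Fin d → A :=
  fun j => MvPolynomial.aeval (Sum.elim x (Sum.elim y c)) (F j)

/-- the flag of the node `s` of level `j + 1` in a tree of height `h`, coded by the number `E` -/
def flag (h E j s : ℕ) : ℕ := E / 2 ^ (2 ^ (h - 1 - j) + s) % 2

/-- The tree: at each node the formula `F₁` is used if the flag is `1`, otherwise `F₀`. -/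
noncomputable def ftr {d e : ℕ} {A : Type*} [CommRing A] (F₀ F₁ : Law d e) (c : Fin e → A)
    (leaf : ℕ → Fin d → A) (h E : ℕ) : ℕ → ℕ → Fin d → A :=
  tr leaf fun j s x y => if flag h E j s = 1 then F₁.ev c x y else F₀.ev c x y

end Pool.Agent.ECD
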