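import Pool.Agent.ECD.FamToolsA

/-!
# Package ECD-FamTools: quantifiers over the elements of the groups of a family

*`Fam.exq`, `Fam.allq`.* `∃ x, A u x` iff there is `z ≤ N`, a code, with `A u (Φ.dec _ z)`
(`Delta0.bexFun`, `Fam.dmem`, `Fam.dec_enc`, `Φ.bd`; the bound `N (σ u)` is `DFun` by `Φ.hN` and
`DFun.comp`). `Fam.allq`: negation.
*`Fam.sel`.* If `A u (Φ.dec _ z)` is `Delta0` in `(z, u)` then there is a definable `S u` such that
`A u (S u)` holds for all `u` with `∃ x, A u x`: the element with the least code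
(`S u = Φ.dec _ (least z)`; the least `z ≤ N` which is a code with `A u (Φ.dec _ z)`, and `0` if
there
is none, is `DFun` by its graph, `DFun.ofGraph`, `Delta0.ballFun`; then `Fam.ddec`).

Difficulty: 0.6 h.
-/

set_option autoImplicit false

namespace Pool.Agent.ECD

open Finset Pool.Agent.Grz Pool.Agent.GAvg Pool.Agent.PTr Pool.Agent.MTr Pool.Agent.LPC

variable {r : ℕ} (Φ : Fam r) {n : ℕ} {σ : Fin r → (Fin n → ℕ) → ℕ}

private theorem code_del_FT (hσ : ∀ i, DFun n (σ i))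
    {A : ∀ u : Fin n → ℕ, Φ.G (fun i => σ i u) → Prop}
    (hA : Delta0 (n + 1) (fun w => A (fun i => w i.succ) (Φ.dec _ (w 0)))) :
    Delta0 (n + 1) (fun w => (fun (z : ℕ) (u : Fin n → ℕ) =>
      (∃ x, Φ.enc (fun i => σ i u) x = z) ∧ A u (Φ.dec _ z)) (w 0) (fun i => w i.succ)) := by
  have h1 := Fam.dmem Φ (σ := fun i w => σ i (fun j => w j.succ)) (fun i => (hσ i).weak)
    (DFun.proj (n := n + 1) 0)
  exact h1.and hA

theorem Fam.exq (hσ : ∀ i, DFun n (σ i)) {A : ∀ u : Fin n → ℕ, Φ.G (fun i => σ i u) → Prop}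
    (hA : Delta0 (n + 1) (fun w => A (fun i => w i.succ) (Φ.dec _ (w 0)))) :
    Delta0 n (fun u => ∃ x, A u x) := by
  have hb : DFun n (fun u => Φ.N (fun i => σ i u)) := Φ.hN.comp hσ
  refine (Delta0.bexFun hb (P := fun (z : ℕ) (u : Fin n → ℕ) =>
    (∃ x, Φ.enc (fun i => σ i u) x = z) ∧ A u (Φ.dec _ z)) (code_del_FT Φ hσ hA)).of_iff ?_
  intro u
  constructor
  · rintro ⟨x, hx⟩
    refine ⟨Φ.enc _ x, Φ.bd _ x, ⟨x, rfl⟩, ?_⟩
    rw [Fam.dec_enc]
    exact hx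
  · rintro ⟨z, _, _, hz⟩
    exact ⟨_, hz⟩

theorem Fam.allq (hσ : ∀ i, DFun n (σ i)) {A : ∀ u : Fin n → ℕ, Φ.G (fun i => σ i u) → Prop}
    (hA : Delta0 (n + 1) (fun w => A (fun i => w i.succ) (Φ.dec _ (w 0)))) :
    Delta0 n (fun u => ∀ x, A u x) := by
  refine (Fam.exq Φ hσ (A := fun u x => ¬ A u x) hA.not).not.of_iff ?_
  intro u
  exact not_exists_not.symm

theorem Fam.sel (hσ : ∀ i, DFun n (σ i)) {A : ∀ u : Fin n → ℕ, Φ.G (fun i => σ i u) → Prop}
    (hA : Delta0 (n + 1) (fun w => A (fun i => w i.succ) (Φ.dec _ (w 0)))) :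
    ∃ S : ∀ u : Fin n → ℕ, Φ.G (fun i => σ i u), DFun n (fun u => Φ.enc _ (S u)) ∧
      ∀ u, (∃ x, A u x) → A u (S u) := by
  classical
  have hb : DFun n (fun u => Φ.N (fun i => σ i u)) := Φ.hN.comp hσ
  have hQ := code_del_FT Φ hσ hA
  set Q : ℕ → (Fin n → ℕ) → Prop := fun z u =>
    (∃ x, Φ.enc (fun i => σ i u) x = z) ∧ A u (Φ.dec _ z) with hQd
  have hQb : ∀ z u, Q z u → z ≤ Φ.N (fun i => σ i u) := by
    rintro z u ⟨⟨x, rfl⟩, _⟩
    exact Φ.bd _ x
  have hex : ∀ u, (∃ x, A u x) → ∃ z, Q z u := by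
    rintro u ⟨x, hx⟩
    refine ⟨Φ.enc _ x, ⟨x, rfl⟩, ?_⟩
    rw [Fam.dec_enc]
    exact hx
  let m : (Fin n → ℕ) → ℕ := fun u => if h : ∃ z, Q z u then Nat.find h else 0
  have hm1 : ∀ u, (∃ z, Q z u) → Q (m u) u := by
    intro u h
    simp only [m, dif_pos h]
    exact Nat.find_spec h
  have hm2 : ∀ u z, Q z u → m u ≤ z := by
    intro u z h
    have h' : ∃ z, Q z u := ⟨z, h⟩
    simp only [m, dif_pos h']
    exact Nat.find_min' h' h
  have hm3 : ∀ u, ¬ (∃ z, Q z u) → m u = 0 := by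
    intro u h
    simp only [m, dif_neg h]
  have hmb : ∀ u, m u ≤ Φ.N (fun i => σ i u) := by
    intro u
    by_cases h : ∃ z, Q z u
    · exact hQb _ _ (hm1 u h)
    · rw [hm3 u h]
      exact Nat.zero_le _
  have hno : Delta0 n (fun u => ∃ z, z ≤ Φ.N (fun i => σ i u) ∧ Q z u) :=
    Delta0.bexFun hb hQ
  have hno' := hno.rename (n := n + 1) (fun i => i.succ)
  have hQ2 : Delta0 (n + 1 + 1) (fun w => Q (w 0) (fun i => w i.succ.succ)) :=
    hQ.rename (n := n + 1 + 1) (Fin.cons 0 (fun i => i.succ.succ))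
  have hall : Delta0 (n + 1) (fun w => ∀ z, z ≤ w 0 → (Q z (fun i => w i.succ) → w 0 ≤ z)) := by
    refine Delta0.ballFun (DFun.proj (n := n + 1) 0)
      (P := fun z w => Q z (fun i => w i.succ) → w 0 ≤ z) ?_
    exact hQ2.imp (Delta0.leFun (DFun.proj (n := n + 1 + 1) (Fin.succ 0))
      (DFun.proj (n := n + 1 + 1) 0))
  have h0 : Delta0 (n + 1) (fun w => w 0 = 0) :=
    Delta0.eqFun (DFun.proj (n := n + 1) 0) (DFun.const 0)
  have hmD : DFun n m := by
    refine DFun.ofGraph hb hmb ?_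
    refine ((hQ.and hall).or (hno'.not.and h0)).of_iff ?_
    intro w
    constructor
    · intro hw
      by_cases h : ∃ z, Q z (fun i => w i.succ)
      · left
        refine ⟨?_, ?_⟩
        · rw [hw]
          exact hm1 _ h
        · intro z _ hz
          rw [hw]
          exact hm2 _ z hz
      · right
        refine ⟨?_, ?_⟩
        · rintro ⟨z, _, hz⟩
          exact h ⟨z, hz⟩
        · rw [hw]
          exact hm3 _ h
    · rintro (⟨h1, h2⟩ | ⟨h1, h2⟩)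
      · have h3 := hm2 _ _ h1
        have h4 := hm1 (fun i => w i.succ) ⟨_, h1⟩
        exact le_antisymm (h2 _ h3 h4) h3
      · rw [h2]
        refine (hm3 _ ?_).symm
        rintro ⟨z, hz⟩
        exact h1 ⟨z, hQb _ _ hz, hz⟩
  refine ⟨fun u => Φ.dec _ (m u), Fam.ddec Φ hσ hmD, ?_⟩
  intro u hu
  exact (hm1 u (hex u hu)).2

end Pool.Agent.ECD
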