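import Pool.Agent.ECD.CardComb
import Pool.Agent.ECD.FamTools

/-!
# Package ECD-CardRel: relative orders are definable

*`Fam.drel`.* `relOrd g i`, for `g j` = the element with the code `z j u`, is `DFun n`: it is at
most
`Nat.card` of the group (which satisfies the condition, with `c = 0`: `card_nsmul_eq_zero'`), so
`≤ N + 1` (`Fam.card_le`), and it is the least `k` with `0 < k` such that there is `c` with
`k • g i = ∑ j with j < i, c j • g j = Φ.comb _ (fun j => if j < i then c j else 0) z`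
(`Finset.sum_filter`, `ite_smul`, `zero_smul`; `c j ≤ N` by `Fam.comb_small` applied to this
combination). So with `Q k u` := there is `c ≤ N` (a vector, `Delta0.bexVec`) with
`k • g i = Φ.comb _ (fun j => if j < i then c j else 0) z` (`Fam.deq`, `Fam.dnsmul`, `Fam.ddec`,
`Fam.dcomb`; the `if` is over the constants `i`, `j`): `w 0 = relOrd g i` iff `0 < w 0`, `Q (w 0)
u`,
and `¬ Q k u` for all `k` with `0 < k < w 0` (`Nat.sInf_mem`, `Nat.notMem_of_lt_sInf`;
`DFun.ofGraph`, `Delta0.ballFun`).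

Difficulty: 0.9 h.
-/

set_option autoImplicit false

namespace Pool.Agent.ECD

open Finset Pool.Agent.Grz Pool.Agent.GAvg Pool.Agent.PTr Pool.Agent.MTr Pool.Agent.LPC

variable {r R : ℕ} (Φ : Fam r) {n : ℕ} {σ : Fin r → (Fin n → ℕ) → ℕ}

private theorem Fam.comb_trunc (v : Fin r → ℕ) (c z : Fin R → ℕ) (i : Fin R) :
    Φ.comb v c (fun j => if j < i then z j else Φ.enc v 0) =
      ∑ j with j < i, c j • Φ.dec v (z j) := by
  rw [Fam.comb, sum_filter]
  refine sum_congr rfl fun j _ => ?_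
  by_cases h : j < i
  · rw [if_pos h, if_pos h]
  · rw [if_neg h, if_neg h, Φ.dec_enc, smul_zero]

private theorem Fam.rel_small (v : Fin r → ℕ) (k : ℕ) (z : Fin R → ℕ) (i : Fin R) :
    (∃ c : Fin R → ℕ, k • Φ.dec v (z i) = ∑ j with j < i, c j • Φ.dec v (z j)) ↔
      ∃ c : Fin R → ℕ, (∀ j, c j ≤ Φ.N v) ∧ k • Φ.dec v (z i) =
        Φ.comb v c (fun j => if j < i then z j else Φ.enc v 0) := by
  constructor
  · rintro ⟨c, hc⟩
    obtain ⟨c', h1, h2⟩ := Φ.comb_small v c (fun j => if j < i then z j else Φ.enc v 0)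
    exact ⟨c', h1, by rw [h2, Fam.comb_trunc, hc]⟩
  · rintro ⟨c, -, hc⟩
    exact ⟨c, by rw [hc, Fam.comb_trunc]⟩

private theorem Fam.dtrunc (hσ : ∀ i, DFun n (σ i)) {z : Fin R → (Fin n → ℕ) → ℕ}
    (hz : ∀ i, DFun n (z i)) (i j : Fin R) :
    DFun n (fun u => if j < i then z j u else Φ.enc (fun i => σ i u) 0) := by
  by_cases h : j < i
  · simp only [if_pos h]
    exact hz j
  · simp only [if_neg h]
    exact Φ.dzero hσ

private theorem Fam.drelQ (hσ : ∀ i, DFun n (σ i)) {z : Fin R → (Fin n → ℕ) → ℕ}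
    (hz : ∀ i, DFun n (z i)) (i : Fin R) {κ : (Fin n → ℕ) → ℕ} (hκ : DFun n κ) :
    Delta0 n (fun u => ∃ c : Fin R → ℕ, κ u • Φ.dec (fun i => σ i u) (z i u) =
      ∑ j with j < i, c j • Φ.dec (fun i => σ i u) (z j u)) := by
  have hN : DFun n (fun u => Φ.N (fun i => σ i u)) := Φ.hN.comp hσ
  have h1 : Delta0 n (fun u => ∃ c : Fin R → ℕ, (∀ j, c j ≤ Φ.N (fun i => σ i u)) ∧
      κ u • Φ.dec (fun i => σ i u) (z i u) = Φ.comb (fun i => σ i u) c
        (fun j => if j < i then z j u else Φ.enc (fun i => σ i u) 0)) := by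
    refine Delta0.bexVec (b := fun u => Φ.N (fun i => σ i u)) hN
      (P := fun c u => κ u • Φ.dec (fun i => σ i u) (z i u) = Φ.comb (fun i => σ i u) c
        (fun j => if j < i then z j u else Φ.enc (fun i => σ i u) 0)) ?_
    intro m x v hx hv
    have hσ' : ∀ i, DFun m (fun w => σ i (fun l => v l w)) := fun i => (hσ i).comp hv
    have hz' : ∀ i, DFun m (fun w => z i (fun l => v l w)) := fun i => (hz i).comp hv
    exact Φ.deq (Φ.dnsmul hσ' (Φ.ddec hσ' (hz' i)) (hκ.comp hv))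
      (Φ.dcomb hσ' hx (Φ.dtrunc hσ' hz' i))
  exact h1.of_iff fun u => Φ.rel_small _ _ (fun j => z j u) i

theorem Fam.drel (hσ : ∀ i, DFun n (σ i)) {z : Fin R → (Fin n → ℕ) → ℕ}
    (hz : ∀ i, DFun n (z i)) (i : Fin R) :
    DFun n (fun u => relOrd (fun j => Φ.dec (fun i => σ i u) (z j u)) i) := by
  have hN : DFun n (fun u => Φ.N (fun i => σ i u)) := Φ.hN.comp hσ
  have hmem : ∀ u, Nat.card (Φ.G (fun i => σ i u)) ∈ {k | 0 < k ∧ ∃ c : Fin R → ℕ,
      k • Φ.dec (fun i => σ i u) (z i u) =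
        ∑ j with j < i, c j • Φ.dec (fun i => σ i u) (z j u)} := by
    intro u
    refine ⟨Nat.card_pos, fun _ => 0, ?_⟩
    rw [card_nsmul_eq_zero']
    simp
  have hσ1 : ∀ i, DFun (n + 1) (fun w => σ i (fun l => w l.succ)) := fun i => (hσ i).weak
  have hz1 : ∀ i, DFun (n + 1) (fun w => z i (fun l => w l.succ)) := fun i => (hz i).weak
  have hσ2 : ∀ i, DFun (n + 2) (fun w => σ i (fun l => w l.succ.succ)) := fun i => (hσ1 i).weak
  have hz2 : ∀ i, DFun (n + 2) (fun w => z i (fun l => w l.succ.succ)) := fun i => (hz1 i).weak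
  refine DFun.ofGraph (hN.add (DFun.const 1))
    (fun u => (Nat.sInf_le (hmem u)).trans (Φ.card_le _)) ?_
  have h1 := Φ.drelQ hσ1 hz1 i (DFun.proj (n := n + 1) 0)
  have h2 := Φ.drelQ hσ2 hz2 i (DFun.proj (n := n + 2) 0)
  have h3 := Delta0.ballFun (n := n + 1) (b := fun w => w 0) (DFun.proj 0)
    (P := fun k w => 0 < k → k < w 0 → ¬ ∃ c : Fin R → ℕ,
      k • Φ.dec (fun i => σ i (fun l => w l.succ)) (z i (fun l => w l.succ)) =
        ∑ j with j < i, c j • Φ.dec (fun i => σ i (fun l => w l.succ)) (z j (fun l => w l.succ)))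
    ((Delta0.ltFun (DFun.const 0) (DFun.proj 0)).imp
      ((Delta0.ltFun (DFun.proj 0) (DFun.proj 1)).imp h2.not))
  refine (((Delta0.ltFun (DFun.const 0) (DFun.proj 0)).and h1).and h3).of_iff fun w => ?_
  have hm := hmem (fun l => w l.succ)
  constructor
  · intro h
    have h4 := Nat.sInf_mem ⟨_, hm⟩
    have h5 : relOrd (fun j => Φ.dec (fun i => σ i (fun l => w l.succ))
      (z j (fun l => w l.succ))) i = w 0 := h.symm
    rw [relOrd] at h5
    rw [h5] at h4
    refine ⟨h4, fun k _ hk hk' h6 => ?_⟩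
    rw [← h5] at hk'
    exact Nat.notMem_of_lt_sInf hk' ⟨hk, h6⟩
  · rintro ⟨⟨h4, h5⟩, h6⟩
    refine le_antisymm ?_ (Nat.sInf_le ⟨h4, h5⟩)
    have h7 := Nat.sInf_mem ⟨_, hm⟩
    by_contra h8
    exact h6 _ (not_le.1 h8).le h7.1 (not_le.1 h8) h7.2

end Pool.Agent.ECD
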