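import Pool.Agent.ECD.CardGen
import Pool.Agent.ECD.CardRel

/-!
# The order of the groups of a family is definable
-/

set_option autoImplicit false

namespace Pool.Agent.ECD

open Finset Pool.Agent.Grz Pool.Agent.GAvg Pool.Agent.PTr Pool.Agent.MTr Pool.Agent.LPC

/-- If the groups are generated by `R` elements, `R` a constant, then the order is definable. -/
theorem Fam.card {r : ℕ} (Φ : Fam r) (R : ℕ)
    (hR : ∀ v, ∃ g : Fin R → Φ.G v, ∀ x, ∃ k : Fin R → ℕ, x = ∑ i, k i • g i) :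
    DFun r (fun v => Nat.card (Φ.G v)) := by
  refine DFun.ofGraph (b := fun v => Φ.N v + 1) (Φ.hN.add (DFun.const 1)) (fun v => Φ.card_le v) ?_
  have h1 : Delta0 (r + 1) (fun w => ∃ z : Fin R → ℕ, (∀ i, z i ≤ Φ.N (fun i => w i.succ)) ∧
      ((∀ x : Φ.G (fun i => w i.succ), ∃ k : Fin R → ℕ,
        x = Φ.comb (fun i => w i.succ) k z) ∧
      w 0 = ∏ i, relOrd (fun j => Φ.dec (fun i => w i.succ) (z j)) i)) := by
    refine Delta0.bexVec (b := fun w => Φ.N (fun i => w i.succ)) Φ.hN.weak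
      (P := fun z w => (∀ x : Φ.G (fun i => w i.succ), ∃ k : Fin R → ℕ,
        x = Φ.comb (fun i => w i.succ) k z) ∧
        w 0 = ∏ i, relOrd (fun j => Φ.dec (fun i => w i.succ) (z j)) i) ?_
    intro m z v hz hv
    exact (Φ.dgen (fun i => hv i.succ) hz).and
      (Delta0.eqFun (hv 0) (dfun_finProd _ fun i => Φ.drel (fun i => hv i.succ) hz i))
  refine h1.of_iff fun w => ?_
  set v : Fin r → ℕ := fun i => w i.succ with hv
  constructor
  · intro h0
    obtain ⟨g, hg⟩ := hR v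
    have e : (fun j => Φ.dec v (Φ.enc v (g j))) = g := funext fun j => Φ.dec_enc v (g j)
    refine ⟨fun j => Φ.enc v (g j), fun j => Φ.bd v (g j), fun x => ?_, ?_⟩
    · obtain ⟨k, hk⟩ := hg x
      refine ⟨k, hk.trans ?_⟩
      rw [Fam.comb]
      exact sum_congr rfl fun i _ => by rw [Φ.dec_enc]
    · rw [h0, e]
      exact card_eq_prod g hg
  · rintro ⟨z, -, h2, h3⟩
    rw [h3]
    exact (card_eq_prod (fun j => Φ.dec v (z j)) h2).symm

end Pool.Agent.ECD
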