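import Pool.Agent.ECD.ECFam
import Pool.Agent.ECD.CardDef
import Pool.Agent.ECD.Rank

/-!
# The number of points of elliptic curves over prime fields is definable
-/

set_option autoImplicit false

namespace Pool.Agent.ECD

open Finset WeierstrassCurve Pool.Agent.Grz Pool.Agent.GAvg Pool.Agent.PTr Pool.Agent.MTr
  Pool.Agent.LPC

theorem dfun_congr {n : ℕ} {f g : (Fin n → ℕ) → ℕ} (h : DFun n g) (e : ∀ v, f v = g v) :
    DFun n f := by
  have e' : f = g := funext e
  rw [e']
  exact h

open scoped Classical in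
/-- the number of the points of an elliptic curve, without the point at infinity -/
theorem ec_count : DFun 3 (fun v => if Valid (v 0) (v 1) (v 2) then
    #{z ∈ range (v 0) ×ˢ range (v 0) | z.2 ^ 2 ≡ z.1 ^ 3 + v 1 * z.1 + v 2 [MOD v 0]} else 0) := by
  obtain ⟨R, hR⟩ := ec_gen
  have h1 : DFun 3 (fun v => Nat.card (ecFam.G v)) := ecFam.card R fun v => hR _
  have h2 := delta_valid (n := 3) (DFun.proj 0) (DFun.proj 1) (DFun.proj 2)
  refine dfun_congr (DFun.ite h2 (h1.sub (DFun.const 1)) (DFun.const 0)) fun v => ?_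
  by_cases hv : Valid (v 0) (v 1) (v 2)
  · rw [if_pos hv, if_pos hv]
    have h3 : Nat.card (ecFam.G v) = Nat.card (Pt (par (v 0) (v 1) (v 2))) := rfl
    rw [h3, par_of_valid hv, card_pt, Nat.add_sub_cancel]
  · rw [if_neg hv, if_neg hv]

end Pool.Agent.ECD
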