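import Pool.Agent.ECD.GLCode
import Pool.Agent.ECD.GOrd

/-!
# Package ECD-GLPow: powers of invertible matrices modulo `m`

*`gl_pow`.* `A u` is an invertible matrix over `ℤ/m`, `m = M u + 1`, with definable entries. Then
the entries of `A u ^ (a u ^ t u)` are definable.
-/

set_option autoImplicit false

namespace Pool.Agent.ECD

open Finset Pool.Agent.Grz Pool.Agent.GAvg Pool.Agent.PTr Pool.Agent.MTr Pool.Agent.LPC

theorem gl_pow {n k : ℕ} {M a t : (Fin k → ℕ) → ℕ} (hM : DFun k M) (ha : DFun k a)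
    (ht : DFun k t) {A : ∀ u : Fin k → ℕ, GL (Fin n) (ZMod (M u + 1))}
    (hA : ∀ i j, DFun k (fun u =>
      ((A u : Matrix (Fin n) (Fin n) (ZMod (M u + 1))) i j).val)) (i j : Fin n) :
    DFun k (fun u => (((A u ^ (a u ^ t u) : GL (Fin n) (ZMod (M u + 1))) :
      Matrix (Fin n) (Fin n) (ZMod (M u + 1))) i j).val) := by
  have hσ : ∀ i : Fin 1, DFun k ((fun (_ : Fin 1) (u : Fin k → ℕ) => M u) i) := fun _ => hM
  exact gl_entry hM ((glAlg n).toG.gpp (σ := fun (_ : Fin 1) (u : Fin k → ℕ) => M u) hσ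
    (g := fun u => A u) (gl_enc hM hA) ha ht) i j

end Pool.Agent.ECD
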