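import Mathlib

/-!
# Package ECD-RecMat: the matrix of a linear recurrence

*`rec_mat`.* Matrix form of a linear recurrence of order `d` over a finite commutative ring `A`
with `f (i + d) = ∑_(j < d) c_j f (i + j)`, `c_0` a unit: there is an invertible matrix `C` with the
rows `(0, .., 1, .., 0)` (entry `1` at the place `(i, i + 1)`, for `i + 1 < d`) and `(c_0, .., c_(d-1))`
(row `d - 1`) and `f i = (C ^ i *ᵥ (f 0, .., f (d - 1)))_0` for all `i`. Proof: `C *ᵥ (f i, ..,
f (i + d - 1)) = (f (i + 1), .., f (i + d))`, induction on `i` for all the coordinates. `C` is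
invertible: `C *ᵥ x = 0` gives `x_1 = .. = x_(d-1) = 0` and `c_0 x_0 = 0`, so `x = 0`;
so `C.mulVec` is injective, hence surjective (the ring is finite), so `C` has a right inverse
(`Matrix.mulVec_surjective_iff_exists_right_inverse`, `Matrix.isUnit_iff_isUnit_det`,
`Matrix.isUnit_of_right_inverse`); or write down the inverse matrix.

Difficulty: 0.6 h.
-/

set_option autoImplicit false

namespace Pool.Agent.ECD

open Finset

/-- the matrix of a linear recurrence -/
def recMat {A : Type*} [CommRing A] {d : ℕ} (c : Fin d → A) : Matrix (Fin d) (Fin d) A :=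
  fun i j => if (i : ℕ) + 1 < d then (if (j : ℕ) = i + 1 then 1 else 0) else c j

/-- the action on vectors: a shift -/
private theorem recMat_shift {A : Type*} [CommRing A] {d : ℕ} (c : Fin d → A) (x : Fin d → A)
    (i : Fin d) (hi : (i : ℕ) + 1 < d) : (recMat c).mulVec x i = x ⟨(i : ℕ) + 1, hi⟩ := by
  have h1 : ∀ j : Fin d, recMat c i j * x j = if j = ⟨(i : ℕ) + 1, hi⟩ then x j else 0 := by
    intro j
    have h2 : ((j : ℕ) = i + 1) ↔ j = ⟨(i : ℕ) + 1, hi⟩ := by
      rw [Fin.ext_iff]
    by_cases h3 : j = ⟨(i : ℕ) + 1, hi⟩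
    · rw [if_pos h3, recMat, if_pos hi, if_pos (h2.2 h3), one_mul]
    · rw [if_neg h3, recMat, if_pos hi, if_neg (fun h => h3 (h2.1 h)), zero_mul]
  rw [Matrix.mulVec, dotProduct, Finset.sum_congr rfl fun j _ => h1 j, Finset.sum_ite_eq' univ,
    if_pos (mem_univ _)]

/-- the last row -/
private theorem recMat_last {A : Type*} [CommRing A] {d : ℕ} (c : Fin d → A) (x : Fin d → A)
    (i : Fin d) (hi : ¬ (i : ℕ) + 1 < d) : (recMat c).mulVec x i = ∑ j, c j * x j := by
  rw [Matrix.mulVec, dotProduct]
  refine Finset.sum_congr rfl fun j _ => ?_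
  rw [recMat, if_neg hi]

theorem rec_mat {A : Type*} [CommRing A] [Finite A] {d : ℕ} (hd : 0 < d) (c : Fin d → A)
    (hc : IsUnit (c ⟨0, hd⟩)) (f : ℕ → A) (hf : ∀ i, f (i + d) = ∑ j : Fin d, c j * f (i + j)) :
    IsUnit (recMat c) ∧ ∀ i, f i = (recMat c ^ i).mulVec (fun j : Fin d => f j) ⟨0, hd⟩ := by
  refine ⟨?_, ?_⟩
  · have hinj : Function.Injective (recMat c).mulVec := by
      intro x y hxy
      have h0 : (recMat c).mulVec (x - y) = 0 := by
        rw [Matrix.mulVec_sub, hxy, sub_self]
      have h1 : ∀ (k : ℕ) (hk : k + 1 < d), (x - y) ⟨k + 1, hk⟩ = 0 := by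
        intro k hk
        have h2 := recMat_shift c (x - y) ⟨k, by omega⟩ hk
        rw [h0] at h2
        exact h2.symm
      have h2 : (x - y) ⟨0, hd⟩ = 0 := by
        have h3 := recMat_last c (x - y) ⟨d - 1, by omega⟩ (by
          change ¬ d - 1 + 1 < d
          omega)
        rw [h0, Finset.sum_eq_single_of_mem ⟨0, hd⟩ (mem_univ _)] at h3
        · have h4 : c ⟨0, hd⟩ * (x - y) ⟨0, hd⟩ = 0 := h3.symm
          exact (hc.mul_right_eq_zero).1 h4
        · rintro ⟨j, hj⟩ - hne
          obtain ⟨k, rfl⟩ : ∃ k, j = k + 1 := Nat.exists_eq_succ_of_ne_zero fun h => hne (by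
            subst h
            rfl)
          rw [h1 k hj, mul_zero]
      have h3 : x - y = 0 := by
        funext ⟨j, hj⟩
        rcases j with _ | k
        · exact h2
        · exact h1 k hj
      exact sub_eq_zero.1 h3
    have hsur : Function.Surjective (recMat c).mulVec := Finite.injective_iff_surjective.1 hinj
    obtain ⟨B, hB⟩ := Matrix.mulVec_surjective_iff_exists_right_inverse.1 hsur
    exact IsUnit.of_mul_eq_one B hB
  · have key : ∀ i : ℕ, (recMat c ^ i).mulVec (fun j : Fin d => f j) =
        fun j : Fin d => f (i + j) := by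
      intro i
      induction i with
      | zero =>
        rw [pow_zero, Matrix.one_mulVec]
        funext j
        rw [Nat.zero_add]
      | succ i ih =>
        rw [pow_succ', ← Matrix.mulVec_mulVec, ih]
        funext j
        by_cases hj : (j : ℕ) + 1 < d
        · rw [recMat_shift c _ j hj]
          change f (i + ((j : ℕ) + 1)) = f (i + 1 + j)
          congr 1
          omega
        · rw [recMat_last c _ j hj, ← hf i]
          congr 1
          have := j.2
          omega
    intro i
    rw [key i]
    rfl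

end Pool.Agent.ECD
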