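import Pool.Agent.ECD.GLPow
import Pool.Agent.ECD.RecMat

/-!
# Package ECD-LinRec: linear recurrences modulo `m`

*`linrec_def`.* A sequence `f u` in `ℤ/m`, `m = M u + 1`, with a linear recurrence of constant
order `d > 0` with definable coefficients, `c_0` a unit, and definable values `f u 0, .., f u (d -
1)`: `u ↦ f u (a u ^ t u)` is definable. Proof: the entries of `C` are definable, `gl_pow` gives
the entries of `C ^ (a ^ t)`; the value is `∑_j (C ^ (a ^ t))_(0 j) * f u j` modulo `m`
(`DFun.finSum`, `DFun.modPos`, `ZMod.val_natCast`, `ZMod.natCast_zmod_val`).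

Difficulty: 0.6 h.
-/

set_option autoImplicit false

namespace Pool.Agent.ECD

open Finset Pool.Agent.Grz Pool.Agent.GAvg Pool.Agent.PTr Pool.Agent.MTr Pool.Agent.LPC

theorem linrec_def {d k : ℕ} (hd : 0 < d) {M a t : (Fin k → ℕ) → ℕ} {c : Fin d → (Fin k → ℕ) → ℕ}
    {f : ∀ u : Fin k → ℕ, ℕ → ZMod (M u + 1)} (hM : DFun k M) (ha : DFun k a) (ht : DFun k t)
    (hc : ∀ j, DFun k (c j)) (hf0 : ∀ i : Fin d, DFun k (fun u => (f u i).val))
    (hf : ∀ u i, f u (i + d) = ∑ j : Fin d, (c j u : ZMod (M u + 1)) * f u (i + j))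
    (hu : ∀ u, IsUnit (c ⟨0, hd⟩ u : ZMod (M u + 1))) :
    DFun k (fun u => (f u (a u ^ t u)).val) := by
  have hrec : ∀ u, IsUnit (recMat (fun j => (c j u : ZMod (M u + 1)))) ∧
      ∀ i, f u i = (recMat (fun j => (c j u : ZMod (M u + 1))) ^ i).mulVec
        (fun j : Fin d => f u j) ⟨0, hd⟩ := fun u => rec_mat hd _ (hu u) (f u) (hf u)
  have hA : ∀ i j, DFun k (fun u =>
      ((((hrec u).1.unit : GL (Fin d) (ZMod (M u + 1))) :
        Matrix (Fin d) (Fin d) (ZMod (M u + 1))) i j).val) := by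
    intro i j
    have e : ∀ u, ((((hrec u).1.unit : GL (Fin d) (ZMod (M u + 1))) :
        Matrix (Fin d) (Fin d) (ZMod (M u + 1))) i j).val =
        if (i : ℕ) + 1 < d then (if (j : ℕ) = i + 1 then 1 % (M u + 1) else 0)
          else c j u % (M u + 1) := by
      intro u
      have e1 : (((hrec u).1.unit : GL (Fin d) (ZMod (M u + 1))) :
        Matrix (Fin d) (Fin d) (ZMod (M u + 1))) i j =
          recMat (fun j => (c j u : ZMod (M u + 1))) i j := rfl
      rw [e1, recMat]
      split_ifs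
      · exact ZMod.val_one_eq_one_mod _
      · exact ZMod.val_zero
      · exact ZMod.val_natCast _ _
    have e2 : (fun u => ((((hrec u).1.unit : GL (Fin d) (ZMod (M u + 1))) :
        Matrix (Fin d) (Fin d) (ZMod (M u + 1))) i j).val) =
        fun u => if (i : ℕ) + 1 < d then (if (j : ℕ) = i + 1 then 1 % (M u + 1) else 0)
          else c j u % (M u + 1) := funext e
    rw [e2]
    by_cases h1 : (i : ℕ) + 1 < d
    · simp only [if_pos h1]
      by_cases h2 : (j : ℕ) = i + 1
      · simp only [if_pos h2]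
        exact (DFun.const 1).mod hM
      · simp only [if_neg h2]
        exact DFun.const 0
    · simp only [if_neg h1]
      exact (hc j).mod hM
  have hP := gl_pow hM ha ht (A := fun u => (hrec u).1.unit) hA
  have hS : DFun k (fun u => (∑ j : Fin d,
      (((((hrec u).1.unit ^ (a u ^ t u) : GL (Fin d) (ZMod (M u + 1))) :
        Matrix (Fin d) (Fin d) (ZMod (M u + 1))) ⟨0, hd⟩ j).val) * (f u j).val) % (M u + 1)) :=
    (DFun.finSum univ fun j => (hP ⟨0, hd⟩ j).mul (hf0 j)).mod hM
  have e3 : (fun u => (f u (a u ^ t u)).val) = fun u => (∑ j : Fin d,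
      (((((hrec u).1.unit ^ (a u ^ t u) : GL (Fin d) (ZMod (M u + 1))) :
        Matrix (Fin d) (Fin d) (ZMod (M u + 1))) ⟨0, hd⟩ j).val) * (f u j).val) % (M u + 1) := by
    funext u
    rw [← ZMod.val_natCast]
    congr 1
    rw [(hrec u).2]
    push_cast
    simp only [ZMod.natCast_val, ZMod.cast_id', id]
    rw [Matrix.mulVec, dotProduct]
    refine Finset.sum_congr rfl fun j _ => ?_
    rfl
  rw [e3]
  exact hS

end Pool.Agent.ECD
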