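import Pool.Agent.ECD.Defs

/-!
# Families of algebraic groups over `ℤ/m` and families of groups with definable products
-/

set_option autoImplicit false

namespace Pool.Agent.ECD

open Finset Pool.Agent.Grz Pool.Agent.GAvg Pool.Agent.PTr Pool.Agent.MTr Pool.Agent.LPC

/-- the polynomials `T k` that vanish at the given vectors -/
noncomputable def pat {d e τ : ℕ} {A : Type*} [CommRing A]
    (T : Fin τ → MvPolynomial (Fin d ⊕ Fin d ⊕ Fin e) ℤ) (c : Fin e → A) (x y : Fin d → A) :
    Fin τ → Prop :=
  fun k => MvPolynomial.aeval (Sum.elim x (Sum.elim y c)) (T k) = 0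

/-- A family of groups in the projective spaces over `ℤ/m`, `m = m v`, `v ∈ ℕ^r`, whose
multiplication is given piecewise by polynomials with integer coefficients in the homogeneous
coordinates of two elements and in parameters `c v`; the piece is determined by the vanishing of
polynomials. -/
structure AlgFam (r d e τ : ℕ) where
  /-- the groups -/
  G : (Fin r → ℕ) → Type
  grp : ∀ v, Group (G v)
  /-- the modulus -/
  m : (Fin r → ℕ) → ℕ
  hm : DFun r m
  mpos : ∀ v, 0 < m v
  /-- the parameters -/
  c : Fin e → (Fin r → ℕ) → ℕ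
  hc : ∀ k, DFun r (c k)
  /-- homogeneous coordinates of the elements -/
  pt : ∀ v, G v → Fin d → ℕ
  pt_lt : ∀ v g i, pt v g i < m v
  /-- the codes of the coordinate vectors are definable -/
  mem : Delta0 (r + 1) (fun w => ∃ g, ∑ i, pt (fun k => w k.succ) g i *
    m (fun k => w k.succ) ^ (i : ℕ) = w 0)
  /-- different elements are not proportional -/
  sep : ∀ v g h (u : (ZMod (m v))ˣ),
    (∀ i, (pt v h i : ZMod (m v)) = u * (pt v g i : ZMod (m v))) → g = h
  /-- the polynomials which determine the piece -/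
  T : Fin τ → MvPolynomial (Fin d ⊕ Fin d ⊕ Fin e) ℤ
  /-- the law on the pieces -/
  F : (Fin τ → Prop) → Law d e
  law : ∀ v g h (x y : Fin d → ZMod (m v)) (u w : (ZMod (m v))ˣ),
    (∀ i, x i = u * (pt v g i : ZMod (m v))) → (∀ i, y i = w * (pt v h i : ZMod (m v))) →
    ∃ z : (ZMod (m v))ˣ, ∀ i, (F (pat T (fun k => (c k v : ZMod (m v))) x y)).ev
      (fun k => (c k v : ZMod (m v))) x y i =
        z * (pt v (letI := grp v; g * h) i : ZMod (m v))

attribute [instance] AlgFam.grp

/-- the code of an element -/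
def AlgFam.enc {r d e τ : ℕ} (Φ : AlgFam r d e τ) (v : Fin r → ℕ) (g : Φ.G v) : ℕ :=
  ∑ i, Φ.pt v g i * Φ.m v ^ (i : ℕ)

/-- A family of finite groups, indexed by `v ∈ ℕ^r`. The elements are coded by numbers, the
codes are definable, and the products of short definable sequences are definable. -/
structure GFam (r : ℕ) where
  /-- the groups -/
  G : (Fin r → ℕ) → Type
  /-- the multiplication -/
  grp : ∀ v, Group (G v)
  /-- the codes -/
  enc : ∀ v, G v → ℕ
  inj : ∀ v, Function.Injective (enc v)
  /-- a bound for the codes -/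
  N : (Fin r → ℕ) → ℕ
  hN : DFun r N
  bd : ∀ v x, enc v x ≤ N v
  mem : Delta0 (r + 1) (fun w => ∃ x, enc (fun i => w i.succ) x = w 0)
  prod1 : ∀ {n : ℕ} {σ : Fin r → (Fin n → ℕ) → ℕ} {P : ∀ u : Fin n → ℕ, ℕ → G (fun i => σ i u)}
    {L M : (Fin n → ℕ) → ℕ}, (∀ i, DFun n (σ i)) →
    DFun (n + 1) (fun w => enc _ (P (fun i => w i.succ) (w 0))) → DFun n L → DFun n M →
    (∀ u, L u ≤ lg (M u) + 1) →
    DFun n (fun u => enc _ ((List.range (L u)).map fun i => P u i).prod)

attribute [instance] GFam.grp

end Pool.Agent.ECD
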