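import Pool.Agent.ECD.GPow
import Pool.Agent.ECD.AlgDig

/-!
# Families of algebraic groups are families of groups with definable products
-/

set_option autoImplicit false

namespace Pool.Agent.ECD

open Finset Pool.Agent.Grz Pool.Agent.GAvg Pool.Agent.PTr Pool.Agent.MTr Pool.Agent.LPC

/-- a family of algebraic groups as a family of groups with definable products -/
noncomputable def AlgFam.toG {r d e τ : ℕ} (Φ : AlgFam r d e τ) : GFam r where
  G := Φ.G
  grp := Φ.grp
  enc := Φ.enc
  inj v := Φ.enc_inj v
  N v := Φ.m v ^ d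
  hN := DFun.powConst Φ.hm d
  bd v g := (Φ.enc_lt v g).le
  mem := Φ.mem
  prod1 hσ hP hL hM hLM := Φ.prod1 hσ hP hL hM hLM

end Pool.Agent.ECD
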