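import Pool.Agent.ECD.CardComb
import Pool.Agent.ECD.FamTools

/-!
# Package ECD-CardGen: generating systems are definable

*`Fam.dgen`.* The relation that the elements with the codes `z` generate the group is `Delta0`: for all
`x` of the group there is `k` with `x = Φ.comb v k z`; by `Fam.comb_small` we may ask for `k i ≤
N v`.
`Fam.allq` for `x`, then `Delta0.bexVec` (`PTr/Chain.lean`; with `D = R` and with the bound
`N (σ u)`, `Φ.hN`, `DFun.comp`) for the vector `k`; the matrix is
`Φ.dec _ (w 0) = Φ.comb _ k z`, `Fam.deq` with `Fam.ddec` and `Fam.dcomb` (all statements are for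
all
`n` and `σ`, so the form with substitutions that `Delta0.bexVec` asks for is available:
`σ i (fun j => v j w)` is `DFun` by `DFun.comp`).

Difficulty: 0.5 h.
-/

set_option autoImplicit false

namespace Pool.Agent.ECD

open Finset Pool.Agent.Grz Pool.Agent.GAvg Pool.Agent.PTr Pool.Agent.MTr Pool.Agent.LPC

variable {r R : ℕ} (Φ : Fam r) {n : ℕ} {σ : Fin r → (Fin n → ℕ) → ℕ}

theorem Fam.dgen (hσ : ∀ i, DFun n (σ i)) {z : Fin R → (Fin n → ℕ) → ℕ}
    (hz : ∀ i, DFun n (z i)) :
    Delta0 n (fun u => ∀ x : Φ.G (fun i => σ i u), ∃ k : Fin R → ℕ,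
      x = Φ.comb (fun i => σ i u) k (fun i => z i u)) := by
  have hσ1 : ∀ i, DFun (n + 1) (fun w => σ i (fun j => w j.succ)) := fun i =>
    (hσ i).comp (h := fun j w => w j.succ) (fun j => DFun.proj j.succ)
  have hb : DFun (n + 1) (fun w => Φ.N (fun i => σ i (fun j => w j.succ))) :=
    Φ.hN.comp (h := fun i w => σ i (fun j => w j.succ)) hσ1
  refine Φ.allq (σ := σ) hσ
    (A := fun u x => ∃ k : Fin R → ℕ, x = Φ.comb (fun i => σ i u) k (fun i => z i u)) ?_
  have key : Delta0 (n + 1) (fun w => ∃ k : Fin R → ℕ,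
      (∀ i, k i ≤ Φ.N (fun i => σ i (fun j => w j.succ))) ∧
        Φ.dec (fun i => σ i (fun j => w j.succ)) (w 0) =
          Φ.comb (fun i => σ i (fun j => w j.succ)) k (fun i => z i (fun j => w j.succ))) := by
    refine Delta0.bexVec (D := R) (n := n + 1) hb
      (P := fun k w => Φ.dec (fun i => σ i (fun j => w j.succ)) (w 0) =
        Φ.comb (fun i => σ i (fun j => w j.succ)) k (fun i => z i (fun j => w j.succ))) ?_
    intro m x v hx hv
    have h1 : ∀ i, DFun m (fun w => σ i (fun j => v j.succ w)) := fun i =>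
      (hσ i).comp (h := fun j w => v j.succ w) (fun j => hv j.succ)
    have h2 : ∀ i, DFun m (fun w => z i (fun j => v j.succ w)) := fun i =>
      (hz i).comp (h := fun j w => v j.succ w) (fun j => hv j.succ)
    exact Φ.deq (σ := fun i w => σ i (fun j => v j.succ w))
      (Φ.ddec (σ := fun i w => σ i (fun j => v j.succ w)) h1 (hv 0))
      (Φ.dcomb (σ := fun i w => σ i (fun j => v j.succ w)) h1 hx h2)
  refine key.of_iff fun w => ?_
  constructor
  · rintro ⟨k, hk⟩
    obtain ⟨k', h1, h2⟩ := Φ.comb_small (fun i => σ i (fun j => w j.succ)) k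
      (fun i => z i (fun j => w j.succ))
    exact ⟨k', h1, hk.trans h2.symm⟩
  · rintro ⟨k, -, hk⟩
    exact ⟨k, hk⟩

end Pool.Agent.ECD
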