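import Pool.Agent.ECD.CodeB

/-!
# Package ECD-CodeD: the number of points

*`finite_pt`.* There are finitely many points. *`card_pt`.* Their number is the number of the
solutions plus `1` (bijection of the points `≠ 0` with the solutions `(X, Y) ∈ [0, p) ^ 2`;
`Affine.nonsingularPointEquiv`, `Nat.card_congr`, or `Finset.card_bij` after `mem_iff`).

Difficulty: 0.6 h.
-/

set_option autoImplicit false

namespace Pool.Agent.ECD

open Finset WeierstrassCurve Pool.Agent.Grz Pool.Agent.GAvg Pool.Agent.PTr Pool.Agent.MTr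
  Pool.Agent.LPC

theorem card_pt (x : Par) : Nat.card (Pt x) =
    #{z ∈ range x.p ×ˢ range x.p | z.2 ^ 2 ≡ z.1 ^ 3 + x.a * z.1 + x.b [MOD x.p]} + 1 := by
  have : NeZero x.p := ⟨x.valid.prime.ne_zero⟩
  have : Fintype (ZMod x.p) := ZMod.fintype x.p
  have key : ∀ X Y : ZMod x.p, x.W.toAffine.Nonsingular X Y ↔
      Y.val ^ 2 ≡ X.val ^ 3 + x.a * X.val + x.b [MOD x.p] := by
    intro X Y
    rw [nonsing_iff, ← ZMod.natCast_eq_natCast_iff]
    push_cast
    rw [ZMod.natCast_zmod_val, ZMod.natCast_zmod_val]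
  have h1 : Nat.card (Pt x) =
      Nat.card (Option {z : ZMod x.p × ZMod x.p // x.W.toAffine.Nonsingular z.1 z.2}) :=
    Nat.card_congr (Affine.nonsingularPointEquiv (W' := x.W.toAffine))
  rw [h1, Finite.card_option]
  congr 1
  have h2 : Nat.card {z : ZMod x.p × ZMod x.p // x.W.toAffine.Nonsingular z.1 z.2} =
      Nat.card {z : ℕ × ℕ // z ∈ ({z ∈ range x.p ×ˢ range x.p |
        z.2 ^ 2 ≡ z.1 ^ 3 + x.a * z.1 + x.b [MOD x.p]} : Finset (ℕ × ℕ))} := by
    refine Nat.card_congr ⟨fun z => ⟨(z.1.1.val, z.1.2.val), ?_⟩,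
      fun w => ⟨((w.1.1 : ZMod x.p), (w.1.2 : ZMod x.p)), ?_⟩, ?_, ?_⟩
    · rw [mem_filter, mem_product, mem_range, mem_range]
      exact ⟨⟨ZMod.val_lt _, ZMod.val_lt _⟩, (key _ _).1 z.2⟩
    · have hw := w.2
      rw [mem_filter, mem_product, mem_range, mem_range] at hw
      refine (key _ _).2 ?_
      rw [ZMod.val_cast_of_lt hw.1.1, ZMod.val_cast_of_lt hw.1.2]
      exact hw.2
    · intro z
      refine Subtype.ext (Prod.ext ?_ ?_)
      · exact ZMod.natCast_zmod_val _
      · exact ZMod.natCast_zmod_val _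
    · intro w
      have hw := w.2
      rw [mem_filter, mem_product, mem_range, mem_range] at hw
      refine Subtype.ext (Prod.ext ?_ ?_)
      · exact ZMod.val_cast_of_lt hw.1.1
      · exact ZMod.val_cast_of_lt hw.1.2
  rw [h2, Nat.card_eq_fintype_card, Fintype.card_coe]

end Pool.Agent.ECD
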