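import Pool.Agent.ECD.Params

/-!
# Package ECD-CodeA: the parameters of curves are definable

*`delta_valid`, `dfun_par`.* `Valid` is `Delta0` (prime: `2 ≤ p` and no `d` with `2 ≤ d < p` divides
`p`, `Delta0.ballFun`, `DFun.modAny`, `Nat.prime_def_lt''` or similar); `par` has definable
components
(`DFun.ite`).

Difficulty: 0.5 h.
-/

set_option autoImplicit false

namespace Pool.Agent.ECD

open Finset WeierstrassCurve Pool.Agent.Grz Pool.Agent.GAvg Pool.Agent.PTr Pool.Agent.MTr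
  Pool.Agent.LPC

private theorem CodeA_valid_iff (p a b : ℕ) : Valid p a b ↔
    ((2 ≤ p ∧ ∀ x, x ≤ p → (p % x = 0 → (x = 1 ∨ x = p))) ∧ 5 ≤ p) ∧
      ¬ (4 * a ^ 3 + 27 * b ^ 2) % p = 0 := by
  constructor
  · rintro ⟨h1, h2, h3⟩
    refine ⟨⟨⟨h1.two_le, fun x _ hx => ?_⟩, h2⟩, fun h => h3 (Nat.dvd_of_mod_eq_zero h)⟩
    exact (Nat.dvd_prime h1).1 (Nat.dvd_of_mod_eq_zero hx)
  · rintro ⟨⟨⟨h1, h2⟩, h3⟩, h4⟩
    refine ⟨Nat.prime_def.2 ⟨h1, fun m hm => ?_⟩, h3, fun h => h4 (Nat.mod_eq_zero_of_dvd h)⟩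
    exact h2 m (Nat.le_of_dvd (by omega) hm) (Nat.mod_eq_zero_of_dvd hm)

theorem delta_valid {n : ℕ} {p a b : (Fin n → ℕ) → ℕ} (hp : DFun n p) (ha : DFun n a)
    (hb : DFun n b) : Delta0 n (fun v => Valid (p v) (a v) (b v)) := by
  have h1 : Delta0 n (fun v => ∀ x, x ≤ p v → (p v % x = 0 → (x = 1 ∨ x = p v))) :=
    Delta0.ballFun (P := fun x v => p v % x = 0 → (x = 1 ∨ x = p v)) hp
      ((Delta0.eqFun (DFun.modAny hp.weak (DFun.proj 0)) (DFun.const 0)).imp
        ((Delta0.eqFun (DFun.proj 0) (DFun.const 1)).or (Delta0.eqFun (DFun.proj 0) hp.weak)))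
  have h2 := Delta0.leFun (DFun.const (n := n) 2) hp
  have h3 := Delta0.leFun (DFun.const (n := n) 5) hp
  have h4 : DFun n (fun v => 4 * a v ^ 3 + 27 * b v ^ 2) :=
    ((DFun.const 4).mul (DFun.powConst ha 3)).add ((DFun.const 27).mul (DFun.powConst hb 2))
  have h5 := (Delta0.eqFun (DFun.modAny h4 hp) (DFun.const 0)).not
  exact (((h2.and h1).and h3).and h5).of_iff fun v => CodeA_valid_iff (p v) (a v) (b v)

open scoped Classical in
private theorem CodeA_par (p a b : ℕ) :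
    (par p a b).p = (if Valid p a b then p else 5) ∧
    (par p a b).a = (if Valid p a b then a else 1) ∧
    (par p a b).b = (if Valid p a b then b else 1) := by
  by_cases h : Valid p a b
  · rw [par_of_valid h, if_pos h, if_pos h, if_pos h]
    exact ⟨rfl, rfl, rfl⟩
  · unfold par
    rw [dif_neg h, if_neg h, if_neg h, if_neg h]
    exact ⟨rfl, rfl, rfl⟩

theorem dfun_par {n : ℕ} {p a b : (Fin n → ℕ) → ℕ} (hp : DFun n p) (ha : DFun n a)
    (hb : DFun n b) : DFun n (fun v => (par (p v) (a v) (b v)).p) ∧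
      DFun n (fun v => (par (p v) (a v) (b v)).a) ∧
      DFun n (fun v => (par (p v) (a v) (b v)).b) := by
  classical
  have hV := delta_valid hp ha hb
  refine ⟨?_, ?_, ?_⟩
  · have h := DFun.ite hV hp (DFun.const 5)
    refine (show (fun v => (par (p v) (a v) (b v)).p) = _ from ?_) ▸ h
    funext v
    exact (CodeA_par (p v) (a v) (b v)).1
  · have h := DFun.ite hV ha (DFun.const 1)
    refine (show (fun v => (par (p v) (a v) (b v)).a) = _ from ?_) ▸ h
    funext v
    exact (CodeA_par (p v) (a v) (b v)).2.1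
  · have h := DFun.ite hV hb (DFun.const 1)
    refine (show (fun v => (par (p v) (a v) (b v)).b) = _ from ?_) ▸ h
    funext v
    exact (CodeA_par (p v) (a v) (b v)).2.2

end Pool.Agent.ECD
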