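import Pool.Agent.ECD.Params

/-!
# Package ECD-CodeB: codes of points

*`nonsing_iff`.* On these curves every solution of the equation is a nonsingular point: the
discriminant `-16 (4 a ^ 3 + 27 b ^ 2)` is not zero modulo `p ≥ 5`
(`WeierstrassCurve.Affine.equation_iff_nonsingular_of_Δ_ne_zero` or similar; `WeierstrassCurve.Δ`,
`b₂`, `b₄`, `b₆`, `b₈` unfold with `a₁ = a₂ = a₃ = 0`; `4 a ^ 3 + 27 b ^ 2 ≠ 0` in `ZMod p` by
`ZMod.natCast_eq_zero_iff` and `push_cast`). `WeierstrassCurve.Affine.equation_iff`.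

*`enc_zero`, `enc_some`.* The code is `p` resp. `X + Y p + p ^ 2` (`Fin.sum_univ_three`).

*`enc_inj`, `enc_le`.* `X.val, Y.val < p` (`ZMod.val_lt`), `ZMod.val_injective`; the code is at most
`2 p ^ 2`.

*`mem_iff`.* The codes are `p` and the numbers `X + Y p + p ^ 2`, `X, Y < p`, with
`Y ^ 2 ≡ X ^ 3 + a X + b` modulo `p` (`ZMod.natCast_zmod_val`, `ZMod.val_cast_of_lt`,
`ZMod.natCast_eq_natCast_iff`, `nonsing_iff`).

Difficulty: 0.8 h.
-/

set_option autoImplicit false

namespace Pool.Agent.ECD

open Finset WeierstrassCurve Pool.Agent.Grz Pool.Agent.GAvg Pool.Agent.PTr Pool.Agent.MTr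
  Pool.Agent.LPC

theorem nonsing_iff (x : Par) (X Y : ZMod x.p) :
    x.W.toAffine.Nonsingular X Y ↔ Y ^ 2 = X ^ 3 + x.a * X + x.b := by
  have hd : 4 * (x.a : ZMod x.p) ^ 3 + 27 * (x.b : ZMod x.p) ^ 2 ≠ 0 := by
    intro h
    apply x.valid.disc
    rw [← ZMod.natCast_eq_zero_iff]
    push_cast
    exact h
  constructor
  · intro h
    have h1 := h.1
    rw [Affine.equation_iff] at h1
    simpa [EC] using h1
  · intro h
    have h0 : x.W.toAffine.Equation X Y := by
      rw [Affine.equation_iff]
      simpa [EC] using h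
    refine ⟨h0, ?_⟩
    by_contra hc
    push Not at hc
    obtain ⟨h1, h2⟩ := hc
    rw [Affine.evalEval_polynomialX] at h1
    rw [Affine.evalEval_polynomialY] at h2
    simp only [EC, zero_mul, mul_zero, zero_sub, add_zero] at h1 h2
    have h5 := x.valid.five
    have hpr := x.valid.prime
    have htwo : (2 : ZMod x.p) ≠ 0 := by
      intro h3
      have h4 : ((2 : ℕ) : ZMod x.p) = 0 := by
        push_cast
        exact h3
      rw [ZMod.natCast_eq_zero_iff] at h4
      have h6 := Nat.le_of_dvd (by norm_num) h4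
      omega
    have hY : Y = 0 := (mul_eq_zero.1 h2).resolve_left htwo
    apply hd
    have ha : (x.a : ZMod x.p) = -3 * X ^ 2 := by linear_combination -h1
    have hb : (x.b : ZMod x.p) = 2 * X ^ 3 := by
      rw [hY, ha] at h
      linear_combination -h
    rw [ha, hb]
    ring

theorem enc_zero (x : Par) : enc (0 : Pt x) = x.p := by
  show ∑ i, ecpt (Affine.Point.zero : Pt x) i * x.p ^ (i : ℕ) = x.p
  simp [ecpt, Fin.sum_univ_three]

theorem enc_some (x : Par) {X Y : ZMod x.p} (h : x.W.toAffine.Nonsingular X Y) :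
    enc (Affine.Point.some X Y h : Pt x) = X.val + Y.val * x.p + x.p ^ 2 := by
  simp [enc, ecpt, Fin.sum_univ_three]

theorem enc_inj (x : Par) : Function.Injective (enc : Pt x → ℕ) := by
  have hp := x.valid.prime.pos
  intro P Q h
  cases P with
  | zero =>
    cases Q with
    | zero => rfl
    | some X Y hXY =>
      exfalso
      rw [enc_some] at h
      have h1 : enc (Affine.Point.zero : Pt x) = x.p := enc_zero x
      rw [h1] at h
      have h2 := x.valid.prime.two_le
      nlinarith
  | some X Y hXY =>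
    cases Q with
    | zero =>
      exfalso
      rw [enc_some] at h
      have h1 : enc (Affine.Point.zero : Pt x) = x.p := enc_zero x
      rw [h1] at h
      have h2 := x.valid.prime.two_le
      nlinarith
    | some X' Y' hXY' =>
      rw [enc_some, enc_some] at h
      have a1 := ZMod.val_lt X
      have a2 := ZMod.val_lt X'
      have h1 : X.val + Y.val * x.p = X'.val + Y'.val * x.p := by omega
      have h2 : X.val = X'.val := by
        have := congrArg (· % x.p) h1
        simpa [Nat.add_mul_mod_self_right, Nat.mod_eq_of_lt a1, Nat.mod_eq_of_lt a2] using this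
      have h3 : Y.val = Y'.val := by
        have h4 : Y.val * x.p = Y'.val * x.p := by omega
        exact Nat.eq_of_mul_eq_mul_right hp h4
      have h5 := ZMod.val_injective x.p h2
      have h6 := ZMod.val_injective x.p h3
      subst h5 h6
      rfl

theorem enc_le {x : Par} (P : Pt x) : enc P ≤ 2 * x.p ^ 2 := by
  have hp := x.valid.prime.two_le
  cases P with
  | zero =>
    have h1 : enc (Affine.Point.zero : Pt x) = x.p := enc_zero x
    rw [h1]
    nlinarith
  | some X Y hXY =>
    rw [enc_some]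
    have a1 := ZMod.val_lt X
    have a2 := ZMod.val_lt Y
    have a3 : Y.val * x.p ≤ (x.p - 1) * x.p := Nat.mul_le_mul_right _ (by omega)
    have a4 : (x.p - 1) * x.p + x.p = x.p ^ 2 := by
      have : (x.p - 1) + 1 = x.p := by omega
      calc (x.p - 1) * x.p + x.p = ((x.p - 1) + 1) * x.p := by ring
        _ = x.p ^ 2 := by rw [this]; ring
    omega

theorem mem_iff (x : Par) (z : ℕ) : (∃ P : Pt x, enc P = z) ↔ z = x.p ∨ ∃ X, X < x.p ∧
    ∃ Y, Y < x.p ∧ z = X + Y * x.p + x.p ^ 2 ∧
      Y ^ 2 % x.p = (X ^ 3 + x.a * X + x.b) % x.p := by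
  constructor
  · rintro ⟨P, rfl⟩
    cases P with
    | zero => exact Or.inl (enc_zero x)
    | some X Y hXY =>
      right
      refine ⟨X.val, ZMod.val_lt X, Y.val, ZMod.val_lt Y, enc_some x hXY, ?_⟩
      have h1 := (nonsing_iff x X Y).1 hXY
      have h2 : ((Y.val ^ 2 : ℕ) : ZMod x.p) = ((X.val ^ 3 + x.a * X.val + x.b : ℕ) : ZMod x.p) := by
        push_cast
        rw [ZMod.natCast_zmod_val, ZMod.natCast_zmod_val]
        exact h1
      exact (ZMod.natCast_eq_natCast_iff' _ _ _).1 h2
  · rintro (rfl | ⟨X, hX, Y, hY, rfl, h⟩)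
    · exact ⟨0, enc_zero x⟩
    · have h1 := (ZMod.natCast_eq_natCast_iff' _ _ _).2 h
      push_cast at h1
      refine ⟨Affine.Point.some (X : ZMod x.p) (Y : ZMod x.p) ((nonsing_iff x _ _).2 h1), ?_⟩
      rw [enc_some, ZMod.val_cast_of_lt hX, ZMod.val_cast_of_lt hY]

instance finite_pt (x : Par) : Finite (Pt x) :=
  Finite.of_injective (fun P : Pt x => (⟨enc P, Nat.lt_succ_of_le (enc_le P)⟩ :
    Fin (2 * x.p ^ 2 + 1))) fun P Q h => enc_inj x (by simpa using h)

end Pool.Agent.ECD
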