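import Pool.Agent.ECD.CodeA
import Pool.Agent.ECD.CodeB

/-!
# Package ECD-CodeC: the codes of points are definable

*`dfun_xc`, `dfun_of`.* `xc P` is definable if `enc P` is (`xc P = p` if `enc P = p`, otherwise
`enc P % p`), `par` as in `dfun_par`.

*`delta_mem`.* So the relation that `z` is the code of a point is `Delta0` in `(z, p, a, b)`.

Difficulty: 0.5 h.
-/

set_option autoImplicit false

namespace Pool.Agent.ECD

open Finset WeierstrassCurve Pool.Agent.Grz Pool.Agent.GAvg Pool.Agent.PTr Pool.Agent.MTr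
  Pool.Agent.LPC

theorem delta_mem {n : ℕ} {p a b z : (Fin n → ℕ) → ℕ} (hp : DFun n p) (ha : DFun n a)
    (hb : DFun n b) (hz : DFun n z) :
    Delta0 n (fun v => ∃ P : Pt (par (p v) (a v) (b v)), enc P = z v) := by
  obtain ⟨hP, hA, hB⟩ := dfun_par hp ha hb
  have hz2 := hz.weak.weak
  have hP2 := hP.weak.weak
  have hA2 := hA.weak.weak
  have hB2 := hB.weak.weak
  have hX : DFun (n + 1 + 1) (fun w => w 1) := DFun.proj 1
  have hY : DFun (n + 1 + 1) (fun w => w 0) := DFun.proj 0
  have h2 := Delta0.bexFun (n := n + 1)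
    (b := fun w => (par (p fun i => w i.succ) (a fun i => w i.succ) (b fun i => w i.succ)).p)
    (P := fun Y w => Y < (par (p fun i => w i.succ) (a fun i => w i.succ) (b fun i => w i.succ)).p ∧
      z (fun i => w i.succ) = w 0 + Y *
        (par (p fun i => w i.succ) (a fun i => w i.succ) (b fun i => w i.succ)).p +
        (par (p fun i => w i.succ) (a fun i => w i.succ) (b fun i => w i.succ)).p ^ 2 ∧
      Y ^ 2 % (par (p fun i => w i.succ) (a fun i => w i.succ) (b fun i => w i.succ)).p =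
      (w 0 ^ 3 + (par (p fun i => w i.succ) (a fun i => w i.succ) (b fun i => w i.succ)).a * w 0 +
        (par (p fun i => w i.succ) (a fun i => w i.succ) (b fun i => w i.succ)).b) %
        (par (p fun i => w i.succ) (a fun i => w i.succ) (b fun i => w i.succ)).p) hP.weak
    ((Delta0.ltFun hY hP2).and ((Delta0.eqFun hz2 ((hX.add (hY.mul hP2)).add
      (DFun.powConst hP2 2))).and (Delta0.eqFun (DFun.modAny (DFun.powConst hY 2) hP2)
      (DFun.modAny (((DFun.powConst hX 3).add (hA2.mul hX)).add hB2) hP2))))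
  have h1 := Delta0.bexFun (n := n)
    (b := fun v => (par (p v) (a v) (b v)).p)
    (P := fun X v => X < (par (p v) (a v) (b v)).p ∧ ∃ Y, Y ≤ (par (p v) (a v) (b v)).p ∧
      (Y < (par (p v) (a v) (b v)).p ∧
      z v = X + Y * (par (p v) (a v) (b v)).p + (par (p v) (a v) (b v)).p ^ 2 ∧
      Y ^ 2 % (par (p v) (a v) (b v)).p = (X ^ 3 + (par (p v) (a v) (b v)).a * X +
        (par (p v) (a v) (b v)).b) % (par (p v) (a v) (b v)).p)) hP
    ((Delta0.ltFun (DFun.proj 0) hP.weak).and h2)
  refine ((Delta0.eqFun hz hP).or h1).of_iff fun v => ?_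
  rw [mem_iff]
  refine or_congr Iff.rfl ⟨?_, ?_⟩
  · rintro ⟨X, hX1, Y, hY1, h3, h4⟩
    exact ⟨X, hX1.le, hX1, Y, hY1.le, hY1, h3, h4⟩
  · rintro ⟨X, hX', hX1, Y, hY', hY1, h3, h4⟩
    exact ⟨X, hX1, Y, hY1, h3, h4⟩

private theorem codeC_xc {x : Par} (P : Pt x) :
    xc P = if enc P = x.p then x.p else enc P % x.p := by
  have hp := x.valid.five
  match P with
  | .zero =>
    have h : enc (Affine.Point.zero : Pt x) = x.p := enc_zero x
    rw [if_pos h]
    rfl
  | .some X Y h =>
    have h1 : enc (Affine.Point.some X Y h : Pt x) = X.val + Y.val * x.p + x.p ^ 2 := enc_some x h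
    have : NeZero x.p := ⟨by omega⟩
    have h2 : X.val < x.p := ZMod.val_lt X
    have h3 : x.p < x.p ^ 2 := by nlinarith
    rw [if_neg (by rw [h1]; omega), h1]
    have h4 : (X.val + Y.val * x.p + x.p ^ 2) % x.p = X.val := by
      have : X.val + Y.val * x.p + x.p ^ 2 = X.val + x.p * (Y.val + x.p) := by ring
      rw [this, Nat.add_mul_mod_self_left, Nat.mod_eq_of_lt h2]
    rw [h4]
    rfl

theorem dfun_xc {n : ℕ} {p a b : (Fin n → ℕ) → ℕ} (hp : DFun n p) (ha : DFun n a)
    (hb : DFun n b) {P : ∀ v, Pt (par (p v) (a v) (b v))} (hP : DFun n (fun v => enc (P v))) :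
    DFun n (fun v => xc (P v)) := by
  obtain ⟨hQ, -, -⟩ := dfun_par hp ha hb
  have h := DFun.ite (Delta0.eqFun hP hQ) hQ (DFun.modAny hP hQ)
  refine (show (fun v => xc (P v)) = _ from ?_) ▸ h
  funext v
  exact codeC_xc (P v)

end Pool.Agent.ECD
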