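import Pool.Agent.ECD.Defs

/-!
# The curve, the laws of the group, representation of points
-/

set_option autoImplicit false

namespace Pool.Agent.ECD

open WeierstrassCurve

/-- The curve `y ^ 2 = x ^ 3 + a x + b`. -/
def EC {A : Type*} [CommRing A] (a b : A) : WeierstrassCurve A := ⟨0, 0, 0, a, b⟩

/-- the universal ring for two triples and the two coefficients of the curve -/
abbrev UR : Type := MvPolynomial (Fin 3 ⊕ Fin 3 ⊕ Fin 2) ℤ

/-- the universal curve -/
noncomputable def UE : WeierstrassCurve UR :=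
  EC (MvPolynomial.X (Sum.inr (Sum.inr 0))) (MvPolynomial.X (Sum.inr (Sum.inr 1)))

/-- the doubling formula in homogeneous coordinates -/
noncomputable def dblLaw : Law 3 2 :=
  UE.toProjective.dblXYZ (fun i => MvPolynomial.X (Sum.inl i))

/-- the addition formula in homogeneous coordinates -/
noncomputable def addLaw : Law 3 2 :=
  UE.toProjective.addXYZ (fun i => MvPolynomial.X (Sum.inl i))
    (fun i => MvPolynomial.X (Sum.inr (Sum.inl i)))

theorem dblLaw_ev {A : Type*} [CommRing A] (a b : A) (x y : Fin 3 → A) :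
    dblLaw.ev ![a, b] x y = (EC a b).toProjective.dblXYZ x := by
  set f : UR →+* A :=
    ((MvPolynomial.aeval (Sum.elim x (Sum.elim y ![a, b])) : UR →ₐ[ℤ] A) : UR →+* A) with hf
  have h1 : (UE.map f) = EC a b := by
    ext <;> simp [UE, EC, hf, WeierstrassCurve.map]
  have h2 : (f ∘ fun i => (MvPolynomial.X (Sum.inl i) : UR)) = x := by
    funext i
    simp [hf]
  have h3 := WeierstrassCurve.Projective.map_dblXYZ (W' := UE.toProjective) f
    (fun i => (MvPolynomial.X (Sum.inl i) : UR))
  have h4 : dblLaw.ev ![a, b] x y = f ∘ UE.toProjective.dblXYZ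
      (fun i => (MvPolynomial.X (Sum.inl i) : UR)) := rfl
  rw [h4, ← h3, h2]
  show (UE.map f).toProjective.dblXYZ x = _
  rw [h1]

theorem addLaw_ev {A : Type*} [CommRing A] (a b : A) (x y : Fin 3 → A) :
    addLaw.ev ![a, b] x y = (EC a b).toProjective.addXYZ x y := by
  set f : UR →+* A :=
    ((MvPolynomial.aeval (Sum.elim x (Sum.elim y ![a, b])) : UR →ₐ[ℤ] A) : UR →+* A) with hf
  have h1 : (UE.map f) = EC a b := by
    ext <;> simp [UE, EC, hf, WeierstrassCurve.map]
  have h2 : (f ∘ fun i => (MvPolynomial.X (Sum.inl i) : UR)) = x := by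
    funext i
    simp [hf]
  have h2' : (f ∘ fun i => (MvPolynomial.X (Sum.inr (Sum.inl i)) : UR)) = y := by
    funext i
    simp [hf]
  have h3 := WeierstrassCurve.Projective.map_addXYZ (W' := UE.toProjective) f
    (fun i => (MvPolynomial.X (Sum.inl i) : UR)) (fun i => (MvPolynomial.X (Sum.inr (Sum.inl i))
: UR))
  have h4 : addLaw.ev ![a, b] x y = f ∘ UE.toProjective.addXYZ
      (fun i => (MvPolynomial.X (Sum.inl i) : UR))
      (fun i => (MvPolynomial.X (Sum.inr (Sum.inl i)) : UR)) := rfl
  rw [h4, ← h3, h2, h2']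
  show (UE.map f).toProjective.addXYZ x y = _
  rw [h1]

/-- the standard representative of a point -/
def rp {F : Type*} [Field F] {a b : F} : (EC a b).toAffine.Point → Fin 3 → F
  | .zero => ![0, 1, 0]
  | .some x y _ => ![x, y, 1]

/-- the triples are proportional -/
def Prop3 {A : Type*} [CommRing A] (x y : Fin 3 → A) : Prop :=
  ∀ i j, x i * y j - x j * y i = 0

/-- The flags coded by `E` are right for the tree `T`: the flag of a node is `1` if and only if the
two children are proportional. -/
def FlagOK {A : Type*} [CommRing A] (h E : ℕ) (T : ℕ → ℕ → Fin 3 → A) : Prop :=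
  ∀ j s, j < h → s < 2 ^ (h - 1 - j) →
    (flag h E j s = 1 ↔ Prop3 (T j (2 * s)) (T j (2 * s + 1)))

end Pool.Agent.ECD
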