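import Pool.Agent.ECD.LinRec

/-!
# Package ECD-Dick: iterates of Dickson polynomials modulo `m`

*`dickson_iter`.* `Polynomial.dickson 1 1 a` is the Dickson polynomial `D_a` with
`D_a(x + 1/x) = x ^ a + 1/x ^ a`. The `t`-th iterate of `D_a` is `D_(a ^ t)`
(`Polynomial.dickson_one_one_mul` : `D_(m n) = D_m ∘ D_n`, `Polynomial.eval_comp`; `D_1 = X`,
`D_0 = 2`).

*`dick_def`.* The function `(m, a, x, t) ↦` the `t`-th iterate of `D_a` modulo `m + 1` at `x` is
`DFun 4`. Proof: `f i = D_i(x)` modulo `m + 1` satisfies `f (i + 2) = x f (i + 1) - f i`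
(`Polynomial.dickson_add_two`), `f 0 = 2`, `f 1 = x`: `linrec_def` with `d = 2`,
`c_0 = m` (that is `- 1`), `c_1 = x`; and `dickson_iter`.

*`fib_def`.* The function `(m, a, t) ↦ F_(a ^ t)` modulo `m + 1` is `DFun 3`: `linrec_def` with
`d = 2`, `c_0 = c_1 = 1` (`Nat.fib_add_two`).

Difficulty: 0.6 h.
-/

set_option autoImplicit false

namespace Pool.Agent.ECD

open Finset Pool.Agent.Grz Pool.Agent.GAvg Pool.Agent.PTr Pool.Agent.MTr Pool.Agent.LPC

theorem dickson_iter {A : Type*} [CommRing A] (a t : ℕ) (x : A) :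
    (fun z => (Polynomial.dickson 1 (1 : A) a).eval z)^[t] x =
      (Polynomial.dickson 1 (1 : A) (a ^ t)).eval x := by
  induction t with
  | zero => simp
  | succ t ih =>
    rw [Function.iterate_succ_apply', ih, pow_succ', Polynomial.dickson_one_one_mul,
      Polynomial.eval_comp]

private theorem cast_neg_one_dick (m : ℕ) : (m : ZMod (m + 1)) = -1 := by
  have h := ZMod.natCast_self (m + 1)
  push_cast at h
  exact eq_neg_of_add_eq_zero_left h

theorem dick_def : DFun 4 (fun v => ((fun z : ZMod (v 0 + 1) =>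
    (Polynomial.dickson 1 (1 : ZMod (v 0 + 1)) (v 1)).eval z)^[v 3] (v 2 : ZMod (v 0 + 1))).val) := by
  have h1 : DFun 4 (fun v => v 0 + 1) := (DFun.proj 0).add (DFun.const 1)
  have h := linrec_def (d := 2) (k := 4) (by norm_num) (M := fun v => v 0) (a := fun v => v 1)
    (t := fun v => v 3) (c := fun j v => if j = 0 then v 0 else v 2)
    (f := fun v i => (Polynomial.dickson 1 (1 : ZMod (v 0 + 1)) i).eval (v 2 : ZMod (v 0 + 1)))
    (DFun.proj 0) (DFun.proj 1) (DFun.proj 3) ?_ ?_ ?_ ?_
  · simp only [dickson_iter]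
    exact h
  · intro j
    fin_cases j
    · exact DFun.proj 0
    · exact DFun.proj 2
  · intro i
    fin_cases i
    · have h2 := DFun.modAny (DFun.const (n := 4) 2) h1
      refine cast (congrArg _ (funext fun v => ?_)) h2
      have h3 : (Polynomial.dickson 1 (1 : ZMod (v 0 + 1)) 0).eval (v 2 : ZMod (v 0 + 1)) =
          ((2 : ℕ) : ZMod (v 0 + 1)) := by
        rw [Polynomial.dickson_zero]
        simp only [Polynomial.eval_sub, Polynomial.eval_ofNat, Nat.cast_one, Polynomial.eval_one]
        norm_num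
      show 2 % (v 0 + 1) = ((Polynomial.dickson 1 (1 : ZMod (v 0 + 1)) 0).eval
        (v 2 : ZMod (v 0 + 1))).val
      rw [h3, ZMod.val_natCast]
    · have h2 := DFun.modAny (DFun.proj (n := 4) 2) h1
      refine cast (congrArg _ (funext fun v => ?_)) h2
      show v 2 % (v 0 + 1) = ((Polynomial.dickson 1 (1 : ZMod (v 0 + 1)) 1).eval
        (v 2 : ZMod (v 0 + 1))).val
      rw [Polynomial.dickson_one, Polynomial.eval_X, ZMod.val_natCast]
  · intro v i
    rw [Fin.sum_univ_two]
    simp only [Polynomial.dickson_add_two, Polynomial.eval_sub, Polynomial.eval_mul,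
      Polynomial.eval_X, Polynomial.eval_C, Fin.isValue, if_true, Fin.val_zero, add_zero,
      Fin.val_one, one_ne_zero, if_false, cast_neg_one_dick]
    ring
  · intro v
    show IsUnit ((v 0 : ℕ) : ZMod (v 0 + 1))
    rw [cast_neg_one_dick]
    exact isUnit_one.neg

theorem fib_def : DFun 3 (fun v => Nat.fib (v 1 ^ v 2) % (v 0 + 1)) := by
  have h1 : DFun 3 (fun v => v 0 + 1) := (DFun.proj 0).add (DFun.const 1)
  have h := linrec_def (d := 2) (k := 3) (by norm_num) (M := fun v => v 0) (a := fun v => v 1)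
    (t := fun v => v 2) (c := fun _ _ => 1) (f := fun v i => (Nat.fib i : ZMod (v 0 + 1)))
    (DFun.proj 0) (DFun.proj 1) (DFun.proj 2) ?_ ?_ ?_ ?_
  · refine cast (congrArg _ (funext fun v => ?_)) h
    exact ZMod.val_natCast _ _
  · intro j
    exact DFun.const 1
  · intro i
    have h2 := DFun.modAny (DFun.const (n := 3) (Nat.fib i)) h1
    refine cast (congrArg _ (funext fun v => ?_)) h2
    exact (ZMod.val_natCast _ _).symm
  · intro v i
    rw [Fin.sum_univ_two]
    simp only [Fin.val_zero, add_zero, Fin.val_one, Nat.cast_one, one_mul]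
    rw [Nat.fib_add_two, Nat.cast_add]
  · intro v
    simp

end Pool.Agent.ECD
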