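import Pool.Agent.ECD.Rep
import Pool.Agent.ECD.Code
import Pool.Agent.ECD.AlgDefs

/-!
# Elliptic curves over prime fields as a family of algebraic groups
-/

set_option autoImplicit false

namespace Pool.Agent.ECD

open Finset WeierstrassCurve Pool.Agent.Grz Pool.Agent.GAvg Pool.Agent.PTr Pool.Agent.MTr
  Pool.Agent.LPC

/-- the index of the row of a minor -/
def ecI (k : Fin 9) : Fin 3 := ⟨k / 3, by omega⟩

/-- the index of the column of a minor -/
def ecJ (k : Fin 9) : Fin 3 := ⟨k % 3, by omega⟩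

/-- the minors -/
noncomputable def ecT (k : Fin 9) : MvPolynomial (Fin 3 ⊕ Fin 3 ⊕ Fin 2) ℤ :=
  MvPolynomial.X (Sum.inl (ecI k)) * MvPolynomial.X (Sum.inr (Sum.inl (ecJ k))) -
    MvPolynomial.X (Sum.inl (ecJ k)) * MvPolynomial.X (Sum.inr (Sum.inl (ecI k)))

open scoped Classical in
/-- doubling if all minors vanish, otherwise addition -/
noncomputable def ecF (f : Fin 9 → Prop) : Law 3 2 := if ∀ k, f k then dblLaw else addLaw

theorem ec_pat {A : Type*} [CommRing A] (c : Fin 2 → A) (x y : Fin 3 → A) :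
    (∀ k, pat ecT c x y k) ↔ Prop3 x y := by
  constructor
  · intro h i j
    have h1 := h ⟨3 * i + j, by omega⟩
    have e1 : ecI ⟨3 * i + j, by omega⟩ = i := by
      ext
      simp only [ecI]
      omega
    have e2 : ecJ ⟨3 * i + j, by omega⟩ = j := by
      ext
      simp only [ecJ]
      omega
    simpa [pat, ecT, e1, e2] using h1
  · intro h k
    simpa [pat, ecT] using h (ecI k) (ecJ k)

theorem cast_ecpt {x : Par} (P : Pt x) (i : Fin 3) : ((ecpt P i : ℕ) : ZMod x.p) = rp P i := by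
  cases P with
  | zero => fin_cases i <;> simp [ecpt, rp]
  | some X Y h => fin_cases i <;> simp [ecpt, rp]

theorem ecpt_lt {x : Par} (P : Pt x) (i : Fin 3) : ecpt P i < x.p := by
  have h5 := x.valid.five
  cases P with
  | zero => fin_cases i <;> simp [ecpt] <;> omega
  | some X Y h =>
    have h1 := ZMod.val_lt X
    have h2 := ZMod.val_lt Y
    fin_cases i <;> simp [ecpt] <;> omega

theorem ec_law {x : Par} (P Q : Pt x) (y z : Fin 3 → ZMod x.p) (u w : (ZMod x.p)ˣ)
    (hy : ∀ i, y i = u * (ecpt P i : ZMod x.p)) (hz : ∀ i, z i = w * (ecpt Q i : ZMod x.p)) :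
    ∃ t : (ZMod x.p)ˣ, ∀ i, (ecF (pat ecT ![(x.a : ZMod x.p), (x.b : ZMod x.p)] y z)).ev
      ![(x.a : ZMod x.p), (x.b : ZMod x.p)] y z i = t * (ecpt (P + Q) i : ZMod x.p) := by
  classical
  have e1 : y = (u : ZMod x.p) • rp P := by
    funext i
    rw [hy, cast_ecpt]
    rfl
  have e2 : z = (w : ZMod x.p) • rp Q := by
    funext i
    rw [hz, cast_ecpt]
    rfl
  have n1 : x.W.toProjective.Nonsingular y := by
    rw [e1]
    exact (Projective.nonsingular_smul _ u.isUnit).2 (rp_nonsingular P)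
  have n2 : x.W.toProjective.Nonsingular z := by
    rw [e2]
    exact (Projective.nonsingular_smul _ w.isUnit).2 (rp_nonsingular Q)
  have a1 : Projective.Point.toAffine x.W.toProjective y = P := by
    rw [e1, Projective.Point.toAffine_smul _ u.isUnit, toAffine_rp]
  have a2 : Projective.Point.toAffine x.W.toProjective z = Q := by
    rw [e2, Projective.Point.toAffine_smul _ w.isUnit, toAffine_rp]
  have key : x.W.toProjective.Nonsingular ((ecF (pat ecT ![(x.a : ZMod x.p), (x.b : ZMod x.p)]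
      y z)).ev ![(x.a : ZMod x.p), (x.b : ZMod x.p)] y z) ∧
      Projective.Point.toAffine x.W.toProjective ((ecF (pat ecT ![(x.a : ZMod x.p),
        (x.b : ZMod x.p)] y z)).ev ![(x.a : ZMod x.p), (x.b : ZMod x.p)] y z) = P + Q := by
    rw [ecF]
    by_cases h : P = Q
    · rw [if_pos ((ec_pat _ _ _).2 ((prop3_iff n1 n2).2 (by rw [a1, a2, h])))]
      have := step_dbl n1 n2 (by rw [a1, a2, h])
      rwa [a1, a2] at this
    · rw [if_neg fun h' => h (by
        have := (prop3_iff n1 n2).1 ((ec_pat _ _ _).1 h')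
        rwa [a1, a2] at this)]
      have := step_add n1 n2 (by rw [a1, a2]; exact h)
      rwa [a1, a2] at this
  obtain ⟨t, ht⟩ := rep_unit key.1
  refine ⟨t, fun i => ?_⟩
  rw [ht i, key.2, cast_ecpt]

theorem ec_inj {x : Par} (P Q : Pt x)
    (h : ∀ i j, ecpt P i * ecpt Q j ≡ ecpt P j * ecpt Q i [MOD x.p]) : P = Q := by
  have h1 : Prop3 (rp P) (rp Q) := by
    intro i j
    have h2 := (ZMod.natCast_eq_natCast_iff _ _ _).2 (h i j)
    push_cast at h2
    rw [cast_ecpt, cast_ecpt, cast_ecpt, cast_ecpt] at h2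
    rw [h2, sub_self]
  have h3 := (prop3_iff (rp_nonsingular P) (rp_nonsingular Q)).1 h1
  rwa [toAffine_rp, toAffine_rp] at h3

/-- the elliptic curves over prime fields -/
noncomputable def ecAlg : AlgFam 3 3 2 9 where
  G v := Multiplicative (Pt (par (v 0) (v 1) (v 2)))
  grp v := inferInstance
  m v := (par (v 0) (v 1) (v 2)).p
  hm := (dfun_par (DFun.proj 0) (DFun.proj 1) (DFun.proj 2)).1
  mpos v := (par (v 0) (v 1) (v 2)).valid.prime.pos
  c := ![fun v => (par (v 0) (v 1) (v 2)).a, fun v => (par (v 0) (v 1) (v 2)).b]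
  hc k := by
    have h := dfun_par (n := 3) (DFun.proj 0) (DFun.proj 1) (DFun.proj 2)
    fin_cases k
    · exact h.2.1
    · exact h.2.2
  pt v P := ecpt (Multiplicative.toAdd P)
  pt_lt v P i := ecpt_lt _ i
  mem := by
    have h := delta_mem (n := 4) (p := fun w => w 1) (a := fun w => w 2) (b := fun w => w 3)
      (z := fun w => w 0) (DFun.proj 1) (DFun.proj 2) (DFun.proj 3) (DFun.proj 0)
    refine h.of_iff fun w => ?_
    rfl
  sep v P Q u h := Multiplicative.toAdd.injective (ec_inj _ _ fun i j =>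
    (ZMod.natCast_eq_natCast_iff _ _ _).1 (by push_cast; rw [h i, h j]; ring))
  T := ecT
  F := ecF
  law v P Q y z u w hy hz := by
    have h := ec_law (Multiplicative.toAdd P) (Multiplicative.toAdd Q) y z u w hy hz
    have e : (fun k => ((![fun v => (par (v 0) (v 1) (v 2)).a,
        fun v => (par (v 0) (v 1) (v 2)).b] : Fin 2 → (Fin 3 → ℕ) → ℕ) k v :
          ZMod (par (v 0) (v 1) (v 2)).p)) =
        ![((par (v 0) (v 1) (v 2)).a : ZMod (par (v 0) (v 1) (v 2)).p),
          ((par (v 0) (v 1) (v 2)).b : ZMod (par (v 0) (v 1) (v 2)).p)] := by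
      funext k
      fin_cases k <;> rfl
    rw [e]
    exact h

end Pool.Agent.ECD
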