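import Pool.Agent.ECD.Rep

/-!
# Package ECD-ECTree: the tree computes sums of points

*Statement (`ec_tree`).* If the flags are right then the node `s` of level `j ≤ h`,
`s < 2 ^ (h - j)`, represents `∑_(i < 2 ^ j) P (s 2 ^ j + i)`.

*Proof.* Induction on `j`. `j = 0`: `rp_nonsingular`, `toAffine_rp`. Step `j + 1 ≤ h`,
`s < 2 ^ (h - 1 - j)`: the children `2 s, 2 s + 1 < 2 ^ (h - j)` represent the sums over the two
halves. If the flag is `1` then the children are proportional (`hfl`), so the points are equal
(`prop3_iff`) and `step_dbl` applies; if not, the points are different and `step_add` applies.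
`∑_(i < 2 ^ (j + 1)) P (s 2 ^ (j + 1) + i)` is the sum of the two halves
(`Finset.sum_range_add` or `Finset.range_add`, `pow_succ`).

*Statement (`exists_bits`).* Every set of numbers `< n` is the set of the positions of the bits `1` of
a number `E < 2 ^ n`. Proof: `E = ∑_(i < n, i ∈ S) 2 ^ i` (`GAvg.dig_sum`, `GAvg.sum_lt` with
`q = 2`).

*Statement (`exists_flags`).* There is `E < 2 ^ 2 ^ h` with right flags.

*Proof.* Let `Q j s = ∑_(i < 2 ^ j) P (s 2 ^ j + i)`. The numbers `2 ^ (h - 1 - j) + s`, `j < h`,
`s < 2 ^ (h - 1 - j)`, are different and `< 2 ^ h`: such a number `m` determines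
`h - 1 - j = Nat.log 2 m` and `s`. By `exists_bits` there is `E < 2 ^ 2 ^ h` such that
`flag h E j s = 1 ↔ Q j (2 s) = Q j (2 s + 1)` for all these `(j, s)`. By induction on `j` (the
proof of `ec_tree`, where the flags are used only at the levels below `j`) every node `(j, s)`
represents `Q j s`; then `FlagOK` follows from `prop3_iff`. (It is convenient to prove first: if
`flag h E j s = 1 ↔ Q j (2 s) = Q j (2 s + 1)` for all `j < h`, `s < 2 ^ (h - 1 - j)`, then every node
represents `Q j s`.) ∎

Difficulty: 1.2 h.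
-/

set_option autoImplicit false

namespace Pool.Agent.ECD

open Finset WeierstrassCurve

variable {F : Type*} [Field F] [DecidableEq F] {a b : F}

theorem ec_tree (P : ℕ → (EC a b).toAffine.Point) {h E : ℕ}
    (hfl : FlagOK h E (ftr addLaw dblLaw ![a, b] (fun s => rp (P s)) h E)) :
    ∀ j s, j ≤ h → s < 2 ^ (h - j) →
      (EC a b).toProjective.Nonsingular (ftr addLaw dblLaw ![a, b] (fun s => rp (P s)) h E j s) ∧
      Projective.Point.toAffine (EC a b).toProjective
        (ftr addLaw dblLaw ![a, b] (fun s => rp (P s)) h E j s) =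
        ∑ i ∈ range (2 ^ j), P (s * 2 ^ j + i) := by
  sorry

theorem exists_bits (n : ℕ) (S : ℕ → Prop) :
    ∃ E, E < 2 ^ n ∧ ∀ i, i < n → (E / 2 ^ i % 2 = 1 ↔ S i) := by
  sorry

theorem exists_flags (P : ℕ → (EC a b).toAffine.Point) (h : ℕ) :
    ∃ E, E < 2 ^ 2 ^ h ∧ FlagOK h E (ftr addLaw dblLaw ![a, b] (fun s => rp (P s)) h E) := by
  sorry

end Pool.Agent.ECD
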