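import Mathlib

/-!
# The coefficients of the exponent trick
-/

set_option autoImplicit false

namespace Pool.Agent.ECD

open Finset

theorem erase_coprime {S : Finset ℕ} (hS : ∀ q ∈ S, q.Prime) {q : ℕ} (hq : q ∈ S) :
    Nat.Coprime q (∏ q' ∈ S.erase q, q') := by
  refine Nat.Coprime.prod_right fun q' hq' => ?_
  rw [mem_erase] at hq'
  exact (Nat.coprime_primes (hS q hq) (hS q' hq'.2)).2 (Ne.symm hq'.1)

theorem coef_exists {S : Finset ℕ} (hS : ∀ q ∈ S, q.Prime) {q : ℕ} (hq : q ∈ S) :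
    ∃ c, c < q ∧ q ∣ c * ∏ q' ∈ S.erase q, q' + 1 := by
  have : Fact q.Prime := ⟨hS q hq⟩
  have h0 : ((∏ q' ∈ S.erase q, q' : ℕ) : ZMod q) ≠ 0 := by
    intro h
    rw [ZMod.natCast_eq_zero_iff] at h
    have h1 := Nat.Coprime.eq_one_of_dvd (erase_coprime hS hq) h
    exact (hS q hq).ne_one h1
  refine ⟨(-((∏ q' ∈ S.erase q, q' : ℕ) : ZMod q)⁻¹).val, ZMod.val_lt _, ?_⟩
  rw [← ZMod.natCast_eq_zero_iff, Nat.cast_add, Nat.cast_mul, ZMod.natCast_zmod_val, neg_mul,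
    inv_mul_cancel₀ h0]
  simp

theorem dvd_erase {S : Finset ℕ} {q q' : ℕ} (hq : q ∈ S) (h : q ≠ q') :
    q ∣ ∏ p ∈ S.erase q', p :=
  dvd_prod_of_mem (fun p => p) (mem_erase.2 ⟨h, hq⟩)

theorem coef_dvd {S : Finset ℕ} (hS : ∀ q ∈ S, q.Prime) {c : ℕ → ℕ}
    (hc : ∀ q ∈ S, q ∣ c q * ∏ q' ∈ S.erase q, q' + 1) :
    ∏ q ∈ S, q ∣ ∑ q ∈ S, c q * ∏ q' ∈ S.erase q, q' + 1 := by
  refine prod_primes_dvd _ (fun q hq => (hS q hq).prime) fun q hq => ?_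
  rw [← add_sum_erase S (fun q => c q * ∏ q' ∈ S.erase q, q') hq, add_right_comm]
  refine dvd_add (hc q hq) (dvd_sum fun q' hq' => ?_)
  rw [mem_erase] at hq'
  exact (dvd_erase hq (Ne.symm hq'.1)).mul_left _

theorem coef_dvd' {S : Finset ℕ} (hS : ∀ q ∈ S, q.Prime) {c : ℕ → ℕ}
    (hc : ∀ q ∈ S, q ∣ c q * ∏ q' ∈ S.erase q, q' + 1) (k : ℕ) :
    ∏ q ∈ S, q ∣ ∑ q ∈ S, c q * (k % q) * ∏ q' ∈ S.erase q, q' + k := by
  refine prod_primes_dvd _ (fun q hq => (hS q hq).prime) fun q hq => ?_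
  rw [← add_sum_erase S (fun q => c q * (k % q) * ∏ q' ∈ S.erase q, q') hq, add_right_comm]
  refine dvd_add ?_ (dvd_sum fun q' hq' => ?_)
  · have e : c q * (k % q) * ∏ q' ∈ S.erase q, q' + k =
        (k % q) * (c q * ∏ q' ∈ S.erase q, q' + 1) + q * (k / q) := by
      conv_lhs => rw [← Nat.mod_add_div k q]
      rw [Nat.mod_add_div k q]
      ring_nf
      nth_rewrite 2 [← Nat.mod_add_div k q]
      ring
    rw [e]
    exact dvd_add ((hc q hq).mul_left _) (Dvd.intro _ rfl)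
  · rw [mem_erase] at hq'
    exact (dvd_erase hq (Ne.symm hq'.1)).mul_left _

end Pool.Agent.ECD
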