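import Pool.Agent.ECD.FamG
import Pool.Agent.ECD.CardDef

/-!
# Families of abelian groups in multiplicative notation, and their orders
-/

set_option autoImplicit false

namespace Pool.Agent.ECD

open Finset Pool.Agent.Grz Pool.Agent.GAvg Pool.Agent.PTr Pool.Agent.MTr Pool.Agent.LPC

theorem list_prod_additive {A : Type*} [CommGroup A] (f : ℕ → Additive A) (L : ℕ) :
    ∑ i ∈ range L, f i =
      Additive.ofMul ((List.range L).map fun i => Additive.toMul (f i)).prod := by
  induction L with
  | zero => rfl
  | succ L ih =>
    rw [List.range_succ, List.map_append, List.prod_append, sum_range_succ, ih]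
    simp

/-- a commutative group -/
abbrev cgrp {A : Type*} (I : Group A) (hc : ∀ g h : A, g * h = h * g) : CommGroup A :=
  { I with mul_comm := hc }

/-- a family of commutative groups in additive notation -/
def GFam.toFam {r : ℕ} (Φ : GFam r) (hc : ∀ v (g h : Φ.G v), g * h = h * g) : Fam r where
  G v := Additive (Φ.G v)
  grp v := @Additive.addCommGroup _ (cgrp (Φ.grp v) (hc v))
  enc v x := Φ.enc v (Additive.toMul x)
  inj v x y h := Additive.toMul.injective (Φ.inj v h)
  N := Φ.N
  hN := Φ.hN
  bd v x := Φ.bd v _
  mem := Φ.mem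
  sum1 {n σ P L M} hσ hP hL hM hLM := by
    have h := Φ.prod1 (P := fun u i => Additive.toMul (P u i)) hσ hP hL hM hLM
    have e : ∀ u, Additive.toMul (@Finset.sum ℕ (Additive (Φ.G fun i => σ i u))
        (@Additive.addCommGroup _ (cgrp (Φ.grp fun i => σ i u) (hc _))).toAddCommMonoid
        (range (L u)) (fun i => P u i)) =
          ((List.range (L u)).map fun i => Additive.toMul (P u i)).prod := fun u =>
      congrArg Additive.toMul
        (@list_prod_additive _ (cgrp (Φ.grp fun i => σ i u) (hc _)) (P u) (L u))
    have e' : (fun u => Φ.enc (fun i => σ i u) (Additive.toMul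
        (@Finset.sum ℕ (Additive (Φ.G fun i => σ i u))
        (@Additive.addCommGroup _ (cgrp (Φ.grp fun i => σ i u) (hc _))).toAddCommMonoid
        (range (L u)) (fun i => P u i)))) =
        fun u => Φ.enc (fun i => σ i u)
          ((List.range (L u)).map fun i => Additive.toMul (P u i)).prod :=
      funext fun u => congrArg (Φ.enc _) (e u)
    exact e' ▸ h

theorem comb_of_closure {A : Type*} [AddCommGroup A] [Finite A] {R : ℕ} (g : Fin R → A)
    (h : AddSubgroup.closure (Set.range g) = ⊤) (x : A) : ∃ k : Fin R → ℕ, x = ∑ i, k i • g i := by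
  have h1 : x ∈ AddSubmonoid.closure (Set.range g) := by
    rw [← AddSubgroup.closure_toAddSubmonoid_of_finite, h]
    trivial
  exact AddSubmonoid.mem_closure_range_iff_of_fintype.1 h1

/-- The orders of the groups of a family of abelian groups which are generated by `R` elements,
`R` a constant, are definable. -/
theorem GFam.card {r : ℕ} (Φ : GFam r) (hc : ∀ v (g h : Φ.G v), g * h = h * g) (R : ℕ)
    (hR : ∀ v, ∃ g : Fin R → Φ.G v, Subgroup.closure (Set.range g) = ⊤) :
    DFun r (fun v => Nat.card (Φ.G v)) := by
  refine (Φ.toFam hc).card R fun v => ?_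
  obtain ⟨g, hg⟩ := hR v
  let o : Φ.G v → (Φ.toFam hc).G v := fun z => (Additive.ofMul z : Additive (Φ.G v))
  refine ⟨fun i => o (g i), fun x => ?_⟩
  have := (Φ.toFam hc).finite v
  refine comb_of_closure (A := (Φ.toFam hc).G v) (fun i => o (g i)) ?_ x
  rw [eq_top_iff]
  intro y _
  have h1 : (show Φ.G v from y) ∈ Subgroup.closure (Set.range g) := by
    rw [hg]
    trivial
  have h2 : ∀ z ∈ Subgroup.closure (Set.range g),
      o z ∈ AddSubgroup.closure (Set.range fun i => o (g i)) := by
    intro z hz
    induction hz using Subgroup.closure_induction with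
    | mem z hz =>
      obtain ⟨i, rfl⟩ := hz
      exact AddSubgroup.subset_closure ⟨i, rfl⟩
    | one => exact AddSubgroup.zero_mem _
    | mul a b _ _ ha hb => exact AddSubgroup.add_mem _ ha hb
    | inv a _ ha => exact AddSubgroup.neg_mem _ ha
  exact h2 _ h1

end Pool.Agent.ECD
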