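import Pool.Agent.ECD.Defs

/-!
# Families of finite abelian groups with definable sums
-/

set_option autoImplicit false

namespace Pool.Agent.ECD

open Finset Pool.Agent.Grz Pool.Agent.GAvg Pool.Agent.PTr Pool.Agent.MTr Pool.Agent.LPC

/-- A family of finite abelian groups, indexed by `v ∈ ℕ^r`. The elements are coded by numbers, the
codes are definable, and the sums of short definable sequences are definable. -/
structure Fam (r : ℕ) where
  /-- the groups -/
  G : (Fin r → ℕ) → Type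
  /-- the addition -/
  grp : ∀ v, AddCommGroup (G v)
  /-- the codes -/
  enc : ∀ v, G v → ℕ
  inj : ∀ v, Function.Injective (enc v)
  /-- a bound for the codes -/
  N : (Fin r → ℕ) → ℕ
  hN : DFun r N
  bd : ∀ v x, enc v x ≤ N v
  mem : Delta0 (r + 1) (fun w => ∃ x, enc (fun i => w i.succ) x = w 0)
  sum1 : ∀ {n : ℕ} {σ : Fin r → (Fin n → ℕ) → ℕ} {P : ∀ u : Fin n → ℕ, ℕ → G (fun i => σ i u)}
    {L M : (Fin n → ℕ) → ℕ}, (∀ i, DFun n (σ i)) →
    DFun (n + 1) (fun w => enc _ (P (fun i => w i.succ) (w 0))) → DFun n L → DFun n M →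
    (∀ u, L u ≤ lg (M u) + 1) → DFun n (fun u => enc _ (∑ i ∈ range (L u), P u i))

attribute [instance] Fam.grp

open scoped Classical in
/-- the element with the given code, `0` if there is none -/
noncomputable def Fam.dec {r : ℕ} (Φ : Fam r) (v : Fin r → ℕ) (z : ℕ) : Φ.G v :=
  if h : ∃ x, Φ.enc v x = z then h.choose else 0

theorem Fam.dec_enc {r : ℕ} (Φ : Fam r) (v : Fin r → ℕ) (x : Φ.G v) :
    Φ.dec v (Φ.enc v x) = x := by
  have h : ∃ y, Φ.enc v y = Φ.enc v x := ⟨x, rfl⟩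
  rw [Fam.dec, dif_pos h]
  exact Φ.inj v h.choose_spec

theorem Fam.enc_dec {r : ℕ} (Φ : Fam r) {v : Fin r → ℕ} {z : ℕ} (h : ∃ x, Φ.enc v x = z) :
    Φ.enc v (Φ.dec v z) = z := by
  rw [Fam.dec, dif_pos h]
  exact h.choose_spec

instance Fam.finite {r : ℕ} (Φ : Fam r) (v : Fin r → ℕ) : Finite (Φ.G v) :=
  Finite.of_injective (fun x : Φ.G v => (⟨Φ.enc v x, Nat.lt_succ_of_le (Φ.bd v x)⟩ :
    Fin (Φ.N v + 1))) fun x y h => Φ.inj v (by simpa using h)

end Pool.Agent.ECD
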