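import Pool.Agent.ECD.FamG
import Pool.Agent.ECD.PowMod

/-!
# Package ECD-FamOrd: orders of elements, and iterates of multiplications

*Statement (`Fam.dorder`).* The order of a definable element is definable: it is the least `k` with
`1 ≤ k ≤ N + 1` and `k • g = 0` (`addOrderOf_le_card`, `Nat.card` of the group is `≤ N + 1`,
`addOrderOf_eq_iff` or `addOrderOf_dvd_iff_nsmul_eq_zero`; `Fam.deq`, `Fam.dnsmul`, `Fam.dzero`,
`DFun.ofGraph`).

*Statement (`Fam.dpow`).* `(m ^ t) • g` is definable for definable `m, t, g`: it is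
`(m ^ t % addOrderOf g) • g` (`mod_addOrderOf_nsmul`), `pow_mod_def`, `Fam.dnsmul`.

Difficulty: 0.5 h.
-/

set_option autoImplicit false

namespace Pool.Agent.ECD

open Finset Pool.Agent.Grz Pool.Agent.GAvg Pool.Agent.PTr Pool.Agent.MTr Pool.Agent.LPC

variable {r : ℕ} (Φ : Fam r) {n : ℕ} {σ : Fin r → (Fin n → ℕ) → ℕ}

theorem Fam.dorder (hσ : ∀ i, DFun n (σ i)) {g : ∀ u : Fin n → ℕ, Φ.G (fun i => σ i u)}
    (hg : DFun n (fun u => Φ.enc _ (g u))) : DFun n (fun u => addOrderOf (g u)) := by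
  have hσ1 : ∀ i, DFun (n + 1) (fun w : Fin (n + 1) → ℕ => σ i (fun j => w j.succ)) :=
    fun i => (hσ i).weak
  have hσ2 : ∀ i, DFun (n + 1 + 1) (fun w : Fin (n + 1 + 1) → ℕ => σ i (fun j => w j.succ.succ)) :=
    fun i => (hσ1 i).weak
  have hg1 : DFun (n + 1) (fun w : Fin (n + 1) → ℕ => Φ.enc _ (g (fun j => w j.succ))) := hg.weak
  have hg2 : DFun (n + 1 + 1)
      (fun w : Fin (n + 1 + 1) → ℕ => Φ.enc _ (g (fun j => w j.succ.succ))) := hg1.weak
  have hb : DFun n (fun u => Φ.N (fun i => σ i u) + 1) := (Φ.hN.comp hσ).add (DFun.const 1)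
  refine DFun.ofGraph hb (fun u => ?_) ?_
  · have h1 : addOrderOf (g u) ≤ Nat.card (Φ.G (fun i => σ i u)) := addOrderOf_le_card
    refine h1.trans ?_
    have h2 := Nat.card_le_card_of_injective
      (fun x : Φ.G (fun i => σ i u) => (⟨Φ.enc _ x, Nat.lt_succ_of_le (Φ.bd _ x)⟩ :
        Fin (Φ.N (fun i => σ i u) + 1))) fun x y h => Φ.inj _ (by simpa using h)
    rwa [Nat.card_eq_fintype_card (α := Fin _), Fintype.card_fin] at h2
  · have e1 : Delta0 (n + 1) (fun w : Fin (n + 1) → ℕ => 0 < w 0) :=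
      Delta0.ltFun (DFun.const 0) (DFun.proj 0)
    have e2 : Delta0 (n + 1) (fun w : Fin (n + 1) → ℕ => w 0 • g (fun j => w j.succ) = 0) :=
      Φ.deq (Φ.dnsmul hσ1 hg1 (DFun.proj 0)) (Φ.dzero hσ1)
    have e3 : Delta0 (n + 1 + 1)
        (fun w : Fin (n + 1 + 1) → ℕ => w 0 • g (fun j => w j.succ.succ) = 0) :=
      Φ.deq (Φ.dnsmul hσ2 hg2 (DFun.proj 0)) (Φ.dzero hσ2)
    have e4 : Delta0 (n + 1) (fun w : Fin (n + 1) → ℕ => ∀ m, m ≤ w 0 →
        (m < w 0 → 0 < m → ¬ m • g (fun j => w j.succ) = 0)) := by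
      refine Delta0.ballFun (b := fun w : Fin (n + 1) → ℕ => w 0)
        (P := fun m w => m < w 0 → 0 < m → ¬ m • g (fun j => w j.succ) = 0) (DFun.proj 0) ?_
      exact (Delta0.ltFun (DFun.proj 0) (DFun.proj 1)).imp
        ((Delta0.ltFun (DFun.const 0) (DFun.proj 0)).imp e3.not)
    refine (e1.and (e2.and e4)).of_iff fun w => ?_
    have hpos : 0 < addOrderOf (g (fun j => w j.succ)) := addOrderOf_pos _
    constructor
    · intro h
      have h1 : 0 < w 0 := by rw [h]; exact hpos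
      obtain ⟨h2, h3⟩ := (addOrderOf_eq_iff h1).1 h.symm
      exact ⟨h1, h2, fun m _ hm hm0 => h3 m hm hm0⟩
    · rintro ⟨h1, h2, h3⟩
      exact ((addOrderOf_eq_iff h1).2 ⟨h2, fun m hm hm0 => h3 m hm.le hm hm0⟩).symm

theorem Fam.dpow (hσ : ∀ i, DFun n (σ i)) {g : ∀ u : Fin n → ℕ, Φ.G (fun i => σ i u)}
    {m t : (Fin n → ℕ) → ℕ} (hg : DFun n (fun u => Φ.enc _ (g u))) (hm : DFun n m)
    (ht : DFun n t) : DFun n (fun u => Φ.enc _ ((m u ^ t u) • g u)) := by
  have ho := Φ.dorder hσ hg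
  have hp : DFun n (fun u => m u ^ t u % addOrderOf (g u)) :=
    pow_mod_def hm ht ho fun u => addOrderOf_pos _
  have h := Φ.dnsmul hσ hg hp
  have e : (fun u => Φ.enc (fun i => σ i u) ((m u ^ t u) • g u)) =
      fun u => Φ.enc (fun i => σ i u) ((m u ^ t u % addOrderOf (g u)) • g u) := by
    funext u
    rw [mod_addOrderOf_nsmul]
  rw [e]
  exact h

end Pool.Agent.ECD
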