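import Pool.Agent.ECD.FamDefs

/-!
# Package ECD-FamToolsA: tools for families of groups

`Φ : Fam r`, `σ i : DFun n`; an element `P u` of `Φ.G (fun i => σ i u)` is definable if
`u ↦ Φ.enc _ (P u)` is `DFun n`.

*`Fam.dzero`.* `sum1` with `L = 0`.
*`Fam.dadd`.* `sum1` with `L = 2`, `M = 2`, `P u i = if i = 0 then P u else Q u`
(`DFun.ite`, `apply_ite`, `Finset.sum_range_succ`).
*`Fam.deq`.* Equality of the codes (`inj`).
*`Fam.dmem`, `Fam.ddec`.* `mem` with substitution (`Delta0.subst`), `DFun.ite`: the code of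
`Φ.dec _ (z u)` is `z u` if `z u` is a code (`Fam.enc_dec`), and the code of `0` otherwise.

Difficulty: 0.5 h.
-/

set_option autoImplicit false

namespace Pool.Agent.ECD

open Finset Pool.Agent.Grz Pool.Agent.GAvg Pool.Agent.PTr Pool.Agent.MTr Pool.Agent.LPC

variable {r : ℕ} (Φ : Fam r) {n : ℕ} {σ : Fin r → (Fin n → ℕ) → ℕ}

private theorem aux_mem (hσ : ∀ i, DFun n (σ i)) {z : (Fin n → ℕ) → ℕ} (hz : DFun n z) :
    Delta0 n (fun u => ∃ x, Φ.enc (fun i => σ i u) x = z u) := by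
  have h := Φ.mem.subst (n := n) (h := Fin.cons z σ) (fun i => by
    refine Fin.cases ?_ (fun j => ?_) i
    · exact hz
    · exact hσ j)
  exact h.of_iff fun u => Iff.rfl

private theorem ex_code (v : Fin r → ℕ) : ∃ z, ∃ x, Φ.enc v x = z := ⟨_, 0, rfl⟩

open scoped Classical in
private noncomputable def lst (v : Fin r → ℕ) : Φ.G v := Φ.dec v (Nat.find (ex_code Φ v))

private theorem enc_lst (v : Fin r → ℕ) (z : ℕ) : z = Φ.enc v (lst Φ v) ↔
    (∃ x, Φ.enc v x = z) ∧ ∀ y, y ≤ z → ((∃ x, Φ.enc v x = y) → y = z) := by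
  classical
  have h1 : Φ.enc v (lst Φ v) = Nat.find (ex_code Φ v) := by
    unfold lst
    convert Φ.enc_dec (Nat.find_spec (ex_code Φ v))
  constructor
  · intro h
    rw [h1] at h
    refine ⟨h ▸ Nat.find_spec (ex_code Φ v), fun y hy hx => ?_⟩
    have h2 := Nat.find_min' (ex_code Φ v) hx
    omega
  · rintro ⟨hz, h⟩
    rw [h1]
    have h2 := Nat.find_min' (ex_code Φ v) hz
    exact (h _ h2 (Nat.find_spec (ex_code Φ v))).symm

private theorem dfun_lst (hσ : ∀ i, DFun n (σ i)) :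
    DFun n (fun u => Φ.enc _ (lst Φ (fun i => σ i u))) := by
  refine DFun.ofGraph (b := fun u => Φ.N (fun i => σ i u)) (Φ.hN.comp hσ)
    (fun u => Φ.bd _ _) ?_
  have h1 := aux_mem Φ (n := n + 1) (σ := fun i w => σ i (fun j => w j.succ))
    (fun i => (hσ i).weak) (DFun.proj (n := n + 1) 0)
  have h2 := aux_mem Φ (n := n + 1 + 1) (σ := fun i w => σ i (fun j => w j.succ.succ))
    (fun i => (hσ i).weak.weak) (DFun.proj (n := n + 1 + 1) 0)
  have h3 := Delta0.ballFun (n := n + 1) (b := fun w => w 0)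
    (P := fun y w => (∃ x, Φ.enc (fun i => σ i (fun j => w j.succ)) x = y) → y = w 0)
    (DFun.proj (n := n + 1) 0)
    (h2.imp (Delta0.eqFun (DFun.proj (n := n + 1 + 1) 0)
      (DFun.proj (n := n + 1 + 1) (Fin.succ 0))))
  exact (h1.and h3).of_iff fun w => enc_lst Φ _ _

theorem Fam.dzero (hσ : ∀ i, DFun n (σ i)) :
    DFun n (fun u => Φ.enc (fun i => σ i u) (0 : Φ.G (fun i => σ i u))) := by
  have h := Φ.sum1 (n := n) (σ := σ) (P := fun u _ => lst Φ (fun i => σ i u))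
    (L := fun _ => 0) (M := fun _ => 0) hσ
    (dfun_lst Φ (n := n + 1) (σ := fun i w => σ i (fun j => w j.succ)) fun i => (hσ i).weak)
    (DFun.const 0) (DFun.const 0) (fun u => Nat.zero_le _)
  simpa only [Finset.range_zero, Finset.sum_empty] using h

theorem Fam.dadd (hσ : ∀ i, DFun n (σ i)) {P Q : ∀ u : Fin n → ℕ, Φ.G (fun i => σ i u)}
    (hP : DFun n (fun u => Φ.enc _ (P u))) (hQ : DFun n (fun u => Φ.enc _ (Q u))) :
    DFun n (fun u => Φ.enc _ (P u + Q u)) := by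
  classical
  have h1 : DFun (n + 1) (fun w => if w 0 = 0 then Φ.enc _ (P fun i => w i.succ)
      else Φ.enc _ (Q fun i => w i.succ)) :=
    DFun.ite (Delta0.eqFun (DFun.proj (n := n + 1) 0) (DFun.const 0)) hP.weak hQ.weak
  have h2 : DFun (n + 1) (fun w => Φ.enc _ (if w 0 = 0 then P fun i => w i.succ
      else Q fun i => w i.succ)) := by
    have h3 : (fun w : Fin (n + 1) → ℕ => Φ.enc _ (if w 0 = 0 then P fun i => w i.succ
        else Q fun i => w i.succ)) = fun w => if w 0 = 0 then Φ.enc _ (P fun i => w i.succ)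
        else Φ.enc _ (Q fun i => w i.succ) := by
      funext w
      split_ifs <;> rfl
    rw [h3]
    exact h1
  have h := Φ.sum1 (n := n) (σ := σ) (P := fun u i => if i = 0 then P u else Q u)
    (L := fun _ => 2) (M := fun _ => 2) hσ h2 (DFun.const 2) (DFun.const 2)
    (fun u => by
      have h4 : Nat.log 2 2 = 1 := by decide
      change 2 ≤ Nat.log 2 2 + 1
      rw [h4])
  simpa [Finset.sum_range_succ] using h

theorem Fam.deq {P Q : ∀ u : Fin n → ℕ, Φ.G (fun i => σ i u)}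
    (hP : DFun n (fun u => Φ.enc _ (P u))) (hQ : DFun n (fun u => Φ.enc _ (Q u))) :
    Delta0 n (fun u => P u = Q u) :=
  (Delta0.eqFun hP hQ).of_iff fun _ => ⟨fun h => by rw [h], fun h => Φ.inj _ h⟩

theorem Fam.dmem (hσ : ∀ i, DFun n (σ i)) {z : (Fin n → ℕ) → ℕ} (hz : DFun n z) :
    Delta0 n (fun u => ∃ x, Φ.enc (fun i => σ i u) x = z u) :=
  aux_mem Φ hσ hz

theorem Fam.ddec (hσ : ∀ i, DFun n (σ i)) {z : (Fin n → ℕ) → ℕ} (hz : DFun n z) :
    DFun n (fun u => Φ.enc _ (Φ.dec (fun i => σ i u) (z u))) := by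
  classical
  have h1 := DFun.ite (Φ.dmem hσ hz) hz (Φ.dzero hσ)
  have h2 : (fun u => Φ.enc _ (Φ.dec (fun i => σ i u) (z u))) = fun u =>
      if ∃ x, Φ.enc (fun i => σ i u) x = z u then z u
      else Φ.enc (fun i => σ i u) (0 : Φ.G (fun i => σ i u)) := by
    funext u
    by_cases h : ∃ x, Φ.enc (fun i => σ i u) x = z u
    · rw [if_pos h, Φ.enc_dec h]
    · rw [if_neg h, Fam.dec, dif_neg h]
  rw [h2]
  exact h1

end Pool.Agent.ECD
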