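import Pool.Agent.ECD.GLDefs

/-!
# Package ECD-GLMem: the codes of the elements of `GL_n(ℤ/m)` are definable

*`gl_mem`.* The number `w 0` is the code `∑_i glpt A i * m ^ i`, `m = w 1 + 1`, of an invertible
matrix `A` over `ℤ/m` if and only if there are vectors `x, y ≤ m` with `n * n + 1` resp. `n * n`
entries such that all `x i < m`, the last entry of `x` is `1 % m`, `∑_i x i * m ^ i = w 0`, and for all
`i, k < n`: `∑_j x (ix i j) * y (ix j k) ≡ δ_ik` and `∑_j y (ix i j) * x (ix j k) ≡ δ_ik` modulo `m`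
(`y` may be taken with `n * n + 1` entries). Proof of the equivalence: `→`: the residues of the entries
of `A` and of `A⁻¹`; `←`: the matrices with the entries `x` and `y` modulo `m` are inverse to each
other, `⟨X, Y, _, _⟩ : GL`, `ZMod.val_cast_of_lt`, `ZMod.natCast_eq_natCast_iff'`. The right side is
`Delta0`: `Delta0.bexVec` (`PTr/Chain.lean`) twice, finite conjunctions (`Delta0.allFin` or similar:
look in `Grz`, `PTr`, `MTr`, `LPC` for finite conjunctions over `Fin n`; otherwise by induction over a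
finite set), `DFun.finSum`, `DFun.powConst`, `DFun.modPos`, `Delta0.eqFun`.

Difficulty: 0.9 h.
-/

set_option autoImplicit false

namespace Pool.Agent.ECD

open Finset Pool.Agent.Grz Pool.Agent.GAvg Pool.Agent.PTr Pool.Agent.MTr Pool.Agent.LPC

/-- the matrices with the entries `x` and `y` are inverse to each other modulo `q + 1` -/
private def GlInv (n : ℕ) (x y : Fin (n * n + 1) → ℕ) (q : ℕ) : Prop :=
  (∀ i k : Fin n, (∑ j, x (ix i j) * y (ix j k)) % (q + 1) = (if i = k then 1 else 0) % (q + 1)) ∧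
    ∀ i k : Fin n, (∑ j, y (ix i j) * x (ix j k)) % (q + 1) = (if i = k then 1 else 0) % (q + 1)

private theorem glInv_delta (n m : ℕ) {x y : Fin (n * n + 1) → (Fin m → ℕ) → ℕ}
    {q : (Fin m → ℕ) → ℕ} (hx : ∀ k, DFun m (x k)) (hy : ∀ k, DFun m (y k)) (hq : DFun m q) :
    Delta0 m (fun w => GlInv n (fun k => x k w) (fun k => y k w) (q w)) := by
  have h1 : ∀ x y : Fin (n * n + 1) → (Fin m → ℕ) → ℕ, (∀ k, DFun m (x k)) →
      (∀ k, DFun m (y k)) → Delta0 m (fun w => ∀ i k : Fin n,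
        (∑ j, x (ix i j) w * y (ix j k) w) % (q w + 1) = (if i = k then 1 else 0) % (q w + 1)) := by
    intro x y hx hy
    refine Delta0.allOf fun i => Delta0.allOf fun k => Delta0.eqFun ?_ ?_
    · exact DFun.mod (DFun.finSum univ fun j => (hx _).mul (hy _)) hq
    · exact DFun.mod (DFun.const _) hq
  exact (h1 x y hx hy).and (h1 y x hy hx)

private theorem glpt_ix {n m : ℕ} (A : GL (Fin n) (ZMod m)) (i j : Fin n) :
    glpt A (ix i j) = ((A : Matrix (Fin n) (Fin n) (ZMod m)) i j).val := by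
  rw [glpt, ix, Fin.snoc_castSucc, Equiv.symm_apply_apply]

private theorem glpt_last {n m : ℕ} (A : GL (Fin n) (ZMod m)) :
    glpt A (Fin.last _) = (1 : ZMod m).val := by
  rw [glpt, Fin.snoc_last]

private theorem glInv_iff (n q : ℕ) (x y : Fin (n * n + 1) → ℕ) : GlInv n x y q ↔
    (Matrix.of fun i j => (x (ix i j) : ZMod (q + 1))) *
      (Matrix.of fun i j => (y (ix i j) : ZMod (q + 1))) = 1 ∧
    (Matrix.of fun i j => (y (ix i j) : ZMod (q + 1))) *
      (Matrix.of fun i j => (x (ix i j) : ZMod (q + 1))) = 1 := by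
  have h1 : ∀ x y : Fin (n * n + 1) → ℕ,
      ((Matrix.of fun i j => (x (ix i j) : ZMod (q + 1))) *
        (Matrix.of fun i j => (y (ix i j) : ZMod (q + 1))) = 1 ↔
      ∀ i k : Fin n, (∑ j, x (ix i j) * y (ix j k)) % (q + 1) =
        (if i = k then 1 else 0) % (q + 1)) := by
    intro x y
    rw [← Matrix.ext_iff]
    refine forall_congr' fun i => forall_congr' fun k => ?_
    rw [← ZMod.natCast_eq_natCast_iff', Matrix.mul_apply, Matrix.one_apply]
    push_cast
    rfl
  rw [h1 x y, h1 y x]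
  rfl

private theorem gl_code (n q c : ℕ) :
    (∃ A : GL (Fin n) (ZMod (q + 1)), ∑ i, glpt A i * (q + 1) ^ (i : ℕ) = c) ↔
    ∃ x : Fin (n * n + 1) → ℕ, (∀ k, x k ≤ q) ∧ (x (Fin.last _) = 1 % (q + 1) ∧
      (∑ i, x i * (q + 1) ^ (i : ℕ) = c) ∧
      ∃ y : Fin (n * n + 1) → ℕ, (∀ k, y k ≤ q) ∧ GlInv n x y q) := by
  have hle : ∀ (A : GL (Fin n) (ZMod (q + 1))) (k : Fin (n * n + 1)), glpt A k ≤ q := by
    intro A k
    induction k using Fin.lastCases with
    | last =>
      rw [glpt_last]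
      exact Nat.lt_succ_iff.1 (ZMod.val_lt _)
    | cast k =>
      rw [glpt, Fin.snoc_castSucc]
      exact Nat.lt_succ_iff.1 (ZMod.val_lt _)
  constructor
  · rintro ⟨A, hA⟩
    refine ⟨glpt A, hle A, ?_, hA, glpt A⁻¹, hle A⁻¹, ?_⟩
    · rw [glpt_last]
      exact ZMod.val_one_eq_one_mod (q + 1)
    · rw [glInv_iff]
      have h1 : ∀ A : GL (Fin n) (ZMod (q + 1)),
          (Matrix.of fun i j => (glpt A (ix i j) : ZMod (q + 1))) = (A : Matrix _ _ _) := by
        intro A
        ext i j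
        rw [Matrix.of_apply, glpt_ix, ZMod.natCast_zmod_val]
      rw [h1, h1]
      exact ⟨Units.mul_inv A, Units.inv_mul A⟩
  · rintro ⟨x, hx, hl, hc, y, hy, hI⟩
    rw [glInv_iff] at hI
    refine ⟨⟨_, _, hI.1, hI.2⟩, ?_⟩
    rw [← hc]
    refine Finset.sum_congr rfl fun k _ => ?_
    congr 1
    induction k using Fin.lastCases with
    | last => rw [glpt_last, ZMod.val_one_eq_one_mod, hl]
    | cast k =>
      obtain ⟨⟨i, j⟩, rfl⟩ := finProdFinEquiv.surjective k
      change glpt _ (ix i j) = x (ix i j)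
      rw [glpt_ix]
      exact ZMod.val_cast_of_lt (Nat.lt_succ_iff.2 (hx _))

theorem gl_mem (n : ℕ) : Delta0 2 (fun w => ∃ A : GL (Fin n) (ZMod (w 1 + 1)),
    ∑ i, glpt A i * (w 1 + 1) ^ (i : ℕ) = w 0) := by
  have h : Delta0 2 (fun w => ∃ x : Fin (n * n + 1) → ℕ, (∀ k, x k ≤ w 1) ∧
      (x (Fin.last _) = 1 % (w 1 + 1) ∧ (∑ i, x i * (w 1 + 1) ^ (i : ℕ) = w 0) ∧
      ∃ y : Fin (n * n + 1) → ℕ, (∀ k, y k ≤ w 1) ∧ GlInv n x y (w 1))) := by
    refine Delta0.bexVec (DFun.proj 1) (P := fun x w => x (Fin.last _) = 1 % (w 1 + 1) ∧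
      (∑ i, x i * (w 1 + 1) ^ (i : ℕ) = w 0) ∧
      ∃ y : Fin (n * n + 1) → ℕ, (∀ k, y k ≤ w 1) ∧ GlInv n x y (w 1)) ?_
    intro m x v hx hv
    refine Delta0.and ?_ (Delta0.and ?_ ?_)
    · exact Delta0.eqFun (hx _) (DFun.mod (DFun.const 1) (hv 1))
    · exact Delta0.eqFun (DFun.finSum univ fun i =>
        (hx i).mul (DFun.powConst ((hv 1).add (DFun.const 1)) _)) (hv 0)
    · refine Delta0.bexVec (hv 1) (P := fun y w => GlInv n (fun k => x k w) y (v 1 w)) ?_
      intro m' y u hy hu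
      exact glInv_delta n m' (fun k => (hx k).comp hu) hy ((hv 1).comp hu)
  exact h.of_iff fun w => gl_code n (w 1) (w 0)

end Pool.Agent.ECD
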