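import Pool.Agent.ECD.GLLaw
import Pool.Agent.ECD.GLMem

/-!
# The groups `GL_n(ℤ/m)` as a family of algebraic groups
-/

set_option autoImplicit false

namespace Pool.Agent.ECD

open Finset Pool.Agent.Grz Pool.Agent.GAvg Pool.Agent.PTr Pool.Agent.MTr Pool.Agent.LPC

/-- the groups `GL_n(ℤ/(v + 1))` -/
noncomputable def glAlg (n : ℕ) : AlgFam 1 (n * n + 1) 0 0 where
  G v := GL (Fin n) (ZMod (v 0 + 1))
  grp v := inferInstance
  m v := v 0 + 1
  hm := (DFun.proj 0).add (DFun.const 1)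
  mpos v := Nat.succ_pos _
  c := Fin.elim0
  hc k := k.elim0
  pt v A := glpt A
  pt_lt v A i := gl_lt (Nat.succ_pos _) A i
  mem := gl_mem n
  sep v A B u h := gl_sep (Nat.succ_pos _) A B u h
  T := Fin.elim0
  F _ := glLaw n
  law v A B x y u w hx hy := gl_law (Nat.succ_pos _) A B x y _ u w hx hy

end Pool.Agent.ECD
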