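import Pool.Agent.ECD.GLAlg
import Pool.Agent.ECD.AlgToG

/-!
# Codes of invertible matrices modulo `m`, and powers with definable exponents
-/

set_option autoImplicit false

namespace Pool.Agent.ECD

open Finset Pool.Agent.Grz Pool.Agent.GAvg Pool.Agent.PTr Pool.Agent.MTr Pool.Agent.LPC

/-- the code is definable if the entries are -/
theorem gl_enc {n k : ℕ} {M : (Fin k → ℕ) → ℕ} (hM : DFun k M)
    {A : ∀ u : Fin k → ℕ, GL (Fin n) (ZMod (M u + 1))}
    (hA : ∀ i j, DFun k (fun u =>
      ((A u : Matrix (Fin n) (Fin n) (ZMod (M u + 1))) i j).val)) :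
    DFun k (fun u => (glAlg n).toG.enc (fun _ : Fin 1 => M u) (A u)) := by
  have h1 : DFun k (fun u => ∑ i, glpt (A u) i * (M u + 1) ^ (i : ℕ)) := by
    refine DFun.finSum univ fun i => ?_
    refine DFun.mul ?_ (DFun.powConst (hM.add (DFun.const 1)) _)
    induction i using Fin.lastCases with
    | last =>
      simp only [glpt_last, ZMod.val_one_eq_one_mod]
      exact DFun.mod (DFun.const 1) hM
    | cast i =>
      obtain ⟨⟨a, b⟩, rfl⟩ := finProdFinEquiv.surjective i
      have h2 : (fun u => glpt (A u) (finProdFinEquiv (a, b)).castSucc) = fun u =>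
          ((A u : Matrix (Fin n) (Fin n) (ZMod (M u + 1))) a b).val := by
        funext u
        exact glpt_ix (A u) a b
      rw [h2]
      exact hA a b
  exact h1

/-- the entries are definable if the code is -/
theorem gl_entry {n k : ℕ} {M : (Fin k → ℕ) → ℕ} (hM : DFun k M)
    {A : ∀ u : Fin k → ℕ, GL (Fin n) (ZMod (M u + 1))}
    (hA : DFun k (fun u => (glAlg n).toG.enc (fun _ : Fin 1 => M u) (A u))) (i j : Fin n) :
    DFun k (fun u => ((A u : Matrix (Fin n) (Fin n) (ZMod (M u + 1))) i j).val) := by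
  have hM1 : DFun k (fun u => M u + 1) := hM.add (DFun.const 1)
  have h3 := DFun.modPos (DFun.divPos hA (DFun.powConst hM1 (ix i j : ℕ))
    (fun u => pow_pos (Nat.succ_pos _) _)) hM1 (fun u => Nat.succ_pos _)
  have e : (fun u => ((A u : Matrix (Fin n) (Fin n) (ZMod (M u + 1))) i j).val) = fun u =>
      (glAlg n).toG.enc (fun _ : Fin 1 => M u) (A u) /
        (M u + 1) ^ (ix i j : ℕ) % (M u + 1) := by
    funext u
    have h4 := (glAlg n).enc_dig (fun _ : Fin 1 => M u) (A u) (ix i j)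
    have h5 : (glAlg n).pt (fun _ : Fin 1 => M u) (A u) (ix i j) =
        ((A u : Matrix (Fin n) (Fin n) (ZMod (M u + 1))) i j).val :=
      glpt_ix (A u) i j
    rw [← h5, ← h4]
    rfl
  rw [e]
  exact h3

theorem gl_npow {n k : ℕ} {M t : (Fin k → ℕ) → ℕ} (hM : DFun k M)
    (ht : DFun k t) {A : ∀ u : Fin k → ℕ, GL (Fin n) (ZMod (M u + 1))}
    (hA : ∀ i j, DFun k (fun u =>
      ((A u : Matrix (Fin n) (Fin n) (ZMod (M u + 1))) i j).val)) (i j : Fin n) :
    DFun k (fun u => (((A u ^ t u : GL (Fin n) (ZMod (M u + 1))) :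
      Matrix (Fin n) (Fin n) (ZMod (M u + 1))) i j).val) := by
  have hσ : ∀ i : Fin 1, DFun k ((fun (_ : Fin 1) (u : Fin k → ℕ) => M u) i) := fun _ => hM
  exact gl_entry hM ((glAlg n).toG.dpow (σ := fun (_ : Fin 1) (u : Fin k → ℕ) => M u) hσ
    (g := fun u => A u) (gl_enc hM hA) ht) i j

end Pool.Agent.ECD
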