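import Pool.Agent.ECD.AlgDefs

/-!
# The groups `GL_n(ℤ/m)`: coordinates and law
-/

set_option autoImplicit false

namespace Pool.Agent.ECD

open Finset Pool.Agent.Grz Pool.Agent.GAvg Pool.Agent.PTr Pool.Agent.MTr Pool.Agent.LPC

/-- the index of the entry `(i, j)` of a matrix -/
def ix {n : ℕ} (i j : Fin n) : Fin (n * n + 1) := (finProdFinEquiv (i, j)).castSucc

/-- the coordinates of an invertible matrix: the entries and `1` -/
def glpt {n m : ℕ} (A : GL (Fin n) (ZMod m)) : Fin (n * n + 1) → ℕ :=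
  Fin.snoc (α := fun _ => ℕ) (fun i : Fin (n * n) =>
    ((A : Matrix (Fin n) (Fin n) (ZMod m)) (finProdFinEquiv.symm i).1
      (finProdFinEquiv.symm i).2).val) (1 : ZMod m).val

/-- the product of matrices in these coordinates -/
noncomputable def glLaw (n : ℕ) : Law (n * n + 1) 0 :=
  Fin.snoc (α := fun _ => MvPolynomial (Fin (n * n + 1) ⊕ Fin (n * n + 1) ⊕ Fin 0) ℤ)
    (fun i : Fin (n * n) => ∑ j : Fin n,
      MvPolynomial.X (Sum.inl (ix (finProdFinEquiv.symm i).1 j)) *
        MvPolynomial.X (Sum.inr (Sum.inl (ix j (finProdFinEquiv.symm i).2))))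
    (MvPolynomial.X (Sum.inl (Fin.last _)) * MvPolynomial.X (Sum.inr (Sum.inl (Fin.last _))))

end Pool.Agent.ECD
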