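import Pool.Agent.ECD.GLDefs

/-!
# Package ECD-GLLaw: the law of `GL_n(ℤ/m)` in coordinates

`glpt A` is the vector of the entries of `A` (residues) and of `1`. `Fin.lastCases` (or
`Fin.snoc_castSucc`, `Fin.snoc_last`) for the two kinds of coordinates; every index `< n * n` is
`finProdFinEquiv (i, j)` (`Equiv.apply_symm_apply`).

*`glpt_ix`, `glpt_last`.* Unfold.
*`gl_lt`.* `ZMod.val_lt` (`NeZero m` from `0 < m`).
*`gl_sep`.* The last coordinate gives `u = 1`, so all the entries agree (`ZMod.natCast_zmod_val`,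
`Matrix.ext`, `Units.ext`).
*`gl_law`.* With `z = u * w`: the value of the law at `i < n * n` is
`∑_j u a_ij w b_jk = u w (A B)_ik` (`Matrix.mul_apply`, `Finset.mul_sum`, `map_sum`, `aeval_X`), and
`u w` at the last coordinate.

Difficulty: 0.5 h.
-/

set_option autoImplicit false

namespace Pool.Agent.ECD

open Finset Pool.Agent.Grz Pool.Agent.GAvg Pool.Agent.PTr Pool.Agent.MTr Pool.Agent.LPC

theorem glpt_ix {n m : ℕ} (A : GL (Fin n) (ZMod m)) (i j : Fin n) :
    glpt A (ix i j) = ((A : Matrix (Fin n) (Fin n) (ZMod m)) i j).val := by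
  unfold glpt ix
  rw [Fin.snoc_castSucc, Equiv.symm_apply_apply]

theorem glpt_last {n m : ℕ} (A : GL (Fin n) (ZMod m)) :
    glpt A (Fin.last _) = (1 : ZMod m).val := by
  unfold glpt
  rw [Fin.snoc_last]

theorem gl_lt {n m : ℕ} (hm : 0 < m) (A : GL (Fin n) (ZMod m)) (i : Fin (n * n + 1)) :
    glpt A i < m := by
  have : NeZero m := ⟨hm.ne'⟩
  refine Fin.lastCases ?_ (fun i => ?_) i
  · rw [glpt_last]
    exact ZMod.val_lt _
  · unfold glpt
    rw [Fin.snoc_castSucc]
    exact ZMod.val_lt _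

theorem gl_sep {n m : ℕ} (hm : 0 < m) (A B : GL (Fin n) (ZMod m)) (u : (ZMod m)ˣ)
    (h : ∀ i, (glpt B i : ZMod m) = u * (glpt A i : ZMod m)) : A = B := by
  have : NeZero m := ⟨hm.ne'⟩
  have h1 := h (Fin.last _)
  rw [glpt_last, glpt_last, ZMod.natCast_zmod_val, mul_one] at h1
  refine Units.ext (Matrix.ext fun i j => ?_)
  have h2 := h (ix i j)
  rw [glpt_ix, glpt_ix, ← h1, one_mul, ZMod.natCast_zmod_val, ZMod.natCast_zmod_val] at h2
  exact h2.symm

theorem gl_law {n m : ℕ} (hm : 0 < m) (A B : GL (Fin n) (ZMod m))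
    (x y : Fin (n * n + 1) → ZMod m) (c : Fin 0 → ZMod m) (u w : (ZMod m)ˣ)
    (hx : ∀ i, x i = u * (glpt A i : ZMod m)) (hy : ∀ i, y i = w * (glpt B i : ZMod m)) :
    ∃ z : (ZMod m)ˣ, ∀ i, (glLaw n).ev c x y i = z * (glpt (A * B) i : ZMod m) := by
  have : NeZero m := ⟨hm.ne'⟩
  refine ⟨u * w, fun i => ?_⟩
  refine Fin.lastCases ?_ (fun i => ?_) i
  · have h1 : (glLaw n).ev c x y (Fin.last _) = x (Fin.last _) * y (Fin.last _) := by
      unfold Law.ev glLaw
      rw [Fin.snoc_last, map_mul, MvPolynomial.aeval_X, MvPolynomial.aeval_X]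
      rfl
    rw [h1, hx, hy, glpt_last, glpt_last, glpt_last, ZMod.natCast_zmod_val, Units.val_mul]
    ring
  · obtain ⟨⟨a, b⟩, rfl⟩ := finProdFinEquiv.surjective i
    have h1 : (glLaw n).ev c x y (finProdFinEquiv (a, b)).castSucc =
        ∑ j : Fin n, x (ix a j) * y (ix j b) := by
      unfold Law.ev glLaw
      rw [Fin.snoc_castSucc, Equiv.symm_apply_apply, map_sum]
      refine Finset.sum_congr rfl fun j _ => ?_
      rw [map_mul, MvPolynomial.aeval_X, MvPolynomial.aeval_X]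
      rfl
    have h2 : glpt (A * B) (finProdFinEquiv (a, b)).castSucc =
        (((A : Matrix (Fin n) (Fin n) (ZMod m)) * (B : Matrix (Fin n) (Fin n) (ZMod m)))
          a b).val :=
      glpt_ix (A * B) a b
    rw [h1, h2, ZMod.natCast_zmod_val, Units.val_mul, Matrix.mul_apply, Finset.mul_sum]
    refine Finset.sum_congr rfl fun j _ => ?_
    rw [hx, hy, glpt_ix, glpt_ix, ZMod.natCast_zmod_val, ZMod.natCast_zmod_val]
    ring

end Pool.Agent.ECD
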