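import Pool.Agent.ECD.AlgDefs

/-!
# Tools for families of groups with definable products

Translation of `FamToolsA.lean` and `FamTools.lean` to multiplicative notation.
-/

set_option autoImplicit false

namespace Pool.Agent.ECD

open Finset Pool.Agent.Grz Pool.Agent.GAvg Pool.Agent.PTr Pool.Agent.MTr Pool.Agent.LPC

open scoped Classical in
/-- the element with the given code, `1` if there is none -/
noncomputable def GFam.dec {r : ℕ} (Φ : GFam r) (v : Fin r → ℕ) (z : ℕ) : Φ.G v :=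
  if h : ∃ x, Φ.enc v x = z then h.choose else 1

theorem GFam.dec_enc {r : ℕ} (Φ : GFam r) (v : Fin r → ℕ) (x : Φ.G v) :
    Φ.dec v (Φ.enc v x) = x := by
  have h : ∃ y, Φ.enc v y = Φ.enc v x := ⟨x, rfl⟩
  rw [GFam.dec, dif_pos h]
  exact Φ.inj v h.choose_spec

theorem GFam.enc_dec {r : ℕ} (Φ : GFam r) {v : Fin r → ℕ} {z : ℕ} (h : ∃ x, Φ.enc v x = z) :
    Φ.enc v (Φ.dec v z) = z := by
  rw [GFam.dec, dif_pos h]
  exact h.choose_spec

instance GFam.finite {r : ℕ} (Φ : GFam r) (v : Fin r → ℕ) : Finite (Φ.G v) :=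
  Finite.of_injective (fun x : Φ.G v => (⟨Φ.enc v x, Nat.lt_succ_of_le (Φ.bd v x)⟩ :
    Fin (Φ.N v + 1))) fun x y h => Φ.inj v (by simpa using h)

theorem GFam.card_le {r : ℕ} (Φ : GFam r) (v : Fin r → ℕ) : Nat.card (Φ.G v) ≤ Φ.N v + 1 := by
  have h := Nat.card_le_card_of_injective (fun x : Φ.G v => (⟨Φ.enc v x,
    Nat.lt_succ_of_le (Φ.bd v x)⟩ : Fin (Φ.N v + 1))) fun x y h => Φ.inj v (by simpa using h)
  simpa using h

variable {r : ℕ} (Φ : GFam r) {n : ℕ} {σ : Fin r → (Fin n → ℕ) → ℕ}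

private theorem aux_mem (hσ : ∀ i, DFun n (σ i)) {z : (Fin n → ℕ) → ℕ} (hz : DFun n z) :
    Delta0 n (fun u => ∃ x, Φ.enc (fun i => σ i u) x = z u) := by
  have h := Φ.mem.subst (n := n) (h := Fin.cons z σ) (fun i => by
    refine Fin.cases ?_ (fun j => ?_) i
    · exact hz
    · exact hσ j)
  exact h.of_iff fun u => Iff.rfl

private theorem ex_code (v : Fin r → ℕ) : ∃ z, ∃ x, Φ.enc v x = z := ⟨_, 1, rfl⟩

open scoped Classical in
private noncomputable def lst (v : Fin r → ℕ) : Φ.G v := Φ.dec v (Nat.find (ex_code Φ v))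

private theorem enc_lst (v : Fin r → ℕ) (z : ℕ) : z = Φ.enc v (lst Φ v) ↔
    (∃ x, Φ.enc v x = z) ∧ ∀ y, y ≤ z → ((∃ x, Φ.enc v x = y) → y = z) := by
  classical
  have h1 : Φ.enc v (lst Φ v) = Nat.find (ex_code Φ v) := by
    unfold lst
    convert Φ.enc_dec (Nat.find_spec (ex_code Φ v))
  constructor
  · intro h
    rw [h1] at h
    refine ⟨h ▸ Nat.find_spec (ex_code Φ v), fun y hy hx => ?_⟩
    have h2 := Nat.find_min' (ex_code Φ v) hx
    omega
  · rintro ⟨hz, h⟩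
    rw [h1]
    have h2 := Nat.find_min' (ex_code Φ v) hz
    exact (h _ h2 (Nat.find_spec (ex_code Φ v))).symm

private theorem dfun_lst (hσ : ∀ i, DFun n (σ i)) :
    DFun n (fun u => Φ.enc _ (lst Φ (fun i => σ i u))) := by
  refine DFun.ofGraph (b := fun u => Φ.N (fun i => σ i u)) (Φ.hN.comp hσ)
    (fun u => Φ.bd _ _) ?_
  have h1 := aux_mem Φ (n := n + 1) (σ := fun i w => σ i (fun j => w j.succ))
    (fun i => (hσ i).weak) (DFun.proj (n := n + 1) 0)
  have h2 := aux_mem Φ (n := n + 1 + 1) (σ := fun i w => σ i (fun j => w j.succ.succ))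
    (fun i => (hσ i).weak.weak) (DFun.proj (n := n + 1 + 1) 0)
  have h3 := Delta0.ballFun (n := n + 1) (b := fun w => w 0)
    (P := fun y w => (∃ x, Φ.enc (fun i => σ i (fun j => w j.succ)) x = y) → y = w 0)
    (DFun.proj (n := n + 1) 0)
    (h2.imp (Delta0.eqFun (DFun.proj (n := n + 1 + 1) 0)
      (DFun.proj (n := n + 1 + 1) (Fin.succ 0))))
  exact (h1.and h3).of_iff fun w => enc_lst Φ _ _

theorem GFam.gone (hσ : ∀ i, DFun n (σ i)) :
    DFun n (fun u => Φ.enc (fun i => σ i u) (1 : Φ.G (fun i => σ i u))) := by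
  have h := Φ.prod1 (n := n) (σ := σ) (P := fun u _ => lst Φ (fun i => σ i u))
    (L := fun _ => 0) (M := fun _ => 0) hσ
    (dfun_lst Φ (n := n + 1) (σ := fun i w => σ i (fun j => w j.succ)) fun i => (hσ i).weak)
    (DFun.const 0) (DFun.const 0) (fun u => Nat.zero_le _)
  simpa only [List.range_zero, List.map_nil, List.prod_nil] using h

theorem GFam.gmul (hσ : ∀ i, DFun n (σ i)) {P Q : ∀ u : Fin n → ℕ, Φ.G (fun i => σ i u)}
    (hP : DFun n (fun u => Φ.enc _ (P u))) (hQ : DFun n (fun u => Φ.enc _ (Q u))) :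
    DFun n (fun u => Φ.enc _ (P u * Q u)) := by
  classical
  have h1 : DFun (n + 1) (fun w => if w 0 = 0 then Φ.enc _ (P fun i => w i.succ)
      else Φ.enc _ (Q fun i => w i.succ)) :=
    DFun.ite (Delta0.eqFun (DFun.proj (n := n + 1) 0) (DFun.const 0)) hP.weak hQ.weak
  have h2 : DFun (n + 1) (fun w => Φ.enc _ (if w 0 = 0 then P fun i => w i.succ
      else Q fun i => w i.succ)) := by
    have h3 : (fun w : Fin (n + 1) → ℕ => Φ.enc _ (if w 0 = 0 then P fun i => w i.succ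
        else Q fun i => w i.succ)) = fun w => if w 0 = 0 then Φ.enc _ (P fun i => w i.succ)
        else Φ.enc _ (Q fun i => w i.succ) := by
      funext w
      split_ifs <;> rfl
    rw [h3]
    exact h1
  have h := Φ.prod1 (n := n) (σ := σ) (P := fun u i => if i = 0 then P u else Q u)
    (L := fun _ => 2) (M := fun _ => 2) hσ h2 (DFun.const 2) (DFun.const 2)
    (fun u => by
      have h4 : Nat.log 2 2 = 1 := by decide
      change 2 ≤ Nat.log 2 2 + 1
      rw [h4])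
  simpa [List.range_succ] using h

theorem GFam.geq {P Q : ∀ u : Fin n → ℕ, Φ.G (fun i => σ i u)}
    (hP : DFun n (fun u => Φ.enc _ (P u))) (hQ : DFun n (fun u => Φ.enc _ (Q u))) :
    Delta0 n (fun u => P u = Q u) :=
  (Delta0.eqFun hP hQ).of_iff fun _ => ⟨fun h => by rw [h], fun h => Φ.inj _ h⟩

theorem GFam.gmem (hσ : ∀ i, DFun n (σ i)) {z : (Fin n → ℕ) → ℕ} (hz : DFun n z) :
    Delta0 n (fun u => ∃ x, Φ.enc (fun i => σ i u) x = z u) :=
  aux_mem Φ hσ hz

theorem GFam.gdec (hσ : ∀ i, DFun n (σ i)) {z : (Fin n → ℕ) → ℕ} (hz : DFun n z) :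
    DFun n (fun u => Φ.enc _ (Φ.dec (fun i => σ i u) (z u))) := by
  classical
  have h1 := DFun.ite (Φ.gmem hσ hz) hz (Φ.gone hσ)
  have h2 : (fun u => Φ.enc _ (Φ.dec (fun i => σ i u) (z u))) = fun u =>
      if ∃ x, Φ.enc (fun i => σ i u) x = z u then z u
      else Φ.enc (fun i => σ i u) (1 : Φ.G (fun i => σ i u)) := by
    funext u
    by_cases h : ∃ x, Φ.enc (fun i => σ i u) x = z u
    · rw [if_pos h, Φ.enc_dec h]
    · rw [if_neg h, GFam.dec, dif_neg h]
  rw [h2]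
  exact h1


private theorem code_del_GT (hσ : ∀ i, DFun n (σ i))
    {A : ∀ u : Fin n → ℕ, Φ.G (fun i => σ i u) → Prop}
    (hA : Delta0 (n + 1) (fun w => A (fun i => w i.succ) (Φ.dec _ (w 0)))) :
    Delta0 (n + 1) (fun w => (fun (z : ℕ) (u : Fin n → ℕ) =>
      (∃ x, Φ.enc (fun i => σ i u) x = z) ∧ A u (Φ.dec _ z)) (w 0) (fun i => w i.succ)) := by
  have h1 := GFam.gmem Φ (σ := fun i w => σ i (fun j => w j.succ)) (fun i => (hσ i).weak)
    (DFun.proj (n := n + 1) 0)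
  exact h1.and hA

theorem GFam.gex (hσ : ∀ i, DFun n (σ i)) {A : ∀ u : Fin n → ℕ, Φ.G (fun i => σ i u) → Prop}
    (hA : Delta0 (n + 1) (fun w => A (fun i => w i.succ) (Φ.dec _ (w 0)))) :
    Delta0 n (fun u => ∃ x, A u x) := by
  have hb : DFun n (fun u => Φ.N (fun i => σ i u)) := Φ.hN.comp hσ
  refine (Delta0.bexFun hb (P := fun (z : ℕ) (u : Fin n → ℕ) =>
    (∃ x, Φ.enc (fun i => σ i u) x = z) ∧ A u (Φ.dec _ z)) (code_del_GT Φ hσ hA)).of_iff ?_
  intro u
  constructor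
  · rintro ⟨x, hx⟩
    refine ⟨Φ.enc _ x, Φ.bd _ x, ⟨x, rfl⟩, ?_⟩
    rw [GFam.dec_enc]
    exact hx
  · rintro ⟨z, _, _, hz⟩
    exact ⟨_, hz⟩

theorem GFam.gall (hσ : ∀ i, DFun n (σ i)) {A : ∀ u : Fin n → ℕ, Φ.G (fun i => σ i u) → Prop}
    (hA : Delta0 (n + 1) (fun w => A (fun i => w i.succ) (Φ.dec _ (w 0)))) :
    Delta0 n (fun u => ∀ x, A u x) := by
  refine (GFam.gex Φ hσ (A := fun u x => ¬ A u x) hA.not).not.of_iff ?_
  intro u
  exact not_exists_not.symm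

theorem GFam.gsel (hσ : ∀ i, DFun n (σ i)) {A : ∀ u : Fin n → ℕ, Φ.G (fun i => σ i u) → Prop}
    (hA : Delta0 (n + 1) (fun w => A (fun i => w i.succ) (Φ.dec _ (w 0)))) :
    ∃ S : ∀ u : Fin n → ℕ, Φ.G (fun i => σ i u), DFun n (fun u => Φ.enc _ (S u)) ∧
      ∀ u, (∃ x, A u x) → A u (S u) := by
  classical
  have hb : DFun n (fun u => Φ.N (fun i => σ i u)) := Φ.hN.comp hσ
  have hQ := code_del_GT Φ hσ hA
  set Q : ℕ → (Fin n → ℕ) → Prop := fun z u =>
    (∃ x, Φ.enc (fun i => σ i u) x = z) ∧ A u (Φ.dec _ z) with hQd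
  have hQb : ∀ z u, Q z u → z ≤ Φ.N (fun i => σ i u) := by
    rintro z u ⟨⟨x, rfl⟩, _⟩
    exact Φ.bd _ x
  have hex : ∀ u, (∃ x, A u x) → ∃ z, Q z u := by
    rintro u ⟨x, hx⟩
    refine ⟨Φ.enc _ x, ⟨x, rfl⟩, ?_⟩
    rw [GFam.dec_enc]
    exact hx
  let m : (Fin n → ℕ) → ℕ := fun u => if h : ∃ z, Q z u then Nat.find h else 0
  have hm1 : ∀ u, (∃ z, Q z u) → Q (m u) u := by
    intro u h
    simp only [m, dif_pos h]
    exact Nat.find_spec h
  have hm2 : ∀ u z, Q z u → m u ≤ z := by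
    intro u z h
    have h' : ∃ z, Q z u := ⟨z, h⟩
    simp only [m, dif_pos h']
    exact Nat.find_min' h' h
  have hm3 : ∀ u, ¬ (∃ z, Q z u) → m u = 0 := by
    intro u h
    simp only [m, dif_neg h]
  have hmb : ∀ u, m u ≤ Φ.N (fun i => σ i u) := by
    intro u
    by_cases h : ∃ z, Q z u
    · exact hQb _ _ (hm1 u h)
    · rw [hm3 u h]
      exact Nat.zero_le _
  have hno : Delta0 n (fun u => ∃ z, z ≤ Φ.N (fun i => σ i u) ∧ Q z u) :=
    Delta0.bexFun hb hQ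
  have hno' := hno.rename (n := n + 1) (fun i => i.succ)
  have hQ2 : Delta0 (n + 1 + 1) (fun w => Q (w 0) (fun i => w i.succ.succ)) :=
    hQ.rename (n := n + 1 + 1) (Fin.cons 0 (fun i => i.succ.succ))
  have hall : Delta0 (n + 1) (fun w => ∀ z, z ≤ w 0 → (Q z (fun i => w i.succ) → w 0 ≤ z)) := by
    refine Delta0.ballFun (DFun.proj (n := n + 1) 0)
      (P := fun z w => Q z (fun i => w i.succ) → w 0 ≤ z) ?_
    exact hQ2.imp (Delta0.leFun (DFun.proj (n := n + 1 + 1) (Fin.succ 0))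
      (DFun.proj (n := n + 1 + 1) 0))
  have h0 : Delta0 (n + 1) (fun w => w 0 = 0) :=
    Delta0.eqFun (DFun.proj (n := n + 1) 0) (DFun.const 0)
  have hmD : DFun n m := by
    refine DFun.ofGraph hb hmb ?_
    refine ((hQ.and hall).or (hno'.not.and h0)).of_iff ?_
    intro w
    constructor
    · intro hw
      by_cases h : ∃ z, Q z (fun i => w i.succ)
      · left
        refine ⟨?_, ?_⟩
        · rw [hw]
          exact hm1 _ h
        · intro z _ hz
          rw [hw]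
          exact hm2 _ z hz
      · right
        refine ⟨?_, ?_⟩
        · rintro ⟨z, _, hz⟩
          exact h ⟨z, hz⟩
        · rw [hw]
          exact hm3 _ h
    · rintro (⟨h1, h2⟩ | ⟨h1, h2⟩)
      · have h3 := hm2 _ _ h1
        have h4 := hm1 (fun i => w i.succ) ⟨_, h1⟩
        exact le_antisymm (h2 _ h3 h4) h3
      · rw [h2]
        refine (hm3 _ ?_).symm
        rintro ⟨z, hz⟩
        exact h1 ⟨z, hQb _ _ hz, hz⟩
  refine ⟨fun u => Φ.dec _ (m u), GFam.gdec Φ hσ hmD, ?_⟩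
  intro u hu
  exact (hm1 u (hex u hu)).2

end Pool.Agent.ECD
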