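import Pool.Agent.ECD.IntDefs

/-!
# Ring homomorphisms and trees of piecewise polynomial laws
-/

set_option autoImplicit false

namespace Pool.Agent.ECD

open MvPolynomial

theorem aeval_map {σ A B : Type*} [CommRing A] [CommRing B] (f : A →+* B) (x : σ → A)
    (p : MvPolynomial σ ℤ) : f (aeval x p) = aeval (fun k => f (x k)) p := by
  have h := MvPolynomial.comp_aeval_apply (φ := f.toIntAlgHom) x p
  exact h

theorem ev_map {d e : ℕ} {A B : Type*} [CommRing A] [CommRing B] (f : A →+* B) (F : Law d e)
    (c : Fin e → A) (x y : Fin d → A) (i : Fin d) :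
    f (F.ev c x y i) = F.ev (fun k => f (c k)) (fun k => f (x k)) (fun k => f (y k)) i := by
  rw [Law.ev, aeval_map, Law.ev]
  congr 2
  funext k
  rcases k with k | k | k <;> rfl

theorem ltr_map {d e τ : ℕ} {A B : Type*} [CommRing A] [CommRing B] (f : A →+* B)
    (F : (Fin τ → Prop) → Law d e) (c : Fin e → A) (leaf : ℕ → Fin d → A) (h E j : ℕ) :
    ∀ s i, f (ltr F c leaf h E j s i) =
      ltr F (fun k => f (c k)) (fun s i => f (leaf s i)) h E j s i := by
  induction j with
  | zero => intro s i; rfl
  | succ j ih =>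
    intro s i
    show f ((lawOf F (pc τ h E j s)).ev c (ltr F c leaf h E j (2 * s))
      (ltr F c leaf h E j (2 * s + 1)) i) = (lawOf F (pc τ h E j s)).ev (fun k => f (c k))
      (ltr F (fun k => f (c k)) (fun s i => f (leaf s i)) h E j (2 * s))
      (ltr F (fun k => f (c k)) (fun s i => f (leaf s i)) h E j (2 * s + 1)) i
    rw [ev_map]
    have e1 : (fun k => f (ltr F c leaf h E j (2 * s) k)) =
        ltr F (fun k => f (c k)) (fun s i => f (leaf s i)) h E j (2 * s) := funext (ih _)
    have e2 : (fun k => f (ltr F c leaf h E j (2 * s + 1) k)) =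
        ltr F (fun k => f (c k)) (fun s i => f (leaf s i)) h E j (2 * s + 1) := funext (ih _)
    rw [e1, e2]

end Pool.Agent.ECD
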