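import Pool.Agent.ECD.AlgDefs

/-!
# Trees of piecewise polynomial laws
-/

set_option autoImplicit false

namespace Pool.Agent.ECD

open Finset Pool.Agent.Grz Pool.Agent.GAvg Pool.Agent.PTr Pool.Agent.MTr Pool.Agent.LPC

/-- the number of the piece at the node `s` of level `j + 1` in a tree of height `h`, coded by `E` -/
def pc (τ h E j s : ℕ) : ℕ := E / 2 ^ (τ * (2 ^ (h - 1 - j) + s)) % 2 ^ τ

/-- the law on the piece with the number `b` -/
def lawOf {d e τ : ℕ} (F : (Fin τ → Prop) → Law d e) (b : ℕ) : Law d e :=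
  F fun k => b / 2 ^ (k : ℕ) % 2 = 1

/-- the tree in which the piece at each node is given by the number `E` -/
noncomputable def ltr {d e τ : ℕ} {A : Type*} [CommRing A] (F : (Fin τ → Prop) → Law d e)
    (c : Fin e → A) (leaf : ℕ → Fin d → A) (h E : ℕ) : ℕ → ℕ → Fin d → A :=
  tr leaf fun j s x y => (lawOf F (pc τ h E j s)).ev c x y

/-- The piece at the node `s` of level `j + 1` is the right one modulo `m`. -/
def PcOK {d e τ : ℕ} (F : (Fin τ → Prop) → Law d e)
    (T : Fin τ → MvPolynomial (Fin d ⊕ Fin d ⊕ Fin e) ℤ) (c : Fin e → ℤ) (leaf : ℕ → Fin d → ℤ)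
    (h E m j s : ℕ) : Prop :=
  ∀ k : Fin τ, pc τ h E j s / 2 ^ (k : ℕ) % 2 = 1 ↔
    (m : ℤ) ∣ MvPolynomial.aeval (Sum.elim (ltr F c leaf h E j (2 * s))
      (Sum.elim (ltr F c leaf h E j (2 * s + 1)) c)) (T k)

end Pool.Agent.ECD
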