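import Pool.Agent.ECD.TreeBlk

/-!
# Package ECD-TreeDef: trees with polylogarithmically many leaves

*Statement (`tr_add`).* The tree of height `l + g` is the tree of height `g` over the nodes of
level `l`. Proof: induction on `g`.

*Statement (`tree_def`).* As `tree_blk`, for all heights `h` with `2 ^ h ≤ (lg N + 2) ^ K`.

*Proof.* Write `L = lg (N v)`, `x = Nat.sqrt L + 1`, `g₁ v = lg x + 1`, a `DFun`
(`Nat.sqrt L` is the `y ≤ L` with `y * y ≤ L < (y + 1) * (y + 1)`). (1) For a constant `C`: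
`(lp (N v) K + 2) ^ 2 ^ (g₁ v + 1) ≤ (N v + 2) ^ C`, and the same for every `g ≤ g₁ v`:
`lp (N v) K + 2 ≤ (L + 2) ^ (K + 2)`, `2 ^ (g₁ v + 1) ≤ 4 x ≤ 4 (Nat.sqrt L + 2)`, and
`(L + 2) ^ (Nat.sqrt L + 2) ≤ (N v + 2) ^ 18` for `N v ≥ 1` by `recDef_pow_log`
(`GAvg/RecDef.lean`; for `N v = 0` all is constant: `L = 0`, `2 ^ ((K + 2) * 8) ≤ 2 ^ C`); so
`C = 72 (K + 2)` works. (2) `h v ≤ 5 K (g₁ v)`: `L < x ^ 2`, so `L + 2 ≤ 2 x ^ 2`,
`x < 2 ^ (lg x + 1) = 2 ^ g₁`, `2 ^ h ≤ (L + 2) ^ K ≤ (2 x ^ 2) ^ K ≤ 2 ^ ((2 g₁ + 1) K)`, so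
`h ≤ (2 g₁ + 1) K ≤ 5 K g₁` (`g₁ ≥ 1`). (3) Let `l_i v = min (h v) (i * g₁ v)`; by induction on `i`
the function `tr … (l_i v) s` is `DFun (r + 1)`: `tr_add` with `l = l_i`, `g = l_(i+1) - l_i ≤ g₁`
and `tree_blk` with `b s v = tr … (l_i v) s` (bounded by `lp`: by `hlb` for level `0`, else by
`hHb`). For `i = 5 K` the height is `h v`. ∎

Difficulty: 1.0 h.
-/

set_option autoImplicit false

namespace Pool.Agent.ECD

open Finset Pool.Agent.Grz Pool.Agent.GAvg Pool.Agent.PTr Pool.Agent.MTr Pool.Agent.LPC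

theorem tr_add {α : Type*} (leaf : ℕ → α) (op : ℕ → ℕ → α → α → α) (l g s : ℕ) :
    tr leaf op (l + g) s = tr (fun s => tr leaf op l s) (fun j s x y => op (l + j) s x y) g s := by
  induction g generalizing s with
  | zero => rfl
  | succ g ih =>
    change op (l + g) s (tr leaf op (l + g) (2 * s)) (tr leaf op (l + g) (2 * s + 1)) =
      op (l + g) s (tr (fun s => tr leaf op l s) (fun j s x y => op (l + j) s x y) g (2 * s))
        (tr (fun s => tr leaf op l s) (fun j s x y => op (l + j) s x y) g (2 * s + 1))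
    rw [ih, ih]

private theorem treeDef_sqrt {r : ℕ} {f : (Fin r → ℕ) → ℕ} (hf : DFun r f) :
    DFun r (fun v => Nat.sqrt (f v)) := by
  refine DFun.ofGraph hf (fun v => Nat.sqrt_le_self _) ?_
  have h0 := DFun.proj (n := r + 1) 0
  have h1 := (Delta0.leFun (h0.mul h0) hf.weak).and
    (Delta0.ltFun hf.weak ((h0.add (DFun.const 1)).mul (h0.add (DFun.const 1))))
  refine h1.of_iff fun w => ?_
  exact Nat.eq_sqrt

private theorem treeDef_tr_le {leaf : ℕ → ℕ} {op : ℕ → ℕ → ℕ → ℕ → ℕ} {B : ℕ}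
    (h1 : ∀ s, leaf s ≤ B) (h2 : ∀ j s x y, op j s x y ≤ B) (j s : ℕ) : tr leaf op j s ≤ B := by
  cases j with
  | zero => exact h1 s
  | succ j => exact h2 _ _ _ _

private theorem treeDef_pow (n K g : ℕ) (hg : g ≤ lg (Nat.sqrt (lg n) + 1) + 1) :
    (lp n K + 2) ^ 2 ^ (g + 1) ≤ (n + 2) ^ (72 * (K + 2)) := by
  have h0 : (lg n + 2) ^ (Nat.sqrt (lg n) + 2) ≤ (n + 2) ^ 18 := by
    rcases Nat.eq_zero_or_pos n with h | h
    · subst h
      have h1 : lg 0 = 0 := Nat.log_zero_right 2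
      rw [h1, Nat.sqrt_zero]
      norm_num
    · exact recDef_pow_log n h
  have h1 : lp n K + 2 ≤ (lg n + 2) ^ (K + 2) := by
    have h2 : 1 ≤ (lg n + 2) ^ K := Nat.one_le_pow _ _ (by omega)
    have h3 : 2 ^ 2 ≤ (lg n + 2) ^ 2 := Nat.pow_le_pow_left (by omega) 2
    rw [lp, pow_add]
    have h4 := Nat.mul_le_mul_left ((lg n + 2) ^ K) h3
    omega
  have h4 : 2 ^ (g + 1) ≤ 4 * (Nat.sqrt (lg n) + 2) := by
    have h5 : 2 ^ (g + 1) ≤ 2 ^ (lg (Nat.sqrt (lg n) + 1) + 2) :=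
      Nat.pow_le_pow_right (by norm_num) (by omega)
    have h6 : 2 ^ lg (Nat.sqrt (lg n) + 1) ≤ Nat.sqrt (lg n) + 1 :=
      Nat.pow_log_le_self 2 (by omega)
    have h7 : 2 ^ (lg (Nat.sqrt (lg n) + 1) + 2) = 2 ^ lg (Nat.sqrt (lg n) + 1) * 4 := by
      rw [pow_add]
      norm_num
    rw [h7] at h5
    omega
  calc (lp n K + 2) ^ 2 ^ (g + 1) ≤ ((lg n + 2) ^ (K + 2)) ^ 2 ^ (g + 1) :=
        Nat.pow_le_pow_left h1 _
    _ ≤ ((lg n + 2) ^ (K + 2)) ^ (4 * (Nat.sqrt (lg n) + 2)) :=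
        Nat.pow_le_pow_right (Nat.pow_pos (by omega)) h4
    _ = ((lg n + 2) ^ (Nat.sqrt (lg n) + 2)) ^ (4 * (K + 2)) := by
        rw [← pow_mul, ← pow_mul]
        congr 1
        ring
    _ ≤ ((n + 2) ^ 18) ^ (4 * (K + 2)) := Nat.pow_le_pow_left h0 _
    _ = (n + 2) ^ (72 * (K + 2)) := by
        rw [← pow_mul]
        congr 1
        ring

private theorem treeDef_height (n K h : ℕ) (hh : 2 ^ h ≤ lp n K) :
    h ≤ 5 * K * (lg (Nat.sqrt (lg n) + 1) + 1) := by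
  obtain ⟨x, hx⟩ : ∃ x, x = Nat.sqrt (lg n) + 1 := ⟨_, rfl⟩
  obtain ⟨G, hG⟩ : ∃ G, G = lg x + 1 := ⟨_, rfl⟩
  rw [← hx, ← hG]
  have h1 : lg n < x * x := by
    rw [hx]
    exact Nat.lt_succ_sqrt _
  have h2 : x < 2 ^ G := by
    rw [hG]
    exact Nat.lt_pow_succ_log_self (by norm_num) x
  have h3 : lg n + 2 ≤ 2 ^ (2 * G + 1) := by
    have h5 : x * x < 2 ^ G * 2 ^ G := Nat.mul_lt_mul'' h2 h2
    have h6 : 2 ^ (2 * G + 1) = 2 * (2 ^ G * 2 ^ G) := by
      rw [pow_succ, two_mul, pow_add]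
      ring
    omega
  have h4 : 2 ^ h ≤ 2 ^ ((2 * G + 1) * K) := by
    refine hh.trans ?_
    rw [lp, pow_mul]
    exact Nat.pow_le_pow_left h3 K
  have h5 : h ≤ (2 * G + 1) * K := (Nat.pow_le_pow_iff_right (by norm_num)).1 h4
  calc h ≤ (2 * G + 1) * K := h5
    _ ≤ (5 * G) * K := Nat.mul_le_mul_right _ (by omega)
    _ = 5 * K * G := by ring

theorem tree_def {r K : ℕ} {leaf : ℕ → (Fin r → ℕ) → ℕ}
    {H : ℕ → ℕ → ℕ → ℕ → (Fin r → ℕ) → ℕ} {N h : (Fin r → ℕ) → ℕ}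
    (hleaf : DFun (r + 1) (fun w => leaf (w 0) (fun i => w i.succ)))
    (hH : DFun (r + 4) (fun w => H (w 0) (w 1) (w 2) (w 3) (fun i => w i.succ.succ.succ.succ)))
    (hN : DFun r N) (hh : DFun r h) (hhb : ∀ v, 2 ^ h v ≤ lp (N v) K)
    (hlb : ∀ s v, leaf s v ≤ lp (N v) K) (hHb : ∀ j s x y v, H j s x y v ≤ lp (N v) K) :
    DFun (r + 1) (fun w => tr (fun s => leaf s (fun i => w i.succ))
      (fun j s x y => H j s x y (fun i => w i.succ)) (h (fun i => w i.succ)) (w 0)) := by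
  obtain ⟨g1, hg1⟩ : ∃ g1 : (Fin r → ℕ) → ℕ, g1 = fun v => lg (Nat.sqrt (lg (N v)) + 1) + 1 :=
    ⟨_, rfl⟩
  have hg1D : DFun r g1 := by
    rw [hg1]
    exact (DFun.lg ((treeDef_sqrt (DFun.lg hN)).add (DFun.const 1))).add (DFun.const 1)
  obtain ⟨l, hl⟩ : ∃ l : ℕ → (Fin r → ℕ) → ℕ, l = fun i v => min (h v) (i * g1 v) := ⟨_, rfl⟩
  have hlv : ∀ i v, l i v = min (h v) (i * g1 v) := fun i v => by rw [hl]
  have hlD : ∀ i, DFun r (l i) := fun i => by
    rw [hl]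
    exact DFun.min hh ((DFun.const i).mul hg1D)
  have key : ∀ i, DFun (r + 1) (fun w => tr (fun s => leaf s (fun i => w i.succ))
      (fun j s x y => H j s x y (fun i => w i.succ)) (l i (fun i => w i.succ)) (w 0)) := by
    intro i
    induction i with
    | zero =>
      have h1 : ∀ v, l 0 v = 0 := fun v => by rw [hlv, zero_mul, Nat.min_zero]
      simp only [h1]
      exact hleaf
    | succ i ih =>
      have h1 : ∀ v, l i v + (l (i + 1) v - l i v) = l (i + 1) v := fun v => by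
        have h2 : i * g1 v ≤ (i + 1) * g1 v := Nat.mul_le_mul_right _ (Nat.le_succ i)
        have h3 : l i v ≤ l (i + 1) v := by
          rw [hlv, hlv]
          exact min_le_min_left _ h2
        omega
      have h2 : ∀ v, l (i + 1) v - l i v ≤ g1 v := fun v => by
        have h3 : (i + 1) * g1 v = i * g1 v + g1 v := by ring
        rw [hlv, hlv, h3]
        omega
      have h3 := tree_blk (C := 72 * (K + 2))
        (b := fun s v => tr (fun s => leaf s v) (fun j s x y => H j s x y v) (l i v) s)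
        (g := fun v => l (i + 1) v - l i v) ih hH hN (hlD i) ((hlD (i + 1)).sub (hlD i))
        (fun v => treeDef_pow (N v) K _ ((h2 v).trans (by rw [hg1])))
        (fun s v => treeDef_tr_le (fun s => hlb s v) (fun j s x y => hHb j s x y v) _ _) hHb
      have h4 : (fun w : Fin (r + 1) → ℕ => tr (fun s => leaf s (fun i => w i.succ))
          (fun j s x y => H j s x y (fun i => w i.succ)) (l (i + 1) (fun i => w i.succ)) (w 0)) =
          fun w => tr (fun s => (fun s v => tr (fun s => leaf s v) (fun j s x y => H j s x y v)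
            (l i v) s) s (fun i => w i.succ))
            (fun j s x y => H (l i (fun i => w i.succ) + j) s x y (fun i => w i.succ))
            ((fun v => l (i + 1) v - l i v) (fun i => w i.succ)) (w 0) := by
        funext w
        rw [← h1, tr_add]
      rw [h4]
      exact h3
  have h5 : ∀ v, l (5 * K) v = h v := fun v => by
    rw [hlv]
    refine min_eq_left ?_
    rw [hg1]
    exact treeDef_height (N v) K (h v) (hhb v)
  have h6 := key (5 * K)
  simp only [h5] at h6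
  exact h6

end Pool.Agent.ECD
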