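import Pool.Agent.ECD.IntCast
import Pool.Agent.ECD.TreeDef

/-!
# Package ECD-IntRes: residues of the nodes of a tree modulo small numbers

*`ltr_res`.* Integer parameters `c k v` and leaves `leaf s v i`, definable; `E, N, h` definable,
`2 ^ h v ≤ lp (N v) K`. There are definable `R i q j s v` which are residues modulo `q` of the
coordinates of the node `s` of level `j ≤ h v` of the integral tree `ltr F c leaf (h v) (E v)`, for
`1 ≤ q ≤ lp (N v) K`.

*Proof.* Work in the `r + 2` variables `(q, j, v)`. Let `B = lp (N v) K`, `q₁ = max 1 (min q B)`,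
`j₁ = min j (h v)`. Code a vector `x` with entries `< q₁` by `cd x = ∑_(i < d) x i * q₁ ^ i < q₁ ^ d`
(`DFun.finSum`, `DFun.powConst`; `q₁ ^ i` has a constant exponent), digits `a / q₁ ^ i % q₁`
(`DFun.divPos`, `DFun.modPos`; `GAvg.dig_sum` or `PTr.dig_code` for the decoding). The leaf `s` is
the code of the residues of `leaf s v i` modulo `q₁` (`ZF.emod`, `ZF.comp`), the operation
`H j' s a b (q, j, v)` is the code of the residues modulo `q₁` of `(lawOf F b').ev`, where
`b' = pc τ (h v) (E v) j' s < 2 ^ τ`, in the parameters `c k v` and the digits of `a` and `b`: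
a finite case distinction over the value of `b'` (`∑_(β < 2 ^ τ) if b' = β then .. else 0`,
`DFun.finSum`, `DFun.ite`), `zf_poly` (`LPC/ZFToolsB.lean`) for the coordinates of the law with the
number `β`, `ZF.emod`. `b' = E v / 2 ^ (τ * (2 ^ (h v - 1 - j') + s)) % 2 ^ τ` is a `DFun`:
`2 ^ (h v - 1 - j') ≤ 2 ^ h v ≤ B`, so it is a `DFun` by its graph (`Delta0.eqPow`, `DFun.ofGraph`), then
`DFun.divPow`. All values are `≤ q₁ ^ d ≤ lp (N v) (K * d)`; and `2 ^ j₁ ≤ lp (N v) K`. So by
`tree_def`, with `K * (d + 1)` in the place of `K`, the value `t q j s v` of the tree of codes at the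
node `s` of level `j₁` is `DFun`; `R i q j s v` = digit `i` of it. By induction on the level the tree
of codes is `cd` of the residues of the integral tree: `(F P).ev` commutes with reduction modulo `q₁`
(`ev_map`, `ltr_map` of `IntCast.lean` with `Int.castRingHom (ZMod q₁)`). For `1 ≤ q ≤ B`,
`j ≤ h v`: `q₁ = q`, `j₁ = j`. ∎

Difficulty: 1.4 h.
-/

set_option autoImplicit false

namespace Pool.Agent.ECD

open Finset Pool.Agent.Grz Pool.Agent.GAvg Pool.Agent.PTr Pool.Agent.MTr Pool.Agent.LPC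

private theorem lp_one_IntRes (n K : ℕ) : 1 ≤ lp n K := Nat.one_le_pow _ _ (by omega)

private theorem lp_DFun_IntRes {n : ℕ} {N : (Fin n → ℕ) → ℕ} (hN : DFun n N) (K : ℕ) :
    DFun n (fun v => lp (N v) K) :=
  DFun.powConst ((DFun.lg hN).add (DFun.const 2)) K

private theorem code_DFun_IntRes {n d : ℕ} {D : (Fin n → ℕ) → ℕ} {f : Fin d → (Fin n → ℕ) → ℤ}
    (hD : DFun n D) (hf : ∀ i, ZF n (f i)) :
    DFun n (fun v => PTr.code (D v) (fun i => (f i v % ((D v + 1 : ℕ) : ℤ)).toNat)) := by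
  refine DFun.code hD fun i => ?_
  have h := (hf i).emod (hD.add (DFun.const 1))
  refine (?_ : (fun v => (f i v % ((D v + 1 : ℕ) : ℤ)).toNat) = _) ▸ h
  funext v
  rw [if_neg (Nat.succ_ne_zero _)]

private theorem dig_DFun_IntRes {n : ℕ} {D a : (Fin n → ℕ) → ℕ} (hD : DFun n D) (ha : DFun n a)
    (k : ℕ) : DFun n (fun v => GAvg.dig (D v + 1) (a v) k) := by
  unfold GAvg.dig
  refine DFun.modPos (DFun.divPos ha (DFun.powConst (hD.add (DFun.const 1)) _) ?_)
    (hD.add (DFun.const 1)) (fun _ => Nat.succ_pos _)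
  intro w
  positivity

private theorem pc_lt_IntRes (τ h E j s : ℕ) : pc τ h E j s < 2 ^ τ :=
  Nat.mod_lt _ (by positivity)

private theorem ev_ZF_IntRes {n d e τ : ℕ} (F : (Fin τ → Prop) → Law d e)
    {b : (Fin n → ℕ) → ℕ} (hb : DFun n b) (hbl : ∀ v, b v < 2 ^ τ)
    {c : Fin e → (Fin n → ℕ) → ℤ} {x y : Fin d → (Fin n → ℕ) → ℤ} (hc : ∀ k, ZF n (c k))
    (hx : ∀ k, ZF n (x k)) (hy : ∀ k, ZF n (y k)) (i : Fin d) :
    ZF n (fun v => (lawOf F (b v)).ev (fun k => c k v) (fun k => x k v) (fun k => y k v) i) := by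
  have h1 : ∀ β : ℕ, ZF n (fun v => (lawOf F β).ev (fun k => c k v) (fun k => x k v)
      (fun k => y k v) i) := by
    intro β
    refine (zf_poly (lawOf F β i) (f := Sum.elim x (Sum.elim y c)) ?_).congr fun v => ?_
    · rintro (k | k | k)
      · exact hx k
      · exact hy k
      · exact hc k
    · have e : (Sum.elim (fun k => x k v) (Sum.elim (fun k => y k v) (fun k => c k v)) :
          Fin d ⊕ Fin d ⊕ Fin e → ℤ) = fun i => Sum.elim x (Sum.elim y c) i v := by
        funext k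
        rcases k with k | k | k <;> rfl
      rw [Law.ev, e]
      exact RingHom.congr_fun (MvPolynomial.coe_aeval_eq_eval
        (fun i => Sum.elim x (Sum.elim y c) i v)) (lawOf F β i)
  refine (ZF.sum (Finset.range (2 ^ τ)) (f := fun β v => if b v = β then
    (lawOf F β).ev (fun k => c k v) (fun k => x k v) (fun k => y k v) i else 0)
    (fun β => ZF.ite (Delta0.eqFun hb (DFun.const β)) (h1 β) (ZF.const 0))).congr fun v => ?_
  rw [Finset.sum_eq_single_of_mem (b v) (Finset.mem_range.2 (hbl v))]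
  · rw [if_pos rfl]
  · intro β _ hβ
    rw [if_neg (Ne.symm hβ)]

private theorem tree_cast_IntRes {d e τ : ℕ} (F : (Fin τ → Prop) → Law d e) (c : Fin e → ℤ)
    (leaf : ℕ → Fin d → ℤ) (h E D : ℕ) (j : ℕ) : ∀ (s : ℕ) (i : Fin d),
    ((GAvg.dig (D + 1) (tr
      (fun s => PTr.code D (fun i => (leaf s i % ((D + 1 : ℕ) : ℤ)).toNat))
      (fun j s a b => PTr.code D (fun i => ((lawOf F (pc τ h E j s)).ev c
        (fun k => (GAvg.dig (D + 1) a k : ℤ)) (fun k => (GAvg.dig (D + 1) b k : ℤ)) i %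
          ((D + 1 : ℕ) : ℤ)).toNat)) j s) i : ℕ) : ZMod (D + 1)) =
      ((ltr F c leaf h E j s i : ℤ) : ZMod (D + 1)) := by
  have hres : ∀ a : ℤ, (((a % ((D + 1 : ℕ) : ℤ)).toNat % (D + 1) : ℕ) : ZMod (D + 1)) =
      (a : ZMod (D + 1)) := by
    intro a
    rw [ZMod.natCast_mod]
    have h0 : 0 ≤ a % ((D + 1 : ℕ) : ℤ) := Int.emod_nonneg _ (by positivity)
    have h1 : (((a % ((D + 1 : ℕ) : ℤ)).toNat : ℤ) : ZMod (D + 1)) =
        ((a % ((D + 1 : ℕ) : ℤ) : ℤ) : ZMod (D + 1)) := by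
      rw [Int.toNat_of_nonneg h0]
    rw [Int.cast_natCast] at h1
    rw [h1, ZMod.intCast_mod]
  induction j with
  | zero =>
    intro s i
    change ((GAvg.dig (D + 1) (PTr.code D (fun i => (leaf s i % ((D + 1 : ℕ) : ℤ)).toNat)) i :
      ℕ) : ZMod (D + 1)) = ((leaf s i : ℤ) : ZMod (D + 1))
    rw [PTr.dig_code, hres]
  | succ j ih =>
    intro s i
    change ((GAvg.dig (D + 1) (PTr.code D (fun i => ((lawOf F (pc τ h E j s)).ev c
      (fun k => (GAvg.dig (D + 1) (tr _ _ j (2 * s)) k : ℤ))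
      (fun k => (GAvg.dig (D + 1) (tr _ _ j (2 * s + 1)) k : ℤ)) i %
        ((D + 1 : ℕ) : ℤ)).toNat)) i : ℕ) : ZMod (D + 1)) =
      (((lawOf F (pc τ h E j s)).ev c (ltr F c leaf h E j (2 * s))
        (ltr F c leaf h E j (2 * s + 1)) i : ℤ) : ZMod (D + 1))
    rw [PTr.dig_code, hres]
    have e1 := ev_map (Int.castRingHom (ZMod (D + 1))) (lawOf F (pc τ h E j s)) c
      (ltr F c leaf h E j (2 * s)) (ltr F c leaf h E j (2 * s + 1)) i
    rw [eq_intCast] at e1
    rw [e1]
    have e2 := ev_map (Int.castRingHom (ZMod (D + 1))) (lawOf F (pc τ h E j s)) c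
      (fun k => (GAvg.dig (D + 1) (tr
        (fun s => PTr.code D (fun i => (leaf s i % ((D + 1 : ℕ) : ℤ)).toNat))
        (fun j s a b => PTr.code D (fun i => ((lawOf F (pc τ h E j s)).ev c
          (fun k => (GAvg.dig (D + 1) a k : ℤ)) (fun k => (GAvg.dig (D + 1) b k : ℤ)) i %
            ((D + 1 : ℕ) : ℤ)).toNat)) j (2 * s)) k : ℤ))
      (fun k => (GAvg.dig (D + 1) (tr
        (fun s => PTr.code D (fun i => (leaf s i % ((D + 1 : ℕ) : ℤ)).toNat))
        (fun j s a b => PTr.code D (fun i => ((lawOf F (pc τ h E j s)).ev c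
          (fun k => (GAvg.dig (D + 1) a k : ℤ)) (fun k => (GAvg.dig (D + 1) b k : ℤ)) i %
            ((D + 1 : ℕ) : ℤ)).toNat)) j (2 * s + 1)) k : ℤ)) i
    rw [eq_intCast] at e2
    rw [e2]
    congr 2
    · funext k
      rw [eq_intCast, eq_intCast, Int.cast_natCast]
      exact ih (2 * s) k
    · funext k
      rw [eq_intCast, eq_intCast, Int.cast_natCast]
      exact ih (2 * s + 1) k

theorem ltr_res {d e τ : ℕ} (F : (Fin τ → Prop) → Law d e) {r K : ℕ}
    {c : Fin e → (Fin r → ℕ) → ℤ} {leaf : ℕ → (Fin r → ℕ) → Fin d → ℤ}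
    {E N h : (Fin r → ℕ) → ℕ} (hc : ∀ k, ZF r (c k))
    (hleaf : ∀ i, ZF (r + 1) (fun w => leaf (w 0) (fun k => w k.succ) i))
    (hE : DFun r E) (hN : DFun r N) (hh : DFun r h) (hhb : ∀ v, 2 ^ h v ≤ lp (N v) K) :
    ∃ R : Fin d → ℕ → ℕ → ℕ → (Fin r → ℕ) → ℕ,
      (∀ i, DFun (r + 3) (fun w => R i (w 0) (w 1) (w 2) (fun k => w k.succ.succ.succ))) ∧
      ∀ i q j s v, 1 ≤ q → q ≤ lp (N v) K → j ≤ h v →
        (R i q j s v : ℤ) ≡ ltr F (fun k => c k v) (fun s i => leaf s v i) (h v) (E v) j s i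
          [ZMOD q] := by
  -- the parameters `u = (q, j, v)`
  let V : (Fin (r + 2) → ℕ) → (Fin r → ℕ) := fun u k => u k.succ.succ
  let D : (Fin (r + 2) → ℕ) → ℕ := fun u => min (u 0) (lp (N (V u)) K) - 1
  let g : (Fin (r + 2) → ℕ) → ℕ := fun u => min (u 1) (h (V u))
  have hNV : DFun (r + 2) (fun u => N (V u)) := hN.comp fun k => DFun.proj k.succ.succ
  have hEV : DFun (r + 2) (fun u => E (V u)) := hE.comp fun k => DFun.proj k.succ.succ
  have hhV : DFun (r + 2) (fun u => h (V u)) := hh.comp fun k => DFun.proj k.succ.succ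
  have hcV : ∀ k, ZF (r + 2) (fun u => c k (V u)) := fun k =>
    (hc k).comp fun k => DFun.proj k.succ.succ
  have hD : DFun (r + 2) D :=
    (DFun.min (DFun.proj 0) (lp_DFun_IntRes hNV K)).sub (DFun.const 1)
  have hg : DFun (r + 2) g := DFun.min (DFun.proj 1) hhV
  have hDle : ∀ u, D u + 1 ≤ lp (N (V u)) K := by
    intro u
    have h1 := lp_one_IntRes (N (V u)) K
    change min (u 0) (lp (N (V u)) K) - 1 + 1 ≤ lp (N (V u)) K
    omega
  have hlp : ∀ n, lp n (K * d) ≤ lp n (K * (d + 1)) := fun n =>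
    Nat.pow_le_pow_right (by omega) (Nat.mul_le_mul_left K (Nat.le_succ d))
  have hlp' : ∀ n, lp n K ≤ lp n (K * (d + 1)) := fun n =>
    Nat.pow_le_pow_right (by omega) (Nat.le_mul_of_pos_right K (Nat.succ_pos d))
  have hcode : ∀ (u : Fin (r + 2) → ℕ) (x : Fin d → ℕ),
      PTr.code (D u) x ≤ lp (N (V u)) (K * (d + 1)) := by
    intro u x
    refine (PTr.code_lt (D u) x).le.trans ((Nat.pow_le_pow_left (hDle u) d).trans ?_)
    refine le_trans (le_of_eq ?_) (hlp _)
    rw [lp, lp, ← pow_mul]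
  -- the leaves and the operation
  let lf : ℕ → (Fin (r + 2) → ℕ) → ℕ := fun s u =>
    PTr.code (D u) (fun i => (leaf s (V u) i % ((D u + 1 : ℕ) : ℤ)).toNat)
  let H : ℕ → ℕ → ℕ → ℕ → (Fin (r + 2) → ℕ) → ℕ := fun j s a b u =>
    PTr.code (D u) (fun i => ((lawOf F (pc τ (h (V u)) (E (V u)) j s)).ev (fun k => c k (V u))
      (fun k => (GAvg.dig (D u + 1) a k : ℤ)) (fun k => (GAvg.dig (D u + 1) b k : ℤ)) i %
        ((D u + 1 : ℕ) : ℤ)).toNat)
  have hlf : DFun (r + 2 + 1) (fun w => lf (w 0) (fun i => w i.succ)) := by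
    refine code_DFun_IntRes (D := fun w => D (fun i => w i.succ))
      (f := fun i w => leaf (w 0) (V (fun i => w i.succ)) i) hD.weak fun i => ?_
    exact (hleaf i).comp (h := Fin.cons (fun w => w 0) (fun k w => w k.succ.succ.succ)) (fun k => by
      refine Fin.cases ?_ (fun k => ?_) k
      · exact DFun.proj 0
      · exact DFun.proj k.succ.succ.succ)
  have h4 : ∀ {f : (Fin (r + 2) → ℕ) → ℕ}, DFun (r + 2) f →
      DFun (r + 2 + 4) (fun w => f (fun i => w i.succ.succ.succ.succ)) := fun hf =>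
    hf.comp fun i => DFun.proj i.succ.succ.succ.succ
  have hH : DFun (r + 2 + 4) (fun w => H (w 0) (w 1) (w 2) (w 3)
      (fun i => w i.succ.succ.succ.succ)) := by
    have hpc : DFun (r + 2 + 4) (fun w => pc τ (h (V (fun i => w i.succ.succ.succ.succ)))
        (E (V (fun i => w i.succ.succ.succ.succ))) (w 0) (w 1)) := by
      have h5 : DFun (r + 2 + 4) (fun w => 2 ^ (h (V (fun i => w i.succ.succ.succ.succ)) - 1 -
          w 0)) := by
        refine dfun_pow (le_refl 2) (((h4 hhV).sub (DFun.const 1)).sub (DFun.proj 0))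
          (h4 (lp_DFun_IntRes hNV K)) fun w => ?_
        refine le_trans ?_ (hhb (V (fun i => w i.succ.succ.succ.succ)))
        exact Nat.pow_le_pow_right (by norm_num) (by omega)
      exact DFun.modPos (DFun.divPow (le_refl 2) (h4 hEV)
        ((DFun.const τ).mul (h5.add (DFun.proj 1)))) (DFun.const (2 ^ τ))
        (fun _ => Nat.pos_of_ne_zero (by positivity))
    refine code_DFun_IntRes (D := fun w => D (fun i => w i.succ.succ.succ.succ))
      (f := fun i w => (lawOf F (pc τ (h (V (fun i => w i.succ.succ.succ.succ)))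
        (E (V (fun i => w i.succ.succ.succ.succ))) (w 0) (w 1))).ev
        (fun k => c k (V (fun i => w i.succ.succ.succ.succ)))
        (fun k => (GAvg.dig (D (fun i => w i.succ.succ.succ.succ) + 1) (w 2) k : ℤ))
        (fun k => (GAvg.dig (D (fun i => w i.succ.succ.succ.succ) + 1) (w 3) k : ℤ)) i)
      (h4 hD) fun i => ?_
    refine ev_ZF_IntRes F hpc (fun w => pc_lt_IntRes _ _ _ _ _)
      (c := fun k w => c k (V (fun i => w i.succ.succ.succ.succ)))
      (x := fun k w => (GAvg.dig (D (fun i => w i.succ.succ.succ.succ) + 1) (w 2) k : ℤ))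
      (y := fun k w => (GAvg.dig (D (fun i => w i.succ.succ.succ.succ) + 1) (w 3) k : ℤ))
      (fun k => ?_) (fun k => ?_) (fun k => ?_) i
    · exact (hcV k).comp fun i => DFun.proj i.succ.succ.succ.succ
    · exact ZF.nat (dig_DFun_IntRes (h4 hD) (DFun.proj 2) k)
    · exact ZF.nat (dig_DFun_IntRes (h4 hD) (DFun.proj 3) k)
  have htree := tree_def (K := K * (d + 1)) (leaf := lf) (H := H) (N := fun u => N (V u))
    (h := g) hlf hH hNV hg
    (fun u => ((Nat.pow_le_pow_right (by norm_num) (min_le_right _ _)).trans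
      (hhb (V u))).trans (hlp' _))
    (fun s u => hcode u _) (fun j s x y u => hcode u _)
  -- the residues
  refine ⟨fun i q j s v => GAvg.dig (D (Fin.cons q (Fin.cons j v)) + 1)
    (tr (fun s => lf s (Fin.cons q (Fin.cons j v)))
      (fun j' s x y => H j' s x y (Fin.cons q (Fin.cons j v)))
      (g (Fin.cons q (Fin.cons j v))) s) i, fun i => ?_, ?_⟩
  · let σ : Fin (r + 2) → (Fin (r + 3) → ℕ) → ℕ :=
      Fin.cons (fun w => w 0) (Fin.cons (fun w => w 1) (fun k w => w k.succ.succ.succ))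
    have hσ : ∀ w : Fin (r + 3) → ℕ, (Fin.cons (w 0) (Fin.cons (w 1)
        (fun k : Fin r => w k.succ.succ.succ)) : Fin (r + 2) → ℕ) = fun i => σ i w := by
      intro w
      funext k
      refine Fin.cases rfl (fun k => ?_) k
      refine Fin.cases rfl (fun k => rfl) k
    have hσD : ∀ k, DFun (r + 3) (σ k) := by
      intro k
      refine Fin.cases (DFun.proj 0) (fun k => ?_) k
      refine Fin.cases (DFun.proj 1) (fun k => DFun.proj k.succ.succ.succ) k
    have h1 : DFun (r + 3) (fun w => D (fun i => σ i w)) := hD.comp hσD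
    have h2 := htree.comp (n := r + 3) (h := Fin.cons (fun w => w 2) σ) (fun k => by
      refine Fin.cases (DFun.proj 2) (fun k => hσD k) k)
    have h3 := dig_DFun_IntRes h1 h2 i
    refine (?_ : (fun w => _) = (fun w => _)) ▸ h3
    funext w
    simp only [hσ w]
    rfl
  · intro i q j s v hq1 hqB hj
    have hDq : D (Fin.cons q (Fin.cons j v)) + 1 = q := by
      change min q (lp (N v) K) - 1 + 1 = q
      rw [min_eq_left hqB]
      omega
    have hgj : g (Fin.cons q (Fin.cons j v)) = j := min_eq_left hj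
    have h1 := tree_cast_IntRes F (fun k => c k v) (fun s i => leaf s v i) (h v) (E v)
      (D (Fin.cons q (Fin.cons j v))) j s i
    rw [← Int.cast_natCast, ZMod.intCast_eq_intCast_iff] at h1
    beta_reduce
    rw [hgj]
    have h2 : ((D (Fin.cons q (Fin.cons j v)) + 1 : ℕ) : ℤ) = (q : ℤ) := by rw [hDq]
    rw [← h2]
    exact h1

end Pool.Agent.ECD
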