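import Pool.Agent.ECD.IntSize
import Pool.Agent.ECD.IntRes
import Pool.Agent.ECD.DvdDef

/-!
# Package ECD-IntDvd: divisibility of polynomials in the nodes is definable

*`node_dvd`.* `G` is a polynomial in the coordinates of `a` nodes (the node number `p` is the node
`ss p v` of level `jj p v ≤ h v`) and in `ι` definable integer variables `x k v`. All leaves,
parameters and variables are at most `B v` in absolute value, `m v > 0`. Then
`{v : m v ∣ G(..)}` is `Delta0`.

*Proof.* Let `N' v = N v + B v + m v`, so `2 ^ h v ≤ lp (N' v) K`. By `ltr_size` and `pow_level` all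
nodes of level `≤ h v` are less than `2 ^ ((lg (B v) + 2) * κ ^ j) ≤ 2 ^ lp (N' v) (1 + K * κ)`
(`κ ≥ 1` may be assumed; `lg (B v) + 2 ≤ lg (N' v) + 2`). By `poly_bound` (with the bound
`2 ^ lp (N' v) (1 + K κ) + B v ≤ 2 ^ (lp (N' v) (1 + K κ) + lg (N' v) + 2) - 2` or any simple one)
`|G| < 2 ^ lp (N' v) K₁` for a constant `K₁`. Take `K₂` from `dvd_def K₁`; `ltr_res` with
`max K K₂` (or `K + K₂`) in the place of `K` gives definable residues `R i q j s v` of the nodes for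
`1 ≤ q ≤ lp (N' v) (K + K₂)` (`2 ^ h v ≤ lp (N' v) K ≤ lp (N' v) (K + K₂)`). The residue of `G` modulo
`q₁ = max 1 q` is the residue of `G` in the `R i q (jj p v) (ss p v) v` and `x k v`: `zf_poly`
(`LPC/ZFToolsB.lean`), `ZF.emod`, in the variables `(q, v)`, `DFun.comp`; `Int.ModEq` for `aeval`
(`aeval_map` of `IntCast.lean` with `Int.castRingHom (ZMod q₁)`). `dvd_def` with `N'`, `W v = G(..)`. ∎

Difficulty: 1.2 h.
-/

set_option autoImplicit false

namespace Pool.Agent.ECD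

open Finset Pool.Agent.Grz Pool.Agent.GAvg Pool.Agent.PTr Pool.Agent.MTr Pool.Agent.LPC

private theorem IntDvd_lp_mono {N N' K : ℕ} (h : N ≤ N') : lp N K ≤ lp N' K := by
  unfold lp
  have h1 : lg N ≤ lg N' := Nat.log_mono_right h
  exact Nat.pow_le_pow_left (by omega) K

private theorem IntDvd_lp_exp {N K K' : ℕ} (h : K ≤ K') : lp N K ≤ lp N K' := by
  unfold lp
  exact Nat.pow_le_pow_right (by omega) h

private theorem IntDvd_exp {a κ₀ L : ℕ} (ha : 2 ≤ a) (hL : 2 ≤ L) :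
    (a + 2) * κ₀ < a * L ^ (1 + κ₀) := by
  have h1 : κ₀ < 2 ^ κ₀ := Nat.lt_two_pow_self
  have h2 : 2 ^ κ₀ ≤ L ^ κ₀ := Nat.pow_le_pow_left hL κ₀
  have h3 : κ₀ + 1 ≤ L ^ κ₀ := h1.trans_le h2
  calc (a + 2) * κ₀ ≤ (2 * a) * κ₀ := Nat.mul_le_mul_right _ (by omega)
    _ < (2 * a) * (κ₀ + 1) := Nat.mul_lt_mul_of_pos_left (Nat.lt_succ_self _) (by omega)
    _ ≤ (2 * a) * L ^ κ₀ := Nat.mul_le_mul_left _ h3
    _ ≤ (L * a) * L ^ κ₀ := Nat.mul_le_mul_right _ (Nat.mul_le_mul_right _ hL)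
    _ = a * L ^ (1 + κ₀) := by rw [pow_add, pow_one]; ring

private theorem IntDvd_modEq {σ : Type} (G : MvPolynomial σ ℤ) {q : ℕ} {x y : σ → ℤ}
    (h : ∀ k, x k ≡ y k [ZMOD q]) :
    (MvPolynomial.aeval x G : ℤ) ≡ MvPolynomial.aeval y G [ZMOD q] := by
  rw [← ZMod.intCast_eq_intCast_iff]
  have h1 := aeval_map (Int.castRingHom (ZMod q)) x G
  have h2 := aeval_map (Int.castRingHom (ZMod q)) y G
  rw [eq_intCast] at h1 h2
  rw [h1, h2]
  congr 2
  funext k
  rw [eq_intCast, eq_intCast]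
  exact (ZMod.intCast_eq_intCast_iff _ _ _).2 (h k)

theorem node_dvd {d e τ a ι r K : ℕ} (F : (Fin τ → Prop) → Law d e)
    {c : Fin e → (Fin r → ℕ) → ℤ} {leaf : ℕ → (Fin r → ℕ) → Fin d → ℤ}
    {E N h m B : (Fin r → ℕ) → ℕ} {jj ss : Fin a → (Fin r → ℕ) → ℕ} {x : Fin ι → (Fin r → ℕ) → ℤ}
    (G : MvPolynomial ((Fin a × Fin d) ⊕ Fin ι) ℤ) (hc : ∀ k, ZF r (c k))
    (hleaf : ∀ i, ZF (r + 1) (fun w => leaf (w 0) (fun k => w k.succ) i))
    (hE : DFun r E) (hN : DFun r N) (hh : DFun r h) (hm : DFun r m) (hB : DFun r B)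
    (hj : ∀ p, DFun r (jj p)) (hs : ∀ p, DFun r (ss p)) (hx : ∀ k, ZF r (x k))
    (hm0 : ∀ v, 0 < m v) (hhb : ∀ v, 2 ^ h v ≤ lp (N v) K) (hjh : ∀ p v, jj p v ≤ h v)
    (hcB : ∀ k v, (c k v).natAbs ≤ B v) (hlB : ∀ s v i, (leaf s v i).natAbs ≤ B v)
    (hxB : ∀ k v, (x k v).natAbs ≤ B v) :
    Delta0 r (fun v => (m v : ℤ) ∣ MvPolynomial.aeval (Sum.elim
      (fun p : Fin a × Fin d => ltr F (fun k => c k v) (fun s i => leaf s v i) (h v) (E v)
        (jj p.1 v) (ss p.1 v) p.2) (fun k => x k v)) G) := by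
  obtain ⟨κ, hκ⟩ := ltr_size F
  obtain ⟨κ₀, hκ₀⟩ := poly_bound G
  obtain ⟨K₂, hK₂⟩ := dvd_def (1 + K * κ + (1 + κ₀))
  obtain ⟨N', hN'e⟩ : ∃ N' : (Fin r → ℕ) → ℕ, N' = fun v => N v + B v + m v := ⟨_, rfl⟩
  have hN' : DFun r N' := by
    rw [hN'e]
    exact (hN.add hB).add hm
  have hNN : ∀ v, N v ≤ N' v := fun v => by rw [hN'e]; dsimp only; omega
  have hBN : ∀ v, B v ≤ N' v := fun v => by rw [hN'e]; dsimp only; omega
  have hmN : ∀ v, m v ≤ N' v := fun v => by rw [hN'e]; dsimp only; omega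
  have hhb1 : ∀ v, 2 ^ h v ≤ lp (N' v) K := fun v => (hhb v).trans (IntDvd_lp_mono (hNN v))
  have hhb2 : ∀ v, 2 ^ h v ≤ lp (N' v) (K + K₂) := fun v =>
    (hhb1 v).trans (IntDvd_lp_exp (Nat.le_add_right _ _))
  obtain ⟨R, hRd, hR⟩ := ltr_res F hc hleaf hE hN' hh hhb2
  obtain ⟨X, hX⟩ : ∃ X : ℕ → (Fin r → ℕ) → (Fin a × Fin d) ⊕ Fin ι → ℤ,
      X = fun q v => Sum.elim (fun p => (R p.2 q (jj p.1 v) (ss p.1 v) v : ℤ))
        (fun k => x k v) := ⟨_, rfl⟩
  obtain ⟨Y, hY⟩ : ∃ Y : (Fin r → ℕ) → (Fin a × Fin d) ⊕ Fin ι → ℤ,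
      Y = fun v => Sum.elim (fun p : Fin a × Fin d => ltr F (fun k => c k v)
        (fun s i => leaf s v i) (h v) (E v) (jj p.1 v) (ss p.1 v) p.2) (fun k => x k v) :=
    ⟨_, rfl⟩
  obtain ⟨S, hS⟩ : ∃ S : ℕ → (Fin r → ℕ) → ℕ, S = fun q v =>
      if q = 0 then 0 else ((MvPolynomial.eval (X q v) G : ℤ) % (q : ℤ)).toNat := ⟨_, rfl⟩
  have hXd : ∀ k, ZF (r + 1) (fun w => X (w 0) (fun i => w i.succ) k) := by
    rintro (⟨p, i⟩ | k)
    · have h1 := (hRd i).comp (h := Fin.cons (fun w : Fin (r + 1) → ℕ => w 0)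
        (Fin.cons (fun w => jj p (fun k => w k.succ)) (Fin.cons (fun w => ss p (fun k => w k.succ))
          (fun k w => w k.succ)))) (fun k => by
          refine Fin.cases ?_ (fun k => ?_) k
          · exact DFun.proj 0
          · refine Fin.cases ?_ (fun k => ?_) k
            · exact (hj p).weak
            · refine Fin.cases ?_ (fun k => ?_) k
              · exact (hs p).weak
              · exact DFun.proj k.succ)
      rw [hX]
      exact ZF.nat h1
    · rw [hX]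
      exact (hx k).weak
  have hSd : DFun (r + 1) (fun w => S (w 0) (fun i => w i.succ)) := by
    have h1 := ZF.emod (zf_poly G hXd) (DFun.proj 0)
    rw [hS]
    exact h1
  have key : Delta0 r (fun v => (m v : ℤ) ∣ MvPolynomial.aeval (Y v) G) := by
    refine hK₂ (R := S) hm hN' hm0 hmN hSd (fun v => ?_) (fun v q hq hqb => ?_)
    · -- the bound
      obtain ⟨L, hL⟩ : ∃ L : ℕ, L = lp (N' v) (1 + K * κ) := ⟨_, rfl⟩
      have hlB' : lg (B v) ≤ lg (N' v) := Nat.log_mono_right (hBN v)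
      have hL0 : lg (N' v) + 2 ≤ L := by
        rw [hL]
        unfold lp
        rw [pow_add, pow_one]
        exact Nat.le_mul_of_pos_right _ (Nat.pow_pos (by omega))
      have hBL : B v < 2 ^ L := (lt_two_pow_lg (B v)).trans_le
        (Nat.pow_le_pow_right (by norm_num) (by omega))
      have hY1 : ∀ k, (Y v k).natAbs ≤ 2 ^ L + B v := by
        rintro (⟨p, i⟩ | k)
        · have h1 := hκ (fun k => c k v) (fun s i => leaf s v i) (B v) (h v) (E v)
            (fun k => hcB k v) (fun s i => hlB s v i) (jj p v) (ss p v) i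
          have h2 : κ ^ jj p v ≤ lp (N' v) (K * κ) := by
            refine pow_level ((Nat.pow_le_pow_right (by norm_num) (hjh p v)).trans (hhb1 v))
          have h3 : (lg (B v) + 2) * κ ^ jj p v ≤ L := by
            rw [hL]
            unfold lp at h2 ⊢
            rw [pow_add, pow_one]
            exact Nat.mul_le_mul (by omega) h2
          have h4 : 2 ^ ((lg (B v) + 2) * κ ^ jj p v) ≤ 2 ^ L :=
            Nat.pow_le_pow_right (by norm_num) h3
          rw [hY]
          change (ltr F (fun k => c k v) (fun s i => leaf s v i) (h v) (E v) (jj p v) (ss p v)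
            i).natAbs ≤ _
          omega
        · rw [hY]
          change (x k v).natAbs ≤ _
          have := hxB k v
          omega
      have h5 := hκ₀ (2 ^ L + B v) (Y v) hY1
      have h6 : 2 ^ L + B v + 2 ≤ 2 ^ (L + 2) := by
        have : 0 < 2 ^ L := by positivity
        rw [pow_add]
        omega
      have h7 : (2 ^ L + B v + 2) ^ κ₀ ≤ 2 ^ ((L + 2) * κ₀) := by
        rw [pow_mul]
        exact Nat.pow_le_pow_left h6 κ₀
      have h8 : (L + 2) * κ₀ < lp (N' v) (1 + K * κ + (1 + κ₀)) := by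
        have h9 := IntDvd_exp (a := L) (κ₀ := κ₀) (L := lg (N' v) + 2) (by omega) (by omega)
        have h10 : lp (N' v) (1 + K * κ + (1 + κ₀)) = L * (lg (N' v) + 2) ^ (1 + κ₀) := by
          rw [hL]
          unfold lp
          rw [pow_add]
        rw [h10]
        exact h9
      exact (h5.trans h7).trans_lt (Nat.pow_lt_pow_right (by norm_num) h8)
    · -- the residues
      have hq0 : q ≠ 0 := hq.ne_zero
      have h1 : (S q v : ℤ) = (MvPolynomial.eval (X q v) G : ℤ) % (q : ℤ) := by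
        rw [hS]
        dsimp only
        rw [if_neg hq0]
        exact Int.toNat_of_nonneg (Int.emod_nonneg _ (by exact_mod_cast hq0))
      rw [h1]
      refine (Int.mod_modEq _ _).trans ?_
      have h2 : (MvPolynomial.eval (X q v) G : ℤ) = MvPolynomial.aeval (X q v) G := by
        rw [MvPolynomial.aeval_eq_eval]
      rw [h2]
      refine IntDvd_modEq G ?_
      rintro (⟨p, i⟩ | k)
      · rw [hX, hY]
        exact hR i q (jj p v) (ss p v) v hq.one_le
          (hqb.trans (IntDvd_lp_exp (Nat.le_add_left _ _))) (hjh p v)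
      · rw [hX, hY]
        exact Int.ModEq.refl _
  rw [hY] at key
  exact key

end Pool.Agent.ECD
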