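import Pool.Agent.ECD.IntDefs

/-!
# Package ECD-IntSize: the size of the nodes of a tree

*`poly_bound`.* For a polynomial `G` there is `κ` with `|G(x)| ≤ (B + 2) ^ κ` whenever
`|x k| ≤ B` for all `k`. Proof: `MvPolynomial.induction_on`: constants `c`: `|c| ≤ 2 ^ |c|`; sums:
`(B + 2) ^ κ + (B + 2) ^ κ' ≤ (B + 2) ^ (max κ κ' + 1)`; products with a variable: `κ + 1`.

*`ltr_size`.* There is `κ` such that if the parameters and the leaves are at most `M` in
absolute value, the nodes of level `j` are less than `2 ^ ((lg M + 2) * κ ^ j)`.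

*Proof.* Let `κ₀ ≥ 1` work in `poly_bound` for all coordinates of all laws `F P` (`P : Fin τ → Prop`
ranges over a finite type: take the sum of all the exponents plus `1`), `κ = κ₀ + 1`. Claim:
`|node| + 2 ≤ (M + 2) ^ κ ^ j` at level `j`. Level `0`: clear. Step: with
`B + 2 = (M + 2) ^ κ ^ j ≥ M + 2`: the value is `≤ (B + 2) ^ κ₀` and
`x ^ κ₀ + 2 ≤ x ^ (κ₀ + 1)` for `x ≥ 2`, `κ₀ ≥ 1`. And `M + 2 ≤ 2 ^ (lg M + 2)`
(`PTr.lt_two_pow_lg`). ∎

*`pow_level`.* If `2 ^ j ≤ lp N K` then `κ ^ j ≤ lp N (K * κ)`: `κ ≤ 2 ^ κ`, so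
`κ ^ j ≤ (2 ^ j) ^ κ`.

Difficulty: 0.8 h.
-/

set_option autoImplicit false

namespace Pool.Agent.ECD

open Finset Pool.Agent.Grz Pool.Agent.GAvg Pool.Agent.PTr Pool.Agent.MTr Pool.Agent.LPC

theorem poly_bound {σ : Type} (G : MvPolynomial σ ℤ) : ∃ κ : ℕ, ∀ (B : ℕ) (x : σ → ℤ),
    (∀ k, (x k).natAbs ≤ B) → (MvPolynomial.aeval x G : ℤ).natAbs ≤ (B + 2) ^ κ := by
  induction G using MvPolynomial.induction_on with
  | C a =>
    refine ⟨a.natAbs, fun B x _ => ?_⟩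
    rw [MvPolynomial.aeval_C]
    calc ((algebraMap ℤ ℤ) a).natAbs = a.natAbs := by simp
      _ ≤ 2 ^ a.natAbs := Nat.lt_two_pow_self.le
      _ ≤ (B + 2) ^ a.natAbs := Nat.pow_le_pow_left (by omega) _
  | add p q hp hq =>
    obtain ⟨κ, hκ⟩ := hp
    obtain ⟨κ', hκ'⟩ := hq
    refine ⟨max κ κ' + 1, fun B x hx => ?_⟩
    rw [map_add]
    have h1 : (B + 2) ^ κ ≤ (B + 2) ^ max κ κ' :=
      Nat.pow_le_pow_right (by omega) (le_max_left _ _)
    have h2 : (B + 2) ^ κ' ≤ (B + 2) ^ max κ κ' :=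
      Nat.pow_le_pow_right (by omega) (le_max_right _ _)
    have h3 : (B + 2) ^ (max κ κ' + 1) = (B + 2) ^ max κ κ' * (B + 2) := pow_succ _ _
    have h4 : 0 < (B + 2) ^ max κ κ' := by positivity
    have h5 := hκ B x hx
    have h6 := hκ' B x hx
    have h7 := Int.natAbs_add_le (MvPolynomial.aeval x p : ℤ) (MvPolynomial.aeval x q : ℤ)
    rw [h3]
    nlinarith
  | mul_X p n hp =>
    obtain ⟨κ, hκ⟩ := hp
    refine ⟨κ + 1, fun B x hx => ?_⟩
    rw [map_mul, MvPolynomial.aeval_X, Int.natAbs_mul, pow_succ]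
    exact Nat.mul_le_mul (hκ B x hx) ((hx n).trans (by omega))

theorem ltr_size {d e τ : ℕ} (F : (Fin τ → Prop) → Law d e) : ∃ κ : ℕ,
    ∀ (c : Fin e → ℤ) (leaf : ℕ → Fin d → ℤ) (M h E : ℕ), (∀ k, (c k).natAbs ≤ M) →
      (∀ s i, (leaf s i).natAbs ≤ M) → ∀ j s i,
        (ltr F c leaf h E j s i).natAbs < 2 ^ ((lg M + 2) * κ ^ j) := by
  classical
  choose k hk using fun (q : (Fin τ → Prop) × Fin d) => poly_bound (F q.1 q.2)
  set κ₀ : ℕ := (∑ q : (Fin τ → Prop) × Fin d, k q) + 1 with hκ₀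
  have hle : ∀ q, k q ≤ κ₀ := fun q =>
    (Finset.single_le_sum (f := k) (fun _ _ => Nat.zero_le _) (Finset.mem_univ q)).trans
      (Nat.le_succ _)
  refine ⟨κ₀ + 1, fun c leaf M h E hc hleaf => ?_⟩
  have key : ∀ j s i, (ltr F c leaf h E j s i).natAbs + 2 ≤ (M + 2) ^ (κ₀ + 1) ^ j := by
    intro j
    induction j with
    | zero =>
      intro s i
      rw [pow_zero, pow_one]
      exact Nat.add_le_add_right (hleaf s i) 2
    | succ j ih =>
      intro s i
      set X : ℕ := (M + 2) ^ (κ₀ + 1) ^ j with hX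
      have hX2 : M + 2 ≤ X := by
        rw [hX]
        calc M + 2 = (M + 2) ^ 1 := (pow_one _).symm
          _ ≤ (M + 2) ^ (κ₀ + 1) ^ j := Nat.pow_le_pow_right (by omega)
            (Nat.one_le_pow _ _ (by omega))
      have h1 : ltr F c leaf h E (j + 1) s i = (lawOf F (pc τ h E j s)).ev c
          (ltr F c leaf h E j (2 * s)) (ltr F c leaf h E j (2 * s + 1)) i := rfl
      have h2 : ((lawOf F (pc τ h E j s)).ev c
          (ltr F c leaf h E j (2 * s)) (ltr F c leaf h E j (2 * s + 1)) i).natAbs ≤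
          (X - 2 + 2) ^ κ₀ := by
        refine le_trans (hk (_, i) (X - 2) _ fun v => ?_)
          (Nat.pow_le_pow_right (by omega) (hle _))
        rcases v with v | v | v
        · have := ih (2 * s) v
          show (ltr F c leaf h E j (2 * s) v).natAbs ≤ X - 2
          omega
        · have := ih (2 * s + 1) v
          show (ltr F c leaf h E j (2 * s + 1) v).natAbs ≤ X - 2
          omega
        · have := hc v
          show (c v).natAbs ≤ X - 2
          omega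
      rw [Nat.sub_add_cancel (by omega)] at h2
      rw [h1, pow_succ, pow_mul, ← hX, pow_succ X κ₀]
      have h3 : 2 ≤ X ^ κ₀ := by
        calc 2 ≤ X := by omega
          _ = X ^ 1 := (pow_one _).symm
          _ ≤ X ^ κ₀ := Nat.pow_le_pow_right (by omega) (by omega)
      have h4 : X ^ κ₀ * 2 ≤ X ^ κ₀ * X := Nat.mul_le_mul_left _ (by omega)
      omega
  intro j s i
  have h1 := key j s i
  have h2 : M + 2 ≤ 2 ^ (lg M + 2) := by
    have h3 := lt_two_pow_lg M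
    have h4 : 2 ^ (lg M + 2) = 4 * 2 ^ lg M := by ring
    omega
  calc (ltr F c leaf h E j s i).natAbs < (M + 2) ^ (κ₀ + 1) ^ j := by omega
    _ ≤ (2 ^ (lg M + 2)) ^ (κ₀ + 1) ^ j := Nat.pow_le_pow_left h2 _
    _ = 2 ^ ((lg M + 2) * (κ₀ + 1) ^ j) := (pow_mul _ _ _).symm

theorem pow_level {j N K κ : ℕ} (h : 2 ^ j ≤ lp N K) : κ ^ j ≤ lp N (K * κ) := by
  calc κ ^ j ≤ (2 ^ κ) ^ j := Nat.pow_le_pow_left Nat.lt_two_pow_self.le _
    _ = (2 ^ j) ^ κ := by rw [← pow_mul, ← pow_mul, mul_comm]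
    _ ≤ (lp N K) ^ κ := Nat.pow_le_pow_left h _
    _ = lp N (K * κ) := by
      unfold lp
      rw [← pow_mul]

end Pool.Agent.ECD
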