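import Pool.Agent.ECD.LatDefs

/-!
# Package ECD-LatDbl: doubling of points is a Lattès map of the first coordinate

*Statement (`xc_dbl`).* `xc (P + P) = lattes p a b (xc P)`.

*Proof.* `P = 0`: both sides are `p`. `P = (X, Y)`, `Y ^ 2 = f(X)`, `f(X) = X ^ 3 + a X + b` (the
point
is on the curve: `h.1`, `WeierstrassCurve.Affine.equation_iff`). If `f(X) = 0` then `Y = 0`,
`P + P = 0` (`Affine.Point.add_self_of_Y_eq`, `negY = - Y`), and `p ∣ x ^ 3 + a x + b` for
`x = X.val` (`ZMod.natCast_eq_zero_iff`, `ZMod.natCast_zmod_val`). If `f(X) ≠ 0` then `Y ≠ 0`,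
`Y ≠ - Y` (`2 ≠ 0` in `ZMod p`, `p ≥ 5`), the first coordinate of `P + P` is `s ^ 2 - 2 X`,
`s = (3 X ^ 2 + a) / (2 Y)` (`Affine.Point.add_self_of_Y_ne`, `Affine.slope_of_Y_ne`,
`Affine.addX`),
and `s ^ 2 - 2 X = ((3 X ^ 2 + a) ^ 2 - 8 X f(X)) / (4 f(X))`
`= (X ^ 4 - 2 a X ^ 2 - 8 b X + a ^ 2) / (4 f(X))` (`field_simp`, the equation). ∎

*Statement (`lattes_le`).* `lattes p a b x ≤ p` for `p > 0` (`ZMod.val_lt`).

Difficulty: 0.8 h.
-/

set_option autoImplicit false

namespace Pool.Agent.ECD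

open WeierstrassCurve

/-- the condition that the first coordinate of the point is a root of the cubic -/
private theorem dbl_dvd (x : Par) (X : ZMod x.p) :
    x.p ∣ X.val ^ 3 + x.a * X.val + x.b ↔ X ^ 3 + x.a * X + x.b = 0 := by
  have : NeZero x.p := ⟨x.valid.prime.ne_zero⟩
  rw [← ZMod.natCast_eq_zero_iff]
  push_cast
  rw [ZMod.natCast_zmod_val]

private theorem dbl_two (x : Par) : (2 : ZMod x.p) ≠ 0 := by
  intro h
  have h1 : ((2 : ℕ) : ZMod x.p) = 0 := by exact_mod_cast h
  rw [ZMod.natCast_eq_zero_iff] at h1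
  have h2 := Nat.le_of_dvd (by norm_num) h1
  have h3 := x.valid.five
  omega

theorem xc_dbl (x : Par) (P : Pt x) : xc (P + P) = lattes x.p x.a x.b (xc P) := by
  have hne : NeZero x.p := ⟨x.valid.prime.ne_zero⟩
  have h2 := dbl_two x
  rcases P with _ | ⟨X, Y, h⟩
  · have h1 : (Affine.Point.zero : Pt x) + Affine.Point.zero = Affine.Point.zero :=
      add_zero (0 : Pt x)
    rw [h1]
    change x.p = lattes x.p x.a x.b x.p
    rw [lattes, if_pos (Or.inl le_rfl)]
  · have heq : Y ^ 2 = X ^ 3 + x.a * X + x.b := by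
      have h3 := (Affine.equation_iff (W := x.W.toAffine) X Y).1 h.1
      simpa [EC] using h3
    have hneg : x.W.toAffine.negY X Y = -Y := by
      simp [Affine.negY, EC]
    change xc (Affine.Point.some X Y h + Affine.Point.some X Y h) = lattes x.p x.a x.b X.val
    by_cases hf : X ^ 3 + x.a * X + x.b = 0
    · have hY : Y = 0 := by
        rw [hf] at heq
        exact pow_eq_zero_iff (two_ne_zero) |>.1 heq
      rw [Affine.Point.add_self_of_Y_eq (by rw [hneg, hY, neg_zero])]
      change x.p = lattes x.p x.a x.b X.val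
      rw [lattes, if_pos (Or.inr ((dbl_dvd x X).2 hf))]
    · have hY : Y ≠ 0 := by
        rintro rfl
        apply hf
        rw [← heq]
        ring
      have hYn : Y ≠ x.W.toAffine.negY X Y := by
        rw [hneg]
        intro h3
        have h4 : 2 * Y = 0 := by linear_combination h3
        rcases mul_eq_zero.1 h4 with h5 | h5
        · exact h2 h5
        · exact hY h5
      rw [Affine.Point.add_self_of_Y_ne hYn]
      have hlt := ZMod.val_lt X
      rw [lattes, if_neg (by
        rintro (h3 | h3)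
        · omega
        · exact hf ((dbl_dvd x X).1 h3))]
      change ZMod.val _ = _
      congr 1
      rw [Affine.addX, Affine.slope_of_Y_ne rfl hYn, hneg, ZMod.natCast_zmod_val, ← heq]
      have ha1 : x.W.toAffine.a₁ = 0 := rfl
      have ha2 : x.W.toAffine.a₂ = 0 := rfl
      have ha4 : x.W.toAffine.a₄ = x.a := rfl
      rw [ha1, ha2, ha4]
      have h5 : Y - -Y ≠ 0 := by
        intro h3
        exact hYn (by rw [hneg]; exact sub_eq_zero.1 h3)
      have h4 : (4 * Y ^ 2 : ZMod x.p) ≠ 0 := by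
        have h6 : (4 * Y ^ 2 : ZMod x.p) = (2 * Y) ^ 2 := by ring
        rw [h6]
        exact pow_ne_zero 2 (mul_ne_zero h2 hY)
      rw [← div_eq_mul_inv, eq_div_iff h4]
      have h7 : Y - -Y = 2 * Y := by ring
      rw [h7]
      have h8 : ((3 * X ^ 2 + 2 * 0 * X + (x.a : ZMod x.p) - 0 * Y) / (2 * Y)) ^ 2 * (4 * Y ^ 2) =
          (3 * X ^ 2 + x.a) ^ 2 := by
        rw [div_pow]
        field_simp
        ring
      linear_combination h8 - 8 * X * heq

theorem lattes_le {p a b x : ℕ} (hp : 0 < p) : lattes p a b x ≤ p := by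
  have : NeZero p := ⟨hp.ne'⟩
  rw [lattes]
  split_ifs
  · exact le_rfl
  · exact (ZMod.val_lt _).le

end Pool.Agent.ECD
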