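import Pool.Agent.ECD.Params

/-!
# Lattès maps: definitions
-/

set_option autoImplicit false

namespace Pool.Agent.ECD

/-- The Lattès map `x ↦ (x ^ 4 - 2 a x ^ 2 - 8 b x + a ^ 2) / (4 (x ^ 3 + a x + b))` of the
projective
line over `ℤ/p`; the point at infinity is the number `p`. -/
noncomputable def lattes (p a b x : ℕ) : ℕ :=
  if p ≤ x ∨ p ∣ x ^ 3 + a * x + b then p
  else (((x : ZMod p) ^ 4 - 2 * a * x ^ 2 - 8 * b * x + a ^ 2) *
    (4 * (x ^ 3 + a * x + b : ZMod p))⁻¹).val

/-- multiplication by `D` on the projective line over `ℤ/p` -/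
def sc (p D y : ℕ) : ℕ := if p ≤ y then p else D * y % p

end Pool.Agent.ECD
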