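import Pool.Agent.ECD.LatTw
import Pool.Agent.ECD.LatDbl
import Pool.Agent.ECD.CodeB

/-!
# Package ECD-LatIter: iterates of Lattès maps from points of a twisted curve

*Statement (`lattes_iter`).* `(p, a, b)` valid, `x < p`, `D = x ^ 3 + a x + b`, `p ∤ D`,
`y = ⟨p, a D ^ 2, b D ^ 3, _⟩ : Par`. There is `P : Pt y` with the code
`D x % p + (D ^ 2 % p) p + p ^ 2` and for all `t`: `sc p D ((lattes p a b)^[t] x) = xc (2 ^ t • P)`.
Proof: `(D ^ 2) ^ 2 = D ^ 4 = (D x) ^ 3 + a D ^ 2 (D x) + b D ^ 3`, so `(D x, D ^ 2)` is a point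
(`nonsing_iff`), `enc_some`, `ZMod.val_natCast`. Induction on `t`: `t = 0`: `xc P = D x % p = sc
p D x`.
Step: `2 ^ (t + 1) • P = 2 ^ t • P + 2 ^ t • P`, `xc_dbl`, `lattes_sc`,
`Function.iterate_succ_apply'`. ∎


Difficulty: 0.6 h.
-/

set_option autoImplicit false

namespace Pool.Agent.ECD

open WeierstrassCurve

private theorem aux_LatIter (y : Par) {p a b x D : ℕ} (hp : y.p = p) (ha : y.a = a * D ^ 2)
    (hb : y.b = b * D ^ 3) (hDdef : D = x ^ 3 + a * x + b) (h : Valid p a b) (hx : x < p)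
    (hD : ¬ p ∣ D) :
    ∃ P : Pt y, enc P = D * x % p + D ^ 2 % p * p + p ^ 2 ∧
      ∀ t, sc p D ((lattes p a b)^[t] x) = xc (2 ^ t • P) := by
  subst hp
  have hE : ((D ^ 2 : ℕ) : ZMod y.p) ^ 2 = ((D * x : ℕ) : ZMod y.p) ^ 3 +
      (y.a : ZMod y.p) * ((D * x : ℕ) : ZMod y.p) + (y.b : ZMod y.p) := by
    have e : (D ^ 2) ^ 2 = (D * x) ^ 3 + y.a * (D * x) + y.b := by
      rw [ha, hb]
      have : D * D ^ 3 = (x ^ 3 + a * x + b) * D ^ 3 := by rw [← hDdef]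
      calc (D ^ 2) ^ 2 = D * D ^ 3 := by ring
        _ = (x ^ 3 + a * x + b) * D ^ 3 := this
        _ = _ := by ring
    have e2 := congrArg (fun n : ℕ => (n : ZMod y.p)) e
    push_cast at e2 ⊢
    exact e2
  have hN := (nonsing_iff y _ _).2 hE
  refine ⟨Affine.Point.some ((D * x : ℕ) : ZMod y.p) ((D ^ 2 : ℕ) : ZMod y.p) hN, ?_, ?_⟩
  · rw [enc_some, ZMod.val_natCast, ZMod.val_natCast]
  · have hP2 : xc (Affine.Point.some ((D * x : ℕ) : ZMod y.p) ((D ^ 2 : ℕ) : ZMod y.p) hN : Pt y) =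
        D * x % y.p := by
      show (((D * x : ℕ) : ZMod y.p)).val = _
      rw [ZMod.val_natCast]
    obtain ⟨P, hP⟩ : ∃ P : Pt y,
        P = Affine.Point.some ((D * x : ℕ) : ZMod y.p) ((D ^ 2 : ℕ) : ZMod y.p) hN := ⟨_, rfl⟩
    rw [← hP] at hP2 ⊢
    intro t
    induction t with
    | zero =>
      rw [pow_zero, one_nsmul, hP2]
      show sc y.p D x = _
      rw [sc, if_neg (not_le.2 hx)]
    | succ t ih =>
      have e1 : xc (2 ^ (t + 1) • P) = lattes y.p y.a y.b (xc (2 ^ t • P)) := by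
        rw [pow_succ, mul_nsmul, two_nsmul, xc_dbl]
      have e2 : lattes y.p y.a y.b (xc (2 ^ t • P)) =
          lattes y.p (a * D ^ 2) (b * D ^ 3) (xc (2 ^ t • P)) := by
        obtain ⟨n, hn⟩ : ∃ n, n = xc (2 ^ t • P) := ⟨_, rfl⟩
        rw [← hn, ha, hb]
      rw [e1, e2, Function.iterate_succ_apply', ← lattes_sc h hD, ih]

theorem lattes_iter {p a b x : ℕ} (h : Valid p a b) (hx : x < p)
    (hD : ¬ p ∣ x ^ 3 + a * x + b) (y : Par)
    (hy : y = ⟨p, a * (x ^ 3 + a * x + b) ^ 2, b * (x ^ 3 + a * x + b) ^ 3, valid_twist h hD⟩) :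
    ∃ P : Pt y, enc P = (x ^ 3 + a * x + b) * x % p + (x ^ 3 + a * x + b) ^ 2 % p * p + p ^ 2 ∧
      ∀ t, sc p (x ^ 3 + a * x + b) ((lattes p a b)^[t] x) = xc (2 ^ t • P) := by
  have hp : y.p = p := by rw [hy]
  have ha : y.a = a * (x ^ 3 + a * x + b) ^ 2 := by rw [hy]
  have hb : y.b = b * (x ^ 3 + a * x + b) ^ 3 := by rw [hy]
  exact aux_LatIter y hp ha hb rfl h hx hD

end Pool.Agent.ECD
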