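import Pool.Agent.ECD.LatIter
import Pool.Agent.ECD.FamOrd
import Pool.Agent.ECD.ECFam

/-!
# The iterates of Lattès maps over prime fields are definable
-/

set_option autoImplicit false

namespace Pool.Agent.ECD

open Finset WeierstrassCurve Pool.Agent.Grz Pool.Agent.GAvg Pool.Agent.PTr Pool.Agent.MTr
  Pool.Agent.LPC

theorem lattes_top {p a b x : ℕ} (h : p ≤ x) : lattes p a b x = p := by
  rw [lattes, if_pos (Or.inl h)]

theorem lattes_iter_top (p a b t : ℕ) : (lattes p a b)^[t] p = p := by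
  induction t with
  | zero => rfl
  | succ t ih => rw [Function.iterate_succ_apply', ih, lattes_top le_rfl]

/-- the value of the cubic polynomial -/
def ltD (v : Fin 5 → ℕ) : ℕ := v 3 ^ 3 + v 1 * v 3 + v 2

theorem dfun_ltD : DFun 5 ltD :=
  ((DFun.powConst (DFun.proj 3) 3).add ((DFun.proj 1).mul (DFun.proj 3))).add (DFun.proj 2)

/-- the parameters of the twisted curve -/
def ltS : Fin 3 → (Fin 5 → ℕ) → ℕ :=
  ![fun v => v 0, fun v => v 1 * ltD v ^ 2, fun v => v 2 * ltD v ^ 3]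

theorem dfun_ltS (i : Fin 3) : DFun 5 (ltS i) := by
  fin_cases i
  · exact DFun.proj 0
  · exact (DFun.proj 1).mul (DFun.powConst dfun_ltD 2)
  · exact (DFun.proj 2).mul (DFun.powConst dfun_ltD 3)

/-- the code of the point of the twisted curve -/
def ltC (v : Fin 5 → ℕ) : ℕ := ltD v * v 3 % v 0 + ltD v ^ 2 % v 0 * v 0 + v 0 ^ 2

theorem dfun_ltC : DFun 5 ltC :=
  ((DFun.modAny (dfun_ltD.mul (DFun.proj 3)) (DFun.proj 0)).add
    ((DFun.modAny (DFun.powConst dfun_ltD 2) (DFun.proj 0)).mul (DFun.proj 0))).add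
    (DFun.powConst (DFun.proj 0) 2)

/-- the point of the twisted curve -/
noncomputable def ltP (v : Fin 5 → ℕ) : ecFam.G (fun i => ltS i v) := ecFam.dec _ (ltC v)

/-- the first coordinate of the multiple of the point -/
noncomputable def ltQ (v : Fin 5 → ℕ) : ℕ :=
  xc (x := par (ltS 0 v) (ltS 1 v) (ltS 2 v)) ((2 ^ v 4) • ltP v)

theorem dfun_ltQ : DFun 5 ltQ := by
  have h1 : DFun 5 (fun v => ecFam.enc _ (ltP v)) := ecFam.ddec dfun_ltS dfun_ltC
  have h2 := ecFam.dpow dfun_ltS h1 (DFun.const 2) (DFun.proj 4)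
  exact dfun_xc (P := fun v => (2 ^ v 4) • ltP v) (dfun_ltS 0) (dfun_ltS 1) (dfun_ltS 2) h2

theorem ltQ_eq {v : Fin 5 → ℕ} (h : Valid (v 0) (v 1) (v 2)) (hx : v 3 < v 0)
    (hD : ¬ v 0 ∣ ltD v) :
    sc (v 0) (ltD v) ((lattes (v 0) (v 1) (v 2))^[v 4] (v 3)) = ltQ v := by
  obtain ⟨P, hP, hPt⟩ := lattes_iter h hx hD (par (ltS 0 v) (ltS 1 v) (ltS 2 v))
    (par_of_valid (valid_twist h hD))
  have h1 : ltP v = P := by
    have h2 : ecFam.enc (fun i => ltS i v) P = ltC v := hP
    rw [ltP, ← h2]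
    exact ecFam.dec_enc _ _
  have h3 := hPt (v 4)
  rw [ltQ, h1]
  exact h3

theorem iter_le {p a b x t : ℕ} (hp : 0 < p) (hx : x ≤ p) : (lattes p a b)^[t] x ≤ p := by
  cases t with
  | zero => exact hx
  | succ t =>
    rw [Function.iterate_succ_apply']
    exact lattes_le hp

theorem iter_top {p a b x t : ℕ} (ht : t ≠ 0) (h : p ≤ x ∨ p ∣ x ^ 3 + a * x + b) :
    (lattes p a b)^[t] x = p := by
  obtain ⟨s, rfl⟩ := Nat.exists_eq_succ_of_ne_zero ht
  have h1 : lattes p a b x = p := by rw [lattes, if_pos h]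
  rw [Function.iterate_succ_apply, h1, lattes_iter_top]

open scoped Classical in
/-- the iterates of Lattès maps -/
theorem ec_lattes : DFun 5 (fun v => if Valid (v 0) (v 1) (v 2) then
    (lattes (v 0) (v 1) (v 2))^[v 4] (v 3) else 0) := by
  have hV := delta_valid (n := 6) (DFun.proj 1) (DFun.proj 2) (DFun.proj 3)
  have hD := dfun_ltD.weak
  have hT : Delta0 6 (fun w => w 5 = 0) := Delta0.eqFun (DFun.proj 5) (DFun.const 0)
  have hX : Delta0 6 (fun w => w 1 ≤ w 4 ∨ ltD (fun i => w i.succ) % w 1 = 0) :=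
    (Delta0.leFun (DFun.proj 1) (DFun.proj 4)).or
      (Delta0.eqFun (DFun.modAny hD (DFun.proj 1)) (DFun.const 0))
  have hS : DFun 6 (fun w => sc (w 1) (ltD (fun i => w i.succ)) (w 0)) :=
    DFun.ite (Delta0.leFun (DFun.proj 1) (DFun.proj 0)) (DFun.proj 1)
      (DFun.modAny (hD.mul (DFun.proj 0)) (DFun.proj 1))
  have hQ := dfun_ltQ.weak
  have hG := ((hV.not.and (Delta0.eqFun (DFun.proj 0) (DFun.const 0))).or
    ((hV.and hT).and (Delta0.eqFun (DFun.proj 0) (DFun.proj 4)))).or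
    (((((hV.and hT.not).and hX).and (Delta0.eqFun (DFun.proj 0) (DFun.proj 1)))).or
    (((hV.and hT.not).and hX.not).and ((Delta0.leFun (DFun.proj 0) (DFun.proj 1)).and
      (Delta0.eqFun hS hQ))))
  refine DFun.ofGraph (b := fun v => v 0 + v 3) ((DFun.proj 0).add (DFun.proj 3)) (fun v => ?_)
    (hG.of_iff fun w => ?_)
  · split_ifs with h
    · by_cases ht : v 4 = 0
      · rw [ht]
        exact Nat.le_add_left _ _
      · by_cases hx : v 0 ≤ v 3
        · rw [iter_top ht (Or.inl hx)]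
          exact Nat.le_add_right _ _
        · exact (iter_le h.prime.pos (not_le.1 hx).le).trans (Nat.le_add_right _ _)
    · exact Nat.zero_le _
  · set v : Fin 5 → ℕ := fun i => w i.succ with hv
    have e0 : w 1 = v 0 := rfl
    have e1 : w 2 = v 1 := rfl
    have e2 : w 3 = v 2 := rfl
    have e3 : w 4 = v 3 := rfl
    have e4 : w 5 = v 4 := rfl
    rw [e0, e1, e2, e3, e4]
    by_cases h : Valid (v 0) (v 1) (v 2)
    · rw [if_pos h]
      by_cases ht : v 4 = 0
      · simp [h, ht]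
      · by_cases hx : v 0 ≤ v 3 ∨ ltD v % v 0 = 0
        · rw [iter_top ht (hx.imp_right Nat.dvd_of_mod_eq_zero)]
          simp [h, ht, hx]
        · have hx' := not_or.1 hx
          have hD' : ¬ v 0 ∣ ltD v := fun h' => hx'.2 (Nat.mod_eq_zero_of_dvd h')
          have hx1 := not_le.1 hx'.1
          have hq := ltQ_eq h hx1 hD'
          have hle := iter_le (t := v 4) (a := v 1) (b := v 2) h.prime.pos hx1.le
          constructor
          · intro h0
            refine Or.inr (Or.inr ⟨⟨⟨h, ht⟩, hx⟩, ?_, ?_⟩)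
            · rw [h0]
              exact hle
            · rw [h0]
              exact hq
          · rintro ((⟨h1, _⟩ | ⟨⟨_, h1⟩, _⟩) | (⟨⟨_, h1⟩, _⟩ | ⟨_, h1, h2⟩))
            · exact absurd h h1
            · exact absurd h1 ht
            · exact absurd h1 hx
            · exact sc_inj h.prime hD' h1 hle (h2.trans hq.symm)
    · simp [h]

end Pool.Agent.ECD
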