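import Pool.Agent.ECD.LatDefs

/-!
# Package ECD-LatTw: Lattès maps and twists

*Statement (`valid_twist`).* If `(p, a, b)` is valid and `p ∤ D` then `(p, a D ^ 2, b D ^ 3)` is
valid:
`4 (a D ^ 2) ^ 3 + 27 (b D ^ 3) ^ 2 = (4 a ^ 3 + 27 b ^ 2) D ^ 6`.

*Statement (`lattes_sc`).* `lattes p (a D ^ 2) (b D ^ 3) (sc p D y) = sc p D (lattes p a b y)` for
`p ∤ D`. Proof: for `p ≤ y` both sides are `p`. For `y < p`, `z = D y % p`, in `ZMod p`:
`z ^ 3 + a D ^ 2 z + b D ^ 3 = D ^ 3 f(y)`, zero if and only if `f(y) = 0`; otherwise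
`z ^ 4 - 2 a D ^ 2 z ^ 2 - 8 b D ^ 3 z + a ^ 2 D ^ 4 = D ^ 4 (…)`, so the quotient is `D` times the
quotient for `y`; `ZMod.val` of a product (`ZMod.natCast_zmod_val`, `ZMod.val_natCast`). The
values of
`sc` and of `lattes` are `< p` or `= p`.

*Statement (`sc_inj`).* `sc p D` is injective on the numbers `≤ p`.

Difficulty: 0.8 h.
-/

set_option autoImplicit false

namespace Pool.Agent.ECD



theorem valid_twist {p a b D : ℕ} (h : Valid p a b) (hD : ¬ p ∣ D) :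
    Valid p (a * D ^ 2) (b * D ^ 3) := by
  refine ⟨h.prime, h.five, fun hc => ?_⟩
  have e : 4 * (a * D ^ 2) ^ 3 + 27 * (b * D ^ 3) ^ 2 = (4 * a ^ 3 + 27 * b ^ 2) * D ^ 6 := by
    ring
  rw [e] at hc
  rcases (Nat.Prime.dvd_mul h.prime).1 hc with h1 | h1
  · exact h.disc h1
  · exact hD (h.prime.dvd_of_dvd_pow h1)

theorem lattes_sc {p a b D : ℕ} (h : Valid p a b) (hD : ¬ p ∣ D) (y : ℕ) :
    lattes p (a * D ^ 2) (b * D ^ 3) (sc p D y) = sc p D (lattes p a b y) := by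
  have hF : Fact p.Prime := ⟨h.prime⟩
  have hpp : sc p D p = p := if_pos (le_refl p)
  by_cases hy : p ≤ y
  · have h1 : sc p D y = p := if_pos hy
    have h2 : lattes p a b y = p := if_pos (Or.inl hy)
    rw [h1, h2, hpp]
    exact if_pos (Or.inl (le_refl p))
  have hp0 : 0 < p := h.prime.pos
  have h1 : sc p D y = D * y % p := if_neg hy
  have hz : ((D * y % p : ℕ) : ZMod p) = (D : ZMod p) * y := by
    rw [ZMod.natCast_mod, Nat.cast_mul]
  have hD0 : (D : ZMod p) ≠ 0 := fun h0 => hD ((ZMod.natCast_eq_zero_iff D p).1 h0)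
  have hdvd : p ∣ (D * y % p) ^ 3 + a * D ^ 2 * (D * y % p) + b * D ^ 3 ↔
      p ∣ y ^ 3 + a * y + b := by
    rw [← ZMod.natCast_eq_zero_iff, ← ZMod.natCast_eq_zero_iff]
    have e : (((D * y % p) ^ 3 + a * D ^ 2 * (D * y % p) + b * D ^ 3 : ℕ) : ZMod p) =
        (D : ZMod p) ^ 3 * ((y ^ 3 + a * y + b : ℕ) : ZMod p) := by
      rw [Nat.cast_add, Nat.cast_add, Nat.cast_mul _ (D * y % p), Nat.cast_pow (D * y % p), hz]
      push_cast
      ring
    rw [e, mul_eq_zero]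
    exact ⟨fun h2 => h2.resolve_left (pow_ne_zero 3 hD0), Or.inr⟩
  rw [h1]
  by_cases hf : p ∣ y ^ 3 + a * y + b
  · have h2 : lattes p a b y = p := if_pos (Or.inr hf)
    rw [h2, hpp]
    exact if_pos (Or.inr (hdvd.2 hf))
  have h2 : ¬ (p ≤ y ∨ p ∣ y ^ 3 + a * y + b) := fun h3 => h3.elim hy hf
  have h3 : ¬ (p ≤ D * y % p ∨
      p ∣ (D * y % p) ^ 3 + a * D ^ 2 * (D * y % p) + b * D ^ 3) := fun h4 =>
    h4.elim (not_le.2 (Nat.mod_lt _ hp0)) (fun h5 => hf (hdvd.1 h5))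
  have hr : ∀ q : ZMod p, D * q.val % p = ((D : ZMod p) * q).val := fun q => by
    rw [← ZMod.val_natCast, Nat.cast_mul, ZMod.natCast_zmod_val]
  rw [lattes, if_neg h3, lattes, if_neg h2, sc, if_neg (not_le.2 (ZMod.val_lt _)), hr, hz]
  congr 1
  push_cast
  have e1 : (4 : ZMod p) * (((D : ZMod p) * y) ^ 3 + a * D ^ 2 * (D * y) + b * D ^ 3) =
      (D : ZMod p) ^ 3 * (4 * (y ^ 3 + a * y + b)) := by ring
  have e2 : ((D : ZMod p) * y) ^ 4 - 2 * (a * D ^ 2) * (D * y) ^ 2 - 8 * (b * D ^ 3) * (D * y) +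
      (a * D ^ 2) ^ 2 = (D : ZMod p) ^ 4 * (y ^ 4 - 2 * a * y ^ 2 - 8 * b * y + a ^ 2) := by
    ring
  rw [e1, e2, mul_inv]
  have e3 : (D : ZMod p) ^ 4 * ((D : ZMod p) ^ 3)⁻¹ = D := by
    rw [pow_succ' (D : ZMod p) 3, mul_assoc, mul_inv_cancel₀ (pow_ne_zero 3 hD0), mul_one]
  have e4 : ∀ N G : ZMod p, (D : ZMod p) ^ 4 * N * (((D : ZMod p) ^ 3)⁻¹ * G) =
      D * (N * G) := fun N G => by
    calc (D : ZMod p) ^ 4 * N * (((D : ZMod p) ^ 3)⁻¹ * G) =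
          ((D : ZMod p) ^ 4 * ((D : ZMod p) ^ 3)⁻¹) * (N * G) := by ring
      _ = D * (N * G) := by rw [e3]
  exact e4 _ _

theorem sc_inj {p D y z : ℕ} (hp : p.Prime) (hD : ¬ p ∣ D) (hy : y ≤ p) (hz : z ≤ p)
    (h : sc p D y = sc p D z) : y = z := by
  have hp0 : 0 < p := hp.pos
  unfold sc at h
  by_cases h1 : p ≤ y
  · rw [if_pos h1] at h
    by_cases h2 : p ≤ z
    · omega
    · rw [if_neg h2] at h
      have h3 := Nat.mod_lt (D * z) hp0
      omega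
  · rw [if_neg h1] at h
    by_cases h2 : p ≤ z
    · rw [if_pos h2] at h
      have h3 := Nat.mod_lt (D * y) hp0
      omega
    · rw [if_neg h2] at h
      have h3 : y ≡ z [MOD p] :=
        Nat.ModEq.cancel_left_of_coprime ((Nat.Prime.coprime_iff_not_dvd hp).2 hD) h
      rw [Nat.ModEq, Nat.mod_eq_of_lt (not_le.1 h1), Nat.mod_eq_of_lt (not_le.1 h2)] at h3
      exact h3

end Pool.Agent.ECD
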