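import Pool.Agent.ECD.Curve

/-!
# Parameters of curves, points and their codes
-/

set_option autoImplicit false

namespace Pool.Agent.ECD

open WeierstrassCurve Finset Pool.Agent.Grz

/-- `p` is a prime, `5 ≤ p`, and `y ^ 2 = x ^ 3 + a x + b` is an elliptic curve modulo `p`. -/
structure Valid (p a b : ℕ) : Prop where
  prime : p.Prime
  five : 5 ≤ p
  disc : ¬ p ∣ 4 * a ^ 3 + 27 * b ^ 2

/-- an elliptic curve over a prime field -/
structure Par where
  p : ℕ
  a : ℕ
  b : ℕ
  valid : Valid p a b

instance (x : Par) : Fact x.p.Prime := ⟨x.valid.prime⟩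

/-- the curve -/
abbrev Par.W (x : Par) : WeierstrassCurve (ZMod x.p) := EC (x.a : ZMod x.p) (x.b : ZMod x.p)

/-- the points of the curve -/
abbrev Pt (x : Par) : Type := x.W.toAffine.Point

/-- the coordinates of a point -/
def ecpt {x : Par} : Pt x → Fin 3 → ℕ
  | .zero => ![0, 1, 0]
  | .some X Y _ => ![X.val, Y.val, 1]

/-- the code of a point: `p` or `x + y p + p ^ 2` -/
def enc {x : Par} (P : Pt x) : ℕ := ∑ i, ecpt P i * x.p ^ (i : ℕ)

/-- the first coordinate of a point, `p` for the point at infinity -/
def xc {x : Par} : Pt x → ℕ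
  | .zero => x.p
  | .some X _ _ => X.val

theorem valid_default : Valid 5 1 1 := ⟨by norm_num, le_refl 5, by norm_num⟩

open scoped Classical in
/-- the curve with the given parameters, or a fixed curve if they are not valid -/
noncomputable def par (p a b : ℕ) : Par :=
  if h : Valid p a b then ⟨p, a, b, h⟩ else ⟨5, 1, 1, valid_default⟩

theorem par_of_valid {p a b : ℕ} (h : Valid p a b) : par p a b = ⟨p, a, b, h⟩ := by
  rw [par, dif_pos h]

end Pool.Agent.ECD
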