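import Pool.Agent.ECD.GOrd

/-!
# Subgroups with a short subnormal series with cyclic factors: definitions
-/

set_option autoImplicit false

namespace Pool.Agent.ECD

/-- `H` has a subnormal series of length `i` with cyclic factors. -/
def PCL {G : Type*} [Group G] : ℕ → Subgroup G → Prop
  | 0, H => H = ⊥
  | i + 1, H => ∃ (K : Subgroup G) (g : G), PCL i K ∧ (∀ x, x ∈ K ↔ g * x * g⁻¹ ∈ K) ∧
      H = K ⊔ Subgroup.zpowers g

/-- `x` is a product `g 0 ^ k 0 * ... * g (i - 1) ^ k (i - 1)` with all `k j < m j`. -/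
def PM {G : Type*} [Group G] (g : ℕ → G) (m : ℕ → ℕ) : ℕ → G → Prop
  | 0, x => x = 1
  | i + 1, x => ∃ k, k < m i ∧ PM g m i (x * (g i ^ k)⁻¹)

/-- `m j` is the order of `g j` modulo the subgroup `PM g m j`, which `g j` normalises, for all
`j < i`. -/
def PD {G : Type*} [Group G] (g : ℕ → G) (m : ℕ → ℕ) : ℕ → Prop
  | 0 => True
  | i + 1 => PD g m i ∧ 0 < m i ∧ PM g m i (g i ^ m i) ∧
      (∀ k, 0 < k → k < m i → ¬ PM g m i (g i ^ k)) ∧
      ∀ x, PM g m i x ↔ PM g m i (g i * x * (g i)⁻¹)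

end Pool.Agent.ECD
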