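import Pool.Agent.ECD.PcDefs

/-!
# Package ECD-PcGrpA: the subgroup given by power data

*`pd_subgroup`.* If `PD g m i` then the elements `x` with `PM g m i x` form a subgroup `H`, its
order is `∏_(j < i) m j`, and `PCL i H`; and `H ≤ H'` for every subgroup `H'` that
contains the `g j`, `j < i`.

*Proof.* Induction on `i`. `i = 0`: `H = ⊥`. Step: let `K` be the subgroup for `i`, `a = g i`,
`m = m i`. `a` normalises `K` (`x ∈ K ↔ a x a⁻¹ ∈ K`; so also `a ^ k`, `k ∈ ℤ`), `a ^ m ∈ K`, and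
`a ^ k ∉ K` for `0 < k < m`. `H = K ⊔ zpowers a`. The elements of `H` are the products `y a ^ k`
with `y ∈ K`, `k ∈ ℤ` (`K` is normalised by `a`; closure induction, or `Subgroup.mul_normal`-like
arguments: show that the set `{y a ^ k}` is closed under products and inverses), and division of `k`
by `m` with remainder (`a ^ (m q) ∈ K`) gives `0 ≤ k < m`; so `x ∈ H ↔ ∃ k < m, x (a ^ k)⁻¹ ∈ K`.
The order: the map `K × Fin m → H`, `(y, k) ↦ y a ^ k` is bijective: injective, as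
`y a ^ k = y' a ^ k'`, `k ≤ k'` gives `a ^ (k' - k) ∈ K`, so `k = k'` (`Nat.card_congr`,
`Nat.card_prod`, `Finset.prod_range_succ`). ∎ (No finiteness is needed; `Nat.card K` may be used as
it is: if it is `0` the formula also holds, but all these subgroups are finite.)

Difficulty: 1.0 h.
-/

set_option autoImplicit false

namespace Pool.Agent.ECD

open Finset

private theorem zpow_conj_mem {G : Type*} [Group G] {K : Subgroup G} {a : G}
    (hnorm : ∀ x, x ∈ K ↔ a * x * a⁻¹ ∈ K) (k : ℤ) {x : G} (hx : x ∈ K) :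
    a ^ k * x * (a ^ k)⁻¹ ∈ K := by
  have h1 : a ∈ Subgroup.normalizer (K : Set G) := Subgroup.mem_normalizer_iff.2 hnorm
  exact (Subgroup.mem_normalizer_iff.1
    ((Subgroup.normalizer (K : Set G)).zpow_mem h1 k) x).1 hx

private theorem mem_sup_zpow {G : Type*} [Group G] {K : Subgroup G} {a : G}
    (hnorm : ∀ x, x ∈ K ↔ a * x * a⁻¹ ∈ K) (x : G) :
    x ∈ K ⊔ Subgroup.zpowers a ↔ ∃ k : ℤ, x * (a ^ k)⁻¹ ∈ K := by
  constructor
  · intro hx
    let S : Subgroup G :=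
      { carrier := {x | ∃ k : ℤ, x * (a ^ k)⁻¹ ∈ K}
        one_mem' := ⟨0, by simp⟩
        mul_mem' := by
          rintro x y ⟨k, hk⟩ ⟨l, hl⟩
          refine ⟨k + l, ?_⟩
          have h1 := K.mul_mem hk (zpow_conj_mem hnorm k hl)
          have h2 : x * (a ^ k)⁻¹ * (a ^ k * (y * (a ^ l)⁻¹) * (a ^ k)⁻¹) =
              x * y * (a ^ (k + l))⁻¹ := by
            rw [add_comm k l, zpow_add, mul_inv_rev]
            group
          rwa [h2] at h1
        inv_mem' := by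
          rintro x ⟨k, hk⟩
          refine ⟨-k, ?_⟩
          have h1 := zpow_conj_mem hnorm (-k) (K.inv_mem hk)
          have h2 : a ^ (-k) * (x * (a ^ k)⁻¹)⁻¹ * (a ^ (-k))⁻¹ = x⁻¹ * (a ^ (-k))⁻¹ := by
            rw [mul_inv_rev, inv_inv, zpow_neg, inv_inv]
            group
          rwa [h2] at h1 }
    have hS : K ⊔ Subgroup.zpowers a ≤ S := by
      refine sup_le (fun y hy => ⟨0, ?_⟩) ((Subgroup.zpowers_le).2 ⟨1, ?_⟩)
      · simpa using hy
      · simp
    exact hS hx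
  · rintro ⟨k, hk⟩
    have h1 : x * (a ^ k)⁻¹ * a ^ k ∈ K ⊔ Subgroup.zpowers a :=
      Subgroup.mul_mem_sup hk (Subgroup.zpow_mem_zpowers a k)
    rwa [inv_mul_cancel_right] at h1

private theorem mem_sup_pow {G : Type*} [Group G] {K : Subgroup G} {a : G} {M : ℕ}
    (hM : 0 < M) (hpow : a ^ M ∈ K) (hnorm : ∀ x, x ∈ K ↔ a * x * a⁻¹ ∈ K) (x : G) :
    x ∈ K ⊔ Subgroup.zpowers a ↔ ∃ k, k < M ∧ x * (a ^ k)⁻¹ ∈ K := by
  rw [mem_sup_zpow hnorm]
  constructor
  · rintro ⟨k, hk⟩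
    have hM' : (0 : ℤ) < M := by exact_mod_cast hM
    have h0 : 0 ≤ k % M := Int.emod_nonneg k hM'.ne'
    have h1 : k % M < M := Int.emod_lt_of_pos k hM'
    refine ⟨(k % M).toNat, by omega, ?_⟩
    have h2 : a ^ ((k % M).toNat) = a ^ (k % M) := by
      rw [← zpow_natCast, Int.toNat_of_nonneg h0]
    have h3 : (a ^ M) ^ (k / M) ∈ K := K.zpow_mem hpow _
    have h4 := K.mul_mem hk h3
    have h5 : a ^ k = (a ^ M) ^ (k / M) * a ^ (k % M) := by
      rw [← zpow_natCast, ← zpow_mul, ← zpow_add, Int.mul_ediv_add_emod]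
    have h6 : x * (a ^ k)⁻¹ * (a ^ M) ^ (k / M) = x * (a ^ ((k % M).toNat))⁻¹ := by
      rw [h2, h5, mul_inv_rev, mul_assoc, mul_assoc, inv_mul_cancel, mul_one]
    rwa [h6] at h4
  · rintro ⟨k, -, hk⟩
    exact ⟨k, by rwa [zpow_natCast]⟩

private theorem pow_uniq {G : Type*} [Group G] {K : Subgroup G} {a : G} {M : ℕ}
    (hmin : ∀ k, 0 < k → k < M → a ^ k ∉ K) {y y' : G} (hy : y ∈ K) (hy' : y' ∈ K) {k k' : ℕ}
    (hk' : k' < M) (h : y * a ^ k = y' * a ^ k') (hkk : k ≤ k') : k = k' := by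
  by_contra hne
  refine hmin (k' - k) (by omega) (by omega) ?_
  have h1 : a ^ k' = a ^ (k' - k) * a ^ k := by rw [← pow_add]; congr 1; omega
  rw [h1, ← mul_assoc] at h
  have h2 : y = y' * a ^ (k' - k) := mul_right_cancel h
  have h3 : a ^ (k' - k) = y'⁻¹ * y := by rw [h2, inv_mul_cancel_left]
  rw [h3]
  exact K.mul_mem (K.inv_mem hy') hy

private theorem card_sup {G : Type*} [Group G] {K : Subgroup G} {a : G} {M : ℕ}
    (hM : 0 < M) (hpow : a ^ M ∈ K) (hmin : ∀ k, 0 < k → k < M → a ^ k ∉ K)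
    (hnorm : ∀ x, x ∈ K ↔ a * x * a⁻¹ ∈ K) :
    Nat.card (K ⊔ Subgroup.zpowers a : Subgroup G) = Nat.card K * M := by
  let f : K × Fin M → (K ⊔ Subgroup.zpowers a : Subgroup G) := fun p =>
    ⟨p.1 * a ^ (p.2 : ℕ), Subgroup.mul_mem_sup p.1.2 (Subgroup.npow_mem_zpowers a p.2)⟩
  have hf : Function.Bijective f := by
    constructor
    · rintro ⟨⟨y, hy⟩, ⟨k, hk⟩⟩ ⟨⟨y', hy'⟩, ⟨k', hk'⟩⟩ hyy
      have h1 : y * a ^ k = y' * a ^ k' := congrArg Subtype.val hyy
      have h2 : k = k' := by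
        rcases le_total k k' with h | h
        · exact pow_uniq hmin hy hy' hk' h1 h
        · exact (pow_uniq hmin hy' hy hk h1.symm h).symm
      subst h2
      have h3 : y = y' := mul_right_cancel h1
      subst h3
      rfl
    · rintro ⟨x, hx⟩
      obtain ⟨k, hk, hxk⟩ := (mem_sup_pow hM hpow hnorm x).1 hx
      refine ⟨⟨⟨x * (a ^ k)⁻¹, hxk⟩, ⟨k, hk⟩⟩, Subtype.ext ?_⟩
      change x * (a ^ k)⁻¹ * a ^ k = x
      rw [inv_mul_cancel_right]
  rw [← Nat.card_congr (Equiv.ofBijective f hf), Nat.card_prod, Nat.card_fin]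

theorem pd_subgroup {G : Type*} [Group G] (g : ℕ → G) (m : ℕ → ℕ) (i : ℕ) (h : PD g m i) :
    ∃ H : Subgroup G, (∀ x, x ∈ H ↔ PM g m i x) ∧ Nat.card H = ∏ j ∈ range i, m j ∧
      PCL i H ∧ ∀ H' : Subgroup G, (∀ j < i, g j ∈ H') → H ≤ H' := by
  induction i with
  | zero =>
    refine ⟨⊥, fun x => ?_, ?_, rfl, fun H' _ => bot_le⟩
    · rw [Subgroup.mem_bot]
      rfl
    · simp
  | succ i ih =>
    obtain ⟨hPD, hm, hpow, hmin, hnorm⟩ := h
    obtain ⟨K, hK, hcard, hPCL, hle⟩ := ih hPD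
    simp only [← hK] at hpow hmin hnorm
    refine ⟨K ⊔ Subgroup.zpowers (g i), fun x => ?_, ?_, ⟨K, g i, hPCL, hnorm, rfl⟩,
      fun H' hH' => ?_⟩
    · rw [mem_sup_pow hm hpow hnorm x]
      simp only [hK]
      rfl
    · rw [card_sup hm hpow hmin hnorm, hcard, prod_range_succ]
    · exact sup_le (hle H' fun j hj => hH' j (by omega))
        ((Subgroup.zpowers_le).2 (hH' i (Nat.lt_succ_self i)))

end Pool.Agent.ECD
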