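import Pool.Agent.ECD.Defs

/-!
# Package ECD-PolyZF: polynomials of definable functions, and the size of a tree

*Statement (`zf_aeval`).* A polynomial with integer coefficients in definable integer valued
functions is definable. Proof: `MvPolynomial.induction_on` (`ZF.const`, `ZF.add`, `ZF.mul`).

*Statement (`poly_bound`).* For a polynomial `G` there is `κ` with `|G(x)| ≤ (B + 2) ^ κ` whenever
`|x k| ≤ B` for all `k`. Proof: `MvPolynomial.induction_on`: constants `c`: `|c| ≤ 2 ^ |c|`; sums: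
`(B + 2) ^ κ + (B + 2) ^ κ' ≤ (B + 2) ^ (max κ κ' + 1)`; products with a variable: `κ + 1`.

*Statement (`ftr_size`).* There is `κ` such that if the parameters and the leaves are at most `M` in
absolute value, the nodes of level `j` are less than `2 ^ ((lg M + 2) * κ ^ j)`.

*Proof.* Let `κ₀ ≥ 1` work in `poly_bound` for all coordinates of `F₀` and `F₁` (take the sum of all
the exponents plus `1`), `κ = κ₀ + 1`. Claim: `|node| + 2 ≤ (M + 2) ^ κ ^ j` at level `j`. Level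
`0`: clear. Step: with `B + 2 = (M + 2) ^ κ ^ j ≥ M + 2`: the value is `≤ (B + 2) ^ κ₀` and
`x ^ κ₀ + 2 ≤ x ^ (κ₀ + 1)` for `x ≥ 2`, `κ₀ ≥ 1`. And `M + 2 ≤ 2 ^ (lg M + 2)`
(`PTr.lt_two_pow_lg`). ∎

*Statement (`pow_level`).* If `2 ^ j ≤ lp N K` then `κ ^ j ≤ lp N (K * κ)`: `κ ≤ 2 ^ κ`, so
`κ ^ j ≤ (2 ^ j) ^ κ`.

Difficulty: 0.8 h.
-/

set_option autoImplicit false

namespace Pool.Agent.ECD

open Finset Pool.Agent.Grz Pool.Agent.GAvg Pool.Agent.PTr Pool.Agent.MTr Pool.Agent.LPC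

theorem zf_aeval {σ : Type} {n : ℕ} (G : MvPolynomial σ ℤ) {x : σ → (Fin n → ℕ) → ℤ}
    (hx : ∀ k, ZF n (x k)) : ZF n (fun v => MvPolynomial.aeval (fun k => x k v) G) := by
  sorry

theorem poly_bound {σ : Type} (G : MvPolynomial σ ℤ) : ∃ κ : ℕ, ∀ (B : ℕ) (x : σ → ℤ),
    (∀ k, (x k).natAbs ≤ B) → (MvPolynomial.aeval x G : ℤ).natAbs ≤ (B + 2) ^ κ := by
  sorry

theorem ftr_size {d e : ℕ} (F₀ F₁ : Law d e) : ∃ κ : ℕ, ∀ (c : Fin e → ℤ) (leaf : ℕ → Fin d → ℤ)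
    (M h E : ℕ), (∀ k, (c k).natAbs ≤ M) → (∀ s i, (leaf s i).natAbs ≤ M) → ∀ j s i,
      (ftr F₀ F₁ c leaf h E j s i).natAbs < 2 ^ ((lg M + 2) * κ ^ j) := by
  sorry

theorem pow_level {j N K κ : ℕ} (h : 2 ^ j ≤ lp N K) : κ ^ j ≤ lp N (K * κ) := by
  sorry

end Pool.Agent.ECD
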