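import Pool.Agent.ECD.ExpCoef
import Pool.Agent.ECD.Defs

/-!
# Package ECD-ProdIs: products of different primes

*`prod_is`.* For a finite set `S` of primes and `D > 0`: `D = ∏_(q ∈ S) q` iff `D` is not divisible by
any `q * q` with `q ≥ 2`, and a prime `q` divides `D` iff `q ∈ S`. (`→`: a square `q * q` of a prime
dividing the product of different primes: `Nat.Coprime`, `erase_coprime`; or
`Finset.prod_primes`-lemmas, `Nat.Squarefree`; `←`: `D` is squarefree, so
`D = ∏ q ∈ D.primeFactors, q` (`Nat.prod_primeFactors_of_squarefree`), and `D.primeFactors = S`.)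

Difficulty: 0.4 h.
-/

set_option autoImplicit false

namespace Pool.Agent.ECD

open Finset Pool.Agent.Grz Pool.Agent.GAvg Pool.Agent.PTr Pool.Agent.MTr Pool.Agent.LPC

theorem prod_is {S : Finset ℕ} (hS : ∀ q ∈ S, q.Prime) {D : ℕ} (hD : 0 < D) :
    D = ∏ q ∈ S, q ↔ (∀ q, 2 ≤ q → ¬ q * q ∣ D) ∧ ∀ q, q.Prime → (q ∣ D ↔ q ∈ S) := by
  constructor
  · rintro rfl
    have hsq : Squarefree (∏ q ∈ S, q) := by
      refine Finset.squarefree_prod_of_pairwise_isCoprime ?_ ?_
      · intro a ha b hb hab
        exact Nat.coprime_iff_isRelPrime.1 ((Nat.coprime_primes (hS a ha) (hS b hb)).2 hab)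
      · intro a ha
        exact (hS a ha).squarefree
    refine ⟨fun q hq h => ?_, fun q hq => ⟨fun h => ?_, fun h => dvd_prod_of_mem _ h⟩⟩
    · have := Nat.isUnit_iff.1 (hsq q h)
      omega
    · obtain ⟨r, hr, hqr⟩ := (hq.prime.dvd_finsetProd_iff _).1 h
      rw [(Nat.prime_dvd_prime_iff_eq hq (hS r hr)).1 hqr]
      exact hr
  · rintro ⟨h1, h2⟩
    have hsq : Squarefree D := by
      intro x hx
      by_contra hx1
      have h3 : x ≠ 0 := by
        rintro rfl
        rw [zero_mul, zero_dvd_iff] at hx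
        omega
      have h4 : x ≠ 1 := fun h => hx1 (Nat.isUnit_iff.2 h)
      exact h1 x (by omega) hx
    have h5 : D.primeFactors = S := by
      ext q
      rw [Nat.mem_primeFactors]
      constructor
      · rintro ⟨hq, hd, -⟩
        exact (h2 q hq).1 hd
      · intro hq
        exact ⟨hS q hq, (h2 q (hS q hq)).2 hq, hD.ne'⟩
    rw [← h5]
    exact (Nat.prod_primeFactors_of_squarefree hsq).symm

end Pool.Agent.ECD
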