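import Pool.Agent.ECD.Curve

/-!
# Rank bound, part A: formulas that may degenerate

`RepZ v P`: the triple `v` is zero or represents the point `P`. Both laws of Mathlib preserve this
relation: the addition formula gives the zero triple at equivalent triples.
-/

set_option autoImplicit false

namespace Pool.Agent.ECD

open WeierstrassCurve

open scoped WeierstrassCurve.Projective

section Rep

variable {F : Type*} [Field F] [DecidableEq F] {W : WeierstrassCurve F}

/-- The triple `v` represents the point `P`. -/
def NRep (W : WeierstrassCurve F) (v : Fin 3 → F) (P : W.toAffine.Point) : Prop :=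
  W.toProjective.Nonsingular v ∧ Projective.Point.toAffine W.toProjective v = P

/-- The triple `v` is zero or represents the point `P`. -/
def RepZ (W : WeierstrassCurve F) (v : Fin 3 → F) (P : W.toAffine.Point) : Prop :=
  v = 0 ∨ NRep W v P

omit [DecidableEq F] in
theorem NRep.ne_zero {v : Fin 3 → F} {P : W.toAffine.Point} (h : NRep W v P) : v ≠ 0 := by
  rintro rfl
  have h1 := h.1
  have h2 := Projective.Y_ne_zero_of_Z_eq_zero h1 rfl
  exact h2 rfl

theorem NRep.dbl {v : Fin 3 → F} {P : W.toAffine.Point} (h : NRep W v P) :
    NRep W (W.toProjective.dblXYZ v) (P + P) := by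
  refine ⟨?_, ?_⟩
  · rw [← Projective.add_self]
    exact Projective.nonsingular_add h.1 h.1
  · rw [← Projective.add_self, Projective.Point.toAffine_add h.1 h.1, h.2]

theorem NRep.add {v w : Fin 3 → F} {P Q : W.toAffine.Point} (h : NRep W v P) (h' : NRep W w Q)
    (hPQ : P ≠ Q) : NRep W (W.toProjective.addXYZ v w) (P + Q) := by
  have hne : ¬ v ≈ w := by
    intro he
    apply hPQ
    rw [← h.2, ← h'.2]
    exact Projective.Point.toAffine_of_equiv he
  refine ⟨?_, ?_⟩
  · rw [← Projective.add_of_not_equiv hne]
    exact Projective.nonsingular_add h.1 h'.1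
  · rw [← Projective.add_of_not_equiv hne, Projective.Point.toAffine_add h.1 h'.1, h.2, h'.2]

theorem RepZ.dbl {v : Fin 3 → F} {P : W.toAffine.Point} (h : RepZ W v P) :
    RepZ W (W.toProjective.dblXYZ v) (P + P) := by
  rcases h with rfl | h
  · left
    have h1 := Projective.dblXYZ_smul (W' := W.toProjective) (0 : Fin 3 → F) 0
    rw [zero_smul] at h1
    rw [h1]
    simp
  · right
    exact h.dbl

theorem RepZ.add {v w : Fin 3 → F} {P Q : W.toAffine.Point} (h : RepZ W v P) (h' : RepZ W w Q) :
    RepZ W (W.toProjective.addXYZ v w) (P + Q) := by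
  rcases h with rfl | h
  · left
    have h1 := Projective.addXYZ_smul (W' := W.toProjective) (0 : Fin 3 → F) w 0 1
    rw [zero_smul, one_smul] at h1
    rw [h1]
    simp
  · rcases h' with rfl | h'
    · left
      have h1 := Projective.addXYZ_smul (W' := W.toProjective) v (0 : Fin 3 → F) 1 0
      rw [zero_smul, one_smul] at h1
      rw [h1]
      simp
    · by_cases he : v ≈ w
      · left
        obtain ⟨u, rfl⟩ := he
        have h1 := Projective.addXYZ_smul (W' := W.toProjective) w w (u : F) 1
        rw [one_smul, Projective.addXYZ_self] at h1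
        have h2 : (fun m : Fˣ => m • w) u = (u : F) • w := rfl
        rw [h2, h1]
        ext i
        fin_cases i <;> simp
      · right
        refine ⟨?_, ?_⟩
        · rw [← Projective.add_of_not_equiv he]
          exact Projective.nonsingular_add h.1 h'.1
        · rw [← Projective.add_of_not_equiv he, Projective.Point.toAffine_add h.1 h'.1, h.2, h'.2]

omit [DecidableEq F] in
theorem RepZ.z_eq_zero {v : Fin 3 → F} (h : RepZ W v 0) : v 2 = 0 := by
  rcases h with rfl | h
  · rfl
  · by_contra hz
    have h1 := Projective.Point.toAffine_of_Z_ne_zero h.1 hz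
    have h2 := h.2.symm.trans h1
    exact Affine.Point.some_ne_zero _ h2.symm

omit [DecidableEq F] in
theorem NRep.z_ne_zero {v : Fin 3 → F} {P : W.toAffine.Point} (h : NRep W v P) (hP : P ≠ 0) :
    v 2 ≠ 0 := by
  intro hz
  apply hP
  rw [← h.2]
  exact Projective.Point.toAffine_of_Z_eq_zero hz

omit [DecidableEq F] in
theorem NRep.some {x y : F} (h : W.toAffine.Nonsingular x y) :
    NRep W ![x, y, 1] (.some x y h) := by
  have h1 : W.toProjective.Nonsingular ![x, y, 1] := (Projective.nonsingular_some x y).2 h
  exact ⟨h1, Projective.Point.toAffine_some h1⟩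

end Rep

end Pool.Agent.ECD
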