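import Pool.Agent.ECD.RankA

/-!
# Rank bound, part B: the coordinate ring and its filtration

`CR a b = F[X] ⊕ F[X] Y`, `Y ^ 2 = X ^ 3 + a X + b`. `Fil E z`: both components of `z` have degree
at most `E - 3`. Products: `Fil E z → Fil E' z' → Fil (E + E') (z * z')`.
-/

set_option autoImplicit false

namespace Pool.Agent.ECD

open WeierstrassCurve Polynomial

section Ring

variable {F : Type*} [Field F]

/-- `X ^ 3 + a X + b` -/
noncomputable def cub (a b : F) : F[X] := X ^ 3 + C a * X + C b

theorem natDegree_cub (a b : F) : (cub a b).natDegree ≤ 3 := by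
  unfold cub
  compute_degree

/-- the coordinate ring of the curve -/
abbrev CR (a b : F) : Type _ := QuadraticAlgebra F[X] (cub a b) 0

/-- both components have degree at most `E - 3` -/
def Fil {a b : F} (E : ℕ) (z : CR a b) : Prop :=
  z.re.natDegree + 3 ≤ E ∧ z.im.natDegree + 3 ≤ E

variable {a b : F}

theorem Fil.mono {E E' : ℕ} {z : CR a b} (h : Fil E z) (hE : E ≤ E') : Fil E' z :=
  ⟨h.1.trans hE, h.2.trans hE⟩

theorem Fil.add {E : ℕ} {z w : CR a b} (h : Fil E z) (h' : Fil E w) : Fil E (z + w) := by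
  obtain ⟨h1, h2⟩ := h
  obtain ⟨h3, h4⟩ := h'
  constructor
  · have := natDegree_add_le z.re w.re
    rw [QuadraticAlgebra.re_add]
    omega
  · have := natDegree_add_le z.im w.im
    rw [QuadraticAlgebra.im_add]
    omega

theorem Fil.mul {E E' : ℕ} {z w : CR a b} (h : Fil E z) (h' : Fil E' w) :
    Fil (E + E') (z * w) := by
  obtain ⟨h1, h2⟩ := h
  obtain ⟨h3, h4⟩ := h'
  have hc := natDegree_cub a b
  constructor
  · rw [QuadraticAlgebra.re_mul]
    have e1 := natDegree_add_le (z.re * w.re) (cub a b * z.im * w.im)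
    have e2 := natDegree_mul_le (p := z.re) (q := w.re)
    have e3 := natDegree_mul_le (p := cub a b * z.im) (q := w.im)
    have e4 := natDegree_mul_le (p := cub a b) (q := z.im)
    omega
  · rw [QuadraticAlgebra.im_mul, zero_mul, zero_mul, add_zero]
    have e1 := natDegree_add_le (z.re * w.im) (z.im * w.re)
    have e2 := natDegree_mul_le (p := z.re) (q := w.im)
    have e3 := natDegree_mul_le (p := z.im) (q := w.re)
    omega

theorem Fil.const (c : F) : Fil 3 (QuadraticAlgebra.C (C c) : CR a b) := by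
  constructor <;> simp

theorem Fil.one : Fil 3 (1 : CR a b) := by
  constructor <;> simp [QuadraticAlgebra.re_one, QuadraticAlgebra.im_one]

theorem Fil.zero {E : ℕ} (hE : 3 ≤ E) : Fil E (0 : CR a b) := by
  constructor <;> simpa using hE

theorem Fil.intCast (m : ℤ) : Fil 3 (m : CR a b) := by
  constructor <;> simp

theorem Fil.pow {E : ℕ} {z : CR a b} (h : Fil E z) : ∀ k : ℕ, Fil (3 + k * E) (z ^ k)
  | 0 => by simpa using Fil.one
  | k + 1 => by
    rw [pow_succ]
    exact (h.pow k |>.mul h).mono (by rw [Nat.succ_mul, add_assoc])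

theorem Fil.prod {ι : Type*} {E : ℕ} (s : Finset ι) (f : ι → CR a b) (m : ι → ℕ)
    (h : ∀ i ∈ s, Fil E (f i)) : Fil (3 + (∑ i ∈ s, m i) * (E + 3)) (∏ i ∈ s, f i ^ m i) := by
  classical
  induction s using Finset.induction_on with
  | empty => simpa using Fil.one
  | insert i s hi ih =>
    rw [Finset.prod_insert hi, Finset.sum_insert hi]
    by_cases h0 : m i = 0
    · rw [h0, pow_zero, one_mul, zero_add]
      exact ih fun j hj => h j (Finset.mem_insert_of_mem hj)
    · have h1 := (h i (Finset.mem_insert_self i s)).pow (m i)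
      have h2 := ih fun j hj => h j (Finset.mem_insert_of_mem hj)
      refine (h1.mul h2).mono ?_
      have : 1 ≤ m i := Nat.one_le_iff_ne_zero.2 h0
      nlinarith

theorem Fil.sum {ι : Type*} {E : ℕ} (hE : 3 ≤ E) (s : Finset ι) (f : ι → CR a b)
    (h : ∀ i ∈ s, Fil E (f i)) : Fil E (∑ i ∈ s, f i) := by
  classical
  induction s using Finset.induction_on with
  | empty => simpa using Fil.zero hE
  | insert i s hi ih =>
    rw [Finset.sum_insert hi]
    exact (h i (Finset.mem_insert_self i s)).add
      (ih fun j hj => h j (Finset.mem_insert_of_mem hj))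

/-- the value of a polynomial with integer coefficients -/
theorem Fil.aeval {σ : Type*} [Fintype σ] (p : MvPolynomial σ ℤ) (v : σ → CR a b) {E : ℕ}
    (hE : 3 ≤ E) (h : ∀ i, Fil E (v i)) :
    Fil ((2 * p.totalDegree + 2) * E) (MvPolynomial.aeval v p) := by
  rw [MvPolynomial.aeval_def, MvPolynomial.eval₂_eq']
  refine Fil.sum (by nlinarith) _ _ fun d hd => ?_
  have h1 : Fil 3 (algebraMap ℤ (CR a b) (MvPolynomial.coeff d p)) := by
    have := Fil.intCast (a := a) (b := b) (MvPolynomial.coeff d p)
    rwa [← eq_intCast (algebraMap ℤ (CR a b))] at this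
  have h2 := Fil.prod Finset.univ v d fun i _ => h i
  refine (h1.mul h2).mono ?_
  have h3 : ∑ i, d i ≤ p.totalDegree := by
    have := MvPolynomial.le_totalDegree hd
    rwa [Finsupp.sum_fintype _ _ (fun _ => rfl)] at this
  have h4 : (∑ i, d i) * (E + 3) ≤ p.totalDegree * (E + 3) := Nat.mul_le_mul_right _ h3
  have h5 : p.totalDegree * 3 ≤ p.totalDegree * E := Nat.mul_le_mul_left _ hE
  nlinarith

end Ring

end Pool.Agent.ECD
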