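import Pool.Agent.ECD.RankB

/-!
# Rank bound, part C: multiples of the generic point

`exists_V`: for `m ≥ 1` there are coordinates in the ring `CR a b` of polynomially bounded degree
whose value at every affine point is zero or represents `m` times the point, and at a point `(e, 0)`
(over an extension) represents `m` times the point.
-/

set_option autoImplicit false

namespace Pool.Agent.ECD

open WeierstrassCurve Polynomial

section Ev

variable {F K : Type*} [Field F] [Field K]

/-- the value of an element of the coordinate ring at a point -/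
noncomputable def evp (φ : F →+* K) (a b : F) (x y : K) (h : y ^ 2 = x ^ 3 + φ a * x + φ b) :
    CR a b →+* K where
  toFun z := z.re.eval₂ φ x + y * z.im.eval₂ φ x
  map_one' := by simp [QuadraticAlgebra.re_one, QuadraticAlgebra.im_one]
  map_zero' := by simp
  map_add' z w := by
    simp only [QuadraticAlgebra.re_add, QuadraticAlgebra.im_add, eval₂_add]
    ring
  map_mul' z w := by
    simp only [QuadraticAlgebra.re_mul, QuadraticAlgebra.im_mul, eval₂_add, eval₂_mul, zero_mul,
      add_zero, cub, eval₂_pow, eval₂_X, eval₂_C]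
    linear_combination (-z.im.eval₂ φ x * w.im.eval₂ φ x) * h

/-- the curve over its coordinate ring -/
noncomputable def WC (a b : F) : WeierstrassCurve (CR a b) :=
  EC (QuadraticAlgebra.C (C a)) (QuadraticAlgebra.C (C b))

theorem WC_map (φ : F →+* K) (a b : F) (x y : K) (h : y ^ 2 = x ^ 3 + φ a * x + φ b) :
    (WC a b).map (evp φ a b x y h) = EC (φ a) (φ b) := by
  ext <;> simp [WC, EC, WeierstrassCurve.map, evp]

/-- the generic point -/
noncomputable def V1 (a b : F) : Fin 3 → CR a b := ![⟨X, 0⟩, ⟨0, 1⟩, 1]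

theorem evp_V1 (φ : F →+* K) (a b : F) (x y : K) (h : y ^ 2 = x ^ 3 + φ a * x + φ b) :
    (evp φ a b x y h) ∘ V1 a b = ![x, y, 1] := by
  funext i
  fin_cases i
  · simp [V1, evp]
  · simp [V1, evp]
  · simp [V1]

theorem fil_V1 (a b : F) (i : Fin 3) : Fil 4 (V1 a b i) := by
  fin_cases i
  · constructor <;> simp [V1]
  · constructor <;> simp [V1]
  · exact Fil.one.mono (by norm_num)

theorem evp_dbl (φ : F →+* K) (a b : F) (x y : K) (h : y ^ 2 = x ^ 3 + φ a * x + φ b)
    (V : Fin 3 → CR a b) :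
    (evp φ a b x y h) ∘ (dblLaw.ev ![QuadraticAlgebra.C (C a), QuadraticAlgebra.C (C b)] V V) =
      (EC (φ a) (φ b)).toProjective.dblXYZ (evp φ a b x y h ∘ V) := by
  rw [dblLaw_ev]
  have h1 := Projective.map_dblXYZ (W' := (WC a b).toProjective) (evp φ a b x y h) V
  have h2 := WC_map φ a b x y h
  have h3 : (WC a b).toProjective.map (evp φ a b x y h) = EC (φ a) (φ b) := h2
  rw [h3] at h1
  exact h1.symm

theorem evp_add (φ : F →+* K) (a b : F) (x y : K) (h : y ^ 2 = x ^ 3 + φ a * x + φ b)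
    (V W : Fin 3 → CR a b) :
    (evp φ a b x y h) ∘ (addLaw.ev ![QuadraticAlgebra.C (C a), QuadraticAlgebra.C (C b)] V W) =
      (EC (φ a) (φ b)).toProjective.addXYZ (evp φ a b x y h ∘ V) (evp φ a b x y h ∘ W) := by
  rw [addLaw_ev]
  have h1 := Projective.map_addXYZ (W' := (WC a b).toProjective) (evp φ a b x y h) V W
  have h2 := WC_map φ a b x y h
  have h3 : (WC a b).toProjective.map (evp φ a b x y h) = EC (φ a) (φ b) := h2
  rw [h3] at h1
  exact h1.symm

theorem nonsing_eq {a b x y : K} (h : (EC a b).toAffine.Nonsingular x y) :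
    y ^ 2 = x ^ 3 + a * x + b := by
  have h1 := h.1
  rw [Affine.equation_iff] at h1
  simpa [EC] using h1

theorem fil_law {a b : F} (L : Law 3 2) {d E : ℕ}
    (hd : ∀ i, 2 * (L i).totalDegree + 2 ≤ 2 ^ d) (hE : 3 ≤ E) {V W : Fin 3 → CR a b}
    (hV : ∀ i, Fil E (V i)) (hW : ∀ i, Fil E (W i)) (i : Fin 3) :
    Fil (2 ^ d * E) (L.ev ![QuadraticAlgebra.C (C a), QuadraticAlgebra.C (C b)] V W i) := by
  refine (Fil.aeval (L i) (Sum.elim V (Sum.elim W
    ![QuadraticAlgebra.C (C a), QuadraticAlgebra.C (C b)])) hE ?_).mono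
      (Nat.mul_le_mul_right _ (hd i))
  rintro (j | j | j)
  · exact hV j
  · exact hW j
  · fin_cases j
    · exact (Fil.const a).mono hE
    · exact (Fil.const b).mono hE

variable [DecidableEq F] [DecidableEq K]

/-- The properties of the multiples of the generic point. -/
def GoodV (φ : F →+* K) (a b : F) (e : K) (he : (EC (φ a) (φ b)).toAffine.Nonsingular e 0)
    (m : ℕ) (V : Fin 3 → CR a b) : Prop :=
  (∀ (x y : F) (h : (EC a b).toAffine.Nonsingular x y),
    RepZ (EC a b) (evp (RingHom.id F) a b x y (nonsing_eq h) ∘ V)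
      (m • (Affine.Point.some x y h : (EC a b).toAffine.Point))) ∧
  NRep (EC (φ a) (φ b)) (evp φ a b e 0 (nonsing_eq he) ∘ V)
    (m • (Affine.Point.some e 0 he : (EC (φ a) (φ b)).toAffine.Point))

variable (φ : F →+* K) (a b : F) (e : K) (he : (EC (φ a) (φ b)).toAffine.Nonsingular e 0)

theorem goodV_one : GoodV φ a b e he 1 (V1 a b) := by
  refine ⟨fun x y h => ?_, ?_⟩
  · rw [one_smul, evp_V1]
    exact Or.inr (NRep.some h)
  · rw [one_smul, evp_V1]
    exact NRep.some he

theorem goodV_dbl {m : ℕ} {V : Fin 3 → CR a b} (hV : GoodV φ a b e he m V) :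
    GoodV φ a b e he (2 * m)
      (dblLaw.ev ![QuadraticAlgebra.C (C a), QuadraticAlgebra.C (C b)] V V) := by
  refine ⟨fun x y h => ?_, ?_⟩
  · rw [evp_dbl, two_mul, add_smul]
    exact (hV.1 x y h).dbl
  · rw [evp_dbl, two_mul, add_smul]
    exact hV.2.dbl

omit [DecidableEq F] in
theorem two_T : (2 : ℕ) • (Affine.Point.some e 0 he : (EC (φ a) (φ b)).toAffine.Point) = 0 := by
  rw [two_smul]
  apply Affine.Point.add_self_of_Y_eq
  simp [Affine.negY, EC]

omit [DecidableEq F] in
theorem odd_T (k : ℕ) : (2 * k + 1) •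
    (Affine.Point.some e 0 he : (EC (φ a) (φ b)).toAffine.Point) = Affine.Point.some e 0 he := by
  rw [add_smul, mul_comm, mul_smul, two_T, smul_zero, one_smul, zero_add]

theorem goodV_add {m : ℕ} {V : Fin 3 → CR a b} (hV : GoodV φ a b e he (2 * m) V) :
    GoodV φ a b e he (2 * m + 1)
      (addLaw.ev ![QuadraticAlgebra.C (C a), QuadraticAlgebra.C (C b)] V (V1 a b)) := by
  refine ⟨fun x y h => ?_, ?_⟩
  · rw [evp_add, add_smul]
    exact (hV.1 x y h).add ((goodV_one φ a b e he).1 x y h)
  · rw [evp_add, add_smul]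
    refine hV.2.add (goodV_one φ a b e he).2 ?_
    rw [mul_comm, mul_smul, two_T, smul_zero, one_smul]
    exact (Affine.Point.some_ne_zero _).symm

theorem exists_V {d : ℕ} (hd1 : ∀ i, 2 * (dblLaw i).totalDegree + 2 ≤ 2 ^ d)
    (hd2 : ∀ i, 2 * (addLaw i).totalDegree + 2 ≤ 2 ^ d) (m : ℕ) (hm : 1 ≤ m) :
    ∃ V : Fin 3 → CR a b, (∀ i, Fil (4 * m ^ (2 * d)) (V i)) ∧ GoodV φ a b e he m V := by
  induction m using Nat.strong_induction_on with
  | _ m ih =>
    rcases Nat.lt_or_ge m 2 with h1 | h1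
    · obtain rfl : m = 1 := by omega
      exact ⟨V1 a b, fun i => (fil_V1 a b i).mono (by simp), goodV_one φ a b e he⟩
    · obtain ⟨k, hk⟩ := Nat.even_or_odd' m
      have hk1 : 1 ≤ k := by omega
      obtain ⟨V, hV1, hV2⟩ := ih k (by omega) hk1
      have hE4 : 4 ≤ 4 * k ^ (2 * d) := by
        have := Nat.one_le_pow (2 * d) k hk1
        omega
      have hE : 3 ≤ 4 * k ^ (2 * d) := by omega
      have hD := fil_law dblLaw hd1 hE hV1 hV1
      have hG := goodV_dbl φ a b e he hV2
      have hp : 2 ^ d * (2 ^ d * (4 * k ^ (2 * d))) = 4 * (2 * k) ^ (2 * d) := by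
        rw [mul_pow, two_mul d, pow_add 2 d d]
        ring
      have h2d : 1 ≤ 2 ^ d := Nat.one_le_two_pow
      rcases hk with rfl | rfl
      · refine ⟨_, fun i => (hD i).mono ?_, hG⟩
        rw [← hp]
        exact Nat.le_mul_of_pos_left _ (by omega)
      · have hE2 : 4 ≤ 2 ^ d * (4 * k ^ (2 * d)) := by
          calc 4 = 1 * 4 := by norm_num
            _ ≤ _ := Nat.mul_le_mul h2d hE4
        have hA := fil_law addLaw hd2 (by omega) hD (fun i => (fil_V1 a b i).mono hE2)
        refine ⟨_, fun i => (hA i).mono ?_, goodV_add φ a b e he hG⟩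
        rw [hp]
        exact Nat.mul_le_mul_left _ (Nat.pow_le_pow_left (by omega) _)

end Ev

end Pool.Agent.ECD
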