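import Pool.Agent.ECD.RepA

/-!
# Package ECD-Rep: the laws on representatives of points

*`step_add`, `step_dbl`.* `Projective.Point.toAffine_add`, `Projective.nonsingular_add`,
`Projective.add_of_equiv`, `add_of_not_equiv`, `add_self`: if the points are different then the
triples are not equivalent (`toAffine_of_equiv`); if they are equal: `dblXYZ x = add x x`.


(The laws are evaluated by `addLaw_ev` and `dblLaw_ev` of `Curve.lean`. The theorems of
`RepA.lean` are probably not needed.)

Difficulty: 0.5 h.
-/

set_option autoImplicit false

namespace Pool.Agent.ECD

open WeierstrassCurve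

open scoped WeierstrassCurve.Projective

variable {F : Type*} [Field F] [DecidableEq F] {a b : F}

theorem step_add {x y : Fin 3 → F} (hx : (EC a b).toProjective.Nonsingular x)
    (hy : (EC a b).toProjective.Nonsingular y)
    (h : Projective.Point.toAffine (EC a b).toProjective x ≠
      Projective.Point.toAffine (EC a b).toProjective y) :
    (EC a b).toProjective.Nonsingular (addLaw.ev ![a, b] x y) ∧
    Projective.Point.toAffine (EC a b).toProjective (addLaw.ev ![a, b] x y) =
      Projective.Point.toAffine (EC a b).toProjective x +
        Projective.Point.toAffine (EC a b).toProjective y := by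
  have hne : ¬ x ≈ y := fun he => h (Projective.Point.toAffine_of_equiv he)
  have h1 := Projective.nonsingular_add hx hy
  have h2 := Projective.Point.toAffine_add hx hy
  rw [Projective.add_of_not_equiv hne] at h1 h2
  rw [addLaw_ev]
  exact ⟨h1, h2⟩

theorem step_dbl {x y : Fin 3 → F} (hx : (EC a b).toProjective.Nonsingular x)
    (hy : (EC a b).toProjective.Nonsingular y)
    (h : Projective.Point.toAffine (EC a b).toProjective x =
      Projective.Point.toAffine (EC a b).toProjective y) :
    (EC a b).toProjective.Nonsingular (dblLaw.ev ![a, b] x y) ∧
    Projective.Point.toAffine (EC a b).toProjective (dblLaw.ev ![a, b] x y) =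
      Projective.Point.toAffine (EC a b).toProjective x +
        Projective.Point.toAffine (EC a b).toProjective y := by
  have h1 := Projective.nonsingular_add hx hx
  have h2 := Projective.Point.toAffine_add hx hx
  rw [Projective.add_self] at h1 h2
  rw [dblLaw_ev, ← h]
  exact ⟨h1, h2⟩

end Pool.Agent.ECD
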