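import Pool.Agent.ECD.Curve

/-!
# Package ECD-RepA: representatives of points

`F` is a field, `W = EC a b`. All from `Mathlib/AlgebraicGeometry/EllipticCurve/Projective`.

*`rp_nonsingular`, `toAffine_rp`.* The standard representative of a point is nonsingular and
represents the point: `Projective.nonsingular_zero`, `Projective.nonsingular_some`,
`Projective.Point.toAffine_zero`, `toAffine_some`.
*`toAffine_eq_zero`.* `Projective.Point.toAffine_of_Z_eq_zero`, `toAffine_of_Z_ne_zero`,
`Affine.Point.some_ne_zero`.
*`toAffine_eq_some`.* `toAffine_of_Z_ne_zero`: the point is `(x 0 / x 2, x 1 / x 2)`.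
*`prop3_iff`.* For nonsingular triples, proportional means equal points. `→`: a nonsingular triple
is not zero (`Projective.Nonsingular`, or: `toAffine` and cases `x 2 = 0`, then `x 0 = 0` by the
equation, so `x 1 ≠ 0`); if `x 2 = 0` then `y 2 = 0` (from `x 1 * y 2 = x 2 * y 1`) and conversely;
if both are not zero then the quotients agree. `←`: `toAffine_eq_zero`, `toAffine_eq_some`: in the
case `0`: `x 2 = y 2 = 0` and `x 0 = y 0 = 0` by the equation
(`Projective.X_eq_zero_of_Z_eq_zero`); otherwise `x = x 2 • ![X, Y, 1]`, `y = y 2 • ![X, Y, 1]`.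
*`rep_unit`.* A nonsingular triple is a multiple, by a unit, of the standard representative of its
point: `toAffine_eq_zero`, `toAffine_eq_some`.

Difficulty: 0.8 h.
-/

set_option autoImplicit false

namespace Pool.Agent.ECD

open WeierstrassCurve

variable {F : Type*} [Field F] [DecidableEq F] {a b : F}

theorem rp_nonsingular (P : (EC a b).toAffine.Point) :
    (EC a b).toProjective.Nonsingular (rp P) := by
  cases P with
  | zero => exact Projective.nonsingular_zero
  | some X Y h => exact (Projective.nonsingular_some X Y).2 h

theorem toAffine_rp (P : (EC a b).toAffine.Point) :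
    Projective.Point.toAffine (EC a b).toProjective (rp P) = P := by
  cases P with
  | zero => exact Projective.Point.toAffine_zero
  | some X Y h =>
    exact Projective.Point.toAffine_some (W := (EC a b).toProjective)
      ((Projective.nonsingular_some X Y).2 h)

theorem toAffine_eq_zero {x : Fin 3 → F} (hx : (EC a b).toProjective.Nonsingular x) :
    Projective.Point.toAffine (EC a b).toProjective x = 0 ↔ x 2 = 0 := by
  constructor
  · intro h
    by_contra hz
    have h1 := Projective.Point.toAffine_of_Z_ne_zero hx hz
    exact Affine.Point.some_ne_zero _ (h1.symm.trans h)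
  · intro h
    exact Projective.Point.toAffine_of_Z_eq_zero h

theorem toAffine_eq_some {x : Fin 3 → F} (hx : (EC a b).toProjective.Nonsingular x) {X Y : F}
    (h : (EC a b).toAffine.Nonsingular X Y) :
    Projective.Point.toAffine (EC a b).toProjective x = .some X Y h ↔
      x 2 ≠ 0 ∧ x 0 = X * x 2 ∧ x 1 = Y * x 2 := by
  constructor
  · intro h0
    have hz : x 2 ≠ 0 := by
      intro hz
      have h1 := Projective.Point.toAffine_of_Z_eq_zero (W := (EC a b).toProjective) hz
      exact Affine.Point.some_ne_zero _ (h0.symm.trans h1)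
    have h1 := Projective.Point.toAffine_of_Z_ne_zero hx hz
    have h2 := h0.symm.trans h1
    rw [Affine.Point.some.injEq] at h2
    refine ⟨hz, ?_, ?_⟩
    · rw [h2.1]
      field_simp
    · rw [h2.2]
      field_simp
  · rintro ⟨hz, h1, h2⟩
    rw [Projective.Point.toAffine_of_Z_ne_zero hx hz, Affine.Point.some.injEq]
    constructor
    · rw [h1]
      field_simp
    · rw [h2]
      field_simp

theorem prop3_iff {x y : Fin 3 → F} (hx : (EC a b).toProjective.Nonsingular x)
    (hy : (EC a b).toProjective.Nonsingular y) :
    Prop3 x y ↔ Projective.Point.toAffine (EC a b).toProjective x =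
      Projective.Point.toAffine (EC a b).toProjective y := by
  constructor
  · intro h
    by_cases hz : x 2 = 0
    · have hy0 : y 2 = 0 := by
        have h1 := h 1 2
        rw [hz, zero_mul, sub_zero] at h1
        exact (mul_eq_zero.1 h1).resolve_left (Projective.Y_ne_zero_of_Z_eq_zero hx hz)
      rw [(toAffine_eq_zero hx).2 hz, (toAffine_eq_zero hy).2 hy0]
    · have hy0 : y 2 ≠ 0 := by
        intro hy0
        have h1 := h 1 2
        rw [hy0, mul_zero, zero_sub, neg_eq_zero] at h1
        exact (mul_eq_zero.1 h1).elim hz (Projective.Y_ne_zero_of_Z_eq_zero hy hy0)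
      rw [Projective.Point.toAffine_of_Z_ne_zero hx hz,
        Projective.Point.toAffine_of_Z_ne_zero hy hy0, Affine.Point.some.injEq]
      constructor
      · rw [div_eq_div_iff hz hy0]
        linear_combination h 0 2
      · rw [div_eq_div_iff hz hy0]
        linear_combination h 1 2
  · intro h
    cases hP : Projective.Point.toAffine (EC a b).toProjective y with
    | zero =>
      rw [hP] at h
      have hx2 := (toAffine_eq_zero hx).1 h
      have hy2 := (toAffine_eq_zero hy).1 hP
      have hx0 := Projective.X_eq_zero_of_Z_eq_zero hx.1 hx2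
      have hy0 := Projective.X_eq_zero_of_Z_eq_zero hy.1 hy2
      intro i j
      fin_cases i <;> fin_cases j <;> simp [hx2, hy2, hx0, hy0] <;> ring
    | some X Y hXY =>
      rw [hP] at h
      obtain ⟨hx2, hx0, hx1⟩ := (toAffine_eq_some hx hXY).1 h
      obtain ⟨hy2, hy0, hy1⟩ := (toAffine_eq_some hy hXY).1 hP
      intro i j
      fin_cases i <;> fin_cases j <;> simp [hx0, hx1, hy0, hy1] <;> ring

theorem rep_unit {x : Fin 3 → F} (hx : (EC a b).toProjective.Nonsingular x) :
    ∃ z : Fˣ, ∀ i, x i = z * rp (Projective.Point.toAffine (EC a b).toProjective x) i := by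
  cases hP : Projective.Point.toAffine (EC a b).toProjective x with
  | zero =>
    have hx2 := (toAffine_eq_zero hx).1 hP
    have hx0 := Projective.X_eq_zero_of_Z_eq_zero hx.1 hx2
    refine ⟨Units.mk0 (x 1) (Projective.Y_ne_zero_of_Z_eq_zero hx hx2), fun i => ?_⟩
    fin_cases i <;> simp [rp, hx0, hx2]
  | some X Y hXY =>
    obtain ⟨hx2, hx0, hx1⟩ := (toAffine_eq_some hx hXY).1 hP
    refine ⟨Units.mk0 (x 2) hx2, fun i => ?_⟩
    fin_cases i <;> simp [rp, hx0, hx1] <;> ring

end Pool.Agent.ECD
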