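import Pool.Agent.ECD.TreeDef
import Pool.Agent.ECD.PolyZF

/-!
# Package ECD-ResDef: residues of the nodes of a tree modulo small numbers

*Statement (`res_def`).* Integer parameters `c k v` and leaves `leaf s v i`, definable; `E, N, h`
definable, `2 ^ h v ≤ lp (N v) K`. There are definable `R i q j s v` which are residues modulo
`q` of
the coordinates of the node `s` of level `j ≤ h v` of the integral tree
`ftr F₀ F₁ c leaf (h v) (E v)`, for `1 ≤ q ≤ lp (N v) K`.

*Proof.* Work in the `r + 2` variables `(q, j, v)`. Let `B = lp (N v) K`, `q₁ = max 1 (min q B)`,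
`j₁ = min j (h v)`. Code a vector `x` with entries `< q₁` by `cd x = ∑_(i < d) x i * q₁ ^ i < q₁
^ d`
(`DFun.finSum`, `DFun.powConst`; `q₁ ^ i` has a constant exponent), digits `a / q₁ ^ i % q₁`
(`DFun.divPos`, `DFun.modPos`; `GAvg.dig_sum` or `PTr.dig_code` for the decoding). The leaf `s` is
the code of the residues of `leaf s v i` modulo `q₁` (`ZF.emod`, `ZF.comp`), the operation
`H j' s a b (q, j, v)` is the code of the residues modulo `q₁` of `F₁.ev` (if
`flag (h v) (E v) j' s = 1`) resp. `F₀.ev` in the parameters `c k v` and the digits of `a` and `b`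
(`zf_aeval` for the coordinates of the laws, `ZF.ite`, `ZF.emod`). `flag (h v) (E v) j' s =
E v / 2 ^ (2 ^ (h v - 1 - j') + s) % 2` is a `DFun`: `2 ^ (h v - 1 - j') ≤ 2 ^ h v ≤ B`, so it is a
`DFun` by its graph (`Delta0.eqPow`, `DFun.ofGraph`), then `DFun.divPow`. All values are
`≤ q₁ ^ d ≤ lp (N v) (K * d)`; and `2 ^ j₁ ≤ lp (N v) K`. So by `tree_def`, with `K * (d + 1)` in
the
place of `K`, the value `t q j s v` of the tree of codes at the node `s` of level `j₁` is `DFun`;
`R i q j s v` = digit `i` of it. By induction on the level the tree of codes is `cd` of the residues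
of the integral tree: `F.ev` commutes with reduction modulo `q₁`
(`MvPolynomial.aeval` and the ring homomorphism `ℤ → ZMod q₁`, or: `F.ev c x y i` modulo `q₁`
depends
only on `x, y` modulo `q₁`, `Int.ModEq` by `MvPolynomial.induction_on`). For `1 ≤ q ≤ B`, `j ≤ h v`:
`q₁ = q`, `j₁ = j`. ∎

Difficulty: 1.4 h.
-/

set_option autoImplicit false

namespace Pool.Agent.ECD

open Finset Pool.Agent.Grz Pool.Agent.GAvg Pool.Agent.PTr Pool.Agent.MTr Pool.Agent.LPC

theorem res_def {d e : ℕ} (F₀ F₁ : Law d e) {r K : ℕ} {c : Fin e → (Fin r → ℕ) → ℤ}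
    {leaf : ℕ → (Fin r → ℕ) → Fin d → ℤ} {E N h : (Fin r → ℕ) → ℕ} (hc : ∀ k, ZF r (c k))
    (hleaf : ∀ i, ZF (r + 1) (fun w => leaf (w 0) (fun k => w k.succ) i))
    (hE : DFun r E) (hN : DFun r N) (hh : DFun r h) (hhb : ∀ v, 2 ^ h v ≤ lp (N v) K) :
    ∃ R : Fin d → ℕ → ℕ → ℕ → (Fin r → ℕ) → ℕ,
      (∀ i, DFun (r + 3) (fun w => R i (w 0) (w 1) (w 2) (fun k => w k.succ.succ.succ))) ∧
      ∀ i q j s v, 1 ≤ q → q ≤ lp (N v) K → j ≤ h v →
        (R i q j s v : ℤ) ≡ ftr F₀ F₁ (fun k => c k v) (fun s i => leaf s v i) (h v) (E v) j s i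
          [ZMOD q] := by
  sorry

end Pool.Agent.ECD
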