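import Pool.Agent.ECD.Defs

/-!
# Package ECD-TreeBlk: trees of height about `lg lg N / 2`

*Statement (`tree_blk`).* A tree whose values are at most `B = (lg N + 2) ^ K`, given by definable
leaves and a definable operation, of height `g` with `(B + 2) ^ 2 ^ (g + 1) ≤ (N + 2) ^ C`: the
value at the root `s` of level `g` is definable. (The operations start at level `l`.)

*Proof.* Let `Q := 2 ^ (g v + 1)`; as `2 ≤ B + 2`, `2 ^ Q ≤ (N + 2) ^ C`, so
`Q ≤ lg ((N + 2) ^ C)` and `2 ^ g v` and `Q` are `DFun`s (`DFun.ofGraph` with this bound,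
`Delta0.eqPow`; `DFun.lg`, `DFun.powConst`). Heap numbering of the tree with root `s` of level `g`:
the number `m` with `1 ≤ m < Q`, `e := lg m` (so `2 ^ e ≤ m < 2 ^ (e + 1)`, `e ≤ g`), stands for
the node `s * 2 ^ e + (m - 2 ^ e)` of level `g - e`; its children are `2 m` and `2 m + 1`; the
leaves
are the `m` with `e = g`, the root is `m = 1`. Let `y_m` be the value of the tree at the node `m`,
`y_0 = 0`. `∏_(m < Q) (y_m + 2) ≤ (B + 2) ^ Q ≤ (N + 2) ^ C`, so by `seq_code` there is a code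
`a ≤ ((N + 2) ^ C + 2) ^ C'` with `sq a m = y_m` for `m < Q`. Hence `y = tr … (g v) s` iff there is
`a` with this bound such that `sq a 1 = y` and for all `m < Q` with `1 ≤ m`:
`lg m = g v → sq a m = b (s * 2 ^ g v + (m - 2 ^ g v)) v` and
`lg m < g v → sq a m = H (l v + (g v - lg m - 1)) (s * 2 ^ lg m + (m - 2 ^ lg m)) (sq a (2 m))
(sq a (2 m + 1)) v`
(by downward induction on `m` these relations determine `sq a m`; `tr leaf op (j + 1) s` is
`op j s (tr leaf op j (2 s)) (tr leaf op j (2 s + 1))`). `2 ^ lg m` for `1 ≤ m` is the `DFun` with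
the graph `z = 2 ^ lg m`, bounded by `m + 1` (`Delta0.eqPow`, `DFun.lg`). The relation is `Delta0`
(`Delta0.bexFun`, `Delta0.ballFun`, `Delta0.eqFun`, `DFun.comp`, `DFun.comp2` for `sq`); the
value is
at most `B` (for `g v = 0` it is `b s v`), so `DFun.ofGraph`. ∎

Models: `LPC/SeqCode.lean`, `LPC/SumPoly.lean`, `PTr/Pow.lean`.
Difficulty: 1.2 h.
-/

set_option autoImplicit false

namespace Pool.Agent.ECD

open Finset Pool.Agent.Grz Pool.Agent.GAvg Pool.Agent.PTr Pool.Agent.MTr Pool.Agent.LPC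

private theorem TreeBlk_lg {m k : ℕ} (h1 : 2 ^ k ≤ m) (h2 : m < 2 ^ (k + 1)) : lg m = k := by
  have h3 : 0 < 2 ^ k := by positivity
  exact (Nat.log_eq_iff (Or.inr ⟨by norm_num, by omega⟩)).2 ⟨h1, h2⟩

private theorem TreeBlk_child {m : ℕ} (hm : 1 ≤ m) :
    lg (2 * m) = lg m + 1 ∧ lg (2 * m + 1) = lg m + 1 := by
  have h1 := lg_pow_ge m hm
  have h2 := lt_two_pow_lg m
  constructor
  · refine TreeBlk_lg ?_ ?_
    · rw [pow_succ]
      omega
    · rw [pow_succ _ (lg m + 1)]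
      omega
  · refine TreeBlk_lg ?_ ?_
    · rw [pow_succ]
      omega
    · rw [pow_succ _ (lg m + 1)]
      omega

/-- the value at the node `m` in the heap numbering -/
private def TreeBlk_y (leaf : ℕ → ℕ) (op : ℕ → ℕ → ℕ → ℕ → ℕ) (g s m : ℕ) : ℕ :=
  tr leaf op (g - lg m) (s * 2 ^ lg m + (m - 2 ^ lg m))

private theorem TreeBlk_leaf (leaf : ℕ → ℕ) (op : ℕ → ℕ → ℕ → ℕ → ℕ) (g s m : ℕ)
    (h : lg m = g) : TreeBlk_y leaf op g s m = leaf (s * 2 ^ lg m + (m - 2 ^ lg m)) := by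
  unfold TreeBlk_y
  rw [h, Nat.sub_self]
  rfl

private theorem TreeBlk_node (leaf : ℕ → ℕ) (op : ℕ → ℕ → ℕ → ℕ → ℕ) (g s m : ℕ)
    (hm : 1 ≤ m) (h : lg m < g) : TreeBlk_y leaf op g s m =
      op (g - lg m - 1) (s * 2 ^ lg m + (m - 2 ^ lg m)) (TreeBlk_y leaf op g s (2 * m))
        (TreeBlk_y leaf op g s (2 * m + 1)) := by
  have h1 := lg_pow_ge m hm
  have h2 : g - lg m = (g - lg m - 1) + 1 := by omega
  obtain ⟨h3, h4⟩ := TreeBlk_child hm
  unfold TreeBlk_y
  rw [h3, h4]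
  have h5 : g - (lg m + 1) = g - lg m - 1 := by omega
  have h6 : s * 2 ^ (lg m + 1) + (2 * m - 2 ^ (lg m + 1)) =
      2 * (s * 2 ^ lg m + (m - 2 ^ lg m)) := by
    have h7 : s * 2 ^ (lg m + 1) = 2 * (s * 2 ^ lg m) := by
      rw [pow_succ]
      ring
    rw [h7, pow_succ]
    omega
  have h8 : s * 2 ^ (lg m + 1) + (2 * m + 1 - 2 ^ (lg m + 1)) =
      2 * (s * 2 ^ lg m + (m - 2 ^ lg m)) + 1 := by
    have h7 : s * 2 ^ (lg m + 1) = 2 * (s * 2 ^ lg m) := by
      rw [pow_succ]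
      ring
    rw [h7, pow_succ]
    omega
  rw [h5, h6, h8]
  conv_lhs => rw [h2]
  rfl

private theorem TreeBlk_unique (leaf : ℕ → ℕ) (op : ℕ → ℕ → ℕ → ℕ → ℕ) (g s : ℕ) (z : ℕ → ℕ)
    (h1 : ∀ m, 1 ≤ m → lg m = g → z m = leaf (s * 2 ^ lg m + (m - 2 ^ lg m)))
    (h2 : ∀ m, 1 ≤ m → lg m < g → z m =
      op (g - lg m - 1) (s * 2 ^ lg m + (m - 2 ^ lg m)) (z (2 * m)) (z (2 * m + 1))) :
    ∀ k m, 1 ≤ m → lg m ≤ g → g - lg m = k → z m = TreeBlk_y leaf op g s m := by
  intro k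
  induction k with
  | zero =>
    intro m hm hg hk
    have h3 : lg m = g := by omega
    rw [h1 m hm h3, TreeBlk_leaf leaf op g s m h3]
  | succ k ih =>
    intro m hm hg hk
    have h3 : lg m < g := by omega
    obtain ⟨h4, h5⟩ := TreeBlk_child hm
    rw [h2 m hm h3, TreeBlk_node leaf op g s m hm h3,
      ih (2 * m) (by omega) (by omega) (by omega),
      ih (2 * m + 1) (by omega) (by omega) (by omega)]

private theorem TreeBlk_root (leaf : ℕ → ℕ) (op : ℕ → ℕ → ℕ → ℕ → ℕ) (g s : ℕ) :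
    TreeBlk_y leaf op g s 1 = tr leaf op g s := by
  have h : lg 1 = 0 := by simp [lg]
  unfold TreeBlk_y
  rw [h]
  simp

private theorem TreeBlk_le {leaf : ℕ → ℕ} {op : ℕ → ℕ → ℕ → ℕ → ℕ} {B : ℕ}
    (h1 : ∀ s, leaf s ≤ B) (h2 : ∀ j s x y, op j s x y ≤ B) (j s : ℕ) : tr leaf op j s ≤ B := by
  cases j with
  | zero => exact h1 s
  | succ j => exact h2 j s _ _

theorem tree_blk {r K C : ℕ} {b : ℕ → (Fin r → ℕ) → ℕ}
    {H : ℕ → ℕ → ℕ → ℕ → (Fin r → ℕ) → ℕ} {N l g : (Fin r → ℕ) → ℕ}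
    (hb : DFun (r + 1) (fun w => b (w 0) (fun i => w i.succ)))
    (hH : DFun (r + 4) (fun w => H (w 0) (w 1) (w 2) (w 3) (fun i => w i.succ.succ.succ.succ)))
    (hN : DFun r N) (hl : DFun r l) (hg : DFun r g)
    (hgN : ∀ v, (lp (N v) K + 2) ^ 2 ^ (g v + 1) ≤ (N v + 2) ^ C)
    (hbb : ∀ s v, b s v ≤ lp (N v) K) (hHb : ∀ j s x y v, H j s x y v ≤ lp (N v) K) :
    DFun (r + 1) (fun w => tr (fun s => b s (fun i => w i.succ))
      (fun j s x y => H (l (fun i => w i.succ) + j) s x y (fun i => w i.succ))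
      (g (fun i => w i.succ)) (w 0)) := by
  obtain ⟨sq, C', hsq, hcode⟩ := seq_code
  -- the number of nodes
  have hQle : ∀ v, 2 ^ (g v + 1) ≤ lg ((N v + 2) ^ C) := by
    intro v
    refine (Nat.le_log_iff_pow_le (by norm_num) (by positivity)).2 ?_
    refine le_trans (Nat.pow_le_pow_left ?_ _) (hgN v)
    omega
  have hQ : DFun r (fun v => 2 ^ (g v + 1)) := by
    refine DFun.ofGraph (b := fun v => lg ((N v + 2) ^ C))
      (DFun.lg (DFun.powConst (hN.add (DFun.const 2)) C)) hQle ?_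
    exact Delta0.eqPow (le_refl 2) (DFun.proj 0) (hg.weak.add (DFun.const 1))
  have hP : ∀ {n : ℕ} {f : (Fin n → ℕ) → ℕ}, DFun n f → DFun n (fun v => 2 ^ lg (f v)) := by
    intro n f hf
    refine DFun.ofGraph (b := fun v => f v + 1) (hf.add (DFun.const 1)) (fun v => ?_) ?_
    · rcases Nat.eq_zero_or_pos (f v) with h0 | h0
      · rw [h0]
        simp [lg]
      · have := lg_pow_ge (f v) h0
        omega
    · exact Delta0.eqPow (le_refl 2) (DFun.proj 0) (DFun.lg hf.weak)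
  have hsqF : ∀ {n : ℕ} {f₁ f₂ : (Fin n → ℕ) → ℕ}, DFun n f₁ → DFun n f₂ →
      DFun n (fun v => sq (f₁ v) (f₂ v)) := fun h₁ h₂ => DFun.comp2 hsq h₁ h₂
  have hbF : ∀ {n : ℕ} {f : (Fin n → ℕ) → ℕ} {v : Fin r → (Fin n → ℕ) → ℕ}, DFun n f →
      (∀ i, DFun n (v i)) → DFun n (fun w => b (f w) (fun i => v i w)) := by
    intro n f v hf hv
    have h := hb.comp (n := n) (h := Fin.cons f v) (by
      intro i
      refine Fin.cases ?_ (fun i => ?_) i
      · exact hf
      · exact hv i)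
    simpa only [Fin.cons_zero, Fin.cons_succ] using h
  have hHF : ∀ {n : ℕ} {f₀ f₁ f₂ f₃ : (Fin n → ℕ) → ℕ} {v : Fin r → (Fin n → ℕ) → ℕ},
      DFun n f₀ → DFun n f₁ → DFun n f₂ → DFun n f₃ → (∀ i, DFun n (v i)) →
      DFun n (fun w => H (f₀ w) (f₁ w) (f₂ w) (f₃ w) (fun i => v i w)) := by
    intro n f₀ f₁ f₂ f₃ v h₀ h₁ h₂ h₃ hv
    have h := hH.comp (n := n) (h := Fin.cons f₀ (Fin.cons f₁ (Fin.cons f₂ (Fin.cons f₃ v)))) (by
      intro i
      refine Fin.cases ?_ (fun i => ?_) i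
      · exact h₀
      refine Fin.cases ?_ (fun i => ?_) i
      · exact h₁
      refine Fin.cases ?_ (fun i => ?_) i
      · exact h₂
      refine Fin.cases ?_ (fun i => ?_) i
      · exact h₃
      · exact hv i)
    exact h
  -- the local relation
  obtain ⟨R, hRdef⟩ : ∃ R : ℕ → ℕ → ℕ → (Fin r → ℕ) → Prop, R = fun m a s v =>
      1 ≤ m → m < 2 ^ (g v + 1) →
      ((lg m = g v → sq a m = b (s * 2 ^ lg m + (m - 2 ^ lg m)) v) ∧
      (lg m < g v → sq a m = H (l v + (g v - lg m - 1)) (s * 2 ^ lg m + (m - 2 ^ lg m))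
        (sq a (2 * m)) (sq a (2 * m + 1)) v)) := ⟨_, rfl⟩
  have hR : Delta0 (r + 4) (fun w => R (w 0) (w 1) (w 3) (fun i => w i.succ.succ.succ.succ)) := by
    rw [hRdef]
    have h0 : DFun (r + 4) (fun w => w 0) := DFun.proj 0
    have h1 : DFun (r + 4) (fun w => w 1) := DFun.proj 1
    have h3 : DFun (r + 4) (fun w => w 3) := DFun.proj 3
    have hgg : DFun (r + 4) (fun w => g (fun i => w i.succ.succ.succ.succ)) :=
      hg.comp (h := fun i w => w i.succ.succ.succ.succ) fun i => DFun.proj _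
    have hll : DFun (r + 4) (fun w => l (fun i => w i.succ.succ.succ.succ)) :=
      hl.comp (h := fun i w => w i.succ.succ.succ.succ) fun i => DFun.proj _
    have hQQ : DFun (r + 4) (fun w => 2 ^ (g (fun i => w i.succ.succ.succ.succ) + 1)) :=
      hQ.comp (h := fun i w => w i.succ.succ.succ.succ) fun i => DFun.proj _
    have hnode : DFun (r + 4) (fun w => w 3 * 2 ^ lg (w 0) + (w 0 - 2 ^ lg (w 0))) :=
      (h3.mul (hP h0)).add (h0.sub (hP h0))
    refine Delta0.imp (Delta0.leFun (DFun.const 1) h0) (Delta0.imp (Delta0.ltFun h0 hQQ) ?_)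
    refine Delta0.and (Delta0.imp (Delta0.eqFun (DFun.lg h0) hgg) ?_)
      (Delta0.imp (Delta0.ltFun (DFun.lg h0) hgg) ?_)
    · exact Delta0.eqFun (hsqF h1 h0) (hbF hnode fun i => DFun.proj _)
    · refine Delta0.eqFun (hsqF h1 h0) (hHF ?_ hnode ?_ ?_ fun i => DFun.proj _)
      · exact hll.add ((hgg.sub (DFun.lg h0)).sub (DFun.const 1))
      · exact hsqF h1 ((DFun.const 2).mul h0)
      · exact hsqF h1 (((DFun.const 2).mul h0).add (DFun.const 1))
  -- the graph
  refine DFun.ofGraph (b := fun w => lp (N fun i => w i.succ) K) ?_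
    (fun w => TreeBlk_le (fun s => hbb s _) (fun j s x y => hHb _ s x y _) _ _) ?_
  · exact DFun.powConst ((DFun.lg hN.weak).add (DFun.const 2)) K
  have h1 : Delta0 (r + 1 + 1) (fun w => ∃ a, a ≤ ((N (fun i => w i.succ.succ) + 2) ^ C + 2) ^ C' ∧
      (sq a 1 = w 0 ∧ ∀ m, m ≤ 2 ^ (g (fun i => w i.succ.succ) + 1) →
        R m a (w 1) (fun i => w i.succ.succ))) := by
    refine Delta0.bexFun (b := fun w => ((N (fun i => w i.succ.succ) + 2) ^ C + 2) ^ C')
      (P := fun a w => sq a 1 = w 0 ∧ ∀ m, m ≤ 2 ^ (g (fun i => w i.succ.succ) + 1) →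
        R m a (w 1) (fun i => w i.succ.succ)) ?_ ?_
    · exact DFun.powConst ((DFun.powConst (hN.weak.weak.add (DFun.const 2)) C).add
        (DFun.const 2)) C'
    · refine Delta0.and (Delta0.eqFun (hsqF (DFun.proj 0) (DFun.const 1)) (DFun.proj 1)) ?_
      exact Delta0.ballFun (n := r + 3)
        (b := fun w => 2 ^ (g (fun i => w i.succ.succ.succ) + 1))
        (P := fun m w => R m (w 0) (w 2) (fun i => w i.succ.succ.succ)) hQ.weak.weak.weak hR
  refine h1.of_iff fun w => ?_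
  show w 0 = tr (fun s => b s (fun i => w i.succ.succ))
      (fun j s x y => H (l (fun i => w i.succ.succ) + j) s x y (fun i => w i.succ.succ))
      (g (fun i => w i.succ.succ)) (w 1) ↔ _
  generalize (fun i : Fin r => w i.succ.succ) = v
  generalize w 1 = s
  generalize w 0 = y
  clear h1 hR
  obtain ⟨leaf, hleaf⟩ : ∃ leaf : ℕ → ℕ, leaf = fun s => b s v := ⟨_, rfl⟩
  obtain ⟨op, hop⟩ : ∃ op : ℕ → ℕ → ℕ → ℕ → ℕ, op = fun j s x y => H (l v + j) s x y v :=
    ⟨_, rfl⟩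
  rw [← hleaf, ← hop]
  have hle : ∀ m, TreeBlk_y leaf op (g v) s m ≤ lp (N v) K := by
    intro m
    refine TreeBlk_le ?_ ?_ _ _
    · intro s
      rw [hleaf]
      exact hbb s v
    · intro j s x y
      rw [hop]
      exact hHb _ s x y v
  constructor
  · intro hy
    have hprod : ∏ m ∈ range (2 ^ (g v + 1)), (TreeBlk_y leaf op (g v) s m + 2) ≤
        (N v + 2) ^ C := by
      refine le_trans ?_ (hgN v)
      have h2 := prod_le_pow_card (range (2 ^ (g v + 1)))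
        (fun m => TreeBlk_y leaf op (g v) s m + 2) (lp (N v) K + 2)
        (fun m _ => Nat.add_le_add_right (hle m) 2)
      rwa [card_range] at h2
    obtain ⟨a, ha, hav⟩ := hcode _ _ _ hprod
    refine ⟨a, ha, ?_, fun m _ => ?_⟩
    · rw [hav 1 (Nat.one_lt_two_pow (by omega)), TreeBlk_root, hy]
    · rw [hRdef]
      intro hm hmQ
      have h3 := lg_pow_ge m hm
      have h4 := lt_two_pow_lg m
      refine ⟨fun h5 => ?_, fun h5 => ?_⟩
      · rw [hav m hmQ, TreeBlk_leaf leaf op (g v) s m h5, hleaf]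
      · have h6 : 2 ^ (lg m + 1) ≤ 2 ^ g v := Nat.pow_le_pow_right (by norm_num) h5
        have h7 : 2 ^ (g v + 1) = 2 ^ g v * 2 := pow_succ _ _
        rw [hav m hmQ, hav (2 * m) (by omega), hav (2 * m + 1) (by omega),
          TreeBlk_node leaf op (g v) s m hm h5, hop]
  · rintro ⟨a, -, ha1, haR⟩
    rw [hRdef] at haR
    have hlt : ∀ m, lg m ≤ g v → m < 2 ^ (g v + 1) := by
      intro m hm
      exact (lt_two_pow_lg m).trans_le (Nat.pow_le_pow_right (by norm_num) (by omega))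
    have h2 := TreeBlk_unique leaf op (g v) s (fun m => sq a m)
      (by
        intro m hm hmg
        rw [hleaf]
        exact (haR m (hlt m hmg.le).le hm (hlt m hmg.le)).1 hmg)
      (by
        intro m hm hmg
        rw [hop]
        exact (haR m (hlt m hmg.le).le hm (hlt m hmg.le)).2 hmg)
      (g v) 1 le_rfl (by simp [lg]) (by simp [lg])
    rw [← ha1, ← TreeBlk_root leaf op (g v) s]
    exact h2

end Pool.Agent.ECD
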